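import Mathlib

/-!
Common definitions for MP_aa9ae4_nt.
-/

namespace Pool.Agent.Lib.MP_aa9ae4_nt

open Finset

/-- `zsum s N = ∑_{1 ≤ n ≤ N} n^{-s}` -/
noncomputable def zsum (s : ℂ) (N : ℕ) : ℂ := ∑ n ∈ Icc 1 N, (n : ℂ) ^ (-s)

/-- the Euler factor product `∏_{y < p ≤ z} (1 - p^{-1-iu})` -/
noncomputable def eul (y z : ℕ) (u : ℝ) : ℂ :=
  ∏ p ∈ (Ioc y z).filter Nat.Prime, (1 - (p : ℂ) ^ (-(1 + u * Complex.I)))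

/-- the prime sum `∑_{y < p ≤ z} p^{-1-iu}` -/
noncomputable def psum (y z : ℕ) (u : ℝ) : ℂ :=
  ∑ p ∈ (Ioc y z).filter Nat.Prime, (p : ℂ) ^ (-(1 + u * Complex.I))

end Pool.Agent.Lib.MP_aa9ae4_nt
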