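import Mathlib
import Pool.Agent.Lib.MP_aa9ae4_nt.Defs

namespace Pool.Agent.Lib.MP_aa9ae4_nt

open Finset MeasureTheory Filter Topology
open Complex (I)

/-- `∑_{p ≤ n} log p / p` -/
noncomputable def mertensA (n : ℕ) : ℝ := ∑ p ∈ (Icc 1 n).filter Nat.Prime, Real.log p / p

/-- `∑_{p ≤ n} 1 / p` -/
noncomputable def mertensS (n : ℕ) : ℝ := ∑ p ∈ (Icc 1 n).filter Nat.Prime, (1 : ℝ) / p

lemma mertens_theta (n : ℕ) :
    ∑ p ∈ (Icc 1 n).filter Nat.Prime, Real.log p ≤ Real.log 4 * n := by
  have h := Chebyshev.theta_le_log4_mul_x (x := (n : ℝ)) (Nat.cast_nonneg n)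
  rw [Chebyshev.theta, Nat.floor_natCast] at h
  have h2 : (Icc 1 n).filter Nat.Prime = (Ioc 0 n).filter Nat.Prime := by
    ext p
    simp only [Finset.mem_filter, Finset.mem_Icc, Finset.mem_Ioc]
    constructor
    · rintro ⟨⟨h1, h2⟩, h3⟩; exact ⟨⟨by omega, h2⟩, h3⟩
    · rintro ⟨⟨h1, h2⟩, h3⟩; exact ⟨⟨by omega, h2⟩, h3⟩
  rw [h2]
  exact h

lemma mertens_factorial (n : ℕ) :
    ∑ p ∈ (Icc 1 n).filter Nat.Prime, ((n / p : ℕ) : ℝ) * Real.log p ≤
      Real.log (Nat.factorial n) := by
  rw [Real.log_nat_eq_sum_factorization, Finsupp.sum]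
  have h1 : ∀ p ∈ (Icc 1 n).filter Nat.Prime,
      n / p ≤ (Nat.factorial n).factorization p := by
    intro p hp
    simp only [Finset.mem_filter, Finset.mem_Icc] at hp
    have hb : Nat.log p n < Nat.log p n + 1 := Nat.lt_succ_self _
    rw [Nat.factorization_factorial hp.2 hb]
    have h1 : 1 ≤ Nat.log p n := by
      rw [Nat.one_le_iff_ne_zero]
      intro h0
      rw [Nat.log_eq_zero_iff] at h0
      rcases h0 with h0 | h0
      · omega
      · have := hp.2.two_le
        omega
    have hmem : 1 ∈ Finset.Ico 1 (Nat.log p n + 1) := by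
      rw [Finset.mem_Ico]; omega
    have h2 := Finset.single_le_sum (f := fun i => n / p ^ i) (fun i _ => Nat.zero_le _) hmem
    simpa using h2
  have hlog : ∀ p : ℕ, 0 ≤ Real.log p := fun p => Real.log_natCast_nonneg p
  calc ∑ p ∈ (Icc 1 n).filter Nat.Prime, ((n / p : ℕ) : ℝ) * Real.log p
      ≤ ∑ p ∈ (Icc 1 n).filter Nat.Prime,
          ((Nat.factorial n).factorization p : ℝ) * Real.log p := by
        refine Finset.sum_le_sum fun p hp => ?_
        exact mul_le_mul_of_nonneg_right (by exact_mod_cast h1 p hp) (hlog p)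
    _ ≤ ∑ p ∈ (Nat.factorial n).factorization.support,
          ((Nat.factorial n).factorization p : ℝ) * Real.log p := by
        refine Finset.sum_le_sum_of_subset_of_nonneg ?_ ?_
        · intro p hp
          have h3 := h1 p hp
          simp only [Finset.mem_filter, Finset.mem_Icc] at hp
          have h4 : 1 ≤ n / p := Nat.div_pos hp.1.2 hp.2.pos
          rw [Finsupp.mem_support_iff]
          omega
        · intro p _ _
          exact mul_nonneg (Nat.cast_nonneg _) (hlog p)

lemma mertensA_le (n : ℕ) (hn : 1 ≤ n) : mertensA n ≤ Real.log n + Real.log 4 := by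
  have hn0 : (0 : ℝ) < n := by exact_mod_cast hn
  have h1 : (n : ℝ) * mertensA n ≤ ∑ p ∈ (Icc 1 n).filter Nat.Prime,
      (((n / p : ℕ) : ℝ) * Real.log p + Real.log p) := by
    rw [mertensA, Finset.mul_sum]
    refine Finset.sum_le_sum fun p hp => ?_
    simp only [Finset.mem_filter, Finset.mem_Icc] at hp
    have hp0 : (0 : ℝ) < p := by exact_mod_cast hp.2.pos
    have h2 : (n : ℝ) / p ≤ ((n / p : ℕ) : ℝ) + 1 := by
      have h3 := Nat.lt_floor_add_one ((n : ℝ) / p)
      rw [Nat.floor_div_eq_div] at h3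
      exact h3.le
    have h4 := mul_le_mul_of_nonneg_right h2 (Real.log_natCast_nonneg p)
    calc (n : ℝ) * (Real.log p / p) = (n : ℝ) / p * Real.log p := by ring
      _ ≤ (((n / p : ℕ) : ℝ) + 1) * Real.log p := h4
      _ = ((n / p : ℕ) : ℝ) * Real.log p + Real.log p := by ring
  rw [Finset.sum_add_distrib] at h1
  have h2 := mertens_factorial n
  have h3 := mertens_theta n
  have h4 : Real.log (Nat.factorial n) ≤ n * Real.log n := by
    have h5 : ((Nat.factorial n : ℕ) : ℝ) ≤ (n : ℝ) ^ n := by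
      exact_mod_cast Nat.factorial_le_pow n
    calc Real.log (Nat.factorial n) ≤ Real.log ((n : ℝ) ^ n) :=
          Real.log_le_log (by exact_mod_cast Nat.factorial_pos n) h5
      _ = n * Real.log n := by rw [Real.log_pow]
  have h5 : (n : ℝ) * mertensA n ≤ n * (Real.log n + Real.log 4) := by nlinarith
  exact le_of_mul_le_mul_left h5 hn0

lemma mertens_step (x : ℕ) (hx : 2 ≤ x) :
    mertensS (x + 1) - mertensA (x + 1) / Real.log (x + 1 : ℕ) =
      mertensS x - mertensA x / Real.log (x + 1 : ℕ) := by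
  have h1 : Icc 1 (x + 1) = insert (x + 1) (Icc 1 x) := by
    ext k
    simp only [Finset.mem_Icc, Finset.mem_insert]
    omega
  have hlog : Real.log ((x + 1 : ℕ) : ℝ) ≠ 0 := by
    apply ne_of_gt
    apply Real.log_pos
    push_cast
    have : (2 : ℝ) ≤ x := by exact_mod_cast hx
    linarith
  rw [mertensS, mertensA, mertensS, mertensA, h1, Finset.filter_insert]
  by_cases hp : Nat.Prime (x + 1)
  · rw [if_pos hp, Finset.sum_insert (by simp), Finset.sum_insert (by simp)]
    field_simp
    ring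
  · rw [if_neg hp]

theorem mertens_main (x : ℕ) (hx : 2 ≤ x) :
    mertensS x - mertensA x / Real.log x ≤
      Real.log (Real.log x) - Real.log (Real.log 2) +
        Real.log 4 * (1 / Real.log 2 - 1 / Real.log x) := by
  induction x, hx using Nat.le_induction with
  | base =>
    have h1 : (Icc 1 2).filter Nat.Prime = {2} := by decide
    have h2 : Real.log 2 ≠ 0 := (Real.log_pos (by norm_num)).ne'
    rw [mertensS, mertensA, h1]
    simp only [Finset.sum_singleton, Nat.cast_ofNat, sub_self, mul_zero, add_zero]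
    apply le_of_eq
    field_simp
    ring
  | succ x hx ih =>
    have hx2 : (2 : ℝ) ≤ x := by exact_mod_cast hx
    have hl : 0 < Real.log x := Real.log_pos (by linarith)
    have hl1 : 0 < Real.log ((x + 1 : ℕ) : ℝ) := Real.log_pos (by push_cast; linarith)
    have hmono : Real.log x ≤ Real.log ((x + 1 : ℕ) : ℝ) :=
      Real.log_le_log (by linarith) (by push_cast; linarith)
    rw [mertens_step x hx]
    have hA := mertensA_le x (by omega)
    have hd : 0 ≤ 1 / Real.log x - 1 / Real.log ((x + 1 : ℕ) : ℝ) := by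
      rw [sub_nonneg]
      exact one_div_le_one_div_of_le hl hmono
    have h1 : mertensA x * (1 / Real.log x - 1 / Real.log ((x + 1 : ℕ) : ℝ)) ≤
        (Real.log x + Real.log 4) * (1 / Real.log x - 1 / Real.log ((x + 1 : ℕ) : ℝ)) :=
      mul_le_mul_of_nonneg_right hA hd
    have h2 : 1 - Real.log x / Real.log ((x + 1 : ℕ) : ℝ) ≤
        Real.log (Real.log ((x + 1 : ℕ) : ℝ)) - Real.log (Real.log x) := by
      have h3 := Real.one_sub_inv_le_log_of_pos (div_pos hl1 hl)
      rw [Real.log_div hl1.ne' hl.ne', inv_div] at h3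
      exact h3
    have h3 : Real.log x * (1 / Real.log x - 1 / Real.log ((x + 1 : ℕ) : ℝ)) =
        1 - Real.log x / Real.log ((x + 1 : ℕ) : ℝ) := by
      field_simp
    have h4 : mertensS x - mertensA x / Real.log ((x + 1 : ℕ) : ℝ) =
        (mertensS x - mertensA x / Real.log x) +
          mertensA x * (1 / Real.log x - 1 / Real.log ((x + 1 : ℕ) : ℝ)) := by ring
    rw [h4]
    nlinarith [h1, h2, h3, ih]

theorem sum_inv_primes_le : ∃ C : ℝ, 0 < C ∧ ∀ x : ℕ, 2 ≤ x →
    ∑ p ∈ (Icc 1 x).filter Nat.Prime, (1 : ℝ) / p ≤ Real.log (Real.log x + 1) + C := by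
  have hl2 : 0 < Real.log 2 := Real.log_pos (by norm_num)
  have hl4 : 0 < Real.log 4 := Real.log_pos (by norm_num)
  refine ⟨1 + |Real.log (Real.log 2)| + Real.log 4 / Real.log 2 + Real.log 4 / Real.log 2,
    by positivity, fun x hx => ?_⟩
  have h := mertens_main x hx
  have hx2 : (2 : ℝ) ≤ x := by exact_mod_cast hx
  have hl : 0 < Real.log x := Real.log_pos (by linarith)
  have hA := mertensA_le x (by omega)
  have hmono : Real.log 2 ≤ Real.log x := Real.log_le_log (by norm_num) hx2
  have h1 : mertensA x / Real.log x ≤ 1 + Real.log 4 / Real.log 2 := by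
    calc mertensA x / Real.log x ≤ (Real.log x + Real.log 4) / Real.log x := by gcongr
      _ = 1 + Real.log 4 / Real.log x := by field_simp
      _ ≤ 1 + Real.log 4 / Real.log 2 := by gcongr
  have h2 : Real.log (Real.log x) ≤ Real.log (Real.log x + 1) :=
    Real.log_le_log hl (by linarith)
  have h3 : Real.log 4 * (1 / Real.log 2 - 1 / Real.log x) ≤ Real.log 4 / Real.log 2 := by
    have : 0 ≤ Real.log 4 * (1 / Real.log x) := by positivity
    calc Real.log 4 * (1 / Real.log 2 - 1 / Real.log x) =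
        Real.log 4 / Real.log 2 - Real.log 4 * (1 / Real.log x) := by ring
      _ ≤ _ := by linarith
  have h4 : - Real.log (Real.log 2) ≤ |Real.log (Real.log 2)| := neg_le_abs _
  change mertensS x ≤ _
  linarith

end Pool.Agent.Lib.MP_aa9ae4_nt
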