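import Mathlib
import Pool.Agent.Lib.MP_aa9ae4_nt.Defs

namespace Pool.Agent.Lib.MP_aa9ae4_nt

open Finset MeasureTheory Filter Topology
open Complex (I)

/-- the truncated Dirichlet polynomial of the Euler product -/
noncomputable def moll (z D : ℕ) (u : ℝ) : ℂ :=
  ∑ d ∈ ((primorial z).divisors.filter (· ≤ D)),
    (ArithmeticFunction.moebius d : ℂ) * (d : ℂ) ^ (-(1 + u * I))

/-- the divisors which enter the coefficient of `k` -/
noncomputable def expandDiv (z D N k : ℕ) : Finset ℕ :=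
  k.divisors.filter (fun d => d ∣ primorial z ∧ d ≤ D ∧ k / d ≤ N)

/-- the coefficient of `k` -/
noncomputable def expandCoeff (z D N k : ℕ) : ℂ :=
  ∑ d ∈ expandDiv z D N k, (ArithmeticFunction.moebius d : ℂ)

lemma expand_sum_moebius (k : ℕ) (_hk : k ≠ 0) :
    ∑ d ∈ k.divisors, (ArithmeticFunction.moebius d : ℂ) = if k = 1 then 1 else 0 := by
  have h1 : ∑ d ∈ k.divisors, ArithmeticFunction.moebius d = if k = 1 then 1 else 0 := by
    rw [← ArithmeticFunction.coe_mul_zeta_apply, ArithmeticFunction.moebius_mul_coe_zeta,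
      ArithmeticFunction.one_apply]
  have h2 := congrArg (fun n : ℤ => (n : ℂ)) h1
  simp only [Int.cast_sum] at h2
  rw [h2]
  split_ifs <;> simp

lemma expand_coeff_small (z D N k : ℕ) (hk : k ≠ 0) (hkD : k ≤ D) (hDN : D ≤ N) :
    expandCoeff z D N k = if Nat.gcd k (primorial z) = 1 then 1 else 0 := by
  have hP : primorial z ≠ 0 := (primorial_pos z).ne'
  have h1 : expandDiv z D N k = (Nat.gcd k (primorial z)).divisors := by
    ext d
    simp only [expandDiv, Finset.mem_filter, Nat.mem_divisors, Nat.dvd_gcd_iff, ne_eq,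
      Nat.gcd_eq_zero_iff, not_and]
    constructor
    · rintro ⟨⟨h1, h2⟩, h3, h4, h5⟩
      exact ⟨⟨h1, h3⟩, fun h => absurd h hk⟩
    · rintro ⟨⟨h1, h2⟩, h3⟩
      have h4 : d ≤ k := Nat.le_of_dvd (Nat.pos_of_ne_zero hk) h1
      exact ⟨⟨h1, hk⟩, h2, by omega, (Nat.div_le_self k d).trans (by omega)⟩
  rw [expandCoeff, h1, expand_sum_moebius _ (fun h => hk (Nat.gcd_eq_zero_iff.mp h).1)]

lemma expand_prod (z D N : ℕ) (s : ℂ) :
    (∑ n ∈ Icc 1 N, (n : ℂ) ^ (-s)) * (∑ d ∈ ((primorial z).divisors.filter (· ≤ D)),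
      (ArithmeticFunction.moebius d : ℂ) * (d : ℂ) ^ (-s)) =
    ∑ k ∈ Icc 1 (N * D), expandCoeff z D N k * (k : ℂ) ^ (-s) := by
  rw [Finset.sum_mul_sum]
  simp only [expandCoeff, Finset.sum_mul]
  rw [Finset.sum_sigma', Finset.sum_sigma']
  refine Finset.sum_nbij' (fun x => ⟨x.1 * x.2, x.2⟩) (fun x => ⟨x.1 / x.2, x.2⟩) ?_ ?_ ?_ ?_ ?_
  · rintro ⟨n, d⟩ hx
    simp only [Finset.mem_sigma, Finset.mem_Icc, Finset.mem_filter, Nat.mem_divisors] at hx
    obtain ⟨⟨h1, h2⟩, ⟨h3, h4⟩, h5⟩ := hx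
    have hd : 0 < d := Nat.pos_of_dvd_of_pos h3 (primorial_pos z)
    simp only [Finset.mem_sigma, Finset.mem_Icc, expandDiv, Finset.mem_filter, Nat.mem_divisors]
    refine ⟨⟨Nat.mul_pos h1 hd, Nat.mul_le_mul h2 h5⟩, ⟨Dvd.intro_left n rfl,
      (Nat.mul_pos h1 hd).ne'⟩, h3, h5, ?_⟩
    rw [Nat.mul_div_cancel _ hd]
    exact h2
  · rintro ⟨k, d⟩ hx
    simp only [Finset.mem_sigma, Finset.mem_Icc, expandDiv, Finset.mem_filter,
      Nat.mem_divisors] at hx
    obtain ⟨⟨h1, h2⟩, ⟨h3, h4⟩, h5, h6, h7⟩ := hx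
    have hd : 0 < d := Nat.pos_of_dvd_of_pos h5 (primorial_pos z)
    simp only [Finset.mem_sigma, Finset.mem_Icc, Finset.mem_filter, Nat.mem_divisors]
    exact ⟨⟨Nat.div_pos (Nat.le_of_dvd h1 h3) hd, h7⟩, ⟨h5, (primorial_pos z).ne'⟩, h6⟩
  · rintro ⟨n, d⟩ hx
    simp only [Finset.mem_sigma, Finset.mem_Icc, Finset.mem_filter, Nat.mem_divisors] at hx
    have hd : 0 < d := Nat.pos_of_dvd_of_pos hx.2.1.1 (primorial_pos z)
    simp [Nat.mul_div_cancel _ hd]
  · rintro ⟨k, d⟩ hx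
    simp only [Finset.mem_sigma, Finset.mem_Icc, expandDiv, Finset.mem_filter,
      Nat.mem_divisors] at hx
    simp [Nat.div_mul_cancel hx.2.1.1]
  · rintro ⟨n, d⟩ _
    simp only
    rw [Nat.cast_mul, Complex.natCast_mul_natCast_cpow]
    ring

theorem mollified_expansion (z D N : ℕ) (hz : 1 ≤ z) (hzD : z ≤ D) (hDN : D ≤ N) :
    ∃ c : ℕ → ℂ, (∀ k, ‖c k‖ ≤ (Nat.divisors k).card) ∧
      (∀ k, z < k → k ≤ D → ‖c k‖ ≤ 1) ∧
      (∀ k, z < k → k ≤ D → c k ≠ 0 → ∀ p : ℕ, p.Prime → p ∣ k → z < p) ∧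
      ∀ u : ℝ, zsum (1 + u * I) N * moll z D u =
        1 + ∑ k ∈ Ioc z (N * D), c k * (k : ℂ) ^ (-(1 + u * I)) := by
  have hprim : ∀ p : ℕ, p.Prime → p ≤ z → p ∣ primorial z := by
    intro p hp hpz
    unfold primorial
    exact Finset.dvd_prod_of_mem _ (by simp [hp]; omega)
  refine ⟨expandCoeff z D N, ?_, ?_, ?_, ?_⟩
  · intro k
    calc ‖expandCoeff z D N k‖ ≤ ∑ d ∈ expandDiv z D N k, ‖(ArithmeticFunction.moebius d : ℂ)‖ :=
          norm_sum_le _ _
      _ ≤ ∑ d ∈ expandDiv z D N k, (1 : ℝ) := by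
          refine Finset.sum_le_sum fun d _ => ?_
          have h1 : |ArithmeticFunction.moebius d| ≤ 1 := ArithmeticFunction.abs_moebius_le_one
          rw [Complex.norm_intCast]
          exact_mod_cast h1
      _ = ((expandDiv z D N k).card : ℝ) := by simp
      _ ≤ (Nat.divisors k).card := by
          exact_mod_cast Finset.card_le_card (Finset.filter_subset _ _)
  · intro k hk hkD
    rw [expand_coeff_small z D N k (by omega) hkD hDN]
    split_ifs <;> simp
  · intro k hk hkD hc p hp hpk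
    rw [expand_coeff_small z D N k (by omega) hkD hDN] at hc
    by_contra hcon
    have h1 : Nat.gcd k (primorial z) = 1 := by
      by_contra h
      simp [h] at hc
    have h2 : p ∣ Nat.gcd k (primorial z) := Nat.dvd_gcd hpk (hprim p hp (by omega))
    rw [h1] at h2
    exact hp.one_lt.ne' (Nat.dvd_one.mp h2)
  · intro u
    rw [zsum, moll, expand_prod]
    have hzND : z ≤ N * D := by nlinarith
    have hsplit : Icc 1 (N * D) = insert 1 (Ioc 1 z ∪ Ioc z (N * D)) := by
      ext k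
      simp only [Finset.mem_Icc, Finset.mem_insert, Finset.mem_union, Finset.mem_Ioc]
      omega
    rw [hsplit, Finset.sum_insert (by simp; omega), Finset.sum_union (by
      rw [Finset.disjoint_left]
      intro k
      simp only [Finset.mem_Ioc]
      omega)]
    have h1 : expandCoeff z D N 1 = 1 := by
      rw [expand_coeff_small z D N 1 one_ne_zero (by omega) hDN]
      simp
    have h2 : ∑ k ∈ Ioc 1 z, expandCoeff z D N k * (k : ℂ) ^ (-(1 + u * I)) = 0 := by
      refine Finset.sum_eq_zero fun k hk => ?_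
      rw [Finset.mem_Ioc] at hk
      rw [expand_coeff_small z D N k (by omega) (by omega) hDN]
      have h3 : Nat.gcd k (primorial z) ≠ 1 := by
        intro h
        have hp := Nat.minFac_prime (n := k) (by omega)
        have h4 : k.minFac ∣ Nat.gcd k (primorial z) :=
          Nat.dvd_gcd (Nat.minFac_dvd k) (hprim _ hp
            ((Nat.minFac_le (by omega)).trans hk.2))
        rw [h] at h4
        exact hp.one_lt.ne' (Nat.dvd_one.mp h4)
      simp [h3]
    rw [h1, h2]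
    simp

end Pool.Agent.Lib.MP_aa9ae4_nt
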