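import Mathlib
import Pool.Agent.Lib.MP_aa9ae4_nt.Defs
import Pool.Agent.Lib.MP_aa9ae4_nt.Mertens
import Pool.Agent.Lib.MP_aa9ae4_nt.Expand

namespace Pool.Agent.Lib.MP_aa9ae4_nt

open Finset MeasureTheory Filter Topology
open Complex (I)

/-- the arithmetic function `n ↦ n^{-1-iu}` -/
private noncomputable def rankinF (u : ℝ) : ArithmeticFunction ℂ where
  toFun n := (n : ℂ) ^ (-(1 + u * I))
  map_zero' := by
    rw [Nat.cast_zero, Complex.zero_cpow]
    intro h
    have := congrArg Complex.re h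
    simp at this

private theorem rankinF_mult (u : ℝ) : (rankinF u).IsMultiplicative := by
  refine ArithmeticFunction.IsMultiplicative.iff_ne_zero.mpr ⟨by simp [rankinF], ?_⟩
  intro m n _ _ _
  change ((m * n : ℕ) : ℂ) ^ (-(1 + u * I)) = _
  rw [Nat.cast_mul, Complex.natCast_mul_natCast_cpow]
  rfl

/-- the arithmetic function `n ↦ n^{σ-1}` (zero at `0`) -/
private noncomputable def rankinG (σ : ℝ) : ArithmeticFunction ℝ where
  toFun n := if n = 0 then 0 else (n : ℝ) ^ (σ - 1)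
  map_zero' := by simp

private theorem rankinG_apply (σ : ℝ) {n : ℕ} (hn : n ≠ 0) :
    rankinG σ n = (n : ℝ) ^ (σ - 1) := if_neg hn

private theorem rankinG_mult (σ : ℝ) : (rankinG σ).IsMultiplicative := by
  refine ArithmeticFunction.IsMultiplicative.iff_ne_zero.mpr ⟨?_, ?_⟩
  · rw [rankinG_apply _ one_ne_zero]
    simp
  · intro m n hm hn _
    rw [rankinG_apply _ hm, rankinG_apply _ hn, rankinG_apply _ (mul_ne_zero hm hn), Nat.cast_mul,
      Real.mul_rpow (Nat.cast_nonneg _) (Nat.cast_nonneg _)]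

private theorem rankin_primes (z : ℕ) :
    (Ioc 0 z).filter Nat.Prime = (primorial z).primeFactors := by
  ext p
  rw [Nat.mem_primeFactors, mem_filter, mem_Ioc]
  constructor
  · rintro ⟨⟨_, h2⟩, h3⟩
    exact ⟨h3, h3.dvd_primorial_iff.mpr h2, primorial_ne_zero z⟩
  · rintro ⟨h1, h2, _⟩
    exact ⟨⟨h1.pos, h1.dvd_primorial_iff.mp h2⟩, h1⟩

private theorem rankin_norm (u : ℝ) {n : ℕ} (hn : n ≠ 0) :
    ‖(n : ℂ) ^ (-(1 + u * I))‖ = 1 / n := by
  rw [Complex.norm_natCast_cpow_of_pos (Nat.pos_of_ne_zero hn)]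
  simp [Real.rpow_neg_one]

private theorem rankin_diff (z D : ℕ) (u : ℝ) (σ : ℝ) (hσ : 0 ≤ σ) (hD : 0 < D) :
    ‖eul 0 z u - moll z D u‖ ≤
      (D : ℝ) ^ (-σ) * ∏ p ∈ (Ioc 0 z).filter Nat.Prime, (1 + (p : ℝ) ^ (σ - 1)) := by
  have h1 : eul 0 z u = ∑ d ∈ (primorial z).divisors,
      (ArithmeticFunction.moebius d : ℂ) * (d : ℂ) ^ (-(1 + u * I)) := by
    rw [eul, rankin_primes]
    exact (rankinF_mult u).prodPrimeFactors_one_sub_of_squarefree _ (squarefree_primorial z)
  have h2 : ∏ p ∈ (Ioc 0 z).filter Nat.Prime, (1 + (p : ℝ) ^ (σ - 1)) =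
      ∑ d ∈ (primorial z).divisors, (d : ℝ) ^ (σ - 1) := by
    rw [rankin_primes]
    have h3 := (rankinG_mult σ).prodPrimeFactors_one_add_of_squarefree (squarefree_primorial z)
    rw [Finset.prod_congr rfl (fun p hp => by
      rw [← rankinG_apply σ (Nat.prime_of_mem_primeFactors hp).ne_zero]), h3]
    exact Finset.sum_congr rfl fun d hd => rankinG_apply σ (Nat.pos_of_mem_divisors hd).ne'
  rw [h1, h2, moll, ← Finset.sum_filter_add_sum_filter_not (primorial z).divisors (· ≤ D),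
    add_sub_cancel_left]
  refine (norm_sum_le _ _).trans ?_
  rw [Finset.mul_sum]
  refine (Finset.sum_le_sum (g := fun d : ℕ => (D : ℝ) ^ (-σ) * (d : ℝ) ^ (σ - 1)) ?_).trans
    (Finset.sum_le_sum_of_subset_of_nonneg (Finset.filter_subset _ _)
      fun d _ _ => mul_nonneg (Real.rpow_nonneg (Nat.cast_nonneg _) _)
        (Real.rpow_nonneg (Nat.cast_nonneg _) _))
  intro d hd
  rw [Finset.mem_filter, not_le] at hd
  have hd0 : d ≠ 0 := (Nat.pos_of_mem_divisors hd.1).ne'
  rw [norm_mul, rankin_norm u hd0]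
  have hμ : ‖(ArithmeticFunction.moebius d : ℂ)‖ ≤ 1 := by
    rw [Complex.norm_intCast]
    exact_mod_cast ArithmeticFunction.abs_moebius_le_one
  have hdpos : (0 : ℝ) < d := by exact_mod_cast Nat.pos_of_ne_zero hd0
  have hDpos : (0 : ℝ) < D := by exact_mod_cast hD
  calc ‖(ArithmeticFunction.moebius d : ℂ)‖ * (1 / (d : ℝ)) ≤ 1 * (1 / d) := by gcongr
    _ = (d : ℝ) ^ (-σ) * (d : ℝ) ^ (σ - 1) := by
      rw [← Real.rpow_add hdpos, show -σ + (σ - 1) = -1 by ring, Real.rpow_neg_one]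
      simp
    _ ≤ (D : ℝ) ^ (-σ) * (d : ℝ) ^ (σ - 1) := by
      refine mul_le_mul_of_nonneg_right ?_ (by positivity)
      exact Real.rpow_le_rpow_of_nonpos hDpos (by exact_mod_cast hd.2.le) (by linarith)

private theorem rankin_prod (C : ℝ) (hC : ∀ x : ℕ, 2 ≤ x →
    ∑ p ∈ (Icc 1 x).filter Nat.Prime, (1 : ℝ) / p ≤ Real.log (Real.log x + 1) + C) (z : ℕ)
    (hz : 2 ≤ z) : ∏ p ∈ (Ioc 0 z).filter Nat.Prime, (1 + (p : ℝ) ^ ((Real.log z)⁻¹ - 1)) ≤
      Real.exp (Real.exp 1 * (Real.log (Real.log z + 1) + C)) := by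
  have hlz : 0 < Real.log z := Real.log_pos (by exact_mod_cast hz)
  calc ∏ p ∈ (Ioc 0 z).filter Nat.Prime, (1 + (p : ℝ) ^ ((Real.log z)⁻¹ - 1))
      ≤ ∏ p ∈ (Ioc 0 z).filter Nat.Prime, Real.exp ((p : ℝ) ^ ((Real.log z)⁻¹ - 1)) := by
        refine Finset.prod_le_prod (fun p _ => by positivity) fun p _ => ?_
        rw [add_comm]
        exact Real.add_one_le_exp _
    _ = Real.exp (∑ p ∈ (Ioc 0 z).filter Nat.Prime, (p : ℝ) ^ ((Real.log z)⁻¹ - 1)) :=
        (Real.exp_sum _ _).symm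
    _ ≤ _ := by
        refine Real.exp_le_exp.mpr ?_
        have h1 := hC z hz
        have h2 : (Icc 1 z).filter Nat.Prime = (Ioc 0 z).filter Nat.Prime := by
          ext p
          simp only [mem_filter, mem_Icc, mem_Ioc]
          constructor <;> rintro ⟨⟨a, b⟩, c⟩ <;> exact ⟨⟨by omega, b⟩, c⟩
        rw [h2] at h1
        refine le_trans ?_ (mul_le_mul_of_nonneg_left h1 (Real.exp_pos 1).le)
        rw [Finset.mul_sum]
        refine Finset.sum_le_sum fun p hp => ?_
        rw [mem_filter, mem_Ioc] at hp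
        have hp0 : (0 : ℝ) < p := by exact_mod_cast hp.1.1
        rw [Real.rpow_sub hp0, Real.rpow_one, mul_one_div]
        refine div_le_div_of_nonneg_right ?_ hp0.le
        rw [Real.rpow_def_of_pos hp0]
        refine Real.exp_le_exp.mpr ?_
        rw [← div_eq_mul_inv, div_le_one hlz]
        exact Real.log_le_log hp0 (by exact_mod_cast hp.1.2)

theorem rankin_tail : ∃ U₀ : ℝ, 0 < U₀ ∧ ∀ U : ℝ, U₀ ≤ U → ∀ z D : ℕ,
    (Real.log U) ^ 100 ≤ z → (z : ℝ) ≤ (Real.log U) ^ 300 → U ^ 3 ≤ D →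
    ∀ u : ℝ, ‖eul 0 z u - moll z D u‖ ≤ (Real.log U) ^ (-3 : ℝ) := by
  obtain ⟨C, hC0, hC⟩ := sum_inv_primes_le
  have hlim := (Real.tendsto_exp_div_pow_atTop 2).eventually_ge_atTop (100 * (903 + 3 * C))
  obtain ⟨L₀, hL₀⟩ := Filter.eventually_atTop.mp hlim
  refine ⟨Real.exp (Real.exp (max L₀ 1)), Real.exp_pos _, ?_⟩
  intro U hU z D hz1 hz2 hD u
  have hU0 : 0 < U := lt_of_lt_of_le (Real.exp_pos _) hU
  have hlU : Real.exp (max L₀ 1) ≤ Real.log U := by
    rw [Real.le_log_iff_exp_le hU0]; exact hU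
  have hlU0 : 0 < Real.log U := lt_of_lt_of_le (Real.exp_pos _) hlU
  have hL : max L₀ 1 ≤ Real.log (Real.log U) := by
    rw [Real.le_log_iff_exp_le hlU0]; exact hlU
  set L := Real.log (Real.log U) with hLdef
  have hL1 : 1 ≤ L := le_trans (le_max_right _ _) hL
  have hLL : Real.exp L = Real.log U := Real.exp_log hlU0
  have hkey : 100 * (903 + 3 * C) * L ^ 2 ≤ Real.log U := by
    have h := hL₀ L (le_trans (le_max_left _ _) hL)
    rw [le_div_iff₀ (by positivity), hLL] at h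
    exact h
  -- z is large
  have hlU2 : 2 ≤ Real.log U := by
    rw [← hLL]
    have := Real.add_one_le_exp L
    linarith
  have hz2' : 2 ≤ z := by
    have h1 : (2 : ℝ) ≤ Real.log U ^ 100 := by
      calc (2 : ℝ) ≤ Real.log U := hlU2
        _ = Real.log U ^ 1 := (pow_one _).symm
        _ ≤ Real.log U ^ 100 := pow_le_pow_right₀ (by linarith) (by norm_num)
    exact_mod_cast h1.trans hz1
  have hz0 : (0 : ℝ) < z := by exact_mod_cast (by omega : 0 < z)
  have hlz : 0 < Real.log z := Real.log_pos (by exact_mod_cast hz2')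
  have hlz2 : Real.log z ≤ 300 * L := by
    have := Real.log_le_log hz0 hz2
    rw [Real.log_pow] at this
    exact_mod_cast this
  have hU3 : (0 : ℝ) < U ^ 3 := by positivity
  have hD0' : (0 : ℝ) < D := lt_of_lt_of_le hU3 hD
  have hD0 : 0 < D := by exact_mod_cast hD0'
  have hlD : 3 * Real.log U ≤ Real.log D := by
    have := Real.log_le_log hU3 hD
    rw [Real.log_pow] at this
    exact_mod_cast this
  refine (rankin_diff z D u (Real.log z)⁻¹ (inv_nonneg.mpr hlz.le) hD0).trans ?_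
  refine (mul_le_mul_of_nonneg_left (rankin_prod C hC z hz2') (by positivity)).trans ?_
  rw [Real.rpow_def_of_pos hD0', Real.rpow_def_of_pos hlU0, ← Real.exp_add, ← hLdef]
  refine Real.exp_le_exp.mpr ?_
  have h1 : Real.log (Real.log z + 1) ≤ Real.log z := by
    have := Real.log_le_sub_one_of_pos (show 0 < Real.log z + 1 by linarith)
    linarith
  have h2 : Real.exp 1 ≤ 3 := by
    have := Real.exp_one_lt_d9
    linarith
  have h3 : Real.log U / (100 * L) ≤ Real.log D * (Real.log z)⁻¹ := by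
    rw [← div_eq_mul_inv, div_le_div_iff₀ (by positivity) hlz]
    calc Real.log U * Real.log z ≤ Real.log U * (300 * L) :=
          mul_le_mul_of_nonneg_left hlz2 hlU0.le
      _ = (3 * Real.log U) * (100 * L) := by ring
      _ ≤ Real.log D * (100 * L) := mul_le_mul_of_nonneg_right hlD (by positivity)
  have h4 : (903 + 3 * C) * L ≤ Real.log U / (100 * L) := by
    rw [le_div_iff₀ (by positivity)]
    calc (903 + 3 * C) * L * (100 * L) = 100 * (903 + 3 * C) * L ^ 2 := by ring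
      _ ≤ _ := hkey
  have h5 : Real.exp 1 * (Real.log (Real.log z + 1) + C) ≤ 3 * (300 * L + C) := by
    have h6 : Real.log (Real.log z + 1) + C ≤ 300 * L + C := by linarith
    have h7 : 0 ≤ 300 * L + C := by positivity
    calc Real.exp 1 * (Real.log (Real.log z + 1) + C) ≤ Real.exp 1 * (300 * L + C) :=
          mul_le_mul_of_nonneg_left h6 (Real.exp_pos 1).le
      _ ≤ 3 * (300 * L + C) := mul_le_mul_of_nonneg_right h2 h7
  have h8 : C ≤ C * L := le_mul_of_one_le_right hC0.le hL1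
  linarith

end Pool.Agent.Lib.MP_aa9ae4_nt
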