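import Mathlib
import Pool.Agent.Lib.MP_aa9ae4_nt.Defs

namespace Pool.Agent.Lib.MP_aa9ae4_nt

open Finset MeasureTheory Filter Topology
open Complex (I)

/-- the Gaussian-weighted exponential -/
noncomputable def meanValueG (S c u : ℝ) (t : ℝ) : ℂ :=
  Complex.exp ((-(1 / S ^ 2 : ℝ) : ℂ) * (t : ℂ) ^ 2 + ((2 * c / S ^ 2 : ℝ) + (u : ℂ) * I) * (t : ℂ)
    + (-(c ^ 2 / S ^ 2 : ℝ) : ℂ))

lemma meanValue_integrable {S : ℝ} (hS : 0 < S) (c u : ℝ) :
    Integrable (meanValueG S c u) := by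
  unfold meanValueG
  apply integrable_cexp_quadratic'
  have : 0 < 1 / S ^ 2 := by positivity
  rw [Complex.neg_re, Complex.ofReal_re]
  linarith

lemma meanValue_norm_integral {S : ℝ} (hS : 0 < S) (c u : ℝ) :
    ‖∫ t : ℝ, meanValueG S c u t‖ ≤ √Real.pi * S * Real.exp (-(S ^ 2 * u ^ 2 / 4)) := by
  have h0 : 0 < 1 / S ^ 2 := by positivity
  unfold meanValueG
  rw [integral_cexp_quadratic (by rw [Complex.neg_re, Complex.ofReal_re]; linarith)]
  rw [norm_mul]
  have h1 : ((Real.pi : ℂ) / - -(1 / S ^ 2 : ℝ)) = ((Real.pi * S ^ 2 : ℝ) : ℂ) := by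
    push_cast
    field_simp
  rw [h1]
  have h2 : ‖(((Real.pi * S ^ 2 : ℝ) : ℂ)) ^ (1 / 2 : ℂ)‖ = √Real.pi * S := by
    rw [Complex.norm_cpow_eq_rpow_re_of_pos (by positivity)]
    have : (1 / 2 : ℂ).re = 1 / 2 := by norm_num
    rw [this, ← Real.sqrt_eq_rpow, Real.sqrt_mul (by positivity), Real.sqrt_sq hS.le]
  rw [h2, Complex.norm_exp]
  have h3 : (-(c ^ 2 / S ^ 2 : ℝ) - ((2 * c / S ^ 2 : ℝ) + (u : ℂ) * I) ^ 2 / (4 * -((1 / S ^ 2 : ℝ) : ℂ))) =
      ((-(S ^ 2 * u ^ 2 / 4) : ℝ) : ℂ) + ((c * u : ℝ) : ℂ) * I := by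
    have hS' : (S : ℂ) ≠ 0 := by exact_mod_cast hS.ne'
    push_cast
    field_simp
    ring_nf
    rw [show I ^ 2 = -1 from Complex.I_sq]
    ring
  rw [h3]
  rw [Complex.add_re, Complex.ofReal_re, Complex.re_ofReal_mul, Complex.I_re, mul_zero, add_zero]

lemma meanValue_log {S : ℝ} {m n : ℕ} (hm : 1 ≤ m) (hn : 1 ≤ n) (hmS : (m : ℝ) ≤ S)
    (hnS : (n : ℝ) ≤ S) :
    ((m : ℝ) - n) ^ 2 ≤ S ^ 2 * (Real.log m - Real.log n) ^ 2 := by
  have key : ∀ x y : ℝ, 0 < x → x ≤ y → y ≤ S → (y - x) ≤ S * (Real.log y - Real.log x) := by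
    intro x y hx hxy hy
    have hy0 : 0 < y := by linarith
    have h := Real.log_le_sub_one_of_pos (show 0 < x / y by positivity)
    rw [Real.log_div hx.ne' hy0.ne'] at h
    have h2 : 1 - x / y ≤ Real.log y - Real.log x := by linarith
    have h3 : y - x ≤ y * (Real.log y - Real.log x) := by
      have := mul_le_mul_of_nonneg_left h2 hy0.le
      have e : y * (1 - x / y) = y - x := by field_simp
      linarith
    have h4 : 0 ≤ Real.log y - Real.log x := by
      have := Real.log_le_log hx hxy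
      linarith
    nlinarith
  have hm' : (0 : ℝ) < m := by exact_mod_cast hm
  have hn' : (0 : ℝ) < n := by exact_mod_cast hn
  rcases le_total (m : ℝ) n with h | h
  · have h1 := key m n hm' h hnS
    have h0 : 0 ≤ (n : ℝ) - m := by linarith
    have : ((m : ℝ) - n) ^ 2 = (n - m) ^ 2 := by ring
    rw [this]
    have : S ^ 2 * (Real.log m - Real.log n) ^ 2 = (S * (Real.log n - Real.log m)) ^ 2 := by ring
    rw [this]
    exact pow_le_pow_left₀ h0 h1 2
  · have h1 := key n m hn' h hmS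
    have h0 : 0 ≤ (m : ℝ) - n := by linarith
    have : S ^ 2 * (Real.log m - Real.log n) ^ 2 = (S * (Real.log m - Real.log n)) ^ 2 := by ring
    rw [this]
    exact pow_le_pow_left₀ h0 h1 2

lemma meanValue_exp_le (k : ℕ) : Real.exp (-((k : ℝ) ^ 2 / 4)) ≤ (Real.exp (-(1 / 4))) ^ k := by
  rw [← Real.exp_nat_mul]
  apply Real.exp_le_exp.2
  have : (k : ℝ) ≤ (k : ℝ) ^ 2 := by
    rcases Nat.eq_zero_or_pos k with h | h
    · simp [h]
    · have : (1 : ℝ) ≤ k := by exact_mod_cast h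
      nlinarith
  linarith

lemma meanValue_sum_le (N m : ℕ) :
    ∑ n ∈ Icc 1 N, Real.exp (-(((m : ℝ) - n) ^ 2 / 4)) ≤ 2 / (1 - Real.exp (-(1 / 4))) := by
  set r := Real.exp (-(1 / 4)) with hr
  have hr0 : 0 < r := Real.exp_pos _
  have hr1 : r < 1 := by rw [hr]; exact Real.exp_lt_one_iff.2 (by norm_num)
  have h1 : ∀ n ∈ Icc 1 N, Real.exp (-(((m : ℝ) - n) ^ 2 / 4)) ≤
      (if n ≤ m then r ^ (m - n) else 0) + (if m ≤ n then r ^ (n - m) else 0) := by
    intro n _
    rcases le_total n m with h | h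
    · have h2 : ((m : ℝ) - n) = ((m - n : ℕ) : ℝ) := by push_cast [Nat.cast_sub h]; ring
      rw [h2, if_pos h]
      have h3 := meanValue_exp_le (m - n)
      have h4 : (0 : ℝ) ≤ if m ≤ n then r ^ (n - m) else 0 := by
        split_ifs <;> positivity
      linarith
    · have h2 : ((m : ℝ) - n) ^ 2 = ((n - m : ℕ) : ℝ) ^ 2 := by push_cast [Nat.cast_sub h]; ring
      rw [h2, if_pos h]
      have h3 := meanValue_exp_le (n - m)
      have h4 : (0 : ℝ) ≤ if n ≤ m then r ^ (m - n) else 0 := by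
        split_ifs <;> positivity
      linarith
  have geo : ∀ s : Finset ℕ, ∑ k ∈ s, r ^ k ≤ 1 / (1 - r) := by
    intro s
    have hs := summable_geometric_of_lt_one hr0.le hr1
    have := hs.sum_le_tsum s (fun k _ => by positivity)
    rw [tsum_geometric_of_lt_one hr0.le hr1] at this
    simpa using this
  have hA : ∑ n ∈ Icc 1 N, (if n ≤ m then r ^ (m - n) else 0) ≤ 1 / (1 - r) := by
    rw [← Finset.sum_filter]
    rw [← Finset.sum_image (f := fun k => r ^ k) (g := fun n => m - n)]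
    · exact geo _
    · intro x hx y hy hxy
      simp only [coe_filter, Set.mem_ofPred_eq] at hx hy
      simp only at hxy
      omega
  have hB : ∑ n ∈ Icc 1 N, (if m ≤ n then r ^ (n - m) else 0) ≤ 1 / (1 - r) := by
    rw [← Finset.sum_filter]
    rw [← Finset.sum_image (f := fun k => r ^ k) (g := fun n => n - m)]
    · exact geo _
    · intro x hx y hy hxy
      simp only [coe_filter, Set.mem_ofPred_eq] at hx hy
      simp only at hxy
      omega
  calc _ ≤ ∑ n ∈ Icc 1 N, ((if n ≤ m then r ^ (m - n) else 0) + (if m ≤ n then r ^ (n - m) else 0)) :=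
        Finset.sum_le_sum h1
    _ ≤ 1 / (1 - r) + 1 / (1 - r) := by
        rw [Finset.sum_add_distrib]; linarith
    _ = _ := by ring

theorem mean_value : ∃ C : ℝ, 0 < C ∧ ∀ (c T : ℝ), 1 ≤ T → ∀ (N : ℕ) (a : ℕ → ℂ),
    ∫ t in c..(c + T), ‖∑ n ∈ Icc 1 N, a n * (n : ℂ) ^ (-(t * I))‖ ^ 2 ≤
      C * (T + N) * ∑ n ∈ Icc 1 N, ‖a n‖ ^ 2 := by
  set C0 : ℝ := 2 / (1 - Real.exp (-(1 / 4))) with hC0
  have hC0pos : 0 < C0 := by
    have : Real.exp (-(1 / 4)) < 1 := Real.exp_lt_one_iff.2 (by norm_num)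
    have : 0 < 1 - Real.exp (-(1 / 4)) := by linarith
    positivity
  refine ⟨Real.exp 1 * (√Real.pi * C0), by positivity, ?_⟩
  intro c T hT N a
  set S : ℝ := T + N with hS
  have hN0 : (0 : ℝ) ≤ N := Nat.cast_nonneg N
  have hSpos : 0 < S := by rw [hS]; linarith
  have hNS : (N : ℝ) ≤ S := by rw [hS]; linarith
  have hTS : T ≤ S := by rw [hS]; linarith
  set P : ℝ → ℂ := fun t => ∑ n ∈ Icc 1 N, a n * (n : ℂ) ^ (-(t * I)) with hP
  have hPe : ∀ t : ℝ, P t = ∑ n ∈ Icc 1 N, a n * Complex.exp (-(t * Real.log n) * I) := by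
    intro t
    simp only [hP]
    refine Finset.sum_congr rfl fun n hn => ?_
    have hn1 : 1 ≤ n := (Finset.mem_Icc.1 hn).1
    have hn0 : (n : ℂ) ≠ 0 := by exact_mod_cast (by omega : n ≠ 0)
    rw [Complex.cpow_def_of_ne_zero hn0, Complex.natCast_log]
    congr 2
    ring
  have hPcont : Continuous P := by
    have : P = fun t : ℝ => ∑ n ∈ Icc 1 N, a n * Complex.exp (-((t : ℂ) * (Real.log n : ℝ)) * I) :=
      funext hPe
    rw [this]
    fun_prop
  -- Gaussian weight
  set w : ℝ → ℝ := fun t => Real.exp (-((t - c) / S) ^ 2) with hw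
  have hwcont : Continuous w := by
    simp only [hw]
    fun_prop
  -- expansion
  have hexp : ∀ t : ℝ, ((w t * ‖P t‖ ^ 2 : ℝ) : ℂ) =
      ∑ m ∈ Icc 1 N, ∑ n ∈ Icc 1 N, (a m * (starRingEnd ℂ) (a n)) *
        meanValueG S c (Real.log n - Real.log m) t := by
    intro t
    have h1 : ((‖P t‖ ^ 2 : ℝ) : ℂ) = P t * (starRingEnd ℂ) (P t) := by
      rw [Complex.mul_conj, Complex.normSq_eq_norm_sq]
    have h2 : ((w t * ‖P t‖ ^ 2 : ℝ) : ℂ) = (w t : ℂ) * (P t * (starRingEnd ℂ) (P t)) := by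
      rw [← h1]; push_cast; ring
    rw [h2, hPe t, map_sum, Finset.sum_mul_sum, Finset.mul_sum]
    refine Finset.sum_congr rfl fun m _ => ?_
    rw [Finset.mul_sum]
    refine Finset.sum_congr rfl fun n _ => ?_
    rw [map_mul, ← Complex.exp_conj]
    have h3 : (starRingEnd ℂ) (-((t : ℂ) * (Real.log n : ℝ)) * I) = (t : ℂ) * (Real.log n : ℝ) * I := by
      rw [map_mul, map_neg, map_mul, Complex.conj_ofReal, Complex.conj_ofReal, Complex.conj_I]
      ring
    rw [h3]
    have h4 : meanValueG S c (Real.log n - Real.log m) t =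
        (w t : ℂ) * (Complex.exp (-((t : ℂ) * (Real.log m : ℝ)) * I) *
          Complex.exp ((t : ℂ) * (Real.log n : ℝ) * I)) := by
      simp only [hw, meanValueG]
      rw [Complex.ofReal_exp, ← Complex.exp_add, ← Complex.exp_add]
      congr 1
      have hS' : (S : ℂ) ≠ 0 := by exact_mod_cast hSpos.ne'
      push_cast
      field_simp
      ring
    rw [h4]
    ring
  have hint : Integrable (fun t => w t * ‖P t‖ ^ 2) := by
    have h1 : Integrable (fun t => ((w t * ‖P t‖ ^ 2 : ℝ) : ℂ)) := by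
      simp_rw [hexp]
      apply integrable_finsetSum
      intro m _
      apply integrable_finsetSum
      intro n _
      exact (meanValue_integrable hSpos _ _).const_mul _
    have h2 := h1.re
    refine h2.congr (Filter.Eventually.of_forall fun t => ?_)
    exact Complex.ofReal_re _
  -- the whole integral
  have hmain : ∫ t, w t * ‖P t‖ ^ 2 ≤ √Real.pi * S * (C0 * ∑ n ∈ Icc 1 N, ‖a n‖ ^ 2) := by
    have hnn : 0 ≤ ∫ t, w t * ‖P t‖ ^ 2 :=
      integral_nonneg fun t => by simp only [hw]; positivity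
    have h1 : ((∫ t, w t * ‖P t‖ ^ 2 : ℝ) : ℂ) =
        ∑ m ∈ Icc 1 N, ∑ n ∈ Icc 1 N, (a m * (starRingEnd ℂ) (a n)) *
          ∫ t, meanValueG S c (Real.log n - Real.log m) t := by
      have h10 : ((∫ t, w t * ‖P t‖ ^ 2 : ℝ) : ℂ) = ∫ t, ((w t * ‖P t‖ ^ 2 : ℝ) : ℂ) :=
        integral_ofReal.symm
      rw [h10]
      simp_rw [hexp]
      rw [integral_finsetSum]
      · refine Finset.sum_congr rfl fun m _ => ?_
        rw [integral_finsetSum]
        · refine Finset.sum_congr rfl fun n _ => ?_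
          rw [integral_const_mul]
        · intro n _
          exact (meanValue_integrable hSpos _ _).const_mul _
      · intro m _
        apply integrable_finsetSum
        intro n _
        exact (meanValue_integrable hSpos _ _).const_mul _
    have h2 : ∫ t, w t * ‖P t‖ ^ 2 = ‖((∫ t, w t * ‖P t‖ ^ 2 : ℝ) : ℂ)‖ := by
      rw [Complex.norm_real, Real.norm_of_nonneg hnn]
    rw [h2, h1]
    have hE : ∀ m ∈ Icc 1 N, ∀ n ∈ Icc 1 N,
        ‖(a m * (starRingEnd ℂ) (a n)) * ∫ t, meanValueG S c (Real.log n - Real.log m) t‖ ≤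
          √Real.pi * S * ((‖a m‖ ^ 2 + ‖a n‖ ^ 2) / 2 * Real.exp (-(((m : ℝ) - n) ^ 2 / 4))) := by
      intro m hm n hn
      rw [Finset.mem_Icc] at hm hn
      have hmS : (m : ℝ) ≤ S := le_trans (by exact_mod_cast hm.2) hNS
      have hnS : (n : ℝ) ≤ S := le_trans (by exact_mod_cast hn.2) hNS
      rw [norm_mul, norm_mul, RCLike.norm_conj]
      have h3 := meanValue_norm_integral hSpos c (Real.log n - Real.log m)
      have h4 := meanValue_log hn.1 hm.1 hnS hmS
      have h5 : Real.exp (-(S ^ 2 * (Real.log n - Real.log m) ^ 2 / 4)) ≤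
          Real.exp (-(((m : ℝ) - n) ^ 2 / 4)) := by
        apply Real.exp_le_exp.2
        have : ((m : ℝ) - n) ^ 2 = ((n : ℝ) - m) ^ 2 := by ring
        rw [this]
        linarith
      have h6 : ‖a m‖ * ‖a n‖ ≤ (‖a m‖ ^ 2 + ‖a n‖ ^ 2) / 2 := by
        nlinarith [sq_nonneg (‖a m‖ - ‖a n‖)]
      calc ‖a m‖ * ‖a n‖ * ‖∫ t, meanValueG S c (Real.log n - Real.log m) t‖
          ≤ ((‖a m‖ ^ 2 + ‖a n‖ ^ 2) / 2) *
              (√Real.pi * S * Real.exp (-(((m : ℝ) - n) ^ 2 / 4))) := by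
            apply mul_le_mul h6 _ (norm_nonneg _) (by positivity)
            exact h3.trans (mul_le_mul_of_nonneg_left h5 (by positivity))
        _ = _ := by ring
    calc ‖∑ m ∈ Icc 1 N, ∑ n ∈ Icc 1 N, (a m * (starRingEnd ℂ) (a n)) *
          ∫ t, meanValueG S c (Real.log n - Real.log m) t‖
        ≤ ∑ m ∈ Icc 1 N, ∑ n ∈ Icc 1 N,
          √Real.pi * S * ((‖a m‖ ^ 2 + ‖a n‖ ^ 2) / 2 * Real.exp (-(((m : ℝ) - n) ^ 2 / 4))) := by
          refine (norm_sum_le _ _).trans (Finset.sum_le_sum fun m hm => ?_)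
          exact (norm_sum_le _ _).trans (Finset.sum_le_sum fun n hn => hE m hm n hn)
      _ = √Real.pi * S * (∑ m ∈ Icc 1 N, ∑ n ∈ Icc 1 N,
            (‖a m‖ ^ 2 + ‖a n‖ ^ 2) / 2 * Real.exp (-(((m : ℝ) - n) ^ 2 / 4))) := by
          rw [Finset.mul_sum]
          refine Finset.sum_congr rfl fun m _ => ?_
          rw [Finset.mul_sum]
      _ = √Real.pi * S * (∑ m ∈ Icc 1 N, ‖a m‖ ^ 2 *
              ∑ n ∈ Icc 1 N, Real.exp (-(((m : ℝ) - n) ^ 2 / 4))) := by
          congr 1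
          have e0 : ∀ m : ℕ, ∑ n ∈ Icc 1 N,
              (‖a m‖ ^ 2 + ‖a n‖ ^ 2) / 2 * Real.exp (-(((m : ℝ) - n) ^ 2 / 4)) =
              ∑ n ∈ Icc 1 N, ‖a m‖ ^ 2 / 2 * Real.exp (-(((m : ℝ) - n) ^ 2 / 4)) +
              ∑ n ∈ Icc 1 N, ‖a n‖ ^ 2 / 2 * Real.exp (-(((m : ℝ) - n) ^ 2 / 4)) := by
            intro m
            rw [← Finset.sum_add_distrib]
            refine Finset.sum_congr rfl fun n _ => ?_
            ring
          simp_rw [e0]
          rw [Finset.sum_add_distrib]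
          have e1 : ∑ m ∈ Icc 1 N, ∑ n ∈ Icc 1 N, ‖a n‖ ^ 2 / 2 *
              Real.exp (-(((m : ℝ) - n) ^ 2 / 4)) =
              ∑ m ∈ Icc 1 N, ∑ n ∈ Icc 1 N, ‖a m‖ ^ 2 / 2 *
                Real.exp (-(((m : ℝ) - n) ^ 2 / 4)) := by
            rw [Finset.sum_comm]
            refine Finset.sum_congr rfl fun n _ => ?_
            refine Finset.sum_congr rfl fun m _ => ?_
            rw [show ((m : ℝ) - n) ^ 2 = ((n : ℝ) - m) ^ 2 by ring]
          rw [e1, ← Finset.sum_add_distrib]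
          refine Finset.sum_congr rfl fun m _ => ?_
          rw [← Finset.mul_sum]
          ring
      _ ≤ √Real.pi * S * (∑ m ∈ Icc 1 N, ‖a m‖ ^ 2 * C0) := by
          apply mul_le_mul_of_nonneg_left _ (by positivity)
          exact Finset.sum_le_sum fun m _ =>
              mul_le_mul_of_nonneg_left (meanValue_sum_le N m) (by positivity)
      _ = _ := by
          rw [← Finset.sum_mul]
          ring
  -- majorant
  have hcc : c ≤ c + T := by linarith
  have hmaj : ∫ t in c..(c + T), ‖P t‖ ^ 2 ≤ Real.exp 1 * ∫ t, w t * ‖P t‖ ^ 2 := by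
    rw [intervalIntegral.integral_of_le hcc]
    calc ∫ t in Set.Ioc c (c + T), ‖P t‖ ^ 2
        ≤ ∫ t in Set.Ioc c (c + T), Real.exp 1 * (w t * ‖P t‖ ^ 2) := by
          apply setIntegral_mono_on
          · exact (hPcont.norm.pow 2).integrableOn_Ioc
          · exact (continuous_const.mul (hwcont.mul (hPcont.norm.pow 2))).integrableOn_Ioc
          · exact measurableSet_Ioc
          · intro t ht
            have h1 : 1 ≤ Real.exp 1 * w t := by
              simp only [hw]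
              rw [← Real.exp_add]
              apply Real.one_le_exp
              have h2 : 0 ≤ (t - c) / S := by
                apply div_nonneg _ hSpos.le
                linarith [ht.1]
              have h3 : (t - c) / S ≤ 1 := by
                rw [div_le_one hSpos]
                linarith [ht.2]
              nlinarith
            have h2 : 0 ≤ ‖P t‖ ^ 2 := by positivity
            nlinarith
      _ ≤ ∫ t, Real.exp 1 * (w t * ‖P t‖ ^ 2) := by
          apply setIntegral_le_integral (hint.const_mul _)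
          filter_upwards with t
          simp only [hw, Pi.zero_apply]
          positivity
      _ = _ := by rw [integral_const_mul]
  calc ∫ t in c..(c + T), ‖P t‖ ^ 2 ≤ Real.exp 1 * ∫ t, w t * ‖P t‖ ^ 2 := hmaj
    _ ≤ Real.exp 1 * (√Real.pi * S * (C0 * ∑ n ∈ Icc 1 N, ‖a n‖ ^ 2)) :=
        mul_le_mul_of_nonneg_left hmain (by positivity)
    _ = _ := by ring

end Pool.Agent.Lib.MP_aa9ae4_nt
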