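import Mathlib
import Pool.Agent.Lib.MP_aa9ae4_nt.Defs
import Pool.Agent.Lib.MP_aa9ae4_nt.MeanValue

namespace Pool.Agent.Lib.MP_aa9ae4_nt

open Finset MeasureTheory Filter Topology
open Complex (I)

/-- The number of tuples with a given product, all prime factors of which are large. -/
lemma rough_card_tuples {m z : ℕ} (hm : 1 ≤ m) (hz : 2 ≤ z) : ∀ n : ℕ, 1 ≤ n →
    (∀ p : ℕ, p.Prime → p ∣ n → z < p) → ∀ T : Finset (Fin m → ℕ), (∀ f ∈ T, ∏ i, f i = n) →
    (T.card : ℝ) ≤ (m : ℝ) ^ (Real.log n / Real.log z) := by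
  intro n
  induction n using Nat.strong_induction_on with
  | _ n ih =>
    intro hn hp T hT
    have hlogz : 0 < Real.log z := Real.log_pos (by exact_mod_cast hz)
    rcases Nat.lt_or_ge n 2 with h2 | h2
    · have h1 : n = 1 := by omega
      subst h1
      have hsub : T ⊆ {fun _ => 1} := by
        intro f hf
        rw [Finset.mem_singleton]
        funext i
        have h3 : f i ∣ ∏ i, f i := Finset.dvd_prod_of_mem f (Finset.mem_univ i)
        rw [hT f hf] at h3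
        exact Nat.eq_one_of_dvd_one h3
      have hc := Finset.card_le_card hsub
      rw [Finset.card_singleton] at hc
      simp only [Nat.cast_one, Real.log_one, zero_div, Real.rpow_zero]
      exact_mod_cast hc
    · set p := n.minFac with hpdef
      have hpp : p.Prime := Nat.minFac_prime (by omega)
      have hpn : p ∣ n := Nat.minFac_dvd n
      have hzp : z < p := hp p hpp hpn
      have hnp : n / p < n := Nat.div_lt_self (by omega) hpp.one_lt
      have hnp1 : 1 ≤ n / p := Nat.div_pos (Nat.le_of_dvd (by omega) hpn) hpp.pos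
      -- fibres
      have hsub : T ⊆ Finset.univ.biUnion (fun i : Fin m => T.filter (fun f => p ∣ f i)) := by
        intro f hf
        have h3 : p ∣ ∏ i, f i := by rw [hT f hf]; exact hpn
        obtain ⟨i, -, hi⟩ := (Prime.dvd_finsetProd_iff hpp.prime _).mp h3
        exact Finset.mem_biUnion.mpr ⟨i, Finset.mem_univ i, Finset.mem_filter.mpr ⟨hf, hi⟩⟩
      have hfib : ∀ i : Fin m, ((T.filter (fun f => p ∣ f i)).card : ℝ) ≤
          (m : ℝ) ^ (Real.log (n / p : ℕ) / Real.log z) := by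
        intro i
        have hinj : Set.InjOn (fun f : Fin m → ℕ => Function.update f i (f i / p))
            (T.filter (fun f => p ∣ f i) : Finset (Fin m → ℕ)) := by
          intro f hf g hg hfg
          have hf' := (Finset.mem_filter.mp (Finset.mem_coe.mp hf)).2
          have hg' := (Finset.mem_filter.mp (Finset.mem_coe.mp hg)).2
          funext j
          have hj := congrFun hfg j
          by_cases hji : j = i
          · subst hji
            simp only [Function.update_self] at hj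
            rw [← Nat.div_mul_cancel hf', ← Nat.div_mul_cancel hg', hj]
          · simpa only [Function.update_of_ne hji] using hj
        rw [← Finset.card_image_of_injOn hinj]
        refine ih (n / p) hnp hnp1 (fun q hq hqd => hp q hq (hqd.trans (Nat.div_dvd_of_dvd hpn)))
          _ ?_
        intro g hg
        obtain ⟨f, hf, rfl⟩ := Finset.mem_image.mp hg
        obtain ⟨hfT, hfp⟩ := Finset.mem_filter.mp hf
        have h4 : (∏ j, Function.update f i (f i / p) j) * p = n := by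
          rw [Finset.prod_update_of_mem (Finset.mem_univ i), mul_assoc, mul_comm _ p,
            ← mul_assoc, Nat.div_mul_cancel hfp, ← hT f hfT,
            ← Finset.mul_prod_erase _ f (Finset.mem_univ i), Finset.sdiff_singleton_eq_erase]
        exact (Nat.div_eq_of_eq_mul_left hpp.pos h4.symm).symm
      have hm0 : (0 : ℝ) < m := by exact_mod_cast hm
      have hm1 : (1 : ℝ) ≤ m := by exact_mod_cast hm
      calc (T.card : ℝ) ≤ ((Finset.univ.biUnion
              (fun i : Fin m => T.filter (fun f => p ∣ f i))).card : ℝ) := by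
            exact_mod_cast Finset.card_le_card hsub
        _ ≤ ∑ i : Fin m, ((T.filter (fun f => p ∣ f i)).card : ℝ) := by
            exact_mod_cast Finset.card_biUnion_le
        _ ≤ ∑ _i : Fin m, (m : ℝ) ^ (Real.log (n / p : ℕ) / Real.log z) :=
            Finset.sum_le_sum fun i _ => hfib i
        _ = (m : ℝ) ^ (Real.log (n / p : ℕ) / Real.log z + 1) := by
            rw [Finset.sum_const, Finset.card_univ, Fintype.card_fin, nsmul_eq_mul,
              Real.rpow_add_one hm0.ne', mul_comm]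
        _ ≤ (m : ℝ) ^ (Real.log n / Real.log z) := by
            refine Real.rpow_le_rpow_of_exponent_le hm1 ?_
            have hp0 : (0 : ℝ) < p := by exact_mod_cast hpp.pos
            have hn0 : (0 : ℝ) < n := by exact_mod_cast hn
            rw [Nat.cast_div hpn hp0.ne', Real.log_div hn0.ne' hp0.ne', div_add_one hlogz.ne']
            refine div_le_div_of_nonneg_right ?_ hlogz.le
            have : Real.log z ≤ Real.log p :=
              Real.log_le_log (by exact_mod_cast (by omega : 0 < z)) (by exact_mod_cast hzp.le)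
            linarith

lemma rough_one_add_ne (u : ℝ) : (1 + u * I : ℂ) ≠ 0 := by
  intro h
  have := congrArg Complex.re h
  simp at this

lemma rough_cpow_split {n : ℕ} (hn : 1 ≤ n) (u : ℝ) :
    (n : ℂ) ^ (-(1 + u * I)) = (n : ℂ)⁻¹ * (n : ℂ) ^ (-(u * I)) := by
  have hn0 : (n : ℂ) ≠ 0 := by exact_mod_cast (by omega : n ≠ 0)
  rw [neg_add, Complex.cpow_add _ _ hn0, Complex.cpow_neg_one]

theorem rough_moment : ∃ C : ℝ, 0 < C ∧ ∀ (U : ℝ) (z Y m : ℕ) (c : ℕ → ℂ), 1 ≤ U → 2 ≤ z →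
    z ≤ Y → 1 ≤ m → (∀ k ∈ Ioc Y (2 * Y), ‖c k‖ ≤ 1) →
    (∀ k ∈ Ioc Y (2 * Y), c k ≠ 0 → ∀ p : ℕ, p.Prime → p ∣ k → z < p) →
    ∫ u in U..(2 * U), ‖∑ k ∈ Ioc Y (2 * Y), c k * (k : ℂ) ^ (-(1 + u * I))‖ ^ (2 * m) ≤
      C * (U + (2 * Y) ^ m) * (m : ℝ) ^ (m * Real.log (2 * Y) / Real.log z) / (Y : ℝ) ^ m := by
  obtain ⟨C, hC, hmv⟩ := mean_value
  refine ⟨C, hC, ?_⟩
  intro U z Y m c hU hz hzY hm hc hrough
  classical
  set A := (Ioc Y (2 * Y)).filter (fun k => c k ≠ 0) with hA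
  set P := Fintype.piFinset (fun _ : Fin m => A) with hP
  set b : ℕ → ℂ := fun n => ∑ f ∈ P.filter (fun f => ∏ i, f i = n), ∏ i, c (f i) with hb
  set a : ℕ → ℂ := fun n => b n / n with ha
  have hY1 : 1 ≤ Y := by omega
  have hAmem : ∀ k ∈ A, Y < k ∧ k ≤ 2 * Y ∧ c k ≠ 0 := by
    intro k hk
    obtain ⟨h1, h2⟩ := Finset.mem_filter.mp hk
    obtain ⟨h3, h4⟩ := Finset.mem_Ioc.mp h1
    exact ⟨h3, h4, h2⟩
  have hmaps : ∀ f ∈ P, ∏ i, f i ∈ Icc 1 ((2 * Y) ^ m) := by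
    intro f hf
    have hf' : ∀ i, f i ∈ A := fun i => (Fintype.mem_piFinset.mp hf) i
    rw [Finset.mem_Icc]
    constructor
    · exact Nat.one_le_iff_ne_zero.mpr (Finset.prod_ne_zero_iff.mpr fun i _ => by
        have := (hAmem _ (hf' i)).1
        omega)
    · calc ∏ i, f i ≤ ∏ _i : Fin m, 2 * Y :=
            Finset.prod_le_prod' fun i _ => (hAmem _ (hf' i)).2.1
        _ = (2 * Y) ^ m := by rw [Finset.prod_const, Finset.card_univ, Fintype.card_fin]
  have hF : ∀ u : ℝ, (∑ k ∈ Ioc Y (2 * Y), c k * (k : ℂ) ^ (-(1 + u * I))) ^ m =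
      ∑ n ∈ Icc 1 ((2 * Y) ^ m), a n * (n : ℂ) ^ (-(u * I)) := by
    intro u
    have hs : (1 + u * I : ℂ) ≠ 0 := rough_one_add_ne u
    have h1 : ∑ k ∈ Ioc Y (2 * Y), c k * (k : ℂ) ^ (-(1 + u * I)) =
        ∑ k ∈ A, c k * riemannZetaSummandHom hs k := by
      rw [hA, Finset.sum_filter]
      refine Finset.sum_congr rfl fun k _ => ?_
      by_cases hk : c k = 0
      · simp [hk]
      · rw [if_pos hk]
        rfl
    rw [h1, Finset.sum_pow']
    have h2 : ∀ f ∈ P, ∏ i, c (f i) * riemannZetaSummandHom hs (f i) =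
        (∏ i, c (f i)) * riemannZetaSummandHom hs (∏ i, f i) := by
      intro f _
      rw [Finset.prod_mul_distrib, map_prod]
    rw [Finset.sum_congr rfl h2, ← Finset.sum_fiberwise_of_maps_to hmaps]
    refine Finset.sum_congr rfl fun n hn => ?_
    have hn1 : 1 ≤ n := (Finset.mem_Icc.mp hn).1
    have h3 : ∀ f ∈ P.filter (fun f => ∏ i, f i = n),
        (∏ i, c (f i)) * riemannZetaSummandHom hs (∏ i, f i) =
        (∏ i, c (f i)) * ((n : ℂ)⁻¹ * (n : ℂ) ^ (-(u * I))) := by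
      intro f hf
      rw [(Finset.mem_filter.mp hf).2, ← rough_cpow_split hn1]
      rfl
    rw [Finset.sum_congr rfl h3, ← Finset.sum_mul]
    change b n * _ = b n / n * _
    rw [div_eq_mul_inv, mul_assoc]
  have hint : ∫ u in U..(2 * U), ‖∑ k ∈ Ioc Y (2 * Y), c k * (k : ℂ) ^ (-(1 + u * I))‖ ^ (2 * m)
      = ∫ t in U..(U + U), ‖∑ n ∈ Icc 1 ((2 * Y) ^ m), a n * (n : ℂ) ^ (-(t * I))‖ ^ 2 := by
    rw [two_mul U]
    apply intervalIntegral.integral_congr
    intro u _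
    simp only
    rw [← hF u, norm_pow, ← pow_mul, mul_comm m 2]
  rw [hint]
  refine (hmv U U hU _ a).trans ?_
  set R : ℝ := (m : ℝ) ^ (m * Real.log (2 * Y) / Real.log z) with hR
  have hR0 : 0 ≤ R := Real.rpow_nonneg (Nat.cast_nonneg m) _
  have hm1 : (1 : ℝ) ≤ m := by exact_mod_cast hm
  have hlogz : 0 < Real.log z := Real.log_pos (by exact_mod_cast hz)
  have hcard : ∀ n ∈ Icc 1 ((2 * Y) ^ m),
      ((P.filter (fun f => ∏ i, f i = n)).card : ℝ) ≤ R := by
    intro n hn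
    obtain ⟨hn1, hn2⟩ := Finset.mem_Icc.mp hn
    rcases (P.filter (fun f => ∏ i, f i = n)).eq_empty_or_nonempty with he | ⟨f0, hf0⟩
    · rw [he, Finset.card_empty, Nat.cast_zero]
      exact hR0
    · obtain ⟨hf0P, hf0n⟩ := Finset.mem_filter.mp hf0
      have hf0A : ∀ i, f0 i ∈ A := fun i => (Fintype.mem_piFinset.mp hf0P) i
      refine (rough_card_tuples hm hz n hn1 ?_ _ (fun f hf => (Finset.mem_filter.mp hf).2)).trans ?_
      · intro p hp hpn
        rw [← hf0n] at hpn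
        obtain ⟨i, -, hi⟩ := (Prime.dvd_finsetProd_iff hp.prime _).mp hpn
        obtain ⟨h1, h2, h3⟩ := hAmem _ (hf0A i)
        exact hrough _ (Finset.mem_Ioc.mpr ⟨h1, h2⟩) h3 p hp hi
      · refine Real.rpow_le_rpow_of_exponent_le hm1 ?_
        refine div_le_div_of_nonneg_right ?_ hlogz.le
        have h5 : Real.log n ≤ Real.log (((2 * Y : ℕ) : ℝ) ^ m) :=
          Real.log_le_log (by exact_mod_cast hn1) (by exact_mod_cast hn2)
        rw [Real.log_pow] at h5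
        push_cast at h5
        exact h5
  have hbn : ∀ n, ‖b n‖ ≤ ((P.filter (fun f => ∏ i, f i = n)).card : ℝ) := by
    intro n
    refine (norm_sum_le _ _).trans ?_
    rw [← nsmul_one, ← Finset.sum_const]
    refine Finset.sum_le_sum fun f hf => ?_
    have hfA : ∀ i, f i ∈ A := fun i =>
      (Fintype.mem_piFinset.mp (Finset.mem_filter.mp hf).1) i
    rw [norm_prod]
    refine Finset.prod_le_one (fun i _ => norm_nonneg _) fun i _ => ?_
    obtain ⟨h1, h2, h3⟩ := hAmem _ (hfA i)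
    exact hc _ (Finset.mem_Ioc.mpr ⟨h1, h2⟩)
  have hsum : ∑ n ∈ Icc 1 ((2 * Y) ^ m), ‖a n‖ ^ 2 ≤ R / (Y : ℝ) ^ m := by
    have hY0 : (0 : ℝ) < Y := by exact_mod_cast hY1
    have h1 : ∀ n ∈ Icc 1 ((2 * Y) ^ m), ‖a n‖ ^ 2 ≤
        R * ∑ f ∈ P.filter (fun f => ∏ i, f i = n), ∏ i, ((f i : ℝ)⁻¹) ^ 2 := by
      intro n hn
      have hn1 : 1 ≤ n := (Finset.mem_Icc.mp hn).1
      have h2 : ∀ f ∈ P.filter (fun f => ∏ i, f i = n), ∏ i, ((f i : ℝ)⁻¹) ^ 2 =
          ((n : ℝ)⁻¹) ^ 2 := by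
        intro f hf
        rw [Finset.prod_pow, Finset.prod_inv_distrib, ← (Finset.mem_filter.mp hf).2]
        push_cast
        rfl
      rw [Finset.sum_congr rfl h2, Finset.sum_const, nsmul_eq_mul, ha]
      simp only
      rw [norm_div, div_pow, Complex.norm_natCast, div_eq_mul_inv, ← inv_pow, ← mul_assoc]
      refine mul_le_mul_of_nonneg_right ?_ (by positivity)
      rw [sq]
      exact mul_le_mul ((hbn n).trans (hcard n hn)) (hbn n) (norm_nonneg _) hR0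
    refine (Finset.sum_le_sum h1).trans ?_
    rw [← Finset.mul_sum, Finset.sum_fiberwise_of_maps_to hmaps, hP,
      ← Finset.sum_pow' A (fun k : ℕ => ((k : ℝ)⁻¹) ^ 2) m, div_eq_mul_inv, ← inv_pow]
    refine mul_le_mul_of_nonneg_left ?_ hR0
    refine pow_le_pow_left₀ (Finset.sum_nonneg fun k _ => by positivity) ?_ m
    have h6 : ∀ k ∈ Ioc Y (2 * Y), ((k : ℝ)⁻¹) ^ 2 ≤ ((Y : ℝ)⁻¹) ^ 2 := by
      intro k hk
      have h7 : (Y : ℝ) ≤ k := by exact_mod_cast (Finset.mem_Ioc.mp hk).1.le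
      exact pow_le_pow_left₀ (by positivity) (inv_anti₀ hY0 h7) 2
    calc ∑ k ∈ A, ((k : ℝ)⁻¹) ^ 2 ≤ ∑ k ∈ Ioc Y (2 * Y), ((k : ℝ)⁻¹) ^ 2 :=
          Finset.sum_le_sum_of_subset_of_nonneg (Finset.filter_subset _ _)
            fun k _ _ => by positivity
      _ ≤ ∑ _k ∈ Ioc Y (2 * Y), ((Y : ℝ)⁻¹) ^ 2 := Finset.sum_le_sum h6
      _ = (Y : ℝ)⁻¹ := by
          rw [Finset.sum_const, Nat.card_Ioc, nsmul_eq_mul]
          have h8 : 2 * Y - Y = Y := by omega
          rw [h8]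
          field_simp
  have hfin : C * (U + ((((2 * Y) ^ m : ℕ)) : ℝ)) * ∑ n ∈ Icc 1 ((2 * Y) ^ m), ‖a n‖ ^ 2 ≤
      C * (U + ((((2 * Y) ^ m : ℕ)) : ℝ)) * (R / (Y : ℝ) ^ m) :=
    mul_le_mul_of_nonneg_left hsum (by positivity)
  refine hfin.trans (le_of_eq ?_)
  push_cast
  ring

/-- Sums over divisors. -/
lemma rough_sum_divisors_le (x : ℕ) (f : ℕ → ℕ → ℝ) (hf : ∀ a b, 0 ≤ f a b) :
    ∑ k ∈ Icc 1 x, ∑ a ∈ Nat.divisors k, f a (k / a) ≤
      ∑ a ∈ Icc 1 x, ∑ b ∈ Icc 1 x, f a b := by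
  classical
  rw [Finset.sum_sigma', ← Finset.sum_product']
  have hinj : Set.InjOn (fun q : (_ : ℕ) × ℕ => (q.2, q.1 / q.2))
      ((Icc 1 x).sigma fun k => Nat.divisors k : Finset ((_ : ℕ) × ℕ)) := by
    rintro ⟨k, a⟩ hk ⟨k', a'⟩ hk' h
    have hk1 := (Finset.mem_sigma.mp (Finset.mem_coe.mp hk)).2
    have hk1' := (Finset.mem_sigma.mp (Finset.mem_coe.mp hk')).2
    simp only at hk1 hk1' h
    obtain ⟨h1, h2⟩ := Prod.mk.inj h
    subst h1
    have h3 : k = k' := by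
      rw [← Nat.div_mul_cancel (Nat.dvd_of_mem_divisors hk1),
        ← Nat.div_mul_cancel (Nat.dvd_of_mem_divisors hk1'), h2]
    subst h3
    rfl
  have h0 : ∑ q ∈ (Icc 1 x).sigma fun k => Nat.divisors k, f q.2 (q.1 / q.2) =
      ∑ r ∈ ((Icc 1 x).sigma fun k => Nat.divisors k).image
        (fun q : (_ : ℕ) × ℕ => (q.2, q.1 / q.2)), f r.1 r.2 := by
    rw [Finset.sum_image hinj]
  rw [h0]
  refine Finset.sum_le_sum_of_subset_of_nonneg ?_ fun r _ _ => hf _ _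
  intro r hr
  obtain ⟨⟨k, a⟩, hq, rfl⟩ := Finset.mem_image.mp hr
  obtain ⟨hk, ha⟩ := Finset.mem_sigma.mp hq
  simp only at hk ha ⊢
  obtain ⟨hk1, hk2⟩ := Finset.mem_Icc.mp hk
  have had := Nat.dvd_of_mem_divisors ha
  have ha1 : 1 ≤ a := Nat.pos_of_mem_divisors ha
  rw [Finset.mem_product, Finset.mem_Icc, Finset.mem_Icc]
  refine ⟨⟨ha1, (Nat.le_of_dvd (by omega) had).trans hk2⟩,
    Nat.div_pos (Nat.le_of_dvd (by omega) had) ha1, (Nat.div_le_self _ _).trans hk2⟩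

lemma rough_card_divisors_mul_le (a b : ℕ) :
    (Nat.divisors (a * b)).card ≤ (Nat.divisors a).card * (Nat.divisors b).card := by
  rw [Nat.divisors_mul]
  exact Finset.card_mul_le

lemma rough_sum_divisor_div_le (x : ℕ) :
    ∑ k ∈ Icc 1 x, ((Nat.divisors k).card : ℝ) / k ≤ (∑ k ∈ Icc 1 x, (k : ℝ)⁻¹) ^ 2 := by
  have h1 := rough_sum_divisors_le x (fun a b => (a : ℝ)⁻¹ * (b : ℝ)⁻¹) (fun a b => by positivity)
  have h2 : ∑ k ∈ Icc 1 x, ((Nat.divisors k).card : ℝ) / k =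
      ∑ k ∈ Icc 1 x, ∑ a ∈ Nat.divisors k, (a : ℝ)⁻¹ * ((k / a : ℕ) : ℝ)⁻¹ := by
    refine Finset.sum_congr rfl fun k hk => ?_
    have h3 : ∀ a ∈ Nat.divisors k, (a : ℝ)⁻¹ * ((k / a : ℕ) : ℝ)⁻¹ = (k : ℝ)⁻¹ := by
      intro a ha
      rw [← mul_inv, ← Nat.cast_mul, Nat.mul_div_cancel' (Nat.dvd_of_mem_divisors ha)]
    rw [Finset.sum_congr rfl h3, Finset.sum_const, nsmul_eq_mul, div_eq_mul_inv]
  rw [h2, sq, Finset.sum_mul_sum]
  exact h1

lemma rough_sum_divisor_sq_div_le (x : ℕ) :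
    ∑ k ∈ Icc 1 x, ((Nat.divisors k).card : ℝ) ^ 2 / k ≤ (∑ k ∈ Icc 1 x, (k : ℝ)⁻¹) ^ 4 := by
  have h1 := rough_sum_divisors_le x (fun a b => ((Nat.divisors a).card : ℝ) / a *
    (((Nat.divisors b).card : ℝ) / b)) (fun a b => by positivity)
  have h2 : ∑ k ∈ Icc 1 x, ((Nat.divisors k).card : ℝ) ^ 2 / k ≤
      ∑ k ∈ Icc 1 x, ∑ a ∈ Nat.divisors k, ((Nat.divisors a).card : ℝ) / a *
        (((Nat.divisors (k / a)).card : ℝ) / ((k / a : ℕ) : ℝ)) := by
    refine Finset.sum_le_sum fun k hk => ?_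
    have h3 : ((Nat.divisors k).card : ℝ) ^ 2 / k =
        ∑ _a ∈ Nat.divisors k, ((Nat.divisors k).card : ℝ) / k := by
      rw [Finset.sum_const, nsmul_eq_mul, sq, mul_div_assoc]
    rw [h3]
    refine Finset.sum_le_sum fun a ha => ?_
    have had := Nat.mul_div_cancel' (Nat.dvd_of_mem_divisors ha)
    rw [div_mul_div_comm, ← Nat.cast_mul, ← Nat.cast_mul, had]
    refine div_le_div_of_nonneg_right ?_ (Nat.cast_nonneg k)
    have h4 := rough_card_divisors_mul_le a (k / a)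
    rw [had] at h4
    exact_mod_cast h4
  refine h2.trans (h1.trans ?_)
  rw [← Finset.sum_mul_sum, ← sq]
  have h5 := rough_sum_divisor_div_le x
  calc (∑ k ∈ Icc 1 x, ((Nat.divisors k).card : ℝ) / k) ^ 2
      ≤ ((∑ k ∈ Icc 1 x, (k : ℝ)⁻¹) ^ 2) ^ 2 :=
        pow_le_pow_left₀ (Finset.sum_nonneg fun k _ => by positivity) h5 2
    _ = _ := by rw [← pow_mul]

lemma rough_harmonic_le (x : ℕ) : ∑ k ∈ Icc 1 x, (k : ℝ)⁻¹ ≤ 1 + Real.log x := by
  have h := harmonic_le_one_add_log x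
  have h2 : ((harmonic x : ℚ) : ℝ) = ∑ k ∈ Icc 1 x, (k : ℝ)⁻¹ := by
    rw [harmonic_eq_sum_Icc]
    push_cast
    rfl
  rw [h2] at h
  exact h

theorem coarse_block : ∃ C : ℝ, 0 < C ∧ ∀ (U : ℝ) (Y : ℕ) (c : ℕ → ℂ), 1 ≤ U → 1 ≤ Y →
    (∀ k ∈ Ioc Y (2 * Y), ‖c k‖ ≤ (Nat.divisors k).card) →
    ∫ u in U..(2 * U), ‖∑ k ∈ Ioc Y (2 * Y), c k * (k : ℂ) ^ (-(1 + u * I))‖ ^ 2 ≤
      C * ((U + Y) / Y) * (1 + Real.log (2 * Y)) ^ 4 := by
  obtain ⟨C, hC, hmv⟩ := mean_value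
  refine ⟨2 * C, by positivity, ?_⟩
  intro U Y c hU hY hc
  classical
  set a : ℕ → ℂ := fun k => if k ∈ Ioc Y (2 * Y) then c k * (k : ℂ)⁻¹ else 0 with ha
  have hsubset : Ioc Y (2 * Y) ⊆ Icc 1 (2 * Y) := by
    intro k hk
    rw [Finset.mem_Ioc] at hk
    rw [Finset.mem_Icc]
    omega
  have hY0 : (0 : ℝ) < Y := by exact_mod_cast hY
  have hF : ∀ u : ℝ, ∑ k ∈ Ioc Y (2 * Y), c k * (k : ℂ) ^ (-(1 + u * I)) =
      ∑ n ∈ Icc 1 (2 * Y), a n * (n : ℂ) ^ (-(u * I)) := by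
    intro u
    rw [← Finset.sum_subset hsubset]
    · refine Finset.sum_congr rfl fun k hk => ?_
      have hk1 : 1 ≤ k := (Finset.mem_Icc.mp (hsubset hk)).1
      rw [rough_cpow_split hk1, ha]
      simp only [if_pos hk]
      ring
    · intro k _ hk
      rw [ha]
      simp only [if_neg hk, zero_mul]
  have hint : ∫ u in U..(2 * U), ‖∑ k ∈ Ioc Y (2 * Y), c k * (k : ℂ) ^ (-(1 + u * I))‖ ^ 2
      = ∫ t in U..(U + U), ‖∑ n ∈ Icc 1 (2 * Y), a n * (n : ℂ) ^ (-(t * I))‖ ^ 2 := by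
    rw [two_mul U]
    apply intervalIntegral.integral_congr
    intro u _
    simp only
    rw [← hF u]
  rw [hint]
  refine (hmv U U hU _ a).trans ?_
  have hsum : ∑ n ∈ Icc 1 (2 * Y), ‖a n‖ ^ 2 ≤ (Y : ℝ)⁻¹ * (1 + Real.log (2 * Y)) ^ 4 := by
    have h1 : ∀ n ∈ Icc 1 (2 * Y), ‖a n‖ ^ 2 ≤
        (Y : ℝ)⁻¹ * (((Nat.divisors n).card : ℝ) ^ 2 / n) := by
      intro n hn
      rw [ha]
      simp only
      by_cases h : n ∈ Ioc Y (2 * Y)
      · rw [if_pos h, norm_mul, norm_inv, Complex.norm_natCast, mul_pow]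
        have hYn : (Y : ℝ) ≤ n := by exact_mod_cast (Finset.mem_Ioc.mp h).1.le
        have hn0 : (0 : ℝ) < n := hY0.trans_le hYn
        have h2 : ‖c n‖ ^ 2 ≤ ((Nat.divisors n).card : ℝ) ^ 2 :=
          pow_le_pow_left₀ (norm_nonneg _) (hc n h) 2
        calc ‖c n‖ ^ 2 * ((n : ℝ)⁻¹) ^ 2
            ≤ ((Nat.divisors n).card : ℝ) ^ 2 * ((n : ℝ)⁻¹ * (Y : ℝ)⁻¹) := by
              rw [sq ((n : ℝ)⁻¹)]
              refine mul_le_mul h2 ?_ (by positivity) (by positivity)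
              exact mul_le_mul_of_nonneg_left (inv_anti₀ hY0 hYn) (by positivity)
          _ = _ := by rw [div_eq_mul_inv]; ring
      · rw [if_neg h, norm_zero, zero_pow two_ne_zero]
        positivity
    refine (Finset.sum_le_sum h1).trans ?_
    rw [← Finset.mul_sum]
    refine mul_le_mul_of_nonneg_left ?_ (by positivity)
    refine (rough_sum_divisor_sq_div_le _).trans ?_
    refine pow_le_pow_left₀ (Finset.sum_nonneg fun k _ => by positivity) ?_ 4
    have := rough_harmonic_le (2 * Y)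
    push_cast at this
    exact this
  have hlog : 0 ≤ Real.log (2 * Y) := Real.log_nonneg (by
    have : (1 : ℝ) ≤ Y := by exact_mod_cast hY
    linarith)
  have hfin : C * (U + (((2 * Y : ℕ)) : ℝ)) * ∑ n ∈ Icc 1 (2 * Y), ‖a n‖ ^ 2 ≤
      C * (U + (((2 * Y : ℕ)) : ℝ)) * ((Y : ℝ)⁻¹ * (1 + Real.log (2 * Y)) ^ 4) :=
    mul_le_mul_of_nonneg_left hsum (by positivity)
  refine hfin.trans ?_
  push_cast
  have h9 : C * (U + 2 * Y) * ((Y : ℝ)⁻¹ * (1 + Real.log (2 * Y)) ^ 4) =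
      C * ((U + 2 * Y) / Y) * (1 + Real.log (2 * Y)) ^ 4 := by
    rw [div_eq_mul_inv]; ring
  rw [h9]
  refine mul_le_mul_of_nonneg_right ?_ (by positivity)
  rw [mul_assoc 2 C, ← mul_assoc, mul_comm 2 C, mul_assoc]
  refine mul_le_mul_of_nonneg_left ?_ hC.le
  rw [← mul_div_assoc]
  refine div_le_div_of_nonneg_right ?_ hY0.le
  linarith

end Pool.Agent.Lib.MP_aa9ae4_nt
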