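import Mathlib
import Pool.Agent.Lib.MP_aa9ae4_nt.Defs

namespace Pool.Agent.Lib.MP_aa9ae4_nt

open Finset MeasureTheory Filter Topology
open Complex (I)

/-- `(s - 1) ∫_n^{n+1} (x^{-s} - (n+1)^{-s}) dx`. -/
noncomputable def zetaApprox_F (n : ℕ) (s : ℂ) : ℂ :=
  (n : ℂ) ^ (1 - s) - ((n + 1 : ℕ) : ℂ) ^ (1 - s) - (s - 1) * ((n + 1 : ℕ) : ℂ) ^ (-s)

/-- `∫_n^{n+1} u^{-σ-1} du` -/
noncomputable def zetaApprox_I (n : ℕ) (σ : ℝ) : ℝ :=
  ∫ u in (n : ℝ)..((n + 1 : ℕ) : ℝ), u ^ (-σ - 1)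

lemma zetaApprox_I_eq {n : ℕ} (hn : 1 ≤ n) {σ : ℝ} (hσ : 0 < σ) :
    zetaApprox_I n σ = ((n : ℝ) ^ (-σ) - ((n + 1 : ℕ) : ℝ) ^ (-σ)) / σ := by
  have hn0 : (0 : ℝ) < n := by exact_mod_cast hn
  have hle : (n : ℝ) ≤ ((n + 1 : ℕ) : ℝ) := by push_cast; linarith
  rw [zetaApprox_I, integral_rpow]
  · rw [sub_add_cancel, div_neg, ← neg_div, neg_sub]
  · right
    refine ⟨by linarith, ?_⟩
    rw [Set.uIcc_of_le hle]
    intro h
    exact absurd h.1 (not_le.mpr hn0)

lemma zetaApprox_intble {n : ℕ} (hn : 1 ≤ n) {σ : ℝ} {x : ℝ} (hx : (n : ℝ) ≤ x)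
    {y : ℝ} (hy : (n : ℝ) ≤ y) :
    IntervalIntegrable (fun u : ℝ => u ^ (-σ - 1)) volume x y := by
  have hn0 : (0 : ℝ) < n := by exact_mod_cast hn
  refine ContinuousOn.intervalIntegrable (ContinuousOn.rpow_const continuousOn_id ?_)
  intro u hu
  left
  have h1 : min x y ≤ u := hu.1
  have : (n : ℝ) ≤ min x y := le_min hx hy
  have : 0 < u := by linarith
  exact this.ne'

lemma zetaApprox_I_le {n : ℕ} (hn : 1 ≤ n) {σ : ℝ} (hσ : 0 < σ) :
    zetaApprox_I n σ ≤ (n : ℝ) ^ (-σ - 1) := by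
  have hn0 : (0 : ℝ) < n := by exact_mod_cast hn
  have hle : (n : ℝ) ≤ ((n + 1 : ℕ) : ℝ) := by push_cast; linarith
  have h1 : zetaApprox_I n σ ≤ ∫ _u in (n : ℝ)..((n + 1 : ℕ) : ℝ), (n : ℝ) ^ (-σ - 1) := by
    refine intervalIntegral.integral_mono_on hle (zetaApprox_intble hn le_rfl hle)
      intervalIntegrable_const ?_
    intro u hu
    exact Real.rpow_le_rpow_of_nonpos hn0 hu.1 (by linarith)
  rw [intervalIntegral.integral_const] at h1
  simpa using h1

lemma zetaApprox_I_nonneg {n : ℕ} {σ : ℝ} : 0 ≤ zetaApprox_I n σ := by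
  have hle : (n : ℝ) ≤ ((n + 1 : ℕ) : ℝ) := by push_cast; linarith
  refine intervalIntegral.integral_nonneg hle ?_
  intro u hu
  exact Real.rpow_nonneg (le_trans (Nat.cast_nonneg n) hu.1) _

/-- The variation of `x^{-s}` on `[n, n+1]`. -/
lemma zetaApprox_var {n : ℕ} (hn : 1 ≤ n) {s : ℂ} (hs : 0 < s.re) {x : ℝ} (hx : (n : ℝ) ≤ x)
    (hx1 : x ≤ ((n + 1 : ℕ) : ℝ)) :
    ‖(x : ℂ) ^ (-s) - ((n + 1 : ℕ) : ℂ) ^ (-s)‖ ≤ ‖s‖ * zetaApprox_I n s.re := by
  have hn0 : (0 : ℝ) < n := by exact_mod_cast hn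
  have hx0 : 0 < x := by linarith
  have hle : (n : ℝ) ≤ ((n + 1 : ℕ) : ℝ) := by push_cast; linarith
  have hs0 : s ≠ 0 := by
    rintro rfl
    simp at hs
  have hint : (∫ u : ℝ in x..((n + 1 : ℕ) : ℝ), (u : ℂ) ^ (-s - 1)) =
      ((((n + 1 : ℕ) : ℝ) : ℂ) ^ (-s) - (x : ℂ) ^ (-s)) / (-s) := by
    rw [integral_cpow]
    · rw [sub_add_cancel]
    · right
      refine ⟨?_, ?_⟩
      · intro h
        apply hs0
        have : -s = 0 := by linear_combination h
        exact neg_eq_zero.mp this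
      · rw [Set.uIcc_of_le hx1]
        intro h
        exact absurd h.1 (not_le.mpr hx0)
  have heq : (x : ℂ) ^ (-s) - ((n + 1 : ℕ) : ℂ) ^ (-s) =
      s * ∫ u : ℝ in x..((n + 1 : ℕ) : ℝ), (u : ℂ) ^ (-s - 1) := by
    rw [hint]
    field_simp
    push_cast
    ring
  rw [heq, norm_mul]
  refine mul_le_mul_of_nonneg_left ?_ (norm_nonneg _)
  refine (intervalIntegral.norm_integral_le_integral_norm hx1).trans ?_
  have h1 : (∫ u : ℝ in x..((n + 1 : ℕ) : ℝ), ‖(u : ℂ) ^ (-s - 1)‖) =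
      ∫ u : ℝ in x..((n + 1 : ℕ) : ℝ), u ^ (-s.re - 1) := by
    refine intervalIntegral.integral_congr fun u hu => ?_
    rw [Set.uIcc_of_le hx1] at hu
    have hu0 : 0 < u := lt_of_lt_of_le hx0 hu.1
    rw [Complex.norm_cpow_eq_rpow_re_of_pos hu0]
    simp
  rw [h1, zetaApprox_I, ← intervalIntegral.integral_add_adjacent_intervals
    (zetaApprox_intble (σ := s.re) hn le_rfl hx) (zetaApprox_intble (σ := s.re) hn hx hle)]
  have h2 : 0 ≤ ∫ u : ℝ in (n : ℝ)..x, u ^ (-s.re - 1) := by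
    refine intervalIntegral.integral_nonneg hx ?_
    intro u hu
    exact Real.rpow_nonneg (le_trans hn0.le hu.1) _
  linarith

lemma zetaApprox_F_bound {n : ℕ} (hn : 1 ≤ n) {s : ℂ} (hs : 0 < s.re) :
    ‖zetaApprox_F n s‖ ≤ ‖s - 1‖ * (‖s‖ * zetaApprox_I n s.re) := by
  have hn0 : (0 : ℝ) < n := by exact_mod_cast hn
  have hle : (n : ℝ) ≤ ((n + 1 : ℕ) : ℝ) := by push_cast; linarith
  by_cases h1 : s = 1
  · subst h1
    simp [zetaApprox_F]
  have hs1 : s - 1 ≠ 0 := sub_ne_zero.mpr h1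
  have hint : (∫ u : ℝ in (n : ℝ)..((n + 1 : ℕ) : ℝ), (u : ℂ) ^ (-s)) =
      ((((n + 1 : ℕ) : ℝ) : ℂ) ^ (-s + 1) - (((n : ℝ)) : ℂ) ^ (-s + 1)) / (-s + 1) := by
    rw [integral_cpow]
    right
    refine ⟨?_, ?_⟩
    · intro h
      exact h1 (neg_injective h)
    · rw [Set.uIcc_of_le hle]
      intro h
      exact absurd h.1 (not_le.mpr hn0)
  have hcI : IntervalIntegrable (fun u : ℝ => (u : ℂ) ^ (-s)) volume (n : ℝ)
      ((n + 1 : ℕ) : ℝ) := by
    refine intervalIntegral.intervalIntegrable_cpow ?_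
    right
    rw [Set.uIcc_of_le hle]
    intro h
    exact absurd h.1 (not_le.mpr hn0)
  have heq : zetaApprox_F n s = (s - 1) *
      ∫ u : ℝ in (n : ℝ)..((n + 1 : ℕ) : ℝ), ((u : ℂ) ^ (-s) - ((n + 1 : ℕ) : ℂ) ^ (-s)) := by
    rw [intervalIntegral.integral_sub hcI intervalIntegrable_const, hint,
      intervalIntegral.integral_const, zetaApprox_F]
    have hs2 : -s + 1 ≠ 0 := by
      intro h
      apply hs1
      linear_combination -h
    have e1 : (1 - s) = -s + 1 := by ring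
    rw [e1]
    have e2 : (((n + 1 : ℕ) : ℝ) - (n : ℝ)) = 1 := by push_cast; ring
    rw [e2, one_smul]
    simp only [Complex.ofReal_natCast]
    field_simp
    ring
  rw [heq, norm_mul]
  refine mul_le_mul_of_nonneg_left ?_ (norm_nonneg _)
  have h3 := intervalIntegral.norm_integral_le_of_norm_le_const
    (C := ‖s‖ * zetaApprox_I n s.re) (a := (n : ℝ)) (b := ((n + 1 : ℕ) : ℝ))
    (f := fun u : ℝ => (u : ℂ) ^ (-s) - ((n + 1 : ℕ) : ℂ) ^ (-s)) (by
      intro u hu
      rw [Set.uIoc_of_le hle] at hu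
      exact zetaApprox_var hn hs hu.1.le hu.2)
  refine h3.trans (le_of_eq ?_)
  have e2 : (((n + 1 : ℕ) : ℝ) - (n : ℝ)) = 1 := by push_cast; ring
  rw [e2, abs_one, mul_one]

lemma zetaApprox_F_diff {n : ℕ} (hn : 1 ≤ n) : Differentiable ℂ (zetaApprox_F n) := by
  have h0 : (n : ℂ) ≠ 0 := by
    have : n ≠ 0 := by omega
    exact_mod_cast this
  have h1 : ((n + 1 : ℕ) : ℂ) ≠ 0 := by exact_mod_cast (Nat.succ_ne_zero n)
  unfold zetaApprox_F
  intro s
  refine DifferentiableAt.sub (DifferentiableAt.sub ?_ ?_) (DifferentiableAt.mul ?_ ?_)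
  · exact ((differentiableAt_const _).sub differentiableAt_id).const_cpow (Or.inl h0)
  · exact ((differentiableAt_const _).sub differentiableAt_id).const_cpow (Or.inl h1)
  · exact differentiableAt_id.sub (differentiableAt_const _)
  · exact differentiableAt_id.neg.const_cpow (Or.inl h1)

/-- `(s - 1) zsum s M + M^{1-s}` -/
noncomputable def zetaApprox_G (M : ℕ) (s : ℂ) : ℂ :=
  (s - 1) * zsum s M + (M : ℂ) ^ (1 - s)

lemma zetaApprox_G_succ (M : ℕ) (s : ℂ) :
    zetaApprox_G (M + 1) s = zetaApprox_G M s - zetaApprox_F M s := by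
  unfold zetaApprox_G zetaApprox_F zsum
  rw [Finset.sum_Icc_succ_top (by omega)]
  ring

lemma zetaApprox_G_add (N k : ℕ) (s : ℂ) :
    zetaApprox_G (N + k) s = zetaApprox_G N s - ∑ i ∈ range k, zetaApprox_F (N + i) s := by
  induction k with
  | zero => simp
  | succ k ih =>
    rw [← add_assoc, zetaApprox_G_succ, ih, Finset.sum_range_succ]
    ring

lemma zetaApprox_G_diff {M : ℕ} (hM : 1 ≤ M) : Differentiable ℂ (zetaApprox_G M) := by
  have h0 : (M : ℂ) ≠ 0 := by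
    have : M ≠ 0 := by omega
    exact_mod_cast this
  unfold zetaApprox_G zsum
  intro s
  refine DifferentiableAt.add (DifferentiableAt.mul ?_ ?_) ?_
  · exact differentiableAt_id.sub (differentiableAt_const _)
  · refine DifferentiableAt.fun_sum fun n hn => ?_
    have hn0 : (n : ℂ) ≠ 0 := by
      have : n ≠ 0 := by
        have := (Finset.mem_Icc.mp hn).1
        omega
      exact_mod_cast this
    exact differentiableAt_id.neg.const_cpow (Or.inl hn0)
  · exact ((differentiableAt_const _).sub differentiableAt_id).const_cpow (Or.inl h0)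

/-- the sum of the terms from `N` on -/
noncomputable def zetaApprox_H (N : ℕ) (s : ℂ) : ℂ := ∑' i : ℕ, zetaApprox_F (N + i) s

lemma zetaApprox_summable_I (N : ℕ) {σ : ℝ} (hσ : 0 < σ) :
    Summable fun i : ℕ => ((N + i : ℕ) : ℝ) ^ (-σ - 1) := by
  have h1 : Summable fun n : ℕ => (n : ℝ) ^ (-σ - 1) := by
    rw [Real.summable_nat_rpow]
    linarith
  have h2 := (summable_nat_add_iff N).mpr h1
  refine h2.congr fun i => ?_
  rw [add_comm]

lemma zetaApprox_F_summable {N : ℕ} (hN : 1 ≤ N) {s : ℂ} (hs : 0 < s.re) :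
    Summable fun i : ℕ => zetaApprox_F (N + i) s := by
  refine Summable.of_norm_bounded
    (g := fun i : ℕ => ‖s - 1‖ * (‖s‖ * ((N + i : ℕ) : ℝ) ^ (-s.re - 1))) ?_ ?_
  · exact ((zetaApprox_summable_I N hs).mul_left _).mul_left _
  · intro i
    refine (zetaApprox_F_bound (n := N + i) (by omega) hs).trans ?_
    refine mul_le_mul_of_nonneg_left (mul_le_mul_of_nonneg_left ?_ (norm_nonneg _))
      (norm_nonneg _)
    exact zetaApprox_I_le (by omega) hs

lemma zetaApprox_H_diff {N : ℕ} (hN : 1 ≤ N) :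
    DifferentiableOn ℂ (zetaApprox_H N) {s : ℂ | 0 < s.re} := by
  intro s hs
  have hs' : 0 < s.re := hs
  set σ : ℝ := s.re / 2 with hσ
  have hσ0 : 0 < σ := by rw [hσ]; linarith
  set U : Set ℂ := {w : ℂ | σ < w.re} ∩ Metric.ball s 1 with hU
  have hUo : IsOpen U :=
    (isOpen_lt continuous_const Complex.continuous_re).inter Metric.isOpen_ball
  have hsU : s ∈ U := ⟨by change σ < s.re; rw [hσ]; linarith, Metric.mem_ball_self one_pos⟩
  have hd : DifferentiableOn ℂ (zetaApprox_H N) U := by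
    refine Complex.differentiableOn_tsum_of_summable_norm
      (u := fun i : ℕ => (‖s‖ + 2) * ((‖s‖ + 1) * ((N + i : ℕ) : ℝ) ^ (-σ - 1))) ?_ ?_ hUo ?_
    · exact ((zetaApprox_summable_I N hσ0).mul_left _).mul_left _
    · intro i
      exact (zetaApprox_F_diff (n := N + i) (by omega)).differentiableOn
    · intro i w hw
      have hw1 : σ < w.re := hw.1
      have hw2 : ‖w - s‖ < 1 := by
        have := hw.2
        rwa [Metric.mem_ball, dist_eq_norm] at this
      have hw3 : ‖w‖ ≤ ‖s‖ + 1 := by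
        calc ‖w‖ = ‖(w - s) + s‖ := by rw [sub_add_cancel]
          _ ≤ ‖w - s‖ + ‖s‖ := norm_add_le _ _
          _ ≤ ‖s‖ + 1 := by linarith
      have hw4 : ‖w - 1‖ ≤ ‖s‖ + 2 := by
        calc ‖w - 1‖ ≤ ‖w‖ + ‖(1 : ℂ)‖ := norm_sub_le _ _
          _ ≤ ‖s‖ + 2 := by rw [norm_one]; linarith
      refine (zetaApprox_F_bound (n := N + i) (by omega) (hσ0.trans hw1)).trans ?_
      refine mul_le_mul hw4 ?_ (mul_nonneg (norm_nonneg _) zetaApprox_I_nonneg)
        (by positivity)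
      refine mul_le_mul hw3 ?_ zetaApprox_I_nonneg (by positivity)
      refine (zetaApprox_I_le (by omega) (hσ0.trans hw1)).trans ?_
      refine Real.rpow_le_rpow_of_exponent_le ?_ (by linarith)
      have : 1 ≤ N + i := by omega
      exact_mod_cast this
  exact (hd.differentiableAt (hUo.mem_nhds hsU)).differentiableWithinAt

lemma zetaApprox_G_tendsto {s : ℂ} (hs : 1 < s.re) :
    Tendsto (fun M : ℕ => zetaApprox_G M s) atTop (𝓝 ((s - 1) * riemannZeta s)) := by
  have h1 : Tendsto (fun M : ℕ => zsum s M) atTop (𝓝 (riemannZeta s)) := by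
    have hs0 : s ≠ 0 := by
      rintro rfl
      simp at hs
      linarith
    have hsum : Summable fun n : ℕ => (n : ℂ) ^ (-s) := by
      have := Complex.summable_one_div_nat_cpow.mpr hs
      refine this.congr fun n => ?_
      rw [Complex.cpow_neg, one_div]
    have hz : riemannZeta s = ∑' n : ℕ, (n : ℂ) ^ (-s) := by
      rw [zeta_eq_tsum_one_div_nat_cpow hs]
      refine tsum_congr fun n => ?_
      rw [Complex.cpow_neg, one_div]
    have h2 := hsum.hasSum.tendsto_sum_nat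
    rw [← hz] at h2
    have h3 := h2.comp (tendsto_add_atTop_nat 1)
    refine h3.congr fun M => ?_
    simp only [Function.comp_apply, zsum]
    rw [Finset.sum_range_succ']
    rw [Nat.cast_zero, Complex.zero_cpow (neg_ne_zero.mpr hs0), add_zero]
    rw [Finset.range_eq_Ico, Finset.sum_Ico_add' (fun n : ℕ => (n : ℂ) ^ (-s)) 0 M 1]
    rfl
  have h2 : Tendsto (fun M : ℕ => (M : ℂ) ^ (1 - s)) atTop (𝓝 0) := by
    rw [tendsto_zero_iff_norm_tendsto_zero]
    have h3 : Tendsto (fun M : ℕ => (M : ℝ) ^ (-(s.re - 1))) atTop (𝓝 0) :=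
      (tendsto_rpow_neg_atTop (by linarith)).comp tendsto_natCast_atTop_atTop
    refine h3.congr' ?_
    filter_upwards [eventually_ge_atTop 1] with M hM
    rw [Complex.norm_natCast_cpow_of_pos (by omega)]
    congr 1
    simp
  have h3 := (h1.const_mul (s - 1)).add h2
  rw [add_zero] at h3
  exact h3

lemma zetaApprox_eq_of_one_lt {N : ℕ} (hN : 1 ≤ N) {s : ℂ} (hs : 1 < s.re) :
    riemannZeta₁ s - zetaApprox_G N s = - zetaApprox_H N s := by
  have h1 : s ≠ 1 := by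
    rintro rfl
    simp at hs
  have hz : riemannZeta₁ s = (s - 1) * riemannZeta s := by
    rw [riemannZeta_eq_inv_sub_mul h1, ← mul_assoc, mul_inv_cancel₀ (sub_ne_zero.mpr h1),
      one_mul]
  have h2 := (zetaApprox_F_summable hN (s := s) (by linarith)).hasSum.tendsto_sum_nat
  have h3 : Tendsto (fun k : ℕ => zetaApprox_G (N + k) s) atTop
      (𝓝 (zetaApprox_G N s - zetaApprox_H N s)) := by
    refine (h2.const_sub (zetaApprox_G N s)).congr fun k => ?_
    rw [zetaApprox_G_add]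
  have h4 : Tendsto (fun k : ℕ => zetaApprox_G (N + k) s) atTop
      (𝓝 ((s - 1) * riemannZeta s)) := by
    have := (zetaApprox_G_tendsto hs).comp (tendsto_add_atTop_nat N)
    refine this.congr fun k => ?_
    simp only [Function.comp_apply]
    rw [add_comm]
  have h5 := tendsto_nhds_unique h3 h4
  rw [hz, ← h5]
  ring

lemma zetaApprox_eq {N : ℕ} (hN : 1 ≤ N) {s : ℂ} (hs : 0 < s.re) :
    riemannZeta₁ s - zetaApprox_G N s = - zetaApprox_H N s := by
  set U : Set ℂ := {s : ℂ | 0 < s.re} with hU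
  have hUo : IsOpen U := isOpen_lt continuous_const Complex.continuous_re
  have hUc : IsPreconnected U := (convex_halfSpace_re_gt 0).isPreconnected
  have hf : AnalyticOnNhd ℂ (fun s => riemannZeta₁ s - zetaApprox_G N s) U :=
    ((differentiable_riemannZeta₁.sub (zetaApprox_G_diff hN)).differentiableOn).analyticOnNhd
      hUo
  have hg : AnalyticOnNhd ℂ (fun s => - zetaApprox_H N s) U :=
    (zetaApprox_H_diff hN).neg.analyticOnNhd hUo
  have h2U : (2 : ℂ) ∈ U := by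
    change (0 : ℝ) < (2 : ℂ).re
    norm_num
  have he : (fun s => riemannZeta₁ s - zetaApprox_G N s) =ᶠ[𝓝 2]
      (fun s => - zetaApprox_H N s) := by
    have hV : {s : ℂ | 1 < s.re} ∈ 𝓝 (2 : ℂ) :=
      (isOpen_lt continuous_const Complex.continuous_re).mem_nhds (by
        change (1 : ℝ) < (2 : ℂ).re
        norm_num)
    filter_upwards [hV] with s hs
    exact zetaApprox_eq_of_one_lt hN hs
  exact hf.eqOn_of_preconnected_of_eventuallyEq hg hUc h2U he hs

lemma zetaApprox_H_bound {N : ℕ} (hN : 1 ≤ N) {s : ℂ} (hs : 0 < s.re) :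
    ‖zetaApprox_H N s‖ ≤ ‖s - 1‖ * (‖s‖ * ((N : ℝ) ^ (-s.re) / s.re)) := by
  have hsI : Summable fun i : ℕ => ‖s - 1‖ * (‖s‖ * zetaApprox_I (N + i) s.re) := by
    refine Summable.of_nonneg_of_le (fun i => mul_nonneg (norm_nonneg _)
      (mul_nonneg (norm_nonneg _) zetaApprox_I_nonneg)) (fun i => ?_)
      (((zetaApprox_summable_I N hs).mul_left ‖s‖).mul_left ‖s - 1‖)
    exact mul_le_mul_of_nonneg_left (mul_le_mul_of_nonneg_left
      (zetaApprox_I_le (by omega) hs) (norm_nonneg _)) (norm_nonneg _)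
  have h1 : ‖zetaApprox_H N s‖ ≤ ∑' i : ℕ, ‖s - 1‖ * (‖s‖ * zetaApprox_I (N + i) s.re) :=
    tsum_of_norm_bounded hsI.hasSum (fun i => zetaApprox_F_bound (by omega) hs)
  refine h1.trans ?_
  rw [tsum_mul_left, tsum_mul_left]
  refine mul_le_mul_of_nonneg_left (mul_le_mul_of_nonneg_left ?_ (norm_nonneg _))
    (norm_nonneg _)
  refine Real.tsum_le_of_sum_range_le (fun i => zetaApprox_I_nonneg) (fun k => ?_)
  have h2 : ∑ i ∈ range k, zetaApprox_I (N + i) s.re =
      ((N : ℝ) ^ (-s.re) - ((N + k : ℕ) : ℝ) ^ (-s.re)) / s.re := by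
    induction k with
    | zero => simp
    | succ k ih =>
      rw [Finset.sum_range_succ, ih, zetaApprox_I_eq (by omega) hs, ← add_assoc]
      ring
  rw [h2]
  refine div_le_div_of_nonneg_right ?_ hs.le
  have : 0 ≤ ((N + k : ℕ) : ℝ) ^ (-s.re) := Real.rpow_nonneg (Nat.cast_nonneg _) _
  linarith

theorem zeta_approx {s : ℂ} (hs : 0 < s.re) (h1 : s ≠ 1) (N : ℕ) (hN : 1 ≤ N) :
    ‖riemannZeta s - zsum s N - (N : ℂ) ^ (1 - s) / (s - 1)‖ ≤
      ‖s‖ * (N : ℝ) ^ (-s.re) / s.re := by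
  have hs1 : s - 1 ≠ 0 := sub_ne_zero.mpr h1
  have h2 := zetaApprox_eq hN hs
  have h3 : (s - 1) * (riemannZeta s - zsum s N - (N : ℂ) ^ (1 - s) / (s - 1)) =
      riemannZeta₁ s - zetaApprox_G N s := by
    rw [riemannZeta_eq_inv_sub_mul h1, zetaApprox_G]
    field_simp
    ring
  have h4 : ‖s - 1‖ * ‖riemannZeta s - zsum s N - (N : ℂ) ^ (1 - s) / (s - 1)‖ ≤
      ‖s - 1‖ * (‖s‖ * ((N : ℝ) ^ (-s.re) / s.re)) := by
    rw [← norm_mul, h3, h2, norm_neg]
    exact zetaApprox_H_bound hN hs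
  have h5 := le_of_mul_le_mul_left h4 (norm_pos_iff.mpr hs1)
  rwa [← mul_div_assoc] at h5

end Pool.Agent.Lib.MP_aa9ae4_nt
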