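import Mathlib
import Pool.Agent.Lib.MP_aa9ae4_nt.Defs
import Pool.Agent.Lib.MP_aa9ae4_nt.ZetaApprox
import Pool.Agent.Lib.MP_aa9ae4_nt.Mertens
import Pool.Agent.Lib.MP_aa9ae4_nt.Rough
import Pool.Agent.Lib.MP_aa9ae4_nt.Expand
import Pool.Agent.Lib.MP_aa9ae4_nt.Rankin

namespace Pool.Agent.Lib.MP_aa9ae4_nt

open Finset MeasureTheory Filter Topology
open Complex (I)

theorem except_blocks (z J : ℕ) (f : ℕ → ℂ) :
    ∑ k ∈ Ioc z (z * 2 ^ J), f k =
      ∑ i ∈ range J, ∑ k ∈ Ioc (z * 2 ^ i) (2 * (z * 2 ^ i)), f k := by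
  induction J with
  | zero => simp
  | succ J ih =>
    rw [sum_range_succ, ← ih]
    have h1 : z ≤ z * 2 ^ J := Nat.le_mul_of_pos_right _ (by positivity)
    have h2 : z * 2 ^ (J + 1) = 2 * (z * 2 ^ J) := by ring
    rw [h2]
    exact (sum_Ioc_consecutive f h1 (by omega)).symm

theorem except_markov (g : ℝ → ℂ) (hg : Continuous g) (U V M : ℝ) (m : ℕ) (hV : 0 < V)
    (hU : 0 ≤ U) (hM : ∫ u in U..(2 * U), ‖g u‖ ^ (2 * m) ≤ M) :
    volume {u ∈ Set.Icc U (2 * U) | V < ‖g u‖} ≤ ENNReal.ofReal (M / V ^ (2 * m)) := by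
  set μ := volume.restrict (Set.Icc U (2 * U)) with hμ
  have hc : Continuous (fun u => ‖g u‖ ^ (2 * m)) := by fun_prop
  have hint : Integrable (fun u => ‖g u‖ ^ (2 * m)) μ := hc.continuousOn.integrableOn_Icc
  have h1 : volume {u ∈ Set.Icc U (2 * U) | V < ‖g u‖} ≤
      μ {u | V ^ (2 * m) ≤ ‖g u‖ ^ (2 * m)} := by
    rw [hμ, Measure.restrict_apply (isClosed_le continuous_const hc).measurableSet]
    apply measure_mono
    rintro u ⟨hu, hv⟩
    exact ⟨pow_le_pow_left₀ hV.le hv.le _, hu⟩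
  have h2 := mul_meas_ge_le_integral_of_nonneg (μ := μ) (f := fun u => ‖g u‖ ^ (2 * m))
    (ae_of_all _ fun u => by positivity) hint (V ^ (2 * m))
  have h3 : ∫ u, ‖g u‖ ^ (2 * m) ∂μ ≤ M := by
    rw [intervalIntegral.integral_of_le (by linarith)] at hM
    rw [hμ, integral_Icc_eq_integral_Ioc]
    exact hM
  have h4 : μ.real {u | V ^ (2 * m) ≤ ‖g u‖ ^ (2 * m)} ≤ M / V ^ (2 * m) := by
    rw [le_div_iff₀ (by positivity)]
    rw [mul_comm]
    exact h2.trans h3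
  refine h1.trans ?_
  have hfin : μ {u | V ^ (2 * m) ≤ ‖g u‖ ^ (2 * m)} ≠ ⊤ := by
    have : IsFiniteMeasure μ := by
      rw [hμ]; infer_instance
    exact measure_ne_top _ _
  rw [← ENNReal.ofReal_toReal hfin]
  exact ENNReal.ofReal_le_ofReal h4

theorem except_cont (Y W : ℕ) (c : ℕ → ℂ) :
    Continuous (fun u : ℝ => ∑ k ∈ Ioc Y W, c k * (k : ℂ) ^ (-(1 + u * I))) := by
  refine continuous_finsetSum _ fun k hk => ?_
  have hk0 : (k : ℂ) ≠ 0 := by
    have := (mem_Ioc.1 hk).1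
    exact_mod_cast (by omega : k ≠ 0)
  refine continuous_const.mul ?_
  refine Continuous.const_cpow ?_ (Or.inl hk0)
  fun_prop

theorem except_zsum (u : ℝ) (N : ℕ) : ‖zsum (1 + u * I) N‖ ≤ 1 + Real.log N := by
  unfold zsum
  refine (norm_sum_le _ _).trans ?_
  have h1 : ∑ n ∈ Icc 1 N, ‖(n : ℂ) ^ (-(1 + u * I))‖ = (harmonic N : ℝ) := by
    rw [harmonic_eq_sum_Icc]
    push_cast
    refine sum_congr rfl fun n hn => ?_
    have hn1 : 0 < n := by
      have := (mem_Icc.1 hn).1; omega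
    rw [Complex.norm_natCast_cpow_of_pos hn1]
    have : (-(1 + (u : ℂ) * I)).re = -1 := by simp
    rw [this, Real.rpow_neg_one]
  rw [h1]
  exact harmonic_le_one_add_log N

theorem except_eul (C : ℝ) (z : ℕ)
    (h : ∑ p ∈ (Icc 1 z).filter Nat.Prime, (1 : ℝ) / p ≤ Real.log (Real.log z + 1) + C) (u : ℝ) :
    ‖eul 0 z u‖ ≤ Real.exp C * (Real.log z + 1) := by
  unfold eul
  rw [norm_prod]
  have hI : (Ioc 0 z).filter Nat.Prime = (Icc 1 z).filter Nat.Prime := by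
    ext p
    simp only [mem_filter, mem_Ioc, mem_Icc]
    constructor <;> rintro ⟨⟨h1, h2⟩, h3⟩ <;> exact ⟨⟨by omega, h2⟩, h3⟩
  rw [hI]
  have hlog : 0 < Real.log z + 1 := by
    have : 0 ≤ Real.log z := Real.log_natCast_nonneg z
    linarith
  calc ∏ p ∈ (Icc 1 z).filter Nat.Prime, ‖1 - (p : ℂ) ^ (-(1 + u * I))‖
      ≤ ∏ p ∈ (Icc 1 z).filter Nat.Prime, Real.exp ((1 : ℝ) / p) := by
        refine prod_le_prod (fun _ _ => norm_nonneg _) fun p hp => ?_
        have hp0 : 0 < p := (mem_filter.1 hp).2.pos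
        refine (norm_sub_le _ _).trans ?_
        rw [norm_one, Complex.norm_natCast_cpow_of_pos hp0]
        have : (-(1 + (u : ℂ) * I)).re = -1 := by simp
        rw [this, Real.rpow_neg_one, one_div]
        linarith [Real.add_one_le_exp ((p : ℝ)⁻¹)]
    _ = Real.exp (∑ p ∈ (Icc 1 z).filter Nat.Prime, (1 : ℝ) / p) := by rw [Real.exp_sum]
    _ ≤ Real.exp (Real.log (Real.log z + 1) + C) := Real.exp_le_exp.2 h
    _ = Real.exp C * (Real.log z + 1) := by
        rw [Real.exp_add, Real.exp_log hlog, mul_comm]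

theorem except_zeta (U u : ℝ) (N : ℕ) (hU : 4 ≤ U) (hu : U ≤ u) (hu2 : u ≤ 2 * U)
    (hN : U ^ 4 ≤ N) : ‖riemannZeta (1 + u * I) - zsum (1 + u * I) N‖ ≤ 2 / U := by
  have hU0 : 0 < U := by linarith
  have hu0 : 0 < u := by linarith
  have hN1 : 1 ≤ N := by
    have : (0 : ℝ) < N := lt_of_lt_of_le (by positivity) hN
    exact_mod_cast this
  have hre : (1 + (u : ℂ) * I).re = 1 := by simp
  have h1 : (1 + (u : ℂ) * I) ≠ 1 := by
    intro h
    have := congrArg Complex.im h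
    simp at this
    linarith
  have h := zeta_approx (s := 1 + u * I) (by rw [hre]; norm_num) h1 N hN1
  rw [hre, div_one, Real.rpow_neg_one] at h
  have h2 : ‖(N : ℂ) ^ (1 - (1 + (u : ℂ) * I)) / ((1 + (u : ℂ) * I) - 1)‖ = 1 / u := by
    rw [norm_div, Complex.norm_natCast_cpow_of_pos (by omega)]
    have e1 : (1 - (1 + (u : ℂ) * I)).re = 0 := by simp
    have e2 : (1 + (u : ℂ) * I) - 1 = u * I := by ring
    rw [e1, e2, Real.rpow_zero, norm_mul, Complex.norm_I, mul_one, Complex.norm_real,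
      Real.norm_of_nonneg hu0.le]
  have h3 : ‖(1 : ℂ) + (u : ℂ) * I‖ ≤ 1 + u := by
    refine (norm_add_le _ _).trans ?_
    rw [norm_one, norm_mul, Complex.norm_I, mul_one, Complex.norm_real,
      Real.norm_of_nonneg hu0.le]
  have hNr : (0 : ℝ) < N := by exact_mod_cast hN1
  have h4 : ‖riemannZeta (1 + u * I) - zsum (1 + u * I) N‖ ≤
      ‖(1 : ℂ) + (u : ℂ) * I‖ * (N : ℝ)⁻¹ + 1 / u := by
    rw [← h2]
    have e : riemannZeta (1 + u * I) - zsum (1 + u * I) N =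
      (riemannZeta (1 + u * I) - zsum (1 + u * I) N -
        (N : ℂ) ^ (1 - (1 + (u : ℂ) * I)) / ((1 + (u : ℂ) * I) - 1)) +
        (N : ℂ) ^ (1 - (1 + (u : ℂ) * I)) / ((1 + (u : ℂ) * I) - 1) := by ring
    rw [e]
    refine (norm_add_le _ _).trans ?_
    gcongr
  refine h4.trans ?_
  have h5 : 1 / u ≤ 1 / U := one_div_le_one_div_of_le hU0 hu
  have h6 : ‖(1 : ℂ) + (u : ℂ) * I‖ * (N : ℝ)⁻¹ ≤ 1 / U := by
    calc ‖(1 : ℂ) + (u : ℂ) * I‖ * (N : ℝ)⁻¹ ≤ (1 + 2 * U) * (U ^ 4)⁻¹ := by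
          gcongr
          linarith
      _ ≤ 1 / U := by
          rw [← div_eq_mul_inv, div_le_div_iff₀ (by positivity) hU0]
          have : U ^ 2 ≥ 16 := by nlinarith
          nlinarith [pow_pos hU0 3, pow_pos hU0 2, mul_pos hU0 hU0,
            mul_nonneg (sq_nonneg U) (sub_nonneg.2 this)]
  calc _ ≤ 1 / U + 1 / U := by linarith
    _ = 2 / U := by ring


theorem except_poly_exp (C b : ℝ) (hb : 0 < b) (n : ℕ) :
    ∀ᶠ x : ℝ in atTop, C * x ^ n ≤ Real.exp (b * x) := by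
  have h := (isLittleO_pow_exp_pos_mul_atTop n hb).const_mul_left C
  have h2 := h.bound (c := 1) one_pos
  filter_upwards [h2] with x hx
  rw [one_mul, Real.norm_of_nonneg (Real.exp_pos _).le] at hx
  exact (le_abs_self _).trans hx

theorem except_log_le : ∀ᶠ x : ℝ in atTop, 6000 * Real.log x ≤ x := by
  have h := Real.isLittleO_log_id_atTop.bound (c := 1 / 6000) (by norm_num)
  filter_upwards [h, eventually_ge_atTop (1 : ℝ)] with x hx hx1
  rw [id, Real.norm_of_nonneg (Real.log_nonneg hx1), Real.norm_of_nonneg (by linarith)] at hx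
  linarith

/-- the numerical core: the size of the loss in the block moment -/
theorem except_loss (L : ℝ) (z Y m : ℕ) (hL : 2000 ≤ L) (hl : 10 ≤ Real.log L)
    (hlL : 6000 * Real.log L ≤ L) (hz : L ^ 100 ≤ z) (hzY : z ≤ Y)
    (hm : m = ⌈L / Real.log Y⌉₊) :
    1 ≤ m ∧ Real.exp L ≤ (Y : ℝ) ^ m ∧
      L ^ (6 * m) * 2 ^ m * (m : ℝ) ^ (m * Real.log (2 * Y) / Real.log z) ≤
        Real.exp (0.09 * L) := by
  have hL0 : 0 < L := by linarith
  set l := Real.log L with hldef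
  have hl0 : 0 < l := by linarith
  have hzr : (0 : ℝ) < z := lt_of_lt_of_le (by positivity) hz
  have hYr : (z : ℝ) ≤ Y := by exact_mod_cast hzY
  have hY0 : (0 : ℝ) < Y := lt_of_lt_of_le hzr hYr
  have hlz : 100 * l ≤ Real.log z := by
    have := Real.log_le_log (by positivity) hz
    rw [Real.log_pow] at this
    exact_mod_cast this
  have hlzY : Real.log z ≤ Real.log Y := Real.log_le_log hzr hYr
  have hlY0 : 0 < Real.log Y := by linarith [mul_pos (by norm_num : (0:ℝ) < 100) hl0]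
  have hlz0 : 0 < Real.log z := by linarith [mul_pos (by norm_num : (0:ℝ) < 100) hl0]
  have hq0 : 0 < L / Real.log Y := by positivity
  have hm1 : 1 ≤ m := by rw [hm]; exact Nat.ceil_pos.2 hq0
  have hmge : L / Real.log Y ≤ m := by rw [hm]; exact Nat.le_ceil _
  have hmlt : (m : ℝ) < L / Real.log Y + 1 := by rw [hm]; exact Nat.ceil_lt_add_one hq0.le
  have hmr : (1 : ℝ) ≤ m := by exact_mod_cast hm1
  have hml : (m : ℝ) * l ≤ L / 100 + l := by
    have h1 : L / Real.log Y ≤ L / (100 * l) := by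
      apply div_le_div_of_nonneg_left hL0.le (by positivity); linarith
    have h2 : L / (100 * l) * l = L / 100 := by field_simp
    nlinarith
  have hmL : (m : ℝ) ≤ L / 1000 + 1 := by
    have h1 : L / Real.log Y ≤ L / 1000 := by
      apply div_le_div_of_nonneg_left hL0.le (by norm_num); linarith
    linarith
  refine ⟨hm1, ?_, ?_⟩
  · have h1 : L ≤ m * Real.log Y := by
      rw [div_le_iff₀ hlY0] at hmge; exact hmge
    calc Real.exp L ≤ Real.exp (m * Real.log Y) := Real.exp_le_exp.2 h1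
      _ = (Y : ℝ) ^ m := by
        rw [← Real.log_pow, Real.exp_log (by positivity)]
  · have e1 : L ^ (6 * m) = Real.exp (6 * m * l) := by
      have : (6 * m * l : ℝ) = Real.log (L ^ (6 * m)) := by
        rw [Real.log_pow]; push_cast; ring
      rw [this, Real.exp_log (by positivity)]
    have e2 : (2 : ℝ) ^ m ≤ Real.exp m := by
      have : Real.exp (m : ℝ) = (Real.exp 1) ^ m := by
        rw [← Real.exp_nat_mul, mul_one]
      rw [this]
      have h2 : (2 : ℝ) ≤ Real.exp 1 := by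
        have := Real.add_one_le_exp (1 : ℝ); linarith
      exact pow_le_pow_left₀ (by norm_num) h2 m
    have e3 : (m : ℝ) ^ (m * Real.log (2 * Y) / Real.log z) ≤ Real.exp (0.021 * L) := by
      rw [Real.rpow_def_of_pos (by linarith)]
      apply Real.exp_le_exp.2
      rcases Nat.lt_or_ge m 2 with h | h
      · have : m = 1 := by omega
        rw [this]
        simp
        linarith
      · have hm2 : (2 : ℝ) ≤ m := by exact_mod_cast h
        have h1 : Real.log Y < L := by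
          have : 1 < L / Real.log Y := by linarith
          rwa [lt_div_iff₀ hlY0, one_mul] at this
        have h2 : (m : ℝ) * Real.log Y ≤ 2 * L := by
          have : (m : ℝ) * Real.log Y < (L / Real.log Y + 1) * Real.log Y :=
            mul_lt_mul_of_pos_right hmlt hlY0
          have e : (L / Real.log Y + 1) * Real.log Y = L + Real.log Y := by
            field_simp
          linarith
        have h3 : Real.log (2 * Y) ≤ 1 + Real.log Y := by
          rw [Real.log_mul (by norm_num) hY0.ne']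
          linarith [Real.log_two_lt_d9]
        have h4 : (m : ℝ) * Real.log (2 * Y) ≤ 2.002 * L := by
          have : (m : ℝ) * Real.log (2 * Y) ≤ m * (1 + Real.log Y) := by gcongr
          nlinarith
        have h5 : Real.log m ≤ l := by
          apply Real.log_le_log (by linarith)
          linarith
        have h6 : 0 ≤ Real.log m := Real.log_nonneg hmr
        have h7 : (m : ℝ) * Real.log (2 * Y) / Real.log z ≤ 2.002 * L / (100 * l) := by
          apply div_le_div₀ (by positivity) h4 (by positivity) hlz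
        calc Real.log m * (m * Real.log (2 * Y) / Real.log z)
            ≤ l * (2.002 * L / (100 * l)) := by
              apply mul_le_mul h5 h7 _ hl0.le
              apply div_nonneg _ hlz0.le
              apply mul_nonneg (by linarith)
              apply Real.log_nonneg
              have : (1 : ℝ) ≤ Y := by
                have : 0 < Y := by exact_mod_cast hY0
                exact_mod_cast this
              linarith
          _ = 0.02002 * L := by field_simp; norm_num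
          _ ≤ 0.021 * L := by nlinarith
    calc L ^ (6 * m) * 2 ^ m * (m : ℝ) ^ (m * Real.log (2 * Y) / Real.log z)
        ≤ Real.exp (6 * m * l) * Real.exp m * Real.exp (0.021 * L) := by
          rw [e1]
          gcongr
      _ = Real.exp (6 * m * l + m + 0.021 * L) := by
          rw [Real.exp_add, Real.exp_add]
      _ ≤ Real.exp (0.09 * L) := by
          apply Real.exp_le_exp.2
          nlinarith


theorem except_fine (C : ℝ) (hC : 0 < C)
    (hrough : ∀ (U : ℝ) (z Y m : ℕ) (c : ℕ → ℂ), 1 ≤ U → 2 ≤ z →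
    z ≤ Y → 1 ≤ m → (∀ k ∈ Ioc Y (2 * Y), ‖c k‖ ≤ 1) →
    (∀ k ∈ Ioc Y (2 * Y), c k ≠ 0 → ∀ p : ℕ, p.Prime → p ∣ k → z < p) →
    ∫ u in U..(2 * U), ‖∑ k ∈ Ioc Y (2 * Y), c k * (k : ℂ) ^ (-(1 + u * I))‖ ^ (2 * m) ≤
      C * (U + (2 * Y) ^ m) * (m : ℝ) ^ (m * Real.log (2 * Y) / Real.log z) / (Y : ℝ) ^ m)
    (U L : ℝ) (hUL : U = Real.exp L) (hL : 2000 ≤ L) (hl : 10 ≤ Real.log L)
    (hlL : 6000 * Real.log L ≤ L) (h2C : 2 * C ≤ Real.exp (0.01 * L))
    (z Y : ℕ) (c : ℕ → ℂ) (hz2 : 2 ≤ z) (hz : L ^ 100 ≤ z) (hzY : z ≤ Y)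
    (hc1 : ∀ k ∈ Ioc Y (2 * Y), ‖c k‖ ≤ 1)
    (hc2 : ∀ k ∈ Ioc Y (2 * Y), c k ≠ 0 → ∀ p : ℕ, p.Prime → p ∣ k → z < p) :
    volume {u ∈ Set.Icc U (2 * U) | 1 / L ^ 3 <
      ‖∑ k ∈ Ioc Y (2 * Y), c k * (k : ℂ) ^ (-(1 + u * I))‖} ≤
      ENNReal.ofReal (Real.exp (0.1 * L)) := by
  have hL0 : 0 < L := by linarith
  obtain ⟨hm1, hUY, hloss⟩ := except_loss L z Y ⌈L / Real.log Y⌉₊ hL hl hlL hz hzY rfl
  set m := ⌈L / Real.log Y⌉₊ with hm
  have hU1 : 1 ≤ U := by rw [hUL]; exact Real.one_le_exp hL0.le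
  have hY0 : (0 : ℝ) < Y := by exact_mod_cast (by omega : 0 < Y)
  have h1 := hrough U z Y m c hU1 hz2 hzY hm1 hc1 hc2
  refine (except_markov _ (except_cont Y (2 * Y) c) U (1 / L ^ 3) _ m (by positivity)
    (by linarith) h1).trans ?_
  apply ENNReal.ofReal_le_ofReal
  set R : ℝ := (m : ℝ) ^ (m * Real.log (2 * Y) / Real.log z) with hR
  have hR0 : 0 ≤ R := by positivity
  have hV : (1 / L ^ 3) ^ (2 * m) = 1 / L ^ (6 * m) := by
    rw [div_pow, one_pow, ← pow_mul]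
    congr 2
    ring
  rw [hV, div_div_eq_mul_div, div_one]
  have h2 : U + (2 * (Y : ℝ)) ^ m ≤ 2 * (2 ^ m * (Y : ℝ) ^ m) := by
    rw [mul_pow]
    have : (1 : ℝ) ≤ 2 ^ m := one_le_pow₀ (by norm_num)
    have hYm : 0 < (Y : ℝ) ^ m := by positivity
    rw [hUL]
    nlinarith
  calc C * (U + (2 * (Y : ℝ)) ^ m) * R / (Y : ℝ) ^ m * L ^ (6 * m)
      ≤ C * (2 * (2 ^ m * (Y : ℝ) ^ m)) * R / (Y : ℝ) ^ m * L ^ (6 * m) := by gcongr
    _ = 2 * C * (L ^ (6 * m) * 2 ^ m * R) := by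
        field_simp
    _ ≤ Real.exp (0.01 * L) * Real.exp (0.09 * L) := by
        gcongr
    _ = Real.exp (0.1 * L) := by
        rw [← Real.exp_add]
        congr 1
        ring

theorem except_coarse (C : ℝ) (hC : 0 < C)
    (hcoarse : ∀ (U : ℝ) (Y : ℕ) (c : ℕ → ℂ), 1 ≤ U → 1 ≤ Y →
    (∀ k ∈ Ioc Y (2 * Y), ‖c k‖ ≤ (Nat.divisors k).card) →
    ∫ u in U..(2 * U), ‖∑ k ∈ Ioc Y (2 * Y), c k * (k : ℂ) ^ (-(1 + u * I))‖ ^ 2 ≤
      C * ((U + Y) / Y) * (1 + Real.log (2 * Y)) ^ 4)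
    (U L : ℝ) (hUL : U = Real.exp L) (hL : 2000 ≤ L)
    (hnum : 2 * C * 16 ^ 4 * L ^ 10 ≤ Real.exp (0.1 * L))
    (Y : ℕ) (c : ℕ → ℂ) (hUY : U ≤ Y) (hYL : 1 + Real.log (2 * Y) ≤ 16 * L)
    (hc : ∀ k ∈ Ioc Y (2 * Y), ‖c k‖ ≤ (Nat.divisors k).card) :
    volume {u ∈ Set.Icc U (2 * U) | 1 / L ^ 3 <
      ‖∑ k ∈ Ioc Y (2 * Y), c k * (k : ℂ) ^ (-(1 + u * I))‖} ≤
      ENNReal.ofReal (Real.exp (0.1 * L)) := by
  have hL0 : 0 < L := by linarith
  have hU1 : 1 ≤ U := by rw [hUL]; exact Real.one_le_exp hL0.le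
  have hY1r : (1 : ℝ) ≤ Y := hU1.trans hUY
  have hY1 : 1 ≤ Y := by exact_mod_cast hY1r
  have hY0 : (0 : ℝ) < Y := by linarith
  have h1 := hcoarse U Y c hU1 hY1 hc
  refine (except_markov _ (except_cont Y (2 * Y) c) U (1 / L ^ 3) _ 1 (by positivity)
    (by linarith) (by simpa using h1)).trans ?_
  apply ENNReal.ofReal_le_ofReal
  have hV : (1 / L ^ 3) ^ (2 * 1) = 1 / L ^ 6 := by
    rw [div_pow, one_pow, ← pow_mul]
  rw [hV, div_div_eq_mul_div, div_one]
  have h2 : (U + (Y : ℝ)) / Y ≤ 2 := by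
    rw [div_le_iff₀ hY0]; linarith
  have h3 : 0 ≤ 1 + Real.log (2 * Y) := by
    have : 0 ≤ Real.log (2 * (Y : ℝ)) := Real.log_nonneg (by linarith)
    linarith
  calc C * ((U + (Y : ℝ)) / Y) * (1 + Real.log (2 * Y)) ^ 4 * L ^ 6
      ≤ C * 2 * (16 * L) ^ 4 * L ^ 6 := by gcongr
    _ = 2 * C * 16 ^ 4 * L ^ 10 := by ring
    _ ≤ _ := hnum

/-- the pointwise estimate outside the exceptional set -/
theorem except_point (L U a1 : ℝ) (Z S E M : ℂ) (hL : 2000 ≤ L)
    (h1 : ‖S * M - 1‖ ≤ 14 / L ^ 2) (h2 : ‖S‖ ≤ 6 * L) (h3 : ‖E - M‖ ≤ L ^ (-3 : ℝ))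
    (h4 : ‖Z - S‖ ≤ 2 / U) (h5 : ‖E‖ ≤ a1 * (L + 1)) (hU : 0 < U) (ha1 : 0 < a1)
    (h6 : 16 * a1 * L ^ 2 ≤ U) : ‖Z * E - 1‖ ≤ 1 / L := by
  have hL0 : 0 < L := by linarith
  have e : Z * E - 1 = (S * M - 1) + S * (E - M) + (Z - S) * E := by ring
  have hr : L ^ (-3 : ℝ) = 1 / L ^ 3 := by
    rw [Real.rpow_neg hL0.le, one_div]
    norm_cast
  rw [hr] at h3
  have g1 : ‖S * (E - M)‖ ≤ 6 / L ^ 2 := by
    rw [norm_mul]
    calc ‖S‖ * ‖E - M‖ ≤ (6 * L) * (1 / L ^ 3) := by gcongr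
      _ = 6 / L ^ 2 := by field_simp
  have g2 : ‖(Z - S) * E‖ ≤ 1 / (4 * L) := by
    rw [norm_mul]
    calc ‖Z - S‖ * ‖E‖ ≤ (2 / U) * (a1 * (L + 1)) := by gcongr
      _ ≤ 1 / (4 * L) := by
        rw [div_mul_eq_mul_div, div_le_div_iff₀ hU (by positivity)]
        nlinarith [mul_pos ha1 hL0]
  have g3 : 14 / L ^ 2 + 6 / L ^ 2 ≤ 1 / (2 * L) := by
    rw [← add_div, div_le_div_iff₀ (by positivity) (by positivity)]
    nlinarith
  have g4 : 1 / (2 * L) + 1 / (4 * L) ≤ 1 / L := by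
    have : 1 / (2 * L) + 1 / (4 * L) = (3 / 4) * (1 / L) := by field_simp; norm_num
    rw [this]
    have : 0 < 1 / L := by positivity
    linarith
  rw [e]
  calc ‖(S * M - 1) + S * (E - M) + (Z - S) * E‖
      ≤ ‖S * M - 1‖ + ‖S * (E - M)‖ + ‖(Z - S) * E‖ := norm_add₃_le
    _ ≤ 14 / L ^ 2 + 6 / L ^ 2 + 1 / (4 * L) := by gcongr
    _ ≤ 1 / L := by linarith


theorem except_size (U : ℝ) (z : ℕ) (hz0 : 0 < z) (hzU : (z : ℝ) ≤ U ^ 3) :
    ∃ i0 : ℕ, U ^ 3 ≤ ((z * 2 ^ i0 : ℕ) : ℝ) ∧ ((z * 2 ^ i0 : ℕ) : ℝ) ≤ 2 * U ^ 3 := by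
  have hzr : (0 : ℝ) < z := by exact_mod_cast hz0
  obtain ⟨n, hn1, hn2⟩ := exists_nat_pow_near (x := U ^ 3 / z) (y := 2)
    ((one_le_div hzr).2 hzU) (by norm_num)
  refine ⟨n + 1, ?_, ?_⟩
  · rw [div_lt_iff₀ hzr] at hn2
    push_cast
    linarith
  · rw [le_div_iff₀ hzr] at hn1
    push_cast
    rw [pow_succ]
    linarith

theorem exceptional : ∃ U₀ : ℝ, 0 < U₀ ∧ ∀ U : ℝ, U₀ ≤ U → ∀ z : ℕ,
    (Real.log U) ^ 100 ≤ z → (z : ℝ) ≤ (Real.log U) ^ 300 →
    volume {u ∈ Set.Icc U (2 * U) | 1 / Real.log U < ‖riemannZeta (1 + u * I) * eul 0 z u - 1‖} ≤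
      ENNReal.ofReal (U ^ (1 / 9 : ℝ)) := by
  obtain ⟨C₁, hC₁, hrough⟩ := rough_moment
  obtain ⟨C₂, hC₂, hcoarse⟩ := coarse_block
  obtain ⟨C₃, hC₃, hmert⟩ := sum_inv_primes_le
  obtain ⟨U₁, hU₁, hrank⟩ := rankin_tail
  have hev : ∀ᶠ U : ℝ in atTop, 1 ≤ U ∧ 2000 ≤ Real.log U ∧ 10 ≤ Real.log (Real.log U) ∧
      6000 * Real.log (Real.log U) ≤ Real.log U ∧ 2 * C₁ ≤ Real.exp (0.01 * Real.log U) ∧
      2 * C₂ * 16 ^ 4 * (Real.log U) ^ 10 ≤ Real.exp (0.1 * Real.log U) ∧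
      (Real.log U) ^ 300 ≤ Real.exp (Real.log U) ∧
      16 * Real.exp C₃ * (Real.log U) ^ 2 ≤ Real.exp (Real.log U) ∧
      14 * Real.log U ≤ Real.exp (0.011 * Real.log U) := by
    have hx : ∀ᶠ x : ℝ in atTop, 2000 ≤ x ∧ 10 ≤ Real.log x ∧
      6000 * Real.log x ≤ x ∧ 2 * C₁ ≤ Real.exp (0.01 * x) ∧
      2 * C₂ * 16 ^ 4 * x ^ 10 ≤ Real.exp (0.1 * x) ∧
      x ^ 300 ≤ Real.exp x ∧
      16 * Real.exp C₃ * x ^ 2 ≤ Real.exp x ∧
      14 * x ≤ Real.exp (0.011 * x) := by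
      filter_upwards [eventually_ge_atTop (2000 : ℝ),
        Real.tendsto_log_atTop.eventually_ge_atTop (10 : ℝ), except_log_le,
        except_poly_exp (2 * C₁) 0.01 (by norm_num) 0,
        except_poly_exp (2 * C₂ * 16 ^ 4) 0.1 (by norm_num) 10,
        except_poly_exp 1 1 (by norm_num) 300,
        except_poly_exp (16 * Real.exp C₃) 1 (by norm_num) 2,
        except_poly_exp 14 0.011 (by norm_num) 1] with x h1 h2 h3 h4 h5 h6 h7 h8
      refine ⟨h1, h2, h3, by simpa using h4, h5, by simpa using h6, by simpa using h7,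
        by simpa using h8⟩
    filter_upwards [eventually_ge_atTop (1 : ℝ), Real.tendsto_log_atTop.eventually hx]
      with U h1 h2
    exact ⟨h1, h2⟩
  obtain ⟨U₂, hU₂⟩ := eventually_atTop.1 hev
  refine ⟨max U₁ U₂, lt_of_lt_of_le hU₁ (le_max_left _ _), fun U hU z hz1 hz2 => ?_⟩
  have hUU₁ : U₁ ≤ U := (le_max_left _ _).trans hU
  obtain ⟨hU1, hL, hl, hlL, hn1, hn2, hn3, hn4, hn5⟩ := hU₂ U ((le_max_right _ _).trans hU)
  have hU0 : 0 < U := by linarith
  have hexp : Real.exp (Real.log U) = U := Real.exp_log hU0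
  rw [hexp] at hn3 hn4
  set L := Real.log U with hLdef
  have hL0 : 0 < L := by linarith
  have hzr1 : (L : ℝ) ≤ z := by
    refine le_trans ?_ hz1
    exact le_self_pow₀ (by linarith) (by norm_num)
  have hz2000 : (2000 : ℝ) ≤ z := hL.trans hzr1
  have hz0 : 0 < z := by
    have : (0 : ℝ) < z := by linarith
    exact_mod_cast this
  have hz2' : 2 ≤ z := by
    have : (2 : ℝ) ≤ z := by linarith
    exact_mod_cast this
  have hzU : (z : ℝ) ≤ U := hz2.trans hn3
  have hU2000 : 2000 ≤ U := hz2000.trans hzU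
  have hU3 : U ≤ U ^ 3 := le_self_pow₀ hU1 (by norm_num)
  obtain ⟨i0, hD1, hD2⟩ := except_size U z hz0 (hzU.trans hU3)
  set D := z * 2 ^ i0 with hDdef
  set N := ⌈U ^ 4⌉₊ with hNdef
  have hN1 : U ^ 4 ≤ N := Nat.le_ceil _
  have hN2 : (N : ℝ) ≤ 2 * U ^ 4 := by
    have h1 : (N : ℝ) < U ^ 4 + 1 := Nat.ceil_lt_add_one (by positivity)
    have h2 : 1 ≤ U ^ 4 := one_le_pow₀ hU1
    linarith
  have hzD : z ≤ D := Nat.le_mul_of_pos_right _ (by positivity)
  have hDN : D ≤ N := by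
    have : (D : ℝ) ≤ N := by
      refine hD2.trans (le_trans ?_ hN1)
      have : U ^ 4 = U * U ^ 3 := by ring
      rw [this]
      gcongr
      linarith
    exact_mod_cast this
  have hNpos : 1 ≤ N := by
    have : 0 < D := by positivity
    omega
  obtain ⟨c, hcd, hc1, hc2, hcexp⟩ := mollified_expansion z D N (by omega) hzD hDN
  set J := ⌈13 * L⌉₊ with hJdef
  have hJ1 : 13 * L ≤ J := Nat.le_ceil _
  have hJ2 : (J : ℝ) ≤ 14 * L := by
    have : (J : ℝ) < 13 * L + 1 := Nat.ceil_lt_add_one (by positivity)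
    linarith
  have h2J : U ^ 9 ≤ (2 : ℝ) ^ J := by
    have h1 : 9 * L ≤ J * Real.log 2 := by
      have := Real.log_two_gt_d9
      nlinarith
    have e1 : U ^ 9 = Real.exp (9 * L) := by
      rw [← hexp, ← Real.exp_nat_mul]; norm_num
    have e2 : (2 : ℝ) ^ J = Real.exp (J * Real.log 2) := by
      rw [← Real.log_pow, Real.exp_log (by positivity)]
    rw [e1, e2]
    exact Real.exp_le_exp.2 h1
  have hNDJ : N * D ≤ z * 2 ^ J := by
    have h1 : ((N * D : ℕ) : ℝ) ≤ ((z * 2 ^ J : ℕ) : ℝ) := by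
      push_cast
      calc (N : ℝ) * D ≤ (2 * U ^ 4) * (2 * U ^ 3) := by gcongr
        _ = 4 * U ^ 7 := by ring
        _ ≤ U ^ 2 * U ^ 7 := by gcongr; nlinarith
        _ = 1 * U ^ 9 := by ring
        _ ≤ z * 2 ^ J := by gcongr; linarith
    exact_mod_cast h1
  -- the truncated coefficients
  set c' : ℕ → ℂ := fun k => if k ≤ N * D then c k else 0 with hc'
  have hsum : ∀ u : ℝ, ∑ k ∈ Ioc z (N * D), c k * (k : ℂ) ^ (-(1 + u * I)) =
      ∑ i ∈ range J, ∑ k ∈ Ioc (z * 2 ^ i) (2 * (z * 2 ^ i)),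
        c' k * (k : ℂ) ^ (-(1 + u * I)) := by
    intro u
    rw [← except_blocks z J (fun k => c' k * (k : ℂ) ^ (-(1 + u * I)))]
    have h1 : ∑ k ∈ Ioc z (N * D), c k * (k : ℂ) ^ (-(1 + u * I)) =
        ∑ k ∈ Ioc z (N * D), c' k * (k : ℂ) ^ (-(1 + u * I)) := by
      refine sum_congr rfl fun k hk => ?_
      simp only [hc', if_pos (mem_Ioc.1 hk).2]
    rw [h1]
    refine sum_subset (Ioc_subset_Ioc_right hNDJ) fun k hk hk' => ?_
    have : ¬ k ≤ N * D := by
      intro h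
      exact hk' (mem_Ioc.2 ⟨(mem_Ioc.1 hk).1, h⟩)
    simp only [hc', if_neg this, zero_mul]
  have hlogz : Real.log z ≤ L := by
    have h1 : Real.log z ≤ Real.log (L ^ 300) := Real.log_le_log (by linarith) hz2
    rw [Real.log_pow] at h1
    push_cast at h1
    linarith
  have hND0 : D ≤ N * D := Nat.le_mul_of_pos_left _ (by omega)
  -- the blocks
  have hblock : ∀ i ∈ range J, volume {u ∈ Set.Icc U (2 * U) | 1 / L ^ 3 <
      ‖∑ k ∈ Ioc (z * 2 ^ i) (2 * (z * 2 ^ i)), c' k * (k : ℂ) ^ (-(1 + u * I))‖} ≤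
      ENNReal.ofReal (Real.exp (0.1 * L)) := by
    intro i hi
    rw [mem_range] at hi
    have hzY : z ≤ z * 2 ^ i := Nat.le_mul_of_pos_right _ (by positivity)
    rcases Nat.lt_or_ge i i0 with h | h
    · have h2Y : 2 * (z * 2 ^ i) ≤ D := by
        have : 2 ^ (i + 1) ≤ 2 ^ i0 := Nat.pow_le_pow_right (by norm_num) h
        calc 2 * (z * 2 ^ i) = z * 2 ^ (i + 1) := by ring
          _ ≤ z * 2 ^ i0 := Nat.mul_le_mul_left _ this
      have hmem : ∀ k ∈ Ioc (z * 2 ^ i) (2 * (z * 2 ^ i)), z < k ∧ k ≤ D := by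
        intro k hk
        rw [mem_Ioc] at hk
        exact ⟨by omega, by omega⟩
      refine except_fine C₁ hC₁ hrough U L hexp.symm hL hl hlL hn1 z (z * 2 ^ i) c' hz2' hz1
        hzY ?_ ?_
      · intro k hk
        obtain ⟨h1, h2⟩ := hmem k hk
        simp only [hc', if_pos (h2.trans hND0)]
        exact hc1 k h1 h2
      · intro k hk hk0 p hp hpk
        obtain ⟨h1, h2⟩ := hmem k hk
        simp only [hc', if_pos (h2.trans hND0)] at hk0
        exact hc2 k h1 h2 hk0 p hp hpk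
    · have hYD : D ≤ z * 2 ^ i :=
        Nat.mul_le_mul_left _ (Nat.pow_le_pow_right (by norm_num) h)
      refine except_coarse C₂ hC₂ hcoarse U L hexp.symm hL hn2 (z * 2 ^ i) c' ?_ ?_ ?_
      · refine hU3.trans (hD1.trans ?_)
        exact_mod_cast hYD
      · have h1 : 2 * ((z * 2 ^ i : ℕ) : ℝ) ≤ (z : ℝ) * 2 ^ J := by
          have : 2 ^ (i + 1) ≤ 2 ^ J := Nat.pow_le_pow_right (by norm_num) hi
          have h3 : 2 * (z * 2 ^ i) ≤ z * 2 ^ J := by
            calc 2 * (z * 2 ^ i) = z * 2 ^ (i + 1) := by ring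
              _ ≤ z * 2 ^ J := Nat.mul_le_mul_left _ this
          exact_mod_cast h3
        have h0 : (0 : ℝ) < ((z * 2 ^ i : ℕ) : ℝ) := by
          have : 0 < z * 2 ^ i := by positivity
          exact_mod_cast this
        have h2 : Real.log (2 * ((z * 2 ^ i : ℕ) : ℝ)) ≤ Real.log z + J * Real.log 2 := by
          rw [← Real.log_pow, ← Real.log_mul (by linarith) (by positivity)]
          exact Real.log_le_log (by linarith) h1
        have h3 : (J : ℝ) * Real.log 2 ≤ 14 * L * 1 := by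
          have := Real.log_two_lt_d9
          have h4 : 0 ≤ Real.log 2 := Real.log_nonneg (by norm_num)
          apply mul_le_mul hJ2 (by linarith) h4 (by positivity)
        have h5 : (J : ℝ) * Real.log 2 ≤ 14 * L * 0.7 := by
          have := Real.log_two_lt_d9
          have h4 : 0 ≤ Real.log 2 := Real.log_nonneg (by norm_num)
          apply mul_le_mul hJ2 (by linarith) h4 (by positivity)
        linarith
      · intro k _
        by_cases hk : k ≤ N * D
        · simp only [hc', if_pos hk]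
          exact hcd k
        · simp only [hc', if_neg hk, norm_zero]
          positivity
  -- the inclusion
  have hincl : {u ∈ Set.Icc U (2 * U) | 1 / L < ‖riemannZeta (1 + u * I) * eul 0 z u - 1‖} ⊆
      ⋃ i ∈ range J, {u ∈ Set.Icc U (2 * U) | 1 / L ^ 3 <
      ‖∑ k ∈ Ioc (z * 2 ^ i) (2 * (z * 2 ^ i)), c' k * (k : ℂ) ^ (-(1 + u * I))‖} := by
    rintro u ⟨hu, hbad⟩
    by_contra hcon
    simp only [Set.mem_iUnion, Set.mem_ofPred_eq, not_exists, not_and, not_lt] at hcon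
    have h1 : ‖zsum (1 + u * I) N * moll z D u - 1‖ ≤ 14 / L ^ 2 := by
      rw [hcexp u, add_sub_cancel_left, hsum u]
      calc _ ≤ ∑ i ∈ range J, ‖∑ k ∈ Ioc (z * 2 ^ i) (2 * (z * 2 ^ i)),
            c' k * (k : ℂ) ^ (-(1 + u * I))‖ := norm_sum_le _ _
        _ ≤ ∑ _i ∈ range J, 1 / L ^ 3 := sum_le_sum fun i hi => hcon i hi hu
        _ = J * (1 / L ^ 3) := by rw [sum_const, card_range, nsmul_eq_mul]
        _ ≤ (14 * L) * (1 / L ^ 3) := by gcongr
        _ = 14 / L ^ 2 := by field_simp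
    have h2 : ‖zsum (1 + u * I) N‖ ≤ 6 * L := by
      refine (except_zsum u N).trans ?_
      have hNr : (0 : ℝ) < N := by exact_mod_cast hNpos
      have h3 : (N : ℝ) ≤ U ^ 5 := by
        refine hN2.trans ?_
        have : U ^ 5 = U * U ^ 4 := by ring
        rw [this]
        gcongr
        linarith
      have h4 : Real.log N ≤ 5 * L := by
        have := Real.log_le_log hNr h3
        rw [Real.log_pow] at this
        exact_mod_cast this
      linarith
    have h3 := hrank U hUU₁ z D hz1 hz2 hD1 u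
    have h4 := except_zeta U u N (by linarith) hu.1 hu.2 hN1
    have h5 : ‖eul 0 z u‖ ≤ Real.exp C₃ * (L + 1) := by
      refine (except_eul C₃ z (hmert z hz2') u).trans ?_
      gcongr
    have h6 := except_point L U (Real.exp C₃) _ _ _ _ hL h1 h2 h3 h4 h5 hU0 (Real.exp_pos _) hn4
    exact absurd hbad (not_lt.2 h6)
  refine (measure_mono hincl).trans ((measure_biUnion_finset_le _ _).trans ?_)
  refine (sum_le_sum hblock).trans ?_
  rw [sum_const, card_range, nsmul_eq_mul, ← ENNReal.ofReal_natCast, ← ENNReal.ofReal_mul (by positivity)]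
  apply ENNReal.ofReal_le_ofReal
  calc (J : ℝ) * Real.exp (0.1 * L) ≤ (14 * L) * Real.exp (0.1 * L) := by gcongr
    _ ≤ Real.exp (0.011 * L) * Real.exp (0.1 * L) := by gcongr
    _ = Real.exp (0.111 * L) := by rw [← Real.exp_add]; congr 1; ring
    _ ≤ Real.exp (L * (1 / 9)) := by
      apply Real.exp_le_exp.2
      nlinarith
    _ = U ^ (1 / 9 : ℝ) := by rw [Real.rpow_def_of_pos hU0]

end Pool.Agent.Lib.MP_aa9ae4_nt
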