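import Mathlib
import Pool.Agent.Lib.MP_aa9ae4_nt.Defs

namespace Pool.Agent.Lib.MP_aa9ae4_nt

open Finset MeasureTheory Filter Topology
open Complex (I)

lemma kuzmin_sin_low {θ d : ℝ} (h1 : θ ≤ d) (h2 : d ≤ 1 - θ) (hθ : 0 < θ) :
    2 * θ ≤ Real.sin (Real.pi * d) := by
  have hpi := Real.pi_pos
  rcases le_total d (1 / 2) with hd | hd
  · have h3 := Real.mul_le_sin (x := Real.pi * d) (mul_nonneg hpi.le (by linarith)) (by nlinarith)
    have h4 : 2 / Real.pi * (Real.pi * d) = 2 * d := by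
      field_simp
    linarith
  · have h3 := Real.mul_le_sin (x := Real.pi * (1 - d)) (by
      apply mul_nonneg hpi.le
      linarith) (by nlinarith)
    have h4 : 2 / Real.pi * (Real.pi * (1 - d)) = 2 * (1 - d) := by
      field_simp
    have h5 : Real.sin (Real.pi * (1 - d)) = Real.sin (Real.pi * d) := by
      rw [mul_sub, mul_one, Real.sin_pi_sub]
    linarith

/-- The cotangent of `π d`. -/
noncomputable def kuzminCot (d : ℝ) : ℝ := Real.cos (Real.pi * d) / Real.sin (Real.pi * d)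

lemma kuzmin_cot_abs {θ d : ℝ} (h1 : θ ≤ d) (h2 : d ≤ 1 - θ) (hθ : 0 < θ) :
    |kuzminCot d| ≤ 1 / (2 * θ) := by
  have h3 := kuzmin_sin_low h1 h2 hθ
  have h4 : 0 < Real.sin (Real.pi * d) := by linarith
  unfold kuzminCot
  rw [abs_div, abs_of_pos h4]
  exact div_le_div₀ zero_le_one (Real.abs_cos_le_one _) (by linarith) h3

lemma kuzmin_cot_anti {θ d d' : ℝ} (h0 : d' ≤ d) (h1 : θ ≤ d') (h2 : d ≤ 1 - θ) (hθ : 0 < θ) :
    kuzminCot d ≤ kuzminCot d' := by
  have hpi := Real.pi_pos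
  have h3 : 0 < Real.sin (Real.pi * d) := by
    linarith [kuzmin_sin_low (h1.trans h0) h2 hθ]
  have h4 : 0 < Real.sin (Real.pi * d') := by
    linarith [kuzmin_sin_low h1 (h0.trans h2) hθ]
  unfold kuzminCot
  rw [div_le_div_iff₀ h3 h4]
  have h5 : 0 ≤ Real.sin (Real.pi * d - Real.pi * d') := by
    apply Real.sin_nonneg_of_nonneg_of_le_pi <;> nlinarith
  rw [Real.sin_sub] at h5
  linarith

/-- The multiplier `1 / (1 - e(d))`. -/
noncomputable def kuzminC (d : ℝ) : ℂ := 1 / 2 + (kuzminCot d / 2 : ℝ) * I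

lemma kuzminC_mul {d : ℝ} (h : 0 < Real.sin (Real.pi * d)) :
    kuzminC d * (1 - Complex.exp (2 * Real.pi * d * I)) = 1 := by
  have h1 : Complex.exp (2 * Real.pi * d * I)
      = (Real.cos (2 * (Real.pi * d)) : ℂ) + Real.sin (2 * (Real.pi * d)) * I := by
    rw [show (2 * Real.pi * d * I : ℂ) = ((2 * (Real.pi * d) : ℝ) : ℂ) * I by push_cast; ring,
      Complex.exp_mul_I, Complex.ofReal_cos, Complex.ofReal_sin]
  have hs : (Real.sin (Real.pi * d) : ℂ) ≠ 0 := by exact_mod_cast h.ne'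
  have h2 : ((Real.sin (Real.pi * d) : ℂ)) ^ 2 + (Real.cos (Real.pi * d) : ℂ) ^ 2 = 1 := by
    exact_mod_cast Real.sin_sq_add_cos_sq (Real.pi * d)
  rw [h1, Real.cos_two_mul, Real.sin_two_mul]
  unfold kuzminC kuzminCot
  push_cast [-Complex.ofReal_cos, -Complex.ofReal_sin]
  have hI : I ^ 2 = -1 := Complex.I_sq
  field_simp
  generalize (Real.sin (Real.pi * d) : ℂ) = s at h2 ⊢
  generalize (Real.cos (Real.pi * d) : ℂ) = c at h2 ⊢
  have h3 : c ^ 2 = 1 - s ^ 2 := by linear_combination h2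
  linear_combination (2 * s + 2 * c * I) * (-1 : ℂ) * h3 + (-(2 : ℂ) * s * c ^ 2) * hI
    + 2 * s * h3

lemma kuzminC_norm {θ d : ℝ} (h1 : θ ≤ d) (h2 : d ≤ 1 - θ) (hθ : 0 < θ) :
    ‖kuzminC d‖ ≤ 1 / (2 * θ) := by
  have h3 := kuzmin_cot_abs h1 h2 hθ
  have h4 : θ ≤ 1 / 2 := by linarith
  unfold kuzminC
  refine (norm_add_le _ _).trans ?_
  rw [norm_mul, Complex.norm_I, mul_one, Complex.norm_real, Real.norm_eq_abs, abs_div, abs_two]
  have h5 : ‖(1 / 2 : ℂ)‖ = 1 / 2 := by
    simp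
  rw [h5]
  have h6 : 1 ≤ 1 / (2 * θ) := by
    rw [le_div_iff₀ (by positivity)]
    linarith
  linarith

lemma kuzminC_sub (d d' : ℝ) : ‖kuzminC d - kuzminC d'‖ = |kuzminCot d - kuzminCot d'| / 2 := by
  have h : kuzminC d - kuzminC d' = (((kuzminCot d - kuzminCot d') / 2 : ℝ) : ℂ) * I := by
    unfold kuzminC
    push_cast
    ring
  rw [h, norm_mul, Complex.norm_I, mul_one, Complex.norm_real, Real.norm_eq_abs, abs_div, abs_two]

lemma kuzmin_norm_e (y : ℝ) : ‖Complex.exp (2 * Real.pi * y * I)‖ = 1 := by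
  rw [show (2 * Real.pi * y * I : ℂ) = ((2 * Real.pi * y : ℝ) : ℂ) * I by push_cast; ring,
    Complex.norm_exp_ofReal_mul_I]

lemma kuzmin_step (x : ℕ → ℝ) (n : ℕ) (h : 0 < Real.sin (Real.pi * (x (n + 1) - x n))) :
    Complex.exp (2 * Real.pi * x n * I)
      = kuzminC (x (n + 1) - x n) * (Complex.exp (2 * Real.pi * x n * I)
        - Complex.exp (2 * Real.pi * x (n + 1) * I)) := by
  have h1 := kuzminC_mul h
  have h2 : Complex.exp (2 * Real.pi * x (n + 1) * I)
      = Complex.exp (2 * Real.pi * x n * I)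
        * Complex.exp (2 * Real.pi * ((x (n + 1) - x n : ℝ) : ℂ) * I) := by
    rw [← Complex.exp_add]
    congr 1
    push_cast
    ring
  rw [h2]
  linear_combination (-(Complex.exp (2 * Real.pi * x n * I))) * h1

theorem kuzmin_landau (x : ℕ → ℝ) (θ : ℝ) (hθ : 0 < θ) (M N : ℕ)
    (hanti : ∀ n, M ≤ n → n + 1 < N → x (n + 2) - x (n + 1) ≤ x (n + 1) - x n)
    (hlow : ∀ n, M ≤ n → n < N → θ ≤ x (n + 1) - x n)
    (hup : ∀ n, M ≤ n → n < N → x (n + 1) - x n ≤ 1 - θ) :
    ‖∑ n ∈ Ico M N, Complex.exp (2 * Real.pi * x n * I)‖ ≤ 2 / θ := by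
  have hsin : ∀ n, M ≤ n → n < N → 0 < Real.sin (Real.pi * (x (n + 1) - x n)) := by
    intro n h1 h2
    linarith [kuzmin_sin_low (hlow n h1 h2) (hup n h1 h2) hθ]
  have key : ∀ k, M + k < N →
      ‖∑ n ∈ Ico M (M + k + 1), Complex.exp (2 * Real.pi * x n * I)
        + kuzminC (x (M + k + 1) - x (M + k))
          * Complex.exp (2 * Real.pi * x (M + k + 1) * I)‖
      ≤ ‖kuzminC (x (M + 1) - x M)‖
        + (kuzminCot (x (M + k + 1) - x (M + k)) - kuzminCot (x (M + 1) - x M)) / 2 := by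
    intro k
    induction k with
    | zero =>
      intro hk
      have h1 := kuzmin_step x M (hsin M le_rfl hk)
      have h2 : ∑ n ∈ Ico M (M + 0 + 1), Complex.exp (2 * Real.pi * x n * I)
          + kuzminC (x (M + 0 + 1) - x (M + 0)) * Complex.exp (2 * Real.pi * x (M + 0 + 1) * I)
          = kuzminC (x (M + 1) - x M) * Complex.exp (2 * Real.pi * x M * I) := by
        rw [add_zero, Nat.Ico_succ_singleton, sum_singleton]
        linear_combination h1
      rw [h2, norm_mul, kuzmin_norm_e, mul_one, add_zero, sub_self, zero_div, add_zero]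
    | succ k ih =>
      intro hk
      have hk' : M + k < N := by omega
      have h0 := ih hk'
      have h1 := kuzmin_step x (M + k + 1) (hsin (M + k + 1) (by omega) (by omega))
      have h2 : ∑ n ∈ Ico M (M + (k + 1) + 1), Complex.exp (2 * Real.pi * x n * I)
          + kuzminC (x (M + (k + 1) + 1) - x (M + (k + 1)))
            * Complex.exp (2 * Real.pi * x (M + (k + 1) + 1) * I)
          = (∑ n ∈ Ico M (M + k + 1), Complex.exp (2 * Real.pi * x n * I)
            + kuzminC (x (M + k + 1) - x (M + k))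
              * Complex.exp (2 * Real.pi * x (M + k + 1) * I))
            + (kuzminC (x (M + k + 1 + 1) - x (M + k + 1))
              - kuzminC (x (M + k + 1) - x (M + k)))
              * Complex.exp (2 * Real.pi * x (M + k + 1) * I) := by
        rw [← add_assoc M k 1, sum_Ico_succ_top (by omega : M ≤ M + k + 1)]
        linear_combination h1
      rw [h2]
      refine (norm_add_le _ _).trans ?_
      rw [norm_mul (kuzminC (x (M + k + 1 + 1) - x (M + k + 1)) - _), kuzmin_norm_e, mul_one,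
        kuzminC_sub]
      have h3 := kuzmin_cot_anti (hanti (M + k) (by omega) (by omega))
        (hlow (M + k + 1) (by omega) (by omega)) (hup (M + k) (by omega) (by omega)) hθ
      have h4 : x (M + k + 2) = x (M + k + 1 + 1) := rfl
      rw [h4] at h3
      rw [abs_of_nonneg (by linarith), ← add_assoc M k 1]
      linarith
  by_cases hMN : M < N
  · obtain ⟨k, rfl⟩ : ∃ k, N = M + k + 1 := ⟨N - M - 1, by omega⟩
    have h1 := key k (by omega)
    have h2 := kuzminC_norm (hlow M le_rfl hMN) (hup M le_rfl hMN) hθ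
    have h3 := kuzminC_norm (hlow (M + k) (by omega) (by omega))
      (hup (M + k) (by omega) (by omega)) hθ
    have h4 := abs_le.1 (kuzmin_cot_abs (hlow M le_rfl hMN) (hup M le_rfl hMN) hθ)
    have h5 := abs_le.1 (kuzmin_cot_abs (hlow (M + k) (by omega) (by omega))
      (hup (M + k) (by omega) (by omega)) hθ)
    have h6 : ∑ n ∈ Ico M (M + k + 1), Complex.exp (2 * Real.pi * x n * I)
        = (∑ n ∈ Ico M (M + k + 1), Complex.exp (2 * Real.pi * x n * I)
          + kuzminC (x (M + k + 1) - x (M + k))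
            * Complex.exp (2 * Real.pi * x (M + k + 1) * I))
          - kuzminC (x (M + k + 1) - x (M + k))
            * Complex.exp (2 * Real.pi * x (M + k + 1) * I) := by ring
    rw [h6]
    refine (norm_sub_le _ _).trans ?_
    rw [norm_mul (kuzminC (x (M + k + 1) - x (M + k))), kuzmin_norm_e, mul_one]
    have h7 : 2 / θ = 4 * (1 / (2 * θ)) := by
      field_simp
      norm_num
    rw [h7]
    have h8 : 0 ≤ 1 / (2 * θ) := by positivity
    linarith [h4.1, h4.2, h5.1, h5.2]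
  · rw [Ico_eq_empty (by omega), sum_empty, norm_zero]
    positivity

lemma kuzmin_log_up {n : ℕ} (hn : 1 ≤ n) :
    Real.log ((n + 1 : ℕ) : ℝ) - Real.log (n : ℝ) ≤ 1 / n := by
  have h0 : (0 : ℝ) < n := by exact_mod_cast hn
  have h1 : (0 : ℝ) < ((n + 1 : ℕ) : ℝ) := by positivity
  rw [← Real.log_div h1.ne' h0.ne']
  refine (Real.log_le_sub_one_of_pos (div_pos h1 h0)).trans ?_
  push_cast
  apply le_of_eq
  field_simp
  ring

lemma kuzmin_log_low {n : ℕ} (hn : 1 ≤ n) :
    1 / ((n : ℝ) + 1) ≤ Real.log ((n + 1 : ℕ) : ℝ) - Real.log (n : ℝ) := by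
  have h0 : (0 : ℝ) < n := by exact_mod_cast hn
  have h1 : (0 : ℝ) < ((n + 1 : ℕ) : ℝ) := by positivity
  have h2 : Real.log ((n + 1 : ℕ) : ℝ) - Real.log (n : ℝ)
      = -Real.log ((n : ℝ) / ((n + 1 : ℕ) : ℝ)) := by
    rw [Real.log_div h0.ne' h1.ne']
    ring
  rw [h2]
  have h3 := Real.log_le_sub_one_of_pos (div_pos h0 h1)
  have h4 : (n : ℝ) / ((n + 1 : ℕ) : ℝ) - 1 = -(1 / ((n : ℝ) + 1)) := by
    push_cast
    field_simp
    ring
  linarith

lemma kuzmin_log_anti {n : ℕ} (hn : 1 ≤ n) :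
    Real.log ((n + 2 : ℕ) : ℝ) - Real.log ((n + 1 : ℕ) : ℝ)
      ≤ Real.log ((n + 1 : ℕ) : ℝ) - Real.log (n : ℝ) := by
  have h0 : (0 : ℝ) < n := by exact_mod_cast hn
  have h1 : (0 : ℝ) < ((n + 1 : ℕ) : ℝ) := by positivity
  have h2 : (0 : ℝ) < ((n + 2 : ℕ) : ℝ) := by positivity
  have h3 : Real.log (((n + 2 : ℕ) : ℝ) * n) ≤ Real.log (((n + 1 : ℕ) : ℝ) * ((n + 1 : ℕ) : ℝ)) := by
    apply Real.log_le_log (mul_pos h2 h0)
    push_cast
    nlinarith
  rw [Real.log_mul h2.ne' h0.ne', Real.log_mul h1.ne' h1.ne'] at h3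
  linarith

theorem sum_cpow_le : ∃ C : ℝ, 0 < C ∧ ∀ t : ℝ, 1 ≤ t → ∀ M N : ℕ, t / 3 ≤ M → M ≤ N →
    ‖∑ n ∈ Ioc M N, (n : ℂ) ^ (-(t * I))‖ ≤ C * N / t := by
  refine ⟨8 * Real.pi, by positivity, ?_⟩
  intro t ht M N hM hMN
  have hpi := Real.pi_pos
  have hpi3 := Real.pi_gt_three
  have ht0 : 0 < t := by linarith
  rcases hMN.lt_or_eq with hlt | heq
  · have hN1 : (1 : ℝ) ≤ N := by
      have : 1 ≤ N := by omega
      exact_mod_cast this
    have hM1 : (1 : ℝ) ≤ (M : ℝ) + 1 := by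
      have : (0 : ℝ) ≤ M := Nat.cast_nonneg M
      linarith
    have hlow : ∀ n, M + 1 ≤ n → n < N + 1 →
        t / (2 * Real.pi * (N + 1)) ≤ t * Real.log ((n + 1 : ℕ) : ℝ) / (2 * Real.pi)
          - t * Real.log (n : ℝ) / (2 * Real.pi) := by
      intro n h1 h2
      have h3 := kuzmin_log_low (n := n) (by omega)
      have h4 : (n : ℝ) ≤ N := by
        have : n ≤ N := by omega
        exact_mod_cast this
      have h5 : 1 / ((N : ℝ) + 1) ≤ 1 / ((n : ℝ) + 1) :=
        one_div_le_one_div_of_le (by positivity) (by linarith)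
      have h6 : t * Real.log ((n + 1 : ℕ) : ℝ) / (2 * Real.pi)
          - t * Real.log (n : ℝ) / (2 * Real.pi)
          = t / (2 * Real.pi) * (Real.log ((n + 1 : ℕ) : ℝ) - Real.log (n : ℝ)) := by ring
      have h7 : t / (2 * Real.pi * (N + 1)) = t / (2 * Real.pi) * (1 / ((N : ℝ) + 1)) := by
        rw [div_mul_div_comm, mul_one]
      rw [h6, h7]
      exact mul_le_mul_of_nonneg_left (h5.trans h3) (by positivity)
    have hup : ∀ n, M + 1 ≤ n → n < N + 1 →
        t * Real.log ((n + 1 : ℕ) : ℝ) / (2 * Real.pi)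
          - t * Real.log (n : ℝ) / (2 * Real.pi) ≤ 1 / 2 := by
      intro n h1 h2
      have h3 := kuzmin_log_up (n := n) (by omega)
      have h4 : t / 3 ≤ n := by
        have : (M : ℝ) + 1 ≤ n := by exact_mod_cast h1
        linarith
      have hn0 : (0 : ℝ) < n := by linarith [div_pos ht0 (by norm_num : (0 : ℝ) < 3)]
      have h6 : t * Real.log ((n + 1 : ℕ) : ℝ) / (2 * Real.pi)
          - t * Real.log (n : ℝ) / (2 * Real.pi)
          = t / (2 * Real.pi) * (Real.log ((n + 1 : ℕ) : ℝ) - Real.log (n : ℝ)) := by ring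
      rw [h6]
      refine (mul_le_mul_of_nonneg_left h3 (by positivity)).trans ?_
      rw [div_mul_div_comm, mul_one, div_le_iff₀ (by positivity)]
      nlinarith
    have hθ2 : t / (2 * Real.pi * (N + 1)) ≤ 1 / 2 :=
      (hlow (M + 1) le_rfl (by omega)).trans (hup (M + 1) le_rfl (by omega))
    have hk := kuzmin_landau (fun n => t * Real.log (n : ℝ) / (2 * Real.pi))
      (t / (2 * Real.pi * (N + 1))) (by positivity) (M + 1) (N + 1) (by
        intro n h1 h2
        have h3 := kuzmin_log_anti (n := n) (by omega)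
        have h4 := mul_le_mul_of_nonneg_left h3 (show 0 ≤ t / (2 * Real.pi) by positivity)
        have h5 : t * Real.log ((n + 2 : ℕ) : ℝ) / (2 * Real.pi)
          - t * Real.log ((n + 1 : ℕ) : ℝ) / (2 * Real.pi)
          = t / (2 * Real.pi) * (Real.log ((n + 2 : ℕ) : ℝ) - Real.log ((n + 1 : ℕ) : ℝ)) := by
          ring
        have h6 : t * Real.log ((n + 1 : ℕ) : ℝ) / (2 * Real.pi)
          - t * Real.log (n : ℝ) / (2 * Real.pi)
          = t / (2 * Real.pi) * (Real.log ((n + 1 : ℕ) : ℝ) - Real.log (n : ℝ)) := by ring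
        show t * Real.log ((n + 2 : ℕ) : ℝ) / (2 * Real.pi)
          - t * Real.log ((n + 1 : ℕ) : ℝ) / (2 * Real.pi)
          ≤ t * Real.log ((n + 1 : ℕ) : ℝ) / (2 * Real.pi)
          - t * Real.log (n : ℝ) / (2 * Real.pi)
        rw [h5, h6]
        exact h4) hlow (by
        intro n h1 h2
        have := hup n h1 h2
        show t * Real.log ((n + 1 : ℕ) : ℝ) / (2 * Real.pi)
          - t * Real.log (n : ℝ) / (2 * Real.pi) ≤ _
        linarith)
    have hset : Ioc M N = Ico (M + 1) (N + 1) := by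
      ext n
      rw [mem_Ioc, mem_Ico]
      omega
    have hterm : ∀ n ∈ Ico (M + 1) (N + 1), (n : ℂ) ^ (-(t * I))
        = (starRingEnd ℂ)
          (Complex.exp (2 * Real.pi * ((t * Real.log (n : ℝ) / (2 * Real.pi) : ℝ) : ℂ) * I)) := by
      intro n hn
      have hn0 : n ≠ 0 := by
        have := (mem_Ico.1 hn).1
        omega
      rw [← Complex.exp_conj, Complex.cpow_def_of_ne_zero (by exact_mod_cast hn0)]
      congr 1
      rw [← Complex.ofReal_natCast, ← Complex.ofReal_log (Nat.cast_nonneg n)]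
      have h1 : (2 * Real.pi * ((t * Real.log (n : ℝ) / (2 * Real.pi) : ℝ) : ℂ) * I)
          = ((t * Real.log (n : ℝ) : ℝ) : ℂ) * I := by
        have h2 : (2 * Real.pi * ((t * Real.log (n : ℝ) / (2 * Real.pi) : ℝ) : ℂ))
            = ((2 * Real.pi * (t * Real.log (n : ℝ) / (2 * Real.pi)) : ℝ) : ℂ) := by
          push_cast
          ring
        rw [h2]
        congr 2
        field_simp
      rw [h1, map_mul, Complex.conj_ofReal, Complex.conj_I]
      push_cast
      ring
    rw [hset, sum_congr rfl hterm, ← map_sum, Complex.norm_conj]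
    refine hk.trans ?_
    rw [div_div_eq_mul_div, div_le_div_iff_of_pos_right ht0]
    nlinarith
  · rw [heq, Ioc_self, sum_empty, norm_zero]
    positivity

end Pool.Agent.Lib.MP_aa9ae4_nt
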