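import Mathlib
import Pool.Agent.Lib.MP_aa9ae4_nt.Defs
import Pool.Agent.Lib.MP_aa9ae4_nt.Kuzmin

namespace Pool.Agent.Lib.MP_aa9ae4_nt

open Finset MeasureTheory Filter Topology
open Complex (I)

theorem vdc_split (d : ℕ → ℝ) (a b : ℕ) (hab : a ≤ b)
    (hanti : ∀ n m, a ≤ n → n ≤ m → d m ≤ d n) (c : ℝ) :
    ∃ s, a ≤ s ∧ s ≤ b ∧ (∀ n, a ≤ n → n < s → c ≤ d n) ∧
      (∀ n, s ≤ n → n < b → d n < c) := by
  induction b, hab using Nat.le_induction with
  | base => exact ⟨a, le_rfl, le_rfl, fun n h1 h2 => by omega, fun n h1 h2 => by omega⟩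
  | succ b hab ih =>
    obtain ⟨s, h1, h2, h3, h4⟩ := ih
    by_cases hs : s = b
    · by_cases hb : c ≤ d b
      · refine ⟨b + 1, by omega, le_rfl, fun n hn1 hn2 => ?_, fun n hn1 hn2 => by omega⟩
        by_cases hnb : n < b
        · exact h3 n hn1 (by omega)
        · have h5 : n = b := by omega
          rw [h5]
          exact hb
      · refine ⟨b, hab, by omega, fun n hn1 hn2 => h3 n hn1 (by omega), fun n hn1 hn2 => ?_⟩
        have h5 : n = b := by omega
        rw [h5]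
        exact not_le.mp hb
    · refine ⟨s, h1, by omega, h3, fun n hn1 hn2 => ?_⟩
      by_cases hnb : n < b
      · exact h4 n hn1 hnb
      · have h5 : n = b := by omega
        rw [h5]
        exact lt_of_le_of_lt (hanti s b h1 (by omega)) (h4 s le_rfl (by omega))

theorem vdc_count (d : ℕ → ℝ) (a b : ℕ) (hab : a ≤ b) (lam : ℝ) (hlam : 0 < lam)
    (hgap : ∀ n, a ≤ n → n + 1 < b → lam ≤ d n - d (n + 1)) (c w : ℝ) (hw : 0 ≤ w)
    (hl : ∀ n, a ≤ n → n < b → c ≤ d n) (hu : ∀ n, a ≤ n → n < b → d n ≤ c + w) :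
    (b : ℝ) - a ≤ w / lam + 1 := by
  rcases Nat.eq_or_lt_of_le hab with h | h
  · rw [h, sub_self]
    positivity
  · have h1 : ∀ j : ℕ, a + j < b → (j : ℝ) * lam ≤ d a - d (a + j) := by
      intro j
      induction j with
      | zero => intro _; simp
      | succ j ih =>
        intro hj
        have h2 := ih (by omega)
        have h3 := hgap (a + j) (by omega) (by omega)
        rw [show a + (j + 1) = a + j + 1 by omega]
        push_cast
        linarith
    obtain ⟨j, hj⟩ : ∃ j, b = a + j + 1 := ⟨b - a - 1, by omega⟩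
    have h2 := h1 j (by omega)
    have h3 := hl (a + j) (by omega) (by omega)
    have h4 := hu a le_rfl h
    have h5 : (j : ℝ) ≤ w / lam := by
      rw [le_div_iff₀ hlam]
      linarith
    rw [hj]
    push_cast
    linarith

theorem vdc_trivial (x : ℕ → ℝ) (a b : ℕ) (hab : a ≤ b) :
    ‖∑ n ∈ Ico a b, Complex.exp (2 * Real.pi * x n * I)‖ ≤ (b : ℝ) - a := by
  refine (norm_sum_le _ _).trans ?_
  have h1 : ∀ n ∈ Ico a b, ‖Complex.exp (2 * Real.pi * x n * I)‖ = 1 := by
    intro n _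
    have h2 : (2 * Real.pi * x n * I : ℂ) = ((2 * Real.pi * x n : ℝ) : ℂ) * I := by
      push_cast
      ring
    rw [h2, Complex.norm_exp_ofReal_mul_I]
  rw [sum_congr rfl h1, sum_const, Nat.card_Ico, nsmul_eq_mul, mul_one, Nat.cast_sub hab]

theorem vdc_block (x : ℕ → ℝ) (lam θ : ℝ) (hlam : 0 < lam) (hθ : 0 < θ)
    (a b : ℕ) (hab : a ≤ b)
    (hanti : ∀ n m, a ≤ n → n ≤ m → x (m + 1) - x m ≤ x (n + 1) - x n)
    (hgap : ∀ n, a ≤ n → n + 1 < b → lam ≤ (x (n + 1) - x n) - (x (n + 2) - x (n + 1)))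
    (k : ℕ) (hlow : ∀ n, a ≤ n → n < b → (k : ℝ) ≤ x (n + 1) - x n)
    (hup : ∀ n, a ≤ n → n < b → x (n + 1) - x n ≤ k + 1) :
    ‖∑ n ∈ Ico a b, Complex.exp (2 * Real.pi * x n * I)‖ ≤ 2 * (θ / lam + 1) + 2 / θ := by
  obtain ⟨s, hs1, hs2, hs3, hs4⟩ := vdc_split (fun n => x (n + 1) - x n) a b hab hanti
    (k + 1 - θ)
  obtain ⟨r, hr1, hr2, hr3, hr4⟩ := vdc_split (fun n => x (n + 1) - x n) s b hs2
    (fun n m h1 h2 => hanti n m (by omega) h2) (k + θ)
  have h1 : ∑ n ∈ Ico a b, Complex.exp (2 * Real.pi * x n * I) =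
      ∑ n ∈ Ico a s, Complex.exp (2 * Real.pi * x n * I) +
      ∑ n ∈ Ico s r, Complex.exp (2 * Real.pi * x n * I) +
      ∑ n ∈ Ico r b, Complex.exp (2 * Real.pi * x n * I) := by
    rw [sum_Ico_consecutive _ hs1 hr1, sum_Ico_consecutive _ (hs1.trans hr1) hr2]
  have hA : ‖∑ n ∈ Ico a s, Complex.exp (2 * Real.pi * x n * I)‖ ≤ θ / lam + 1 := by
    refine (vdc_trivial x a s hs1).trans ?_
    refine vdc_count (fun n => x (n + 1) - x n) a s hs1 lam hlam
      (fun n h2 h3 => hgap n h2 (by omega)) (k + 1 - θ) θ hθ.le hs3 (fun n h2 h3 => ?_)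
    have := hup n h2 (by omega)
    linarith
  have hC : ‖∑ n ∈ Ico r b, Complex.exp (2 * Real.pi * x n * I)‖ ≤ θ / lam + 1 := by
    refine (vdc_trivial x r b hr2).trans ?_
    refine vdc_count (fun n => x (n + 1) - x n) r b hr2 lam hlam
      (fun n h2 h3 => hgap n (by omega) (by omega)) k θ hθ.le
      (fun n h2 h3 => hlow n (by omega) h3) (fun n h2 h3 => ?_)
    exact (hr4 n h2 h3).le
  have hB : ‖∑ n ∈ Ico s r, Complex.exp (2 * Real.pi * x n * I)‖ ≤ 2 / θ := by
    have h2 : ∑ n ∈ Ico s r, Complex.exp (2 * Real.pi * x n * I) =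
        ∑ n ∈ Ico s r, Complex.exp (2 * Real.pi * ((x n - k * n : ℝ) : ℂ) * I) := by
      refine sum_congr rfl fun n _ => ?_
      rw [Complex.exp_eq_exp_iff_exists_int]
      refine ⟨(k * n : ℤ), ?_⟩
      push_cast
      ring
    rw [h2]
    refine kuzmin_landau (fun n => x n - k * n) θ hθ s r ?_ ?_ ?_
    · intro n h3 h4
      have := hanti n (n + 1) (by omega) (by omega)
      push_cast
      linarith
    · intro n h3 h4
      have := hr3 n h3 h4
      push_cast
      linarith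
    · intro n h3 h4
      have := hs4 n h3 (by omega)
      push_cast
      linarith
  rw [h1]
  have h5 := norm_add₃_le (a := ∑ n ∈ Ico a s, Complex.exp (2 * Real.pi * x n * I))
    (b := ∑ n ∈ Ico s r, Complex.exp (2 * Real.pi * x n * I))
    (c := ∑ n ∈ Ico r b, Complex.exp (2 * Real.pi * x n * I))
  linarith

theorem vdc_general (x : ℕ → ℝ) (lam θ : ℝ) (hlam : 0 < lam) (hθ : 0 < θ)
    (b : ℕ) (k : ℕ) : ∀ a : ℕ, a ≤ b →
    (∀ n m, a ≤ n → n ≤ m → x (m + 1) - x m ≤ x (n + 1) - x n) →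
    (∀ n, a ≤ n → n + 1 < b → lam ≤ (x (n + 1) - x n) - (x (n + 2) - x (n + 1))) →
    (∀ n, a ≤ n → 0 ≤ x (n + 1) - x n) → (a < b → x (a + 1) - x a < k) →
    ‖∑ n ∈ Ico a b, Complex.exp (2 * Real.pi * x n * I)‖ ≤
      k * (2 * (θ / lam + 1) + 2 / θ) := by
  induction k with
  | zero =>
    intro a hab hanti hgap hpos hlt
    rcases Nat.eq_or_lt_of_le hab with h | h
    · rw [h]
      simp
    · have h1 := hlt h
      have h2 := hpos a le_rfl
      rw [Nat.cast_zero] at h1
      linarith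
  | succ k ih =>
    intro a hab hanti hgap hpos hlt
    obtain ⟨s, hs1, hs2, hs3, hs4⟩ := vdc_split (fun n => x (n + 1) - x n) a b hab hanti k
    have h1 := vdc_block x lam θ hlam hθ a s hs1 hanti (fun n h2 h3 => hgap n h2 (by omega)) k
      hs3 (fun n h2 h3 => by
        have h4 := hlt (by omega)
        have h5 := hanti a n le_rfl h2
        push_cast at h4
        linarith)
    have h2 := ih s hs2 (fun n m h3 h4 => hanti n m (by omega) h4)
      (fun n h3 h4 => hgap n (by omega) h4) (fun n h3 => hpos n (by omega))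
      (fun h => hs4 s le_rfl h)
    rw [← sum_Ico_consecutive _ hs1 hs2]
    refine (norm_add_le _ _).trans ?_
    push_cast
    linarith

theorem vdc_second : ∃ C : ℝ, 0 < C ∧ ∀ t : ℝ, 1 ≤ t → ∀ M N : ℕ, 1 ≤ M → M ≤ N → N ≤ 2 * M →
    ‖∑ n ∈ Ioc M N, (n : ℂ) ^ (-(t * I))‖ ≤ C * (√t + M / √t) := by
  refine ⟨5 * √(8 * Real.pi) + 1, by positivity, ?_⟩
  intro t ht M N hM hMN hN
  have hM0 : (0 : ℝ) < M := by exact_mod_cast hM
  have ht0 : 0 < t := by linarith
  have hpi := Real.pi_pos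
  obtain ⟨x, hx⟩ : ∃ x : ℕ → ℝ, x = fun n : ℕ => t * Real.log n / (2 * Real.pi) := ⟨_, rfl⟩
  -- the conjugate sum
  have hconj : ‖∑ n ∈ Ioc M N, (n : ℂ) ^ (-(t * I))‖ =
      ‖∑ n ∈ Ico (M + 1) (N + 1), Complex.exp (2 * Real.pi * x n * I)‖ := by
    have h1 : Ioc M N = Ico (M + 1) (N + 1) := by
      ext n
      simp only [mem_Ioc, mem_Ico]
      omega
    rw [h1, ← Complex.norm_conj, map_sum]
    congr 1
    refine sum_congr rfl fun n hn => ?_
    have hn1 : n ≠ 0 := by
      have := (mem_Ico.mp hn).1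
      omega
    have hn2 : (n : ℂ) ≠ 0 := by exact_mod_cast hn1
    rw [Complex.cpow_def_of_ne_zero hn2, ← Complex.exp_conj]
    congr 1
    rw [hx, ← Complex.natCast_log]
    simp only [map_mul, map_neg, Complex.conj_ofReal, Complex.conj_I]
    push_cast
    field_simp
  rw [hconj]
  -- differences
  have hd : ∀ n : ℕ, 1 ≤ n → x (n + 1) - x n = t / (2 * Real.pi) * Real.log (1 + 1 / n) := by
    intro n hn
    have hn0 : (0 : ℝ) < n := by exact_mod_cast hn
    have h1 : (1 + 1 / (n : ℝ)) = ((n : ℝ) + 1) / n := by field_simp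
    rw [h1, Real.log_div (by positivity) (by positivity), hx]
    push_cast
    ring
  have hanti : ∀ n m, M + 1 ≤ n → n ≤ m → x (m + 1) - x m ≤ x (n + 1) - x n := by
    intro n m h1 h2
    rw [hd n (by omega), hd m (by omega)]
    have hn0 : (0 : ℝ) < n := by
      have : 0 < n := by omega
      exact_mod_cast this
    have h3 : (n : ℝ) ≤ m := by exact_mod_cast h2
    refine mul_le_mul_of_nonneg_left ?_ (by positivity)
    refine Real.log_le_log (by positivity) ?_
    have := one_div_le_one_div_of_le hn0 h3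
    linarith
  have hpos : ∀ n, M + 1 ≤ n → 0 ≤ x (n + 1) - x n := by
    intro n h1
    rw [hd n (by omega)]
    refine mul_nonneg (by positivity) (Real.log_nonneg ?_)
    have : (0 : ℝ) ≤ 1 / n := by positivity
    linarith
  obtain ⟨lam, hlam⟩ : ∃ lam : ℝ, lam = t / (8 * Real.pi * M ^ 2) := ⟨_, rfl⟩
  have hlam0 : 0 < lam := by rw [hlam]; positivity
  have hgap : ∀ n, M + 1 ≤ n → n + 1 < N + 1 →
      lam ≤ (x (n + 1) - x n) - (x (n + 2) - x (n + 1)) := by
    intro n h1 h2
    have hn0 : (0 : ℝ) < n := by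
      have : 0 < n := by omega
      exact_mod_cast this
    have h3 : (x (n + 1) - x n) - (x (n + 2) - x (n + 1)) =
        t / (2 * Real.pi) * Real.log (((n : ℝ) + 1) ^ 2 / (n * (n + 2))) := by
      rw [Real.log_div (by positivity) (by positivity), Real.log_pow,
        Real.log_mul (by positivity) (by positivity), hx]
      push_cast
      ring
    have h4 := Real.one_sub_inv_le_log_of_pos
      (show 0 < ((n : ℝ) + 1) ^ 2 / (n * (n + 2)) by positivity)
    have h5 : 1 - (((n : ℝ) + 1) ^ 2 / (n * (n + 2)))⁻¹ = 1 / ((n : ℝ) + 1) ^ 2 := by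
      field_simp
      ring
    rw [h5] at h4
    have h6 : ((n : ℝ) + 1) ≤ 2 * M := by
      have : n + 1 ≤ 2 * M := by omega
      exact_mod_cast this
    have h7 : 1 / (4 * (M : ℝ) ^ 2) ≤ 1 / ((n : ℝ) + 1) ^ 2 := by
      refine one_div_le_one_div_of_le (by positivity) ?_
      nlinarith
    rw [h3, hlam]
    calc t / (8 * Real.pi * M ^ 2) = t / (2 * Real.pi) * (1 / (4 * (M : ℝ) ^ 2)) := by
          field_simp
          ring
      _ ≤ t / (2 * Real.pi) * Real.log (((n : ℝ) + 1) ^ 2 / (n * (n + 2))) :=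
          mul_le_mul_of_nonneg_left (h7.trans h4) (by positivity)
  have hst : 0 < √t := Real.sqrt_pos.mpr ht0
  have hfirst : x (M + 1 + 1) - x (M + 1) ≤ t / (2 * Real.pi * M) := by
    rw [hd (M + 1) (by omega)]
    have h1 : Real.log (1 + 1 / ((M + 1 : ℕ) : ℝ)) ≤ 1 / ((M + 1 : ℕ) : ℝ) := by
      have := Real.log_le_sub_one_of_pos (show 0 < 1 + 1 / ((M + 1 : ℕ) : ℝ) by positivity)
      linarith
    have h2 : 1 / ((M + 1 : ℕ) : ℝ) ≤ 1 / M := by
      refine one_div_le_one_div_of_le hM0 ?_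
      push_cast
      linarith
    calc t / (2 * Real.pi) * Real.log (1 + 1 / ((M + 1 : ℕ) : ℝ)) ≤ t / (2 * Real.pi) * (1 / M) :=
          mul_le_mul_of_nonneg_left (h1.trans h2) (by positivity)
      _ = t / (2 * Real.pi * M) := by field_simp
  by_cases hbig : 1 / 4 ≤ lam
  · -- the trivial bound
    have h1 := vdc_trivial x (M + 1) (N + 1) (by omega)
    have h2 : ((N + 1 : ℕ) : ℝ) - ((M + 1 : ℕ) : ℝ) ≤ M := by
      have : (N : ℝ) ≤ 2 * M := by exact_mod_cast hN
      push_cast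
      linarith
    have h3 : (M : ℝ) ≤ √t := by
      apply Real.le_sqrt_of_sq_le
      rw [hlam, le_div_iff₀ (by positivity)] at hbig
      have h4 : (1 : ℝ) ≤ 2 * Real.pi := by linarith [Real.pi_gt_three]
      have h5 : (0 : ℝ) ≤ (M : ℝ) ^ 2 := by positivity
      nlinarith
    have h4 : 0 ≤ 5 * √(8 * Real.pi) * (√t + M / √t) := by positivity
    have h5 : 0 ≤ M / √t := by positivity
    calc _ ≤ _ := h1
      _ ≤ M := h2
      _ ≤ √t := h3
      _ ≤ (5 * √(8 * Real.pi) + 1) * (√t + M / √t) := by linarith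
  · push Not at hbig
    obtain ⟨θ, hθ⟩ : ∃ θ : ℝ, θ = √lam := ⟨_, rfl⟩
    have hθ0 : 0 < θ := by rw [hθ]; exact Real.sqrt_pos.mpr hlam0
    have hθ2 : θ * θ = lam := by rw [hθ]; exact Real.mul_self_sqrt hlam0.le
    have hθ1 : θ < 1 / 2 := by nlinarith
    obtain ⟨k, hk⟩ : ∃ k : ℕ, k = ⌊x (M + 1 + 1) - x (M + 1)⌋₊ + 1 := ⟨_, rfl⟩
    have hk1 : x (M + 1 + 1) - x (M + 1) < k := by
      rw [hk]
      push_cast
      exact Nat.lt_floor_add_one _
    have hk2 : (k : ℝ) ≤ t / (2 * Real.pi * M) + 1 := by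
      rw [hk]
      push_cast
      have := Nat.floor_le (hpos (M + 1) le_rfl)
      linarith
    have h1 := vdc_general x lam θ hlam0 hθ0 (N + 1) k (M + 1) (by omega) hanti hgap hpos
      (fun _ => hk1)
    have h2 : 2 * (θ / lam + 1) + 2 / θ ≤ 5 / θ := by
      have h3 : θ / lam = 1 / θ := by
        rw [← hθ2]
        field_simp
      have h4 : 2 ≤ 1 / θ := by
        rw [le_div_iff₀ hθ0]
        linarith
      rw [h3]
      have h5 : 2 * (1 / θ + 1) + 2 / θ = 4 * (1 / θ) + 2 := by ring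
      have h6 : 5 / θ = 5 * (1 / θ) := by ring
      rw [h5, h6]
      linarith
    have h3 : 1 / θ = √(8 * Real.pi) * (M / √t) := by
      rw [hθ, hlam, Real.sqrt_div ht0.le, Real.sqrt_mul (by positivity),
        Real.sqrt_sq hM0.le]
      field_simp
    have h4 : 0 ≤ √(8 * Real.pi) := Real.sqrt_nonneg _
    have h5 : √t * √t = t := Real.mul_self_sqrt ht0.le
    calc _ ≤ k * (2 * (θ / lam + 1) + 2 / θ) := h1
      _ ≤ (t / (2 * Real.pi * M) + 1) * (5 / θ) := by
          refine mul_le_mul hk2 h2 ?_ (by positivity)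
          positivity
      _ = 5 * √(8 * Real.pi) * (1 / (2 * Real.pi) * √t + M / √t) := by
          have h6 : 5 / θ = 5 * (1 / θ) := by ring
          rw [h6, h3]
          have h7 : t / (2 * Real.pi * M) * (M / √t) = 1 / (2 * Real.pi) * √t := by
            calc t / (2 * Real.pi * M) * (M / √t) = (√t * √t) / (2 * Real.pi * M) * (M / √t) := by
                  rw [h5]
              _ = 1 / (2 * Real.pi) * √t := by field_simp
          calc (t / (2 * Real.pi * M) + 1) * (5 * (√(8 * Real.pi) * (M / √t)))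
              = 5 * √(8 * Real.pi) * (t / (2 * Real.pi * M) * (M / √t) + M / √t) := by ring
            _ = _ := by rw [h7]
      _ ≤ (5 * √(8 * Real.pi) + 1) * (√t + M / √t) := by
          have h6 : 1 / (2 * Real.pi) ≤ 1 := by
            rw [div_le_one (by positivity)]
            linarith [Real.pi_gt_three]
          have h7 : 1 / (2 * Real.pi) * √t ≤ √t := by nlinarith
          have h8 : 0 ≤ M / √t := by positivity
          have h9 : 5 * √(8 * Real.pi) * (1 / (2 * Real.pi) * √t + M / √t) ≤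
              5 * √(8 * Real.pi) * (√t + M / √t) :=
            mul_le_mul_of_nonneg_left (by linarith) (by positivity)
          linarith

end Pool.Agent.Lib.MP_aa9ae4_nt
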