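import Mathlib
import Pool.Agent.Lib.MP_aa9ae4_nt.Defs
import Pool.Agent.Lib.MP_aa9ae4_nt.Kuzmin
import Pool.Agent.Lib.MP_aa9ae4_nt.Vdc
import Pool.Agent.Lib.MP_aa9ae4_nt.ZetaApprox

namespace Pool.Agent.Lib.MP_aa9ae4_nt

open Finset MeasureTheory Filter Topology
open Complex (I)

lemma half_term (t : ℝ) {n : ℕ} (hn : 1 ≤ n) :
    (n : ℂ) ^ (-(1 / 2 + t * I) : ℂ) = (n : ℂ) ^ (-(t * I)) * ((1 / √(n : ℝ) : ℝ) : ℂ) := by
  have h0 : (n : ℂ) ≠ 0 := by exact_mod_cast (by omega : n ≠ 0)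
  rw [show (-(1 / 2 + t * I) : ℂ) = -(t * I) + ((-(1 / 2) : ℝ) : ℂ) by push_cast; ring,
    Complex.cpow_add _ _ h0]
  congr 1
  rw [← Complex.ofReal_natCast, ← Complex.ofReal_cpow (Nat.cast_nonneg n)]
  congr 1
  rw [Real.rpow_neg (Nat.cast_nonneg n), ← Real.sqrt_eq_rpow, one_div]

lemma half_zsum_sub (t : ℝ) {N K : ℕ} (h : N ≤ K) :
    zsum (1 / 2 + t * I) K - zsum (1 / 2 + t * I) N
      = ∑ n ∈ Ioc N K, (n : ℂ) ^ (-(t * I)) * ((1 / √(n : ℝ) : ℝ) : ℂ) := by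
  have h1 : ∀ M : ℕ, Icc 1 M = Ioc 0 M := by
    intro M
    ext n
    rw [mem_Icc, mem_Ioc]
    omega
  unfold zsum
  rw [h1, h1, ← sum_Ioc_consecutive _ (Nat.zero_le N) h, add_sub_cancel_left]
  refine sum_congr rfl fun n hn => half_term t ?_
  have := (mem_Ioc.1 hn).1
  omega

/-- Abel summation with the weights `1/√n`. -/
lemma half_abel (a : ℕ → ℂ) (b : ℕ → ℝ) (N K : ℕ) (hb0 : 0 ≤ b N)
    (hb : ∀ x : ℕ, N ≤ x → x < K → (1 / √(x : ℝ) - 1 / √((x : ℝ) + 1)) *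
      ‖∑ n ∈ Ioc N x, a n‖ ≤ b (x + 1) - b x) (hN : 1 ≤ N) (hNK : N ≤ K) :
    ‖∑ n ∈ Ioc N K, a n * ((1 / √(n : ℝ) : ℝ) : ℂ)
      - ((1 / √(K : ℝ) : ℝ) : ℂ) * ∑ n ∈ Ioc N K, a n‖ ≤ b K := by
  have key : ∀ k : ℕ, N ≤ k → k ≤ K → ‖∑ n ∈ Ioc N k, a n * ((1 / √(n : ℝ) : ℝ) : ℂ)
      - ((1 / √(k : ℝ) : ℝ) : ℂ) * ∑ n ∈ Ioc N k, a n‖ ≤ b k := by
    intro k hk
    induction k, hk using Nat.le_induction with
    | base =>
      intro _
      rw [Ioc_self, sum_empty, sum_empty, mul_zero, sub_zero, norm_zero]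
      exact hb0
    | succ k hk ih =>
      intro hkK
      have h1 := ih (by omega)
      have h2 := hb k hk (by omega)
      rw [sum_Ioc_succ_top (by omega), sum_Ioc_succ_top (by omega)]
      have h3 : (∑ n ∈ Ioc N k, a n * ((1 / √(n : ℝ) : ℝ) : ℂ)
            + a (k + 1) * ((1 / √((k + 1 : ℕ) : ℝ) : ℝ) : ℂ))
          - ((1 / √((k + 1 : ℕ) : ℝ) : ℝ) : ℂ) * (∑ n ∈ Ioc N k, a n + a (k + 1))
          = (∑ n ∈ Ioc N k, a n * ((1 / √(n : ℝ) : ℝ) : ℂ)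
            - ((1 / √(k : ℝ) : ℝ) : ℂ) * ∑ n ∈ Ioc N k, a n)
            + ((1 / √(k : ℝ) - 1 / √((k : ℝ) + 1) : ℝ) : ℂ) * ∑ n ∈ Ioc N k, a n := by
        push_cast
        ring
      rw [h3]
      refine (norm_add_le _ _).trans ?_
      rw [norm_mul (((1 / √(k : ℝ) - 1 / √((k : ℝ) + 1) : ℝ) : ℂ)), Complex.norm_real,
        Real.norm_eq_abs, abs_of_nonneg]
      · linarith
      · rw [sub_nonneg]
        have hk0 : (0 : ℝ) < k := by
          have : 1 ≤ k := hN.trans hk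
          exact_mod_cast this
        exact one_div_le_one_div_of_le (Real.sqrt_pos.2 hk0) (Real.sqrt_le_sqrt (by linarith))
  exact key K hNK le_rfl

lemma half_abel_lin (a : ℕ → ℂ) (c : ℝ) (hc : 0 ≤ c) (N K : ℕ) (hN : 1 ≤ N) (hNK : N ≤ K)
    (h : ∀ x : ℕ, N ≤ x → x ≤ K → ‖∑ n ∈ Ioc N x, a n‖ ≤ c * x) :
    ‖∑ n ∈ Ioc N K, a n * ((1 / √(n : ℝ) : ℝ) : ℂ)‖ ≤ 2 * c * √(K : ℝ) := by
  have h1 := half_abel a (fun x => c * √(x : ℝ)) N K (by positivity) (by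
    intro x hx hxK
    have hx0 : (0 : ℝ) < x := by
      have : 1 ≤ x := hN.trans hx
      exact_mod_cast this
    have h2 := h x hx hxK.le
    have h3 : 0 < √(x : ℝ) := Real.sqrt_pos.2 hx0
    have h4 : √(x : ℝ) ≤ √((x : ℝ) + 1) := Real.sqrt_le_sqrt (by linarith)
    have h5 : 0 < √((x : ℝ) + 1) := h3.trans_le h4
    have h6 : 0 ≤ 1 / √(x : ℝ) - 1 / √((x : ℝ) + 1) :=
      sub_nonneg.2 (one_div_le_one_div_of_le h3 h4)
    refine (mul_le_mul_of_nonneg_left h2 h6).trans ?_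
    have h7 : (1 / √(x : ℝ) - 1 / √((x : ℝ) + 1)) * (c * x)
        = c * ((√((x : ℝ) + 1) - √(x : ℝ)) * (√(x : ℝ) / √((x : ℝ) + 1))) := by
      field_simp
      rw [Real.sq_sqrt hx0.le]
    rw [h7]
    push_cast
    rw [← mul_sub]
    apply mul_le_mul_of_nonneg_left _ hc
    have h9 : √(x : ℝ) / √((x : ℝ) + 1) ≤ 1 := (div_le_one h5).2 h4
    nlinarith) hN hNK
  have hK0 : (0 : ℝ) < K := by
    have : 1 ≤ K := hN.trans hNK
    exact_mod_cast this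
  have h2 := h K hNK le_rfl
  have h3 : ‖((1 / √(K : ℝ) : ℝ) : ℂ) * ∑ n ∈ Ioc N K, a n‖ ≤ c * √(K : ℝ) := by
    rw [norm_mul, Complex.norm_real, Real.norm_eq_abs, abs_of_nonneg (by positivity)]
    refine (mul_le_mul_of_nonneg_left h2 (by positivity)).trans ?_
    have h8 : (K : ℝ) = √(K : ℝ) * √(K : ℝ) := (Real.mul_self_sqrt hK0.le).symm
    have h9 : 0 < √(K : ℝ) := Real.sqrt_pos.2 hK0
    apply le_of_eq
    conv_lhs => rw [h8]
    rw [Real.sqrt_mul_self h9.le]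
    field_simp
  have h4 : ∑ n ∈ Ioc N K, a n * ((1 / √(n : ℝ) : ℝ) : ℂ)
      = (∑ n ∈ Ioc N K, a n * ((1 / √(n : ℝ) : ℝ) : ℂ)
        - ((1 / √(K : ℝ) : ℝ) : ℂ) * ∑ n ∈ Ioc N K, a n)
        + ((1 / √(K : ℝ) : ℝ) : ℂ) * ∑ n ∈ Ioc N K, a n := by ring
  rw [h4]
  refine (norm_add_le _ _).trans ?_
  have h5 := add_le_add h1 h3
  linarith

lemma half_abel_const (a : ℕ → ℂ) (B : ℝ) (N K : ℕ) (hN : 1 ≤ N) (hNK : N ≤ K)
    (h : ∀ x : ℕ, N ≤ x → x ≤ K → ‖∑ n ∈ Ioc N x, a n‖ ≤ B) :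
    ‖∑ n ∈ Ioc N K, a n * ((1 / √(n : ℝ) : ℝ) : ℂ)‖ ≤ B / √(N : ℝ) := by
  have h1 := half_abel a (fun x => B * (1 / √(N : ℝ) - 1 / √(x : ℝ))) N K (by simp) (by
    intro x hx hxK
    have hx0 : (0 : ℝ) < x := by
      have : 1 ≤ x := hN.trans hx
      exact_mod_cast this
    have h2 := h x hx hxK.le
    have h3 : 0 < √(x : ℝ) := Real.sqrt_pos.2 hx0
    have h4 : √(x : ℝ) ≤ √((x : ℝ) + 1) := Real.sqrt_le_sqrt (by linarith)
    have h6 : 0 ≤ 1 / √(x : ℝ) - 1 / √((x : ℝ) + 1) :=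
      sub_nonneg.2 (one_div_le_one_div_of_le h3 h4)
    refine (mul_le_mul_of_nonneg_left h2 h6).trans ?_
    push_cast
    apply le_of_eq
    ring) hN hNK
  have h2 := h K hNK le_rfl
  have h3 : ‖((1 / √(K : ℝ) : ℝ) : ℂ) * ∑ n ∈ Ioc N K, a n‖ ≤ B * (1 / √(K : ℝ)) := by
    rw [norm_mul, Complex.norm_real, Real.norm_eq_abs, abs_of_nonneg (by positivity), mul_comm]
    exact mul_le_mul_of_nonneg_right h2 (by positivity)
  have h4 : ∑ n ∈ Ioc N K, a n * ((1 / √(n : ℝ) : ℝ) : ℂ)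
      = (∑ n ∈ Ioc N K, a n * ((1 / √(n : ℝ) : ℝ) : ℂ)
        - ((1 / √(K : ℝ) : ℝ) : ℂ) * ∑ n ∈ Ioc N K, a n)
        + ((1 / √(K : ℝ) : ℝ) : ℂ) * ∑ n ∈ Ioc N K, a n := by ring
  rw [h4]
  refine (norm_add_le _ _).trans ?_
  have h5 := add_le_add h1 h3
  refine h5.trans (le_of_eq ?_)
  ring

theorem zeta_half_approx : ∃ C : ℝ, 0 < C ∧ ∀ t : ℝ, 1 ≤ t → ∀ N : ℕ, t / 3 ≤ N →
    (N : ℝ) ≤ t ^ 2 + 1 → ‖riemannZeta (1 / 2 + t * I) - zsum (1 / 2 + t * I) N‖ ≤ C := by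
  obtain ⟨C, hC, hsum⟩ := sum_cpow_le
  refine ⟨6 + 4 * C, by positivity, ?_⟩
  intro t ht N hN1 hN2
  have ht0 : 0 < t := by linarith
  have hN : 1 ≤ N := by
    by_contra hcon
    have h0 : N = 0 := by omega
    rw [h0, Nat.cast_zero] at hN1
    linarith
  obtain ⟨K, hK⟩ : ∃ K : ℕ, K = ⌊t ^ 2⌋₊ + 1 := ⟨_, rfl⟩
  have hNK : N ≤ K := by
    rw [hK, ← Nat.floor_add_one (by positivity)]
    exact Nat.le_floor hN2
  have hK1 : t ^ 2 ≤ K := by
    rw [hK]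
    push_cast
    exact (Nat.lt_floor_add_one _).le
  have hK2 : (K : ℝ) ≤ t ^ 2 + 1 := by
    rw [hK]
    push_cast
    have := Nat.floor_le (show 0 ≤ t ^ 2 by positivity)
    linarith
  have hKpos : (0 : ℝ) < K := by nlinarith
  have hsK1 : t ≤ √(K : ℝ) := Real.le_sqrt_of_sq_le hK1
  have hsK2 : √(K : ℝ) ≤ 2 * t := by
    rw [Real.sqrt_le_left (by positivity)]
    nlinarith
  have hsKpos : 0 < √(K : ℝ) := by linarith
  have hs : (1 / 2 + t * I : ℂ) ≠ 1 := by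
    intro h
    have := congrArg Complex.im h
    simp at this
    linarith
  have hre : (1 / 2 + t * I : ℂ).re = 1 / 2 := by simp
  have h1 := zeta_approx (s := 1 / 2 + t * I) (by rw [hre]; norm_num) hs K (by omega)
  rw [hre] at h1
  have h2 : ‖(1 / 2 + t * I : ℂ)‖ ≤ 2 * t := by
    refine (norm_add_le _ _).trans ?_
    rw [norm_mul, Complex.norm_I, mul_one, Complex.norm_real, Real.norm_eq_abs, abs_of_pos ht0]
    have h3 : ‖(1 / 2 : ℂ)‖ = 1 / 2 := by simp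
    rw [h3]
    linarith
  have h3 : (K : ℝ) ^ (-(1 / 2) : ℝ) = 1 / √(K : ℝ) := by
    rw [Real.rpow_neg hKpos.le, ← Real.sqrt_eq_rpow, one_div]
  have h4 : ‖(1 / 2 + t * I : ℂ)‖ * (K : ℝ) ^ (-(1 / 2) : ℝ) / (1 / 2) ≤ 4 := by
    rw [h3]
    have h5 : ‖(1 / 2 + t * I : ℂ)‖ * (1 / √(K : ℝ)) ≤ 2 := by
      rw [mul_one_div, div_le_iff₀ hsKpos]
      linarith
    linarith
  have h6 : ‖(K : ℂ) ^ (1 - (1 / 2 + t * I)) / (1 / 2 + t * I - 1)‖ ≤ 2 := by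
    rw [norm_div, Complex.norm_natCast_cpow_of_pos (by exact_mod_cast hKpos)]
    have h7 : (1 - (1 / 2 + t * I) : ℂ).re = 1 / 2 := by
      rw [Complex.sub_re, hre, Complex.one_re]
      norm_num
    rw [h7, ← Real.sqrt_eq_rpow]
    have h8 : t ≤ ‖(1 / 2 + t * I - 1 : ℂ)‖ := by
      have h9 := Complex.abs_im_le_norm (1 / 2 + t * I - 1 : ℂ)
      have h10 : (1 / 2 + t * I - 1 : ℂ).im = t := by simp
      rw [h10, abs_of_pos ht0] at h9
      exact h9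
    rw [div_le_iff₀ (by linarith)]
    nlinarith
  have h7 : ‖zsum (1 / 2 + t * I) K - zsum (1 / 2 + t * I) N‖ ≤ 4 * C := by
    rw [half_zsum_sub t hNK]
    refine (half_abel_lin _ (C / t) (by positivity) N K hN hNK ?_).trans ?_
    · intro x hx _
      have h8 := hsum t ht N x hN1 hx
      rw [div_mul_eq_mul_div]
      exact h8
    · have h8 : 2 * (C / t) * √(K : ℝ) ≤ 2 * (C / t) * (2 * t) :=
        mul_le_mul_of_nonneg_left hsK2 (by positivity)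
      refine h8.trans (le_of_eq ?_)
      field_simp
      norm_num
  have h8 : riemannZeta (1 / 2 + t * I) - zsum (1 / 2 + t * I) N
      = (riemannZeta (1 / 2 + t * I) - zsum (1 / 2 + t * I) K
          - (K : ℂ) ^ (1 - (1 / 2 + t * I)) / (1 / 2 + t * I - 1))
        + (K : ℂ) ^ (1 - (1 / 2 + t * I)) / (1 / 2 + t * I - 1)
        + (zsum (1 / 2 + t * I) K - zsum (1 / 2 + t * I) N) := by ring
  rw [h8]
  refine (norm_add_le _ _).trans ?_
  refine (add_le_add (norm_add_le _ _) le_rfl).trans ?_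
  linarith

lemma half_triv (t : ℝ) (N : ℕ) : ‖zsum (1 / 2 + t * I) N‖ ≤ 2 * √(N : ℝ) := by
  have h0 : zsum (1 / 2 + t * I) N
      = ∑ n ∈ Ioc 0 N, (n : ℂ) ^ (-(t * I)) * ((1 / √(n : ℝ) : ℝ) : ℂ) := by
    have h1 := half_zsum_sub t (Nat.zero_le N)
    have h2 : zsum (1 / 2 + t * I) 0 = 0 := by
      unfold zsum
      rfl
    rw [h2, sub_zero] at h1
    exact h1
  rw [h0]
  clear h0
  induction N with
  | zero => simp
  | succ N ih =>
    rw [sum_Ioc_succ_top (Nat.zero_le N)]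
    refine (norm_add_le _ _).trans ?_
    have h1 : ‖((N + 1 : ℕ) : ℂ) ^ (-(t * I))‖ = 1 := by
      rw [Complex.norm_natCast_cpow_of_pos (Nat.succ_pos N)]
      have h2 : (-(t * I) : ℂ).re = 0 := by simp
      rw [h2, Real.rpow_zero]
    rw [norm_mul, h1, one_mul, Complex.norm_real, Real.norm_eq_abs, abs_of_nonneg (by positivity)]
    have h3 : (0 : ℝ) < √((N + 1 : ℕ) : ℝ) := Real.sqrt_pos.2 (by positivity)
    have h4 : √(N : ℝ) ≤ √((N + 1 : ℕ) : ℝ) := Real.sqrt_le_sqrt (by push_cast; linarith)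
    have h5 : √((N + 1 : ℕ) : ℝ) * √((N + 1 : ℕ) : ℝ) = N + 1 := by
      rw [Real.mul_self_sqrt (by positivity)]
      push_cast
      ring
    have h6 : √(N : ℝ) * √(N : ℝ) = N := Real.mul_self_sqrt (Nat.cast_nonneg N)
    have h7 : 1 / √((N + 1 : ℕ) : ℝ) ≤ 2 * √((N + 1 : ℕ) : ℝ) - 2 * √(N : ℝ) := by
      rw [div_le_iff₀ h3]
      nlinarith [sq_nonneg (√((N + 1 : ℕ) : ℝ) - √(N : ℝ))]
    linarith

lemma half_block {C : ℝ} (hC : 0 < C) (hvdc : ∀ t : ℝ, 1 ≤ t → ∀ M N : ℕ, 1 ≤ M → M ≤ N →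
    N ≤ 2 * M → ‖∑ n ∈ Ioc M N, (n : ℂ) ^ (-(t * I))‖ ≤ C * (√t + M / √t)) {t : ℝ} (ht : 1 ≤ t)
    {M N : ℕ} (hM : 1 ≤ M) (hMN : M ≤ N) (hN : N ≤ 2 * M) (hMt : (M : ℝ) ≤ t) :
    ‖zsum (1 / 2 + t * I) N‖ ≤ ‖zsum (1 / 2 + t * I) M‖ + 2 * C * √(t / M) := by
  have ht0 : 0 < t := by linarith
  have hM0 : (0 : ℝ) < M := by exact_mod_cast hM
  have h1 : ‖zsum (1 / 2 + t * I) N - zsum (1 / 2 + t * I) M‖
      ≤ (C * (√t + M / √t)) / √(M : ℝ) := by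
    rw [half_zsum_sub t hMN]
    refine half_abel_const _ _ M N hM hMN ?_
    intro x hx hxN
    exact hvdc t ht M x hM hx (hxN.trans hN)
  have h2 : (C * (√t + M / √t)) / √(M : ℝ) ≤ 2 * C * √(t / M) := by
    have h3 : (M : ℝ) / √t ≤ √t := by
      rw [div_le_iff₀ (Real.sqrt_pos.2 ht0), Real.mul_self_sqrt ht0.le]
      exact hMt
    rw [Real.sqrt_div ht0.le, ← mul_div_assoc]
    apply div_le_div_of_nonneg_right _ (Real.sqrt_nonneg _)
    nlinarith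
  have h3 : zsum (1 / 2 + t * I) N = zsum (1 / 2 + t * I) M
      + (zsum (1 / 2 + t * I) N - zsum (1 / 2 + t * I) M) := by ring
  rw [h3]
  refine (norm_add_le _ _).trans ?_
  linarith

theorem zeta_half_bound : ∃ C : ℝ, 0 < C ∧ ∀ t : ℝ, 1 ≤ t →
    ‖riemannZeta (1 / 2 + t * I)‖ ≤ C * t ^ (3 / 8 : ℝ) := by
  obtain ⟨C, hC, hvdc⟩ := vdc_second
  obtain ⟨C', hC', happ⟩ := zeta_half_approx
  refine ⟨C' + (2 + 32 * C), by positivity, ?_⟩
  intro t ht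
  have ht0 : 0 < t := by linarith
  have hst1 : 1 ≤ √t := Real.one_le_sqrt.2 ht
  have hst0 : 0 < √t := by linarith
  have key : ∀ N : ℕ, √t / 2 ≤ N → (N : ℝ) ≤ t →
      ‖zsum (1 / 2 + t * I) N‖ + 16 * C * √(t / N) ≤ (2 + 32 * C) * √(√t) := by
    intro N
    induction N using Nat.strong_induction_on with
    | _ N ih =>
      intro h1 h2
      have hN0 : (0 : ℝ) < N := by linarith
      by_cases h3 : (N : ℝ) ≤ √t
      · have h4 := half_triv t N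
        have h5 : √(N : ℝ) ≤ √(√t) := Real.sqrt_le_sqrt h3
        have h6 : √(t / N) ≤ 2 * √(√t) := by
          rw [Real.sqrt_le_left (by positivity), mul_pow, Real.sq_sqrt hst0.le,
            div_le_iff₀ hN0]
          have h7 : √t * √t = t := Real.mul_self_sqrt ht0.le
          nlinarith
        nlinarith
      · push Not at h3
        have hN1 : 1 < N := by
          have : (1 : ℝ) < N := by linarith
          exact_mod_cast this
        have hM1 : 1 ≤ (N + 1) / 2 := by omega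
        have hMN : (N + 1) / 2 < N := by omega
        have hNM : N ≤ 2 * ((N + 1) / 2) := by omega
        obtain ⟨M, hM⟩ : ∃ M, M = (N + 1) / 2 := ⟨_, rfl⟩
        rw [← hM] at hM1 hMN hNM
        have hNM' : (N : ℝ) ≤ 2 * M := by exact_mod_cast hNM
        have hMN' : (M : ℝ) ≤ N := by exact_mod_cast hMN.le
        have hM0 : (0 : ℝ) < M := by exact_mod_cast hM1
        have h4 := ih M hMN (by linarith) (by linarith)
        have h5 := half_block hC hvdc ht hM1 hMN.le hNM (by linarith)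
        have h6 : 4 * M ≤ 3 * N := by omega
        have h6' : 4 * (M : ℝ) ≤ 3 * N := by exact_mod_cast h6
        have h7 : √(t / N) ≤ 7 / 8 * √(t / M) := by
          rw [Real.sqrt_le_left (by positivity), mul_pow, Real.sq_sqrt (by positivity),
            div_le_iff₀ hN0]
          have h8 : (7 / 8 : ℝ) ^ 2 * (t / M) * N = t * ((49 / 64) * (N / M)) := by
            ring
          rw [h8]
          have h9 : 1 ≤ (49 / 64 : ℝ) * (N / M) := by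
            rw [← mul_div_assoc, le_div_iff₀ hM0]
            linarith
          nlinarith
        nlinarith [Real.sqrt_nonneg (t / M)]
  obtain ⟨N, hN⟩ : ∃ N : ℕ, N = ⌊t⌋₊ := ⟨_, rfl⟩
  have hN1 : 1 ≤ N := by
    rw [hN]
    exact Nat.le_floor (by simpa using ht)
  have hN1' : (1 : ℝ) ≤ N := by exact_mod_cast hN1
  have hN2 : (N : ℝ) ≤ t := by
    rw [hN]
    exact Nat.floor_le ht0.le
  have hN3 : t < N + 1 := by
    rw [hN]
    exact Nat.lt_floor_add_one t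
  have h1 := happ t ht N (by linarith) (by nlinarith)
  have h2 : √t / 2 ≤ N := by
    have h3 : √t ≤ t := by
      rw [Real.sqrt_le_left ht0.le]
      nlinarith
    linarith
  have h3 := key N h2 hN2
  have h4 : √(√t) ≤ t ^ (3 / 8 : ℝ) := by
    rw [Real.sqrt_eq_rpow, Real.sqrt_eq_rpow, ← Real.rpow_mul ht0.le]
    exact Real.rpow_le_rpow_of_exponent_le ht (by norm_num)
  have h5 : 1 ≤ t ^ (3 / 8 : ℝ) := Real.one_le_rpow ht (by norm_num)
  have h6 : 0 ≤ 16 * C * √(t / N) := by positivity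
  have h7 : riemannZeta (1 / 2 + t * I)
      = (riemannZeta (1 / 2 + t * I) - zsum (1 / 2 + t * I) N) + zsum (1 / 2 + t * I) N := by
    ring
  rw [h7]
  refine (norm_add_le _ _).trans ?_
  have h8 : (2 + 32 * C) * √(√t) ≤ (2 + 32 * C) * t ^ (3 / 8 : ℝ) :=
    mul_le_mul_of_nonneg_left h4 (by positivity)
  have h9 : C' ≤ C' * t ^ (3 / 8 : ℝ) := le_mul_of_one_le_right hC'.le h5
  linarith

end Pool.Agent.Lib.MP_aa9ae4_nt
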