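import Mathlib
import Pool.Agent.Lib.MP_aa9ae4_nt.Defs
import Pool.Agent.Lib.MP_aa9ae4_nt.ZetaApprox

namespace Pool.Agent.Lib.MP_aa9ae4_nt

open Finset MeasureTheory Filter Topology
open Complex (I)

lemma oneLine_harmonic (N : ℕ) :
    ∑ n ∈ Icc 1 N, (1 : ℝ) / n ≤ 1 + Real.log N := by
  have h := harmonic_le_one_add_log N
  rw [harmonic_eq_sum_Icc] at h
  push_cast at h
  simpa [one_div] using h

lemma oneLine_log2 {t : ℝ} (ht : 2 ≤ t) : (1 : ℝ) / 2 < Real.log t := by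
  have h1 : Real.log 2 ≤ Real.log t := Real.log_le_log (by norm_num) ht
  have h2 := Real.log_two_gt_d9
  linarith

/-- upper bound near the line -/
lemma oneLine_region : ∃ C : ℝ, 0 < C ∧ ∀ t : ℝ, 2 ≤ t → ∀ s : ℂ, |s.im - t| ≤ 1 / 2 →
    1 - 1 / (4 * Real.log t) ≤ s.re → ‖riemannZeta s‖ ≤ C * Real.log t := by
  refine ⟨50, by norm_num, ?_⟩
  intro t ht s him hre
  have hL := oneLine_log2 ht
  have hLpos : 0 < Real.log t := by linarith
  rw [abs_le] at him
  have him1 : 3 / 2 ≤ s.im := by linarith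
  have him2 : s.im ≤ t + 1 / 2 := by linarith
  have hσ : 1 / 2 ≤ s.re := by
    have : 1 / (4 * Real.log t) ≤ 1 / 2 := by
      rw [div_le_div_iff₀ (by positivity) (by norm_num)]
      linarith
    linarith
  have hσ0 : 0 < s.re := by linarith
  have hs1 : s ≠ 1 := by
    intro h
    rw [h] at him1
    norm_num at him1
  set N : ℕ := ⌊t⌋₊ with hN
  have hN2 : 2 ≤ N := Nat.le_floor (by exact_mod_cast ht)
  have hN1 : 1 ≤ N := by omega
  have hNt : (N : ℝ) ≤ t := Nat.floor_le (by linarith)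
  have htN : t < N + 1 := Nat.lt_floor_add_one t
  have hNpos : (0 : ℝ) < N := by exact_mod_cast (by omega : 0 < N)
  have hN2' : (2 : ℝ) ≤ N := by exact_mod_cast hN2
  have hlogN : Real.log N ≤ Real.log t := Real.log_le_log hNpos hNt
  -- powers
  have hpow : ∀ n : ℕ, 1 ≤ n → n ≤ N → (n : ℝ) ^ (1 - s.re) ≤ 2 := by
    intro n hn1 hn2
    have hn1' : (1 : ℝ) ≤ n := by exact_mod_cast hn1
    have hn0 : (0 : ℝ) < n := by linarith
    have hnt : (n : ℝ) ≤ t := le_trans (by exact_mod_cast hn2) hNt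
    have h1 : (n : ℝ) ^ (1 - s.re) ≤ (n : ℝ) ^ (1 / (4 * Real.log t)) :=
      Real.rpow_le_rpow_of_exponent_le hn1' (by linarith)
    have h2 : (n : ℝ) ^ (1 / (4 * Real.log t)) ≤ Real.exp (1 / 4) := by
      rw [Real.rpow_def_of_pos hn0]
      apply Real.exp_le_exp.2
      have h3 : Real.log n ≤ Real.log t := Real.log_le_log hn0 hnt
      have h4 : Real.log n * (1 / (4 * Real.log t)) = Real.log n / (4 * Real.log t) := by ring
      rw [h4, div_le_div_iff₀ (by positivity) (by norm_num)]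
      linarith
    have h5 : Real.exp (1 / 4) ≤ 2 := by
      have h6 : Real.exp (1 / 4) ≤ Real.exp 1 ^ (1 / 4 : ℝ) := by
        rw [← Real.exp_mul]
        norm_num
      have h7 : Real.exp (1 / 4) ≤ 1 / (1 - 1 / 4) := by
        have := Real.one_sub_le_exp_neg (1 / 4 : ℝ)
        rw [Real.exp_neg] at this
        rw [le_div_iff₀ (by norm_num)]
        have h8 := Real.exp_pos (1 / 4)
        calc Real.exp (1 / 4) * (1 - 1 / 4) ≤ Real.exp (1 / 4) * (Real.exp (1 / 4))⁻¹ :=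
              mul_le_mul_of_nonneg_left this h8.le
          _ = 1 := mul_inv_cancel₀ h8.ne'
      linarith [show (1 : ℝ) / (1 - 1 / 4) ≤ 2 by norm_num]
    linarith
  have hz := zeta_approx hσ0 hs1 N hN1
  -- first term
  have hA : ‖zsum s N‖ ≤ 2 * (1 + Real.log t) := by
    unfold zsum
    calc ‖∑ n ∈ Icc 1 N, (n : ℂ) ^ (-s)‖ ≤ ∑ n ∈ Icc 1 N, ‖(n : ℂ) ^ (-s)‖ := norm_sum_le _ _
      _ ≤ ∑ n ∈ Icc 1 N, 2 * (1 / (n : ℝ)) := by
          refine Finset.sum_le_sum fun n hn => ?_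
          rw [Finset.mem_Icc] at hn
          have hn0 : 0 < n := by omega
          have hn0' : (0 : ℝ) < n := by exact_mod_cast hn0
          rw [Complex.norm_natCast_cpow_of_pos hn0]
          have h1 : (-s).re = (1 - s.re) + (-1) := by rw [Complex.neg_re]; ring
          rw [h1, Real.rpow_add hn0', Real.rpow_neg_one]
          rw [one_div]
          exact mul_le_mul_of_nonneg_right (hpow n hn.1 hn.2) (by positivity)
      _ = 2 * ∑ n ∈ Icc 1 N, (1 : ℝ) / n := by rw [Finset.mul_sum]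
      _ ≤ 2 * (1 + Real.log t) := by
          have := oneLine_harmonic N
          linarith
  have hB : ‖(N : ℂ) ^ (1 - s) / (s - 1)‖ ≤ 2 := by
    rw [norm_div, Complex.norm_natCast_cpow_of_pos (by omega)]
    have h1 : (1 - s).re = 1 - s.re := by simp
    rw [h1]
    have h2 := hpow N hN1 le_rfl
    have h3 : 3 / 2 ≤ ‖s - 1‖ := by
      have := Complex.abs_im_le_norm (s - 1)
      have h4 : (s - 1).im = s.im := by simp
      rw [h4] at this
      exact him1.trans ((le_abs_self _).trans this)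
    rw [div_le_iff₀ (by linarith)]
    linarith
  have hC : ‖s‖ * (N : ℝ) ^ (-s.re) / s.re ≤ 12 := by
    have h1 : ‖s‖ ≤ s.re + s.im := by
      have := Complex.norm_le_abs_re_add_abs_im s
      rwa [abs_of_pos hσ0, abs_of_pos (by linarith : 0 < s.im)] at this
    have h2 : (N : ℝ) ^ (-s.re) ≤ 2 / N := by
      have h3 : -s.re = (1 - s.re) + (-1) := by ring
      rw [h3, Real.rpow_add hNpos, Real.rpow_neg_one, div_eq_mul_inv]
      exact mul_le_mul_of_nonneg_right (hpow N hN1 le_rfl) (by positivity)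
    have h4 : s.im ≤ 2 * N := by linarith
    have h5 : (s.re + s.im) / s.re ≤ 1 + 2 * (2 * N) := by
      rw [div_le_iff₀ hσ0]
      nlinarith
    have h6 : 0 ≤ (N : ℝ) ^ (-s.re) := by positivity
    calc ‖s‖ * (N : ℝ) ^ (-s.re) / s.re = (‖s‖ / s.re) * (N : ℝ) ^ (-s.re) := by ring
      _ ≤ (1 + 2 * (2 * N)) * (2 / N) := by
          apply mul_le_mul _ h2 h6 (by positivity)
          exact (div_le_div_of_nonneg_right h1 hσ0.le).trans h5
      _ = 2 / N + 8 := by field_simp; ring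
      _ ≤ 12 := by
          have : 2 / (N : ℝ) ≤ 1 := by
            rw [div_le_one hNpos]
            exact hN2'
          linarith
  have hfin : ‖riemannZeta s‖ ≤ ‖riemannZeta s - zsum s N - (N : ℂ) ^ (1 - s) / (s - 1)‖ +
      ‖zsum s N‖ + ‖(N : ℂ) ^ (1 - s) / (s - 1)‖ := by
    have e : riemannZeta s = (riemannZeta s - zsum s N - (N : ℂ) ^ (1 - s) / (s - 1)) +
      zsum s N + (N : ℂ) ^ (1 - s) / (s - 1) := by ring
    calc ‖riemannZeta s‖ = ‖(riemannZeta s - zsum s N - (N : ℂ) ^ (1 - s) / (s - 1)) +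
      zsum s N + (N : ℂ) ^ (1 - s) / (s - 1)‖ := by rw [← e]
      _ ≤ _ := norm_add₃_le
  have : ‖riemannZeta s‖ ≤ 12 + 2 * (1 + Real.log t) + 2 := by linarith
  linarith

/-- upper bound for the derivative to the right of the line -/
lemma oneLine_deriv : ∃ C : ℝ, 0 < C ∧ ∀ t : ℝ, 2 ≤ t → ∀ x : ℝ, 0 ≤ x →
    ‖deriv riemannZeta (1 + x + t * I)‖ ≤ C * (Real.log t) ^ 2 := by
  obtain ⟨C, hC, h⟩ := oneLine_region
  refine ⟨C * 4, by positivity, ?_⟩
  intro t ht x hx
  have hL := oneLine_log2 ht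
  have hLpos : 0 < Real.log t := by linarith
  have hR : 0 < 1 / (4 * Real.log t) := by positivity
  have hR2 : 1 / (4 * Real.log t) ≤ 1 / 2 := by
    rw [div_le_div_iff₀ (by positivity) (by norm_num)]
    linarith
  have hcre : (1 + x + t * I : ℂ).re = 1 + x := by simp
  have hcim : (1 + x + t * I : ℂ).im = t := by simp
  have hball : ∀ z ∈ Metric.closedBall (1 + x + t * I : ℂ) (1 / (4 * Real.log t)),
      |z.im - t| ≤ 1 / 2 ∧ 1 - 1 / (4 * Real.log t) ≤ z.re := by
    intro z hz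
    rw [Metric.mem_closedBall, dist_eq_norm] at hz
    have h1 := (Complex.abs_im_le_norm (z - (1 + x + t * I))).trans hz
    have h2 := (Complex.abs_re_le_norm (z - (1 + x + t * I))).trans hz
    rw [Complex.sub_im, hcim] at h1
    rw [Complex.sub_re, hcre] at h2
    refine ⟨h1.trans hR2, ?_⟩
    rw [abs_le] at h2
    linarith [h2.1]
  have hne : ∀ z ∈ Metric.closedBall (1 + x + t * I : ℂ) (1 / (4 * Real.log t)), z ≠ 1 := by
    intro z hz h1
    have := (hball z hz).1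
    rw [h1, abs_le] at this
    simp at this
    linarith [this.1]
  have := Complex.norm_deriv_le_of_forall_mem_sphere_norm_le (c := (1 + x + t * I : ℂ))
    (R := 1 / (4 * Real.log t)) (C := C * Real.log t) (f := riemannZeta) hR ?_ ?_
  · refine this.trans (le_of_eq ?_)
    field_simp
  · apply DifferentiableOn.diffContOnCl
    intro z hz
    have hz' := Metric.closure_ball_subset_closedBall hz
    exact (differentiableAt_riemannZeta (hne z hz')).differentiableWithinAt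
  · intro z hz
    have hz' := Metric.sphere_subset_closedBall hz
    exact h t ht z (hball z hz').1 (hball z hz').2

theorem zeta_one_upper : ∃ C : ℝ, 0 < C ∧ ∀ t : ℝ, 2 ≤ t →
    ‖riemannZeta (1 + t * I)‖ ≤ C * Real.log t := by
  obtain ⟨C, hC, h⟩ := oneLine_region
  refine ⟨C, hC, ?_⟩
  intro t ht
  have hL := oneLine_log2 ht
  have hLpos : 0 < Real.log t := by linarith
  apply h t ht
  · simp
  · have hR : 0 < 1 / (4 * Real.log t) := by positivity
    simp only [Complex.add_re, Complex.one_re, Complex.mul_re, Complex.ofReal_re, Complex.I_re,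
      mul_zero, Complex.ofReal_im, Complex.I_im, mul_one, sub_self, add_zero]
    linarith

lemma oneLine_real {x : ℝ} (hx : 0 < x) (hx1 : x ≤ 1) : ‖riemannZeta (1 + x)‖ ≤ 3 / x := by
  have h := zeta_approx (s := 1 + x) (by simp; linarith) (by simpa using hx.ne') 1 le_rfl
  have h1 : zsum (1 + x : ℂ) 1 = 1 := by
    simp [zsum]
  rw [h1] at h
  have h2 : ((1 : ℕ) : ℂ) ^ (1 - (1 + x : ℂ)) / ((1 + x : ℂ) - 1) = 1 / x := by
    simp
  rw [h2] at h
  have h3 : ‖(1 + x : ℂ)‖ = 1 + x := by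
    have : (1 + x : ℂ) = ((1 + x : ℝ) : ℂ) := by push_cast; ring
    rw [this, Complex.norm_real, Real.norm_of_nonneg (by linarith)]
  have h4 : (1 + x : ℂ).re = 1 + x := by simp
  rw [h3, h4] at h
  have h5 : (1 + x) * ((1 : ℕ) : ℝ) ^ (-(1 + x)) / (1 + x) = 1 := by
    rw [Nat.cast_one, Real.one_rpow, mul_one, div_self (by linarith : (1 + x) ≠ 0)]
  rw [h5] at h
  have h6 : ‖riemannZeta (1 + x)‖ ≤ ‖riemannZeta (1 + x) - 1 - 1 / (x : ℂ)‖ + ‖(1 : ℂ)‖ + ‖1 / (x : ℂ)‖ := by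
    have e : riemannZeta (1 + x) = (riemannZeta (1 + x) - 1 - 1 / (x : ℂ)) + 1 + 1 / (x : ℂ) := by ring
    calc ‖riemannZeta (1 + x)‖ = ‖(riemannZeta (1 + x) - 1 - 1 / (x : ℂ)) + 1 + 1 / (x : ℂ)‖ := by
          rw [← e]
      _ ≤ _ := norm_add₃_le
  have h7 : ‖1 / (x : ℂ)‖ = 1 / x := by
    rw [norm_div, norm_one, Complex.norm_real, Real.norm_of_nonneg hx.le]
  rw [h7, norm_one] at h6
  have h8 : 1 ≤ 1 / x := by
    rw [le_div_iff₀ hx]; linarith
  have h9 : 3 / x = 1 / x + 1 / x + 1 / x := by ring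
  linarith

theorem zeta_one_lower : ∃ c : ℝ, 0 < c ∧ ∀ t : ℝ, 2 ≤ t →
    c * (Real.log t) ^ (-7 : ℝ) ≤ ‖riemannZeta (1 + t * I)‖ := by
  obtain ⟨C₁, hC₁, hreg⟩ := oneLine_region
  obtain ⟨C₂, hC₂, hder⟩ := oneLine_deriv
  -- K ≥ 1 with 27 * 2 * C₁ ≤ K
  set K : ℝ := 1 + 54 * C₁ with hK
  have hK1 : 1 ≤ K := by rw [hK]; linarith
  have hK0 : 0 < K := by linarith
  set η : ℝ := min (1 / 8) (1 / (2 * K * C₂)) with hη
  have hη0 : 0 < η := by rw [hη]; positivity
  have hη8 : η ≤ 1 / 8 := min_le_left _ _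
  have hηK : η ≤ 1 / (2 * K * C₂) := min_le_right _ _
  refine ⟨η ^ 3 / (2 * K), by positivity, ?_⟩
  intro t ht
  have hL := oneLine_log2 ht
  set L := Real.log t with hLdef
  have hL0 : 0 < L := by linarith
  have hrp : L ^ (-7 : ℝ) = (L⁻¹) ^ 7 := by
    rw [show (-7 : ℝ) = -((7 : ℕ) : ℝ) by norm_num, Real.rpow_neg hL0.le, Real.rpow_natCast, inv_pow]
  rw [hrp]
  set M := L⁻¹ with hM
  have hM0 : 0 < M := by positivity
  have hM2 : M ≤ 2 := by
    rw [hM, inv_le_comm₀ hL0 (by norm_num)]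
    linarith
  set x : ℝ := η ^ 4 * M ^ 9 with hx
  have hx0 : 0 < x := by positivity
  have hx1 : x ≤ 1 := by
    have h1 : η ^ 4 ≤ (1 / 8) ^ 4 := pow_le_pow_left₀ hη0.le hη8 4
    have h2 : M ^ 9 ≤ 2 ^ 9 := pow_le_pow_left₀ hM0.le hM2 9
    calc x ≤ (1 / 8) ^ 4 * 2 ^ 9 := mul_le_mul h1 h2 (by positivity) (by positivity)
      _ ≤ 1 := by norm_num
  -- 3-4-1
  have h341 := DirichletCharacter.norm_LFunction_product_ge_one (N := 1) 1 hx0 t
  rw [DirichletCharacter.LFunctionTrivChar, DirichletCharacter.LFunction_modOne_eq,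
    DirichletCharacter.LFunction_modOne_eq] at h341
  rw [norm_mul, norm_mul, norm_pow, norm_pow] at h341
  have hA := oneLine_real hx0 hx1
  have hlog2t : Real.log (2 * t) ≤ 2 * L := by
    rw [Real.log_mul (by norm_num) (by linarith)]
    have := Real.log_le_log (by norm_num) ht
    linarith
  have hB : ‖riemannZeta (1 + x + 2 * I * t)‖ ≤ 2 * C₁ * L := by
    have h1 := hreg (2 * t) (by linarith) (1 + x + 2 * I * t) (by
      have : (1 + x + 2 * I * t : ℂ).im = 2 * t := by simp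
      rw [this]; simp) (by
      have : (1 + x + 2 * I * t : ℂ).re = 1 + x := by simp
      rw [this]
      have h2 : 0 < Real.log (2 * t) := Real.log_pos (by linarith)
      have h3 : 0 < 1 / (4 * Real.log (2 * t)) := by positivity
      linarith)
    calc _ ≤ C₁ * Real.log (2 * t) := h1
      _ ≤ C₁ * (2 * L) := mul_le_mul_of_nonneg_left hlog2t hC₁.le
      _ = _ := by ring
  set Z := ‖riemannZeta (1 + x + I * t)‖ with hZ
  have hZ0 : 0 ≤ Z := norm_nonneg _
  have h1 : 1 ≤ (3 / x) ^ 3 * Z ^ 4 * (2 * C₁ * L) := by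
    refine le_trans h341 ?_
    apply mul_le_mul _ hB (norm_nonneg _) (by positivity)
    apply mul_le_mul_of_nonneg_right _ (by positivity)
    exact pow_le_pow_left₀ (norm_nonneg _) hA 3
  have h2 : x ^ 3 * M ≤ K * Z ^ 4 := by
    have h3 : (3 / x) ^ 3 * Z ^ 4 * (2 * C₁ * L) = 54 * C₁ * Z ^ 4 * L / x ^ 3 := by
      field_simp
      ring
    rw [h3, le_div_iff₀ (by positivity), one_mul] at h1
    have h4 : x ^ 3 * M ≤ 54 * C₁ * Z ^ 4 := by
      calc x ^ 3 * M ≤ (54 * C₁ * Z ^ 4 * L) * M := mul_le_mul_of_nonneg_right h1 hM0.le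
        _ = 54 * C₁ * Z ^ 4 * (L * M) := by ring
        _ = _ := by rw [hM, mul_inv_cancel₀ hL0.ne', mul_one]
    refine h4.trans ?_
    apply mul_le_mul_of_nonneg_right _ (by positivity)
    rw [hK]; linarith
  have h3 : (η ^ 3 * M ^ 7 / K) ^ 4 ≤ Z ^ 4 := by
    have e1 : x ^ 3 * M = (η ^ 3 * M ^ 7) ^ 4 := by rw [hx]; ring
    rw [e1] at h2
    rw [div_pow, div_le_iff₀ (by positivity)]
    calc (η ^ 3 * M ^ 7) ^ 4 ≤ K * Z ^ 4 := h2
      _ ≤ K ^ 4 * Z ^ 4 := by
          apply mul_le_mul_of_nonneg_right _ (by positivity)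
          exact le_self_pow₀ hK1 (by norm_num)
      _ = Z ^ 4 * K ^ 4 := by ring
  have h4 : η ^ 3 * M ^ 7 / K ≤ Z := by
    exact le_of_pow_le_pow_left₀ (by norm_num) hZ0 h3
  -- difference
  have h5 : ‖riemannZeta (1 + x + t * I) - riemannZeta (1 + t * I)‖ ≤ C₂ * L ^ 2 * x := by
    have hconv : Convex ℝ ((fun y : ℝ => (1 + y + t * I : ℂ)) '' (Set.Icc 0 x)) := by
      have : (fun y : ℝ => (1 + y + t * I : ℂ)) = fun y : ℝ => (y • (1 : ℂ)) + (1 + t * I) := by
        funext y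
        simp
        ring
      rw [this]
      have h6 : (fun y : ℝ => (y • (1 : ℂ)) + (1 + t * I)) '' (Set.Icc 0 x) =
          (fun z => z + (1 + t * I)) '' ((LinearMap.toSpanSingleton ℝ ℂ 1) '' (Set.Icc 0 x)) := by
        rw [Set.image_image]
        rfl
      rw [h6]
      have h7 := ((convex_Icc (0 : ℝ) x).linear_image (LinearMap.toSpanSingleton ℝ ℂ 1)).translate
        (1 + t * I)
      have h8 : (fun z : ℂ => z + (1 + t * I)) = fun z : ℂ => (1 + t * I) + z := by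
        funext z
        ring
      rw [h8]
      exact h7
    have h6 := Convex.norm_image_sub_le_of_norm_deriv_le (𝕜 := ℂ) (f := riemannZeta)
      (s := (fun y : ℝ => (1 + y + t * I : ℂ)) '' (Set.Icc 0 x)) (x := 1 + t * I)
      (y := 1 + x + t * I) (C := C₂ * L ^ 2) ?_ ?_ hconv ?_ ?_
    · refine h6.trans (le_of_eq ?_)
      congr 1
      have : (1 + x + t * I : ℂ) - (1 + t * I) = x := by ring
      rw [this, Complex.norm_real, Real.norm_of_nonneg hx0.le]
    · rintro _ ⟨y, hy, rfl⟩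
      apply differentiableAt_riemannZeta
      intro h
      have := congrArg Complex.im h
      simp at this
      linarith
    · rintro _ ⟨y, hy, rfl⟩
      exact hder t ht y hy.1
    · exact ⟨0, ⟨le_rfl, hx0.le⟩, by simp⟩
    · exact ⟨x, ⟨hx0.le, le_rfl⟩, rfl⟩
  have h6 : C₂ * L ^ 2 * x = C₂ * η * (η ^ 3 * M ^ 7) := by
    have h7 : L ^ 2 * M ^ 2 = 1 := by
      rw [← mul_pow, hM, mul_inv_cancel₀ hL0.ne', one_pow]
    rw [hx]
    calc C₂ * L ^ 2 * (η ^ 4 * M ^ 9) = C₂ * η * (η ^ 3 * M ^ 7) * (L ^ 2 * M ^ 2) := by ring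
      _ = _ := by rw [h7, mul_one]
  have h7 : C₂ * η ≤ 1 / (2 * K) := by
    calc C₂ * η ≤ C₂ * (1 / (2 * K * C₂)) := mul_le_mul_of_nonneg_left hηK hC₂.le
      _ = 1 / (2 * K) := by field_simp
  have h8 : Z - ‖riemannZeta (1 + t * I)‖ ≤ ‖riemannZeta (1 + x + t * I) - riemannZeta (1 + t * I)‖ := by
    rw [hZ, mul_comm I (t : ℂ)]
    exact norm_sub_norm_le _ _
  have h9 : C₂ * η * (η ^ 3 * M ^ 7) ≤ 1 / (2 * K) * (η ^ 3 * M ^ 7) :=
    mul_le_mul_of_nonneg_right h7 (by positivity)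
  have h10 : η ^ 3 * M ^ 7 / K = 2 * (1 / (2 * K) * (η ^ 3 * M ^ 7)) := by
    field_simp
  have h11 : η ^ 3 / (2 * K) * M ^ 7 = 1 / (2 * K) * (η ^ 3 * M ^ 7) := by ring
  rw [h11]
  linarith

end Pool.Agent.Lib.MP_aa9ae4_nt
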