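import Mathlib
import Pool.Agent.Lib.MP_aa9ae4_nt.Defs

namespace Pool.Agent.Lib.MP_aa9ae4_nt

open Finset MeasureTheory Filter Topology
open Complex (I)

/-- the integral of an exponential -/
noncomputable def twistJ (T x : ℝ) : ℂ := ∫ t in T..(2 * T), Complex.exp ((t * x : ℝ) * I)

lemma twistJ_le (T x : ℝ) (hT : 0 ≤ T) : ‖twistJ T x‖ ≤ T := by
  have h := intervalIntegral.norm_integral_le_of_norm_le_const (a := T) (b := 2 * T) (C := 1)
    (f := fun t : ℝ => Complex.exp ((t * x : ℝ) * I))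
    (fun t _ => (Complex.norm_exp_ofReal_mul_I _).le)
  rw [one_mul] at h
  have h2 : |2 * T - T| = T := by
    rw [abs_of_nonneg (by linarith)]; ring
  rw [h2] at h
  exact h

lemma twistJ_zero (T : ℝ) : twistJ T 0 = T := by
  unfold twistJ
  simp
  ring

lemma twistJ_le_inv (T x : ℝ) (hx : x ≠ 0) : ‖twistJ T x‖ ≤ 2 / |x| := by
  have hc : (x : ℂ) * I ≠ 0 := mul_ne_zero (Complex.ofReal_ne_zero.mpr hx) Complex.I_ne_zero
  have h1 : twistJ T x = (Complex.exp ((x : ℂ) * I * ((2 * T : ℝ) : ℂ)) -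
      Complex.exp ((x : ℂ) * I * (T : ℂ))) / ((x : ℂ) * I) := by
    rw [← integral_exp_mul_complex hc]
    unfold twistJ
    congr 1
    ext t
    congr 1
    push_cast
    ring
  have h2 : ∀ u : ℝ, ‖Complex.exp ((x : ℂ) * I * (u : ℂ))‖ = 1 := by
    intro u
    have e : (x : ℂ) * I * (u : ℂ) = ((x * u : ℝ) : ℂ) * I := by push_cast; ring
    rw [e, Complex.norm_exp_ofReal_mul_I]
  rw [h1, norm_div]
  have h3 : ‖(x : ℂ) * I‖ = |x| := by
    rw [norm_mul, Complex.norm_I, mul_one, Complex.norm_real, Real.norm_eq_abs]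
  rw [h3]
  have h4 : 0 < |x| := abs_pos.mpr hx
  apply div_le_div_of_nonneg_right _ h4.le
  calc _ ≤ ‖Complex.exp ((x : ℂ) * I * ((2 * T : ℝ) : ℂ))‖ + ‖Complex.exp ((x : ℂ) * I * (T : ℂ))‖ :=
        norm_sub_le _ _
    _ = 2 := by rw [h2, h2]; norm_num

/-- the frequency -/
noncomputable def twistX (θ : ℝ) (n m : ℕ) : ℝ := Real.log θ + Real.log n - Real.log m

lemma twist_pow (m : ℕ) (hm : 1 ≤ m) (t : ℝ) : (m : ℂ) ^ (-(1 / 2 + t * I)) =
    ((1 / √m : ℝ) : ℂ) * Complex.exp ((-(t * Real.log m) : ℝ) * I) := by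
  have hm0 : (m : ℂ) ≠ 0 := by exact_mod_cast (by omega : m ≠ 0)
  have hmpos : (0 : ℝ) < m := by exact_mod_cast hm
  rw [Complex.cpow_def_of_ne_zero hm0, ← Complex.natCast_log]
  have e : (Real.log (m : ℝ) : ℂ) * (-(1 / 2 + t * I)) =
      ((-(Real.log (m : ℝ) / 2) : ℝ) : ℂ) + ((-(t * Real.log m) : ℝ) : ℂ) * I := by
    push_cast; ring
  rw [e, Complex.exp_add, ← Complex.ofReal_exp]
  congr 2
  rw [Real.exp_neg, Real.exp_half, Real.exp_log hmpos, one_div]

lemma twist_expand (θ : ℝ) (hθ : 0 < θ) (N : ℕ) (t : ℝ) :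
    ((‖zsum (1 / 2 + t * I) N‖ ^ 2 : ℝ) : ℂ) * (θ : ℂ) ^ (t * I) =
    ∑ n ∈ Icc 1 N, ∑ m ∈ Icc 1 N, ((1 / √(n * m) : ℝ) : ℂ) *
      Complex.exp ((t * twistX θ n m : ℝ) * I) := by
  have hθ0 : (θ : ℂ) ≠ 0 := Complex.ofReal_ne_zero.mpr hθ.ne'
  have h1 : zsum (1 / 2 + t * I) N = ∑ m ∈ Icc 1 N,
      ((1 / √m : ℝ) : ℂ) * Complex.exp ((-(t * Real.log m) : ℝ) * I) := by
    unfold zsum
    refine sum_congr rfl fun m hm => twist_pow m (mem_Icc.mp hm).1 t
  have h2 : ((‖zsum (1 / 2 + t * I) N‖ ^ 2 : ℝ) : ℂ) =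
      (∑ n ∈ Icc 1 N, ((1 / √n : ℝ) : ℂ) * Complex.exp (((t * Real.log n) : ℝ) * I)) *
      (∑ m ∈ Icc 1 N, ((1 / √m : ℝ) : ℂ) * Complex.exp ((-(t * Real.log m) : ℝ) * I)) := by
    rw [Complex.ofReal_pow, ← Complex.mul_conj', h1, mul_comm, map_sum]
    congr 1
    refine sum_congr rfl fun n _ => ?_
    rw [map_mul, Complex.conj_ofReal, ← Complex.exp_conj, map_mul, Complex.conj_ofReal,
      Complex.conj_I]
    congr 2
    push_cast
    ring
  rw [h2, sum_mul_sum, sum_mul]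
  refine sum_congr rfl fun n hn => ?_
  rw [sum_mul]
  refine sum_congr rfl fun m hm => ?_
  rw [Complex.cpow_def_of_ne_zero hθ0, ← Complex.ofReal_log hθ.le]
  have e1 : ((1 / √(n * m) : ℝ) : ℂ) = ((1 / √n : ℝ) : ℂ) * ((1 / √m : ℝ) : ℂ) := by
    rw [← Complex.ofReal_mul, Real.sqrt_mul (Nat.cast_nonneg n)]
    congr 1
    rw [one_div_mul_one_div]
  have e2 : Complex.exp ((t * twistX θ n m : ℝ) * I) = Complex.exp (((t * Real.log n) : ℝ) * I) *
      Complex.exp ((-(t * Real.log m) : ℝ) * I) * Complex.exp ((Real.log θ : ℂ) * (t * I)) := by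
    rw [← Complex.exp_add, ← Complex.exp_add]
    congr 1
    unfold twistX
    push_cast
    ring
  rw [e1, e2]
  ring

lemma twist_integral (θ : ℝ) (hθ : 0 < θ) (N : ℕ) (T : ℝ) :
    ∫ t in T..(2 * T), ((‖zsum (1 / 2 + t * I) N‖ ^ 2 : ℝ) : ℂ) * (θ : ℂ) ^ (t * I) =
    ∑ n ∈ Icc 1 N, ∑ m ∈ Icc 1 N, ((1 / √(n * m) : ℝ) : ℂ) * twistJ T (twistX θ n m) := by
  have h1 : ∀ n m : ℕ, Continuous fun t : ℝ => ((1 / √(n * m) : ℝ) : ℂ) *
      Complex.exp ((t * twistX θ n m : ℝ) * I) := by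
    intro n m
    fun_prop
  rw [intervalIntegral.integral_congr (fun t _ => twist_expand θ hθ N t),
    intervalIntegral.integral_finsetSum]
  · refine sum_congr rfl fun n _ => ?_
    rw [intervalIntegral.integral_finsetSum]
    · refine sum_congr rfl fun m _ => ?_
      rw [intervalIntegral.integral_const_mul]
      rfl
    · intro m _
      exact (h1 n m).intervalIntegrable _ _
  · intro n _
    exact (continuous_finsetSum _ fun m _ => h1 n m).intervalIntegrable _ _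

/-! ### Elementary sums -/

lemma twist_sum_inv_le (N : ℕ) : ∑ j ∈ Icc 1 N, 1 / (j : ℝ) ≤ 1 + Real.log N := by
  have h := harmonic_le_one_add_log N
  rw [harmonic_eq_sum_Icc] at h
  push_cast at h
  simpa only [one_div] using h

lemma twist_log_le_sum (N : ℕ) : Real.log ((N : ℝ) + 1) ≤ ∑ j ∈ Icc 1 N, 1 / (j : ℝ) := by
  have h := log_add_one_le_harmonic N
  rw [harmonic_eq_sum_Icc] at h
  push_cast at h
  simpa only [one_div] using h

lemma twist_sum_sqrt_le (N : ℕ) : ∑ n ∈ Icc 1 N, 1 / √(n : ℝ) ≤ 2 * √(N : ℝ) := by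
  induction N with
  | zero => simp
  | succ N ih =>
    rw [Finset.sum_Icc_succ_top (by omega)]
    have h1 : (0 : ℝ) < √((N + 1 : ℕ) : ℝ) := Real.sqrt_pos.mpr (by positivity)
    have h2 : √(N : ℝ) ≤ √((N + 1 : ℕ) : ℝ) := Real.sqrt_le_sqrt (by push_cast; linarith)
    have h3 : √((N + 1 : ℕ) : ℝ) ^ 2 = N + 1 := by rw [Real.sq_sqrt (by positivity)]; push_cast; ring
    have h4 : √(N : ℝ) ^ 2 = N := Real.sq_sqrt (by positivity)
    have h5 : 1 / √((N + 1 : ℕ) : ℝ) ≤ 2 * √((N + 1 : ℕ) : ℝ) - 2 * √(N : ℝ) := by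
      rw [div_le_iff₀ h1]
      nlinarith [sq_nonneg (√((N + 1 : ℕ) : ℝ) - √(N : ℝ))]
    linarith

lemma twist_sum_abs_le (N c : ℕ) (hc : c ≤ N) :
    ∑ m ∈ Icc 1 N, 1 / (|(c : ℝ) - m| + 1) ≤ 2 * (1 + Real.log N) := by
  rw [← Finset.sum_filter_add_sum_filter_not (Icc 1 N) (fun m => m ≤ c), two_mul]
  refine add_le_add ?_ ?_
  · refine le_trans ?_ (twist_sum_inv_le N)
    have h1 : ∑ m ∈ (Icc 1 N).filter (fun m => m ≤ c), 1 / (|(c : ℝ) - m| + 1) =
        ∑ j ∈ ((Icc 1 N).filter (fun m => m ≤ c)).image (fun m => c + 1 - m), 1 / (j : ℝ) := by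
      rw [Finset.sum_image]
      · refine sum_congr rfl fun m hm => ?_
        have hm2 := (mem_filter.mp hm).2
        rw [Nat.cast_sub (by omega), abs_of_nonneg (by
          have : (m : ℝ) ≤ c := by exact_mod_cast hm2
          linarith)]
        push_cast
        congr 1
        ring
      · intro a ha b hb hab
        have ha2 := (mem_filter.mp ha).2
        have hb2 := (mem_filter.mp hb).2
        simp only at hab
        omega
    rw [h1]
    refine sum_le_sum_of_subset_of_nonneg ?_ fun _ _ _ => by positivity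
    intro j hj
    obtain ⟨m, hm, rfl⟩ := mem_image.mp hj
    have h2 := mem_filter.mp hm
    have h3 := mem_Icc.mp h2.1
    rw [mem_Icc]
    omega
  · refine le_trans ?_ (twist_sum_inv_le N)
    have h1 : ∑ m ∈ (Icc 1 N).filter (fun m => ¬ m ≤ c), 1 / (|(c : ℝ) - m| + 1) ≤
        ∑ j ∈ ((Icc 1 N).filter (fun m => ¬ m ≤ c)).image (fun m => m - c), 1 / (j : ℝ) := by
      rw [Finset.sum_image]
      · refine sum_le_sum fun m hm => ?_
        have hm2 := (mem_filter.mp hm).2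
        have hm3 : (c : ℝ) + 1 ≤ m := by exact_mod_cast (by omega : c + 1 ≤ m)
        rw [Nat.cast_sub (by omega), abs_of_nonpos (by linarith)]
        apply one_div_le_one_div_of_le <;> linarith
      · intro a ha b hb hab
        have ha2 := (mem_filter.mp ha).2
        have hb2 := (mem_filter.mp hb).2
        simp only at hab
        omega
    refine h1.trans (sum_le_sum_of_subset_of_nonneg ?_ fun _ _ _ => by positivity)
    intro j hj
    obtain ⟨m, hm, rfl⟩ := mem_image.mp hj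
    have h2 := mem_filter.mp hm
    have h3 := mem_Icc.mp h2.1
    rw [mem_Icc]
    omega

/-- the sum of the inverse distances from `y` to integers -/
lemma twist_sum_dist_le (N : ℕ) (y K : ℝ) (hy : 0 ≤ y) (hK : 2 ≤ K) :
    ∑ m ∈ (Icc 1 N).filter (fun m : ℕ => 1 ≤ K * |y - m|), 1 / |y - m| ≤
      4 * K * (1 + Real.log N) := by
  -- the integer next to `y`
  obtain ⟨c', hc'⟩ : ∃ c' : ℕ, |y - c'| ≤ 1 / 2 := by
    refine ⟨⌊y + 1 / 2⌋₊, ?_⟩
    have h1 := Nat.floor_le (show 0 ≤ y + 1 / 2 by linarith)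
    have h2 := Nat.lt_floor_add_one (y + 1 / 2)
    rw [abs_le]
    constructor <;> linarith
  set c := min c' N with hc
  have h1 : ∀ m ∈ (Icc 1 N).filter (fun m : ℕ => 1 ≤ K * |y - m|),
      1 / |y - m| ≤ 2 * K * (1 / (|(c : ℝ) - m| + 1)) := by
    intro m hm
    have h2 := (mem_filter.mp hm).2
    have h3 := (mem_Icc.mp (mem_filter.mp hm).1)
    have hpos : 0 < |y - m| := by
      by_contra h
      have : |y - m| = 0 := le_antisymm (not_lt.mp h) (abs_nonneg _)
      rw [this] at h2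
      linarith
    have h4 : |(c' : ℝ) - m| ≤ |y - m| + 1 / 2 := by
      have : (c' : ℝ) - m = (y - m) - (y - c') := by ring
      rw [this]
      exact (abs_sub _ _).trans (by linarith)
    have h5 : |(c : ℝ) - m| ≤ |(c' : ℝ) - m| := by
      rcases le_total c' N with h | h
      · rw [hc, min_eq_left h]
      · have e1 : (m : ℝ) ≤ N := by exact_mod_cast h3.2
        have e2 : (N : ℝ) ≤ c' := by exact_mod_cast h
        rw [hc, min_eq_right h, abs_of_nonneg (by linarith), abs_of_nonneg (by linarith)]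
        linarith
    have h6 : |(c : ℝ) - m| + 1 ≤ 2 * K * |y - m| := by nlinarith
    have h7 : 0 < |(c : ℝ) - m| + 1 := by positivity
    rw [mul_one_div, div_le_div_iff₀ hpos h7]
    linarith
  calc _ ≤ ∑ m ∈ (Icc 1 N).filter (fun m : ℕ => 1 ≤ K * |y - m|),
        2 * K * (1 / (|(c : ℝ) - m| + 1)) := sum_le_sum h1
    _ ≤ ∑ m ∈ Icc 1 N, 2 * K * (1 / (|(c : ℝ) - m| + 1)) :=
        sum_le_sum_of_subset_of_nonneg (filter_subset _ _) fun _ _ _ => by positivity
    _ ≤ 2 * K * (2 * (1 + Real.log N)) := by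
        rw [← mul_sum]
        exact mul_le_mul_of_nonneg_left (twist_sum_abs_le N c (min_le_right _ _)) (by linarith)
    _ = _ := by ring

/-- the frequency is bounded below by the distance -/
lemma twistX_ge (θ : ℝ) (hθ : 0 < θ) (n m : ℕ) (hn : 1 ≤ n) (hm : 1 ≤ m)
    (h : 0 < |θ * n - m|) : twistX θ n m ≠ 0 ∧
      1 / |twistX θ n m| ≤ max (θ * n) m / |θ * n - m| := by
  have hn0 : (0 : ℝ) < n := by exact_mod_cast hn
  have hm0 : (0 : ℝ) < m := by exact_mod_cast hm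
  have ha : 0 < θ * n := mul_pos hθ hn0
  have e1 : twistX θ n m = Real.log (θ * n) - Real.log m := by
    unfold twistX
    rw [Real.log_mul hθ.ne' hn0.ne']
  have key : ∀ a b : ℝ, 0 < a → 0 < b → a < b → (b - a) / b ≤ Real.log b - Real.log a := by
    intro a b ha hb hab
    rw [← Real.log_div hb.ne' ha.ne']
    have h1 := Real.one_sub_inv_le_log_of_pos (div_pos hb ha)
    have h2 : 1 - (b / a)⁻¹ = (b - a) / b := by
      field_simp
    linarith
  have h2 : |θ * n - m| / max (θ * n) m ≤ |twistX θ n m| := by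
    rw [e1]
    rcases lt_trichotomy (θ * n) (m : ℝ) with h3 | h3 | h3
    · rw [max_eq_right h3.le, abs_sub_comm, abs_of_pos (by linarith), abs_sub_comm]
      exact (key _ _ ha hm0 h3).trans (le_abs_self _)
    · rw [h3] at h; simp at h
    · rw [max_eq_left h3.le, abs_of_pos (by linarith)]
      exact (key _ _ hm0 ha h3).trans (le_abs_self _)
  have hmax : 0 < max (θ * n) (m : ℝ) := lt_max_of_lt_left ha
  have h3 : 0 < |θ * n - m| / max (θ * n) m := div_pos h hmax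
  have h4 : 0 < |twistX θ n m| := lt_of_lt_of_le h3 h2
  refine ⟨abs_pos.mp h4, ?_⟩
  have h5 := one_div_le_one_div_of_le h3 h2
  rwa [one_div_div] at h5

lemma twist_sqrt_mul (n m : ℕ) : 1 / √((n : ℝ) * m) = 1 / √(n : ℝ) * (1 / √(m : ℝ)) := by
  rw [Real.sqrt_mul (Nat.cast_nonneg n), one_div_mul_one_div]

lemma twist_term_le (T θ : ℝ) (hθ : 0 < θ) (N n m : ℕ) (hn : 1 ≤ n) (hm : 1 ≤ m) (hmN : m ≤ N)
    (h : 0 < |θ * n - m|) : 1 / √((n : ℝ) * m) * ‖twistJ T (twistX θ n m)‖ ≤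
      2 * (1 / √(n : ℝ)) * (1 / √(m : ℝ)) + 2 * √(N : ℝ) * (1 / √(n : ℝ)) * (1 / |θ * n - m|) := by
  obtain ⟨h1, h2⟩ := twistX_ge θ hθ n m hn hm h
  have hm0 : (0 : ℝ) < m := by exact_mod_cast hm
  have hn0 : (0 : ℝ) < n := by exact_mod_cast hn
  have h3 : max (θ * n) (m : ℝ) ≤ |θ * n - m| + m := by
    rcases le_total (θ * n) (m : ℝ) with h3 | h3
    · rw [max_eq_right h3]; linarith [abs_nonneg (θ * n - m)]
    · rw [max_eq_left h3]; linarith [le_abs_self (θ * n - m)]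
  have h4 : ‖twistJ T (twistX θ n m)‖ ≤ 2 + 2 * (m * (1 / |θ * n - m|)) := by
    calc _ ≤ 2 / |twistX θ n m| := twistJ_le_inv T _ h1
      _ = 2 * (1 / |twistX θ n m|) := by ring
      _ ≤ 2 * (max (θ * n) m / |θ * n - m|) := by linarith
      _ ≤ 2 * ((|θ * n - m| + m) / |θ * n - m|) := by
          have := div_le_div_of_nonneg_right h3 h.le
          linarith
      _ = _ := by field_simp
  rw [twist_sqrt_mul]
  have hsn : 0 < √(n : ℝ) := Real.sqrt_pos.mpr hn0
  have hsm : 0 < √(m : ℝ) := Real.sqrt_pos.mpr hm0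
  have h5 : 1 / √(m : ℝ) * m ≤ √(N : ℝ) := by
    have e : 1 / √(m : ℝ) * m = √(m : ℝ) := by
      have := Real.mul_self_sqrt hm0.le
      field_simp
      nlinarith
    rw [e]
    exact Real.sqrt_le_sqrt (by exact_mod_cast hmN)
  calc 1 / √(n : ℝ) * (1 / √(m : ℝ)) * ‖twistJ T (twistX θ n m)‖
      ≤ 1 / √(n : ℝ) * (1 / √(m : ℝ)) * (2 + 2 * (m * (1 / |θ * n - m|))) :=
        mul_le_mul_of_nonneg_left h4 (by positivity)
    _ = 2 * (1 / √(n : ℝ)) * (1 / √(m : ℝ)) +
        2 * (1 / √(m : ℝ) * m) * (1 / √(n : ℝ)) * (1 / |θ * n - m|) := by ring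
    _ ≤ _ := by
        have h6 : 0 ≤ (1 / √(n : ℝ)) * (1 / |θ * n - m|) := by positivity
        nlinarith [mul_le_mul_of_nonneg_right h5 h6]

lemma twist_far (T θ K : ℝ) (hθ : 0 < θ) (hK : 2 ≤ K) (N : ℕ) :
    ∑ n ∈ Icc 1 N, ∑ m ∈ (Icc 1 N).filter (fun m : ℕ => 1 ≤ K * |θ * n - m|),
      1 / √((n : ℝ) * m) * ‖twistJ T (twistX θ n m)‖ ≤ 20 * K * (N * (1 + Real.log N)) := by
  rcases Nat.eq_zero_or_pos N with hN | hN
  · subst hN; simp
  have hlog : 0 ≤ Real.log (N : ℝ) := Real.log_natCast_nonneg N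
  have hNs : √(N : ℝ) * √(N : ℝ) = N := Real.mul_self_sqrt (Nat.cast_nonneg N)
  have hinner : ∀ n ∈ Icc 1 N, ∑ m ∈ (Icc 1 N).filter (fun m : ℕ => 1 ≤ K * |θ * n - m|),
      1 / √((n : ℝ) * m) * ‖twistJ T (twistX θ n m)‖ ≤
      10 * K * (1 + Real.log N) * √(N : ℝ) * (1 / √(n : ℝ)) := by
    intro n hn
    have hn1 := (mem_Icc.mp hn).1
    have hn0 : (0 : ℝ) < n := by exact_mod_cast hn1
    have h1 : ∀ m ∈ (Icc 1 N).filter (fun m : ℕ => 1 ≤ K * |θ * n - m|),
        1 / √((n : ℝ) * m) * ‖twistJ T (twistX θ n m)‖ ≤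
        2 * (1 / √(n : ℝ)) * (1 / √(m : ℝ)) +
        2 * √(N : ℝ) * (1 / √(n : ℝ)) * (1 / |θ * n - m|) := by
      intro m hm
      have h2 := (mem_filter.mp hm).2
      have h3 := (mem_Icc.mp (mem_filter.mp hm).1)
      refine twist_term_le T θ hθ N n m hn1 h3.1 h3.2 ?_
      by_contra h
      have : |θ * n - m| = 0 := le_antisymm (not_lt.mp h) (abs_nonneg _)
      rw [this] at h2
      linarith
    refine (sum_le_sum h1).trans ?_
    rw [sum_add_distrib, ← mul_sum, ← mul_sum]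
    have h2 : ∑ m ∈ (Icc 1 N).filter (fun m : ℕ => 1 ≤ K * |θ * n - m|), 1 / √(m : ℝ) ≤
        2 * √(N : ℝ) :=
      (sum_le_sum_of_subset_of_nonneg (filter_subset _ _) fun _ _ _ => by positivity).trans
        (twist_sum_sqrt_le N)
    have h3 := twist_sum_dist_le N (θ * n) K (by positivity) hK
    have hs : 0 ≤ 1 / √(n : ℝ) := by positivity
    have hsN : 0 ≤ √(N : ℝ) := Real.sqrt_nonneg _
    calc _ ≤ 2 * (1 / √(n : ℝ)) * (2 * √(N : ℝ)) +
          2 * √(N : ℝ) * (1 / √(n : ℝ)) * (4 * K * (1 + Real.log N)) :=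
          add_le_add (mul_le_mul_of_nonneg_left h2 (by positivity))
            (mul_le_mul_of_nonneg_left h3 (by positivity))
      _ = (4 + 8 * K * (1 + Real.log N)) * (√(N : ℝ) * (1 / √(n : ℝ))) := by ring
      _ ≤ (10 * K * (1 + Real.log N)) * (√(N : ℝ) * (1 / √(n : ℝ))) := by
          refine mul_le_mul_of_nonneg_right ?_ (mul_nonneg hsN hs)
          nlinarith
      _ = _ := by ring
  refine (sum_le_sum hinner).trans ?_
  rw [← mul_sum]
  calc _ ≤ 10 * K * (1 + Real.log N) * √(N : ℝ) * (2 * √(N : ℝ)) :=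
        mul_le_mul_of_nonneg_left (twist_sum_sqrt_le N) (by positivity)
    _ = 20 * K * ((√(N : ℝ) * √(N : ℝ)) * (1 + Real.log N)) := by ring
    _ = _ := by rw [hNs]

/-- the sum over a separated set -/
lemma twist_sep (N q : ℕ) (hq : 1 ≤ q) (B : Finset ℕ) (hB : B ⊆ Icc 1 N)
    (h1 : ∀ n ∈ B, q ≤ n) (h2 : ∀ n ∈ B, ∀ n' ∈ B, n < n' → q ≤ n' - n) :
    ∑ n ∈ B, 1 / (n : ℝ) ≤ 1 / (q : ℝ) * (1 + Real.log N) := by
  have hq0 : (0 : ℝ) < q := by exact_mod_cast hq
  have hinj : ∀ a ∈ B, ∀ b ∈ B, a / q = b / q → a = b := by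
    intro a ha b hb hab
    have key : ∀ a ∈ B, ∀ b ∈ B, a / q = b / q → ¬ a < b := by
      intro a ha b hb hab hlt
      have h3 := h2 a ha b hb hlt
      have h4 : a + q ≤ b := by omega
      have h5 : (a + q) / q ≤ b / q := Nat.div_le_div_right h4
      rw [Nat.add_div_right _ (by omega)] at h5
      omega
    rcases lt_trichotomy a b with h | h | h
    · exact absurd h (key a ha b hb hab)
    · exact h
    · exact absurd h (key b hb a ha hab.symm)
  calc ∑ n ∈ B, 1 / (n : ℝ) ≤ ∑ n ∈ B, 1 / (q : ℝ) * (1 / ((n / q : ℕ) : ℝ)) := by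
        refine sum_le_sum fun n hn => ?_
        have h3 : 1 ≤ n / q := (Nat.one_le_div_iff (by omega)).mpr (h1 n hn)
        have h4 : (0 : ℝ) < ((n / q : ℕ) : ℝ) := by exact_mod_cast h3
        rw [one_div_mul_one_div]
        refine one_div_le_one_div_of_le (by positivity) ?_
        have h5 : q * (n / q) ≤ n := Nat.mul_div_le n q
        exact_mod_cast h5
    _ = 1 / (q : ℝ) * ∑ j ∈ B.image (fun n => n / q), 1 / (j : ℝ) := by
        rw [← mul_sum, sum_image (fun a ha b hb hab => hinj a ha b hb hab)]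
    _ ≤ _ := by
        refine mul_le_mul_of_nonneg_left ?_ (by positivity)
        refine le_trans (sum_le_sum_of_subset_of_nonneg ?_ fun _ _ _ => by positivity)
          (twist_sum_inv_le N)
        intro j hj
        obtain ⟨n, hn, rfl⟩ := mem_image.mp hj
        rw [mem_Icc]
        refine ⟨(Nat.one_le_div_iff (by omega)).mpr (h1 n hn), ?_⟩
        exact (Nat.div_le_self _ _).trans (mem_Icc.mp (hB hn)).2

theorem twisted_bound : ∃ C : ℝ, 0 < C ∧ ∀ (T θ Λ : ℝ) (N q : ℕ), 2 ≤ T → 1 ≤ θ → 1 ≤ Λ →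
    1 ≤ N → (N : ℝ) ≤ T → 1 ≤ q →
    (∀ n : ℕ, 1 ≤ n → n < q → ∀ m : ℤ, 8 * Λ * N / T < |θ * n - m|) →
    ‖∫ t in T..(2 * T), ((‖zsum (1 / 2 + t * I) N‖ ^ 2 : ℝ) : ℂ) * (θ : ℂ) ^ (t * I)‖ ≤
      C * (N * (1 + Real.log N) + T * (1 + Real.log N) * (1 / Λ + 1 / (√θ * q))) := by
  refine ⟨40, by norm_num, fun T θ Λ N q hT hθ hΛ hN hNT hq hyp => ?_⟩
  have hθ0 : 0 < θ := by linarith
  have hT0 : 0 < T := by linarith
  have hΛ0 : 0 < Λ := by linarith
  have hN0 : (0 : ℝ) < N := by exact_mod_cast hN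
  have hq0 : (0 : ℝ) < q := by exact_mod_cast hq
  have hlog : 0 ≤ Real.log (N : ℝ) := Real.log_natCast_nonneg N
  have hsθ : 1 ≤ √θ := Real.one_le_sqrt.mpr hθ
  set δ := 4 * Λ * N / T with hδ
  have hδ2 : 8 * Λ * N / T = 2 * δ := by rw [hδ]; ring
  obtain ⟨B, hB⟩ : ∃ B : Finset ℕ, ∀ n, n ∈ B ↔
      n ∈ Icc 1 N ∧ ∃ m ∈ Icc 1 N, |θ * n - (m : ℕ)| ≤ δ := by
    classical
    exact ⟨(Icc 1 N).filter (fun n : ℕ => ∃ m ∈ Icc 1 N, |θ * n - (m : ℕ)| ≤ δ),
      fun n => by simp only [mem_filter]⟩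
  have hBs : B ⊆ Icc 1 N := fun n hn => ((hB n).mp hn).1
  have hBsum : ∑ n ∈ B, 1 / (n : ℝ) ≤ 1 / (q : ℝ) * (1 + Real.log N) := by
    refine twist_sep N q hq B hBs ?_ ?_
    · intro n hn
      obtain ⟨hn1, m, hm, h1⟩ := (hB n).mp hn
      by_contra hlt
      have h2 := hyp n (mem_Icc.mp hn1).1 (by omega) m
      rw [hδ2] at h2
      have h3 : 0 ≤ δ := (abs_nonneg _).trans h1
      push_cast at h2
      linarith
    · intro n hn n' hn' hlt
      obtain ⟨hn1, m, hm, h1⟩ := (hB n).mp hn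
      obtain ⟨hn1', m', hm', h1'⟩ := (hB n').mp hn'
      by_contra hlt2
      have h2 := hyp (n' - n) (by omega) (by omega) ((m' : ℤ) - m)
      rw [hδ2, Nat.cast_sub hlt.le] at h2
      push_cast at h2
      have e : θ * ((n' : ℝ) - n) - (m' - m) = (θ * n' - m') - (θ * n - m) := by ring
      rw [e] at h2
      have h3 := abs_sub (θ * n' - (m' : ℝ)) (θ * n - (m : ℝ))
      linarith
  rw [twist_integral θ hθ0]
  have hnorm : ∀ n m : ℕ, ‖((1 / √((n : ℝ) * m) : ℝ) : ℂ) * twistJ T (twistX θ n m)‖ =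
      1 / √((n : ℝ) * m) * ‖twistJ T (twistX θ n m)‖ := by
    intro n m
    rw [norm_mul, Complex.norm_real, Real.norm_of_nonneg (by positivity)]
  have hstep : ‖∑ n ∈ Icc 1 N, ∑ m ∈ Icc 1 N,
      ((1 / √((n : ℝ) * m) : ℝ) : ℂ) * twistJ T (twistX θ n m)‖ ≤
      ∑ n ∈ Icc 1 N, ∑ m ∈ (Icc 1 N).filter (fun m : ℕ => 1 ≤ 2 * |θ * n - m|),
        1 / √((n : ℝ) * m) * ‖twistJ T (twistX θ n m)‖ +
      ∑ n ∈ Icc 1 N, ∑ m ∈ (Icc 1 N).filter (fun m : ℕ => ¬ 1 ≤ 2 * |θ * n - m|),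
        1 / √((n : ℝ) * m) * ‖twistJ T (twistX θ n m)‖ := by
    rw [← sum_add_distrib]
    refine (norm_sum_le _ _).trans (sum_le_sum fun n _ => ?_)
    rw [sum_filter_add_sum_filter_not]
    refine (norm_sum_le _ _).trans (sum_le_sum fun m _ => ?_)
    rw [hnorm]
  have hfar := twist_far T θ 2 hθ0 le_rfl N
  have hnear : ∑ n ∈ Icc 1 N, ∑ m ∈ (Icc 1 N).filter (fun m : ℕ => ¬ 1 ≤ 2 * |θ * n - m|),
        1 / √((n : ℝ) * m) * ‖twistJ T (twistX θ n m)‖ ≤
      ∑ n ∈ Icc 1 N, (2 * T / (√θ * Λ) * (1 / (n : ℝ)) +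
        (if n ∈ B then 2 * T / √θ * (1 / (n : ℝ)) else 0)) := by
    refine sum_le_sum fun n hn => ?_
    have hn1 := (mem_Icc.mp hn).1
    have hn0 : (1 : ℝ) ≤ n := by exact_mod_cast hn1
    have hg : 0 ≤ 2 * T / (√θ * Λ) * (1 / (n : ℝ)) +
        (if n ∈ B then 2 * T / √θ * (1 / (n : ℝ)) else 0) := by
      split_ifs <;> positivity
    have hcard : ((Icc 1 N).filter (fun m : ℕ => ¬ 1 ≤ 2 * |θ * n - m|)).card ≤ 1 := by
      rw [card_le_one]
      intro a ha b hb
      have h1 := (mem_filter.mp ha).2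
      have h2 := (mem_filter.mp hb).2
      rw [not_le] at h1 h2
      have h3 : |(a : ℝ) - b| < 1 := by
        have e : (a : ℝ) - b = (θ * n - b) - (θ * n - a) := by ring
        rw [e]
        have := abs_sub (θ * n - (b : ℝ)) (θ * n - (a : ℝ))
        linarith
      rw [abs_lt] at h3
      have h4 : (a : ℝ) < b + 1 := by linarith
      have h5 : (b : ℝ) < a + 1 := by linarith
      have h6 : a < b + 1 := by exact_mod_cast h4
      have h7 : b < a + 1 := by exact_mod_cast h5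
      omega
    refine (sum_le_card_nsmul _ _ (2 * T / (√θ * Λ) * (1 / (n : ℝ)) +
        (if n ∈ B then 2 * T / √θ * (1 / (n : ℝ)) else 0)) ?_).trans ?_
    · intro m hm
      have hm1 := (mem_Icc.mp (mem_filter.mp hm).1)
      have hm2 := (mem_filter.mp hm).2
      rw [not_le] at hm2
      have hm0 : (0 : ℝ) < m := by exact_mod_cast hm1.1
      have hab := abs_lt.mp (show |θ * n - (m : ℝ)| < 1 / 2 by linarith)
      have hθn : 1 ≤ θ * n := by nlinarith
      have hmge : θ * n / 2 ≤ m := by linarith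
      have hsq : 1 / √((n : ℝ) * m) ≤ 2 / √θ * (1 / (n : ℝ)) := by
        have h1 : √θ * n / 2 ≤ √((n : ℝ) * m) := by
          apply Real.le_sqrt_of_sq_le
          have h2 : √θ ^ 2 = θ := Real.sq_sqrt hθ0.le
          have h3 : (√θ * n / 2) ^ 2 = θ * n * n / 4 := by
            rw [div_pow, mul_pow, h2]; ring
          rw [h3]
          nlinarith
        have h4 : 0 < √θ * n / 2 := by positivity
        have h5 := one_div_le_one_div_of_le h4 h1
        calc _ ≤ _ := h5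
          _ = _ := by field_simp
      have hJ : ‖twistJ T (twistX θ n m)‖ ≤ T / Λ + (if n ∈ B then T else 0) := by
        by_cases hnB : |θ * n - (m : ℝ)| ≤ δ
        · have h1 : n ∈ B := (hB n).mpr ⟨hn, m, (mem_filter.mp hm).1, hnB⟩
          rw [if_pos h1]
          have := twistJ_le T (twistX θ n m) hT0.le
          have h2 : 0 ≤ T / Λ := by positivity
          linarith
        · rw [not_le] at hnB
          have hδ0 : 0 < δ := by rw [hδ]; positivity
          obtain ⟨h1, h2⟩ := twistX_ge θ hθ0 n m hn1 hm1.1 (hδ0.trans hnB)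
          have h3 : max (θ * n) (m : ℝ) ≤ 2 * N := by
            have h4 : (m : ℝ) ≤ N := by exact_mod_cast hm1.2
            have h5 : (1 : ℝ) ≤ N := by exact_mod_cast hN
            exact max_le (by linarith) (by linarith)
          have h4 : ‖twistJ T (twistX θ n m)‖ ≤ T / Λ := by
            calc _ ≤ 2 / |twistX θ n m| := twistJ_le_inv T _ h1
              _ = 2 * (1 / |twistX θ n m|) := by ring
              _ ≤ 2 * (max (θ * n) m / |θ * n - m|) := by linarith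
              _ ≤ 2 * (2 * N / δ) := by
                  refine mul_le_mul_of_nonneg_left ?_ (by norm_num)
                  exact div_le_div₀ (by positivity) h3 hδ0 hnB.le
              _ = T / Λ := by rw [hδ]; field_simp; ring
          have h5 : 0 ≤ (if n ∈ B then T else 0) := by split_ifs <;> linarith
          linarith
      calc _ ≤ (2 / √θ * (1 / (n : ℝ))) * (T / Λ + (if n ∈ B then T else 0)) :=
            mul_le_mul hsq hJ (norm_nonneg _) (by positivity)
        _ = _ := by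
            split_ifs
            · field_simp
            · rw [add_zero, add_zero]
              field_simp
    · calc _ ≤ 1 • (2 * T / (√θ * Λ) * (1 / (n : ℝ)) +
          (if n ∈ B then 2 * T / √θ * (1 / (n : ℝ)) else 0)) := nsmul_le_nsmul_left hg hcard
        _ = _ := one_nsmul _
  have hnear2 : ∑ n ∈ Icc 1 N, (2 * T / (√θ * Λ) * (1 / (n : ℝ)) +
        (if n ∈ B then 2 * T / √θ * (1 / (n : ℝ)) else 0)) ≤
      2 * (T * (1 + Real.log N) * (1 / Λ + 1 / (√θ * q))) := by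
    rw [sum_add_distrib, ← mul_sum, ← sum_filter]
    have h1 : (Icc 1 N).filter (fun n => n ∈ B) = B := by
      rw [filter_mem_eq_inter]
      exact inter_eq_right.mpr hBs
    rw [h1, ← mul_sum]
    have h2 : 2 * T / (√θ * Λ) * ∑ n ∈ Icc 1 N, 1 / (n : ℝ) ≤
        2 * T * (1 / Λ) * (1 + Real.log N) := by
      have h3 : 2 * T / (√θ * Λ) ≤ 2 * T * (1 / Λ) := by
        rw [mul_one_div]
        exact div_le_div_of_nonneg_left (by positivity) hΛ0 (by nlinarith)
      refine mul_le_mul h3 (twist_sum_inv_le N) (sum_nonneg fun _ _ => by positivity)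
        (by positivity)
    have h3 : 2 * T / √θ * ∑ n ∈ B, 1 / (n : ℝ) ≤
        2 * T / √θ * (1 / (q : ℝ) * (1 + Real.log N)) :=
      mul_le_mul_of_nonneg_left hBsum (by positivity)
    calc _ ≤ 2 * T * (1 / Λ) * (1 + Real.log N) +
          2 * T / √θ * (1 / (q : ℝ) * (1 + Real.log N)) := add_le_add h2 h3
      _ = _ := by
          field_simp
  have hP : 0 ≤ T * (1 + Real.log N) * (1 / Λ + 1 / (√θ * q)) := by positivity
  have hQ : 0 ≤ (N : ℝ) * (1 + Real.log N) := by positivity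
  linarith

/-- the diagonal of the rational case -/
lemma twist_diag (r s N : ℕ) (hr : 1 ≤ r) (hs : 1 ≤ s) (hrs : Nat.Coprime r s) :
    ∑ n ∈ Icc 1 N, ∑ m ∈ (Icc 1 N).filter (fun m : ℕ => r * n = s * m), 1 / √((n : ℝ) * m) =
      1 / √((r : ℝ) * s) * ∑ j ∈ Icc 1 (N / max r s), 1 / (j : ℝ) := by
  rw [sum_sigma', mul_sum]
  have hr0 : (0 : ℝ) < r := by exact_mod_cast hr
  have hs0 : (0 : ℝ) < s := by exact_mod_cast hs
  symm
  have hdvd : ∀ x : (_ : ℕ) × ℕ, r * x.1 = s * x.2 → x.1 = s * (x.1 / s) ∧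
      x.2 = r * (x.1 / s) := by
    intro x hx
    have h1 : s ∣ x.1 := by
      have : s ∣ r * x.1 := ⟨x.2, hx⟩
      exact (Nat.Coprime.dvd_of_dvd_mul_left hrs.symm this)
    have h2 : x.1 = s * (x.1 / s) := (Nat.mul_div_cancel' h1).symm
    refine ⟨h2, ?_⟩
    have h3 : s * x.2 = s * (r * (x.1 / s)) := by
      rw [← hx]
      calc r * x.1 = r * (s * (x.1 / s)) := by rw [← h2]
        _ = _ := by ring
    exact Nat.eq_of_mul_eq_mul_left (by omega) h3
  refine sum_nbij' (fun j => (⟨s * j, r * j⟩ : (_ : ℕ) × ℕ)) (fun x => x.1 / s) ?_ ?_ ?_ ?_ ?_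
  · intro j hj
    have hj' := mem_Icc.mp hj
    have h1 : j * max r s ≤ N := (Nat.le_div_iff_mul_le (by omega)).mp hj'.2
    have h2 : j * r ≤ N := (Nat.mul_le_mul_left j (le_max_left r s)).trans h1
    have h3 : j * s ≤ N := (Nat.mul_le_mul_left j (le_max_right r s)).trans h1
    rw [mem_sigma, mem_filter, mem_Icc, mem_Icc]
    refine ⟨⟨Nat.mul_pos hs hj'.1, ?_⟩, ⟨⟨Nat.mul_pos hr hj'.1, ?_⟩, ?_⟩⟩
    · rw [mul_comm]; exact h3
    · change r * j ≤ N
      rw [mul_comm]; exact h2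
    · change r * (s * j) = s * (r * j)
      ring
  · intro x hx
    rw [mem_sigma, mem_filter, mem_Icc, mem_Icc] at hx
    obtain ⟨h1, h2⟩ := hdvd x hx.2.2
    rw [mem_Icc]
    have h3 : 1 ≤ x.1 / s := by
      rcases Nat.eq_zero_or_pos (x.1 / s) with h0 | h0
      · rw [h0, mul_zero] at h1
        omega
      · exact h0
    refine ⟨h3, ?_⟩
    rw [Nat.le_div_iff_mul_le (by omega)]
    rcases le_total r s with h | h
    · rw [max_eq_right h, mul_comm, ← h1]; exact hx.1.2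
    · rw [max_eq_left h, mul_comm, ← h2]; exact hx.2.1.2
  · intro j hj
    exact Nat.mul_div_cancel_left j (by omega)
  · intro x hx
    rw [mem_sigma, mem_filter, mem_Icc, mem_Icc] at hx
    obtain ⟨h1, h2⟩ := hdvd x hx.2.2
    obtain ⟨a, b⟩ := x
    change (⟨s * (a / s), r * (a / s)⟩ : (_ : ℕ) × ℕ) = ⟨a, b⟩
    simp only at h1 h2
    rw [← h2, ← h1]
  · intro j hj
    have hj' := mem_Icc.mp hj
    have hj0 : (0 : ℝ) < j := by exact_mod_cast hj'.1
    change _ = 1 / √(((s * j : ℕ) : ℝ) * ((r * j : ℕ) : ℝ))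
    push_cast
    have e : (s : ℝ) * j * (r * j) = (r * s) * (j * j) := by ring
    rw [e, Real.sqrt_mul (x := (r : ℝ) * s) (by positivity), Real.sqrt_mul_self hj0.le,
      one_div_mul_one_div]

theorem twisted_rational (r s : ℕ) (hr : 1 ≤ r) (hs : 1 ≤ s) (hrs : Nat.Coprime r s) :
    ∃ C : ℝ, 0 < C ∧ ∀ (T : ℝ) (N : ℕ), 2 ≤ T → 1 ≤ N → (N : ℝ) ≤ T →
    ‖(∫ t in T..(2 * T), ((‖zsum (1 / 2 + t * I) N‖ ^ 2 : ℝ) : ℂ) * (((r : ℝ) / s : ℝ) : ℂ) ^ (t * I))
      - T * Real.log N / √(r * s)‖ ≤ C * (T + N * (1 + Real.log N)) := by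
  have hr0 : (0 : ℝ) < r := by exact_mod_cast hr
  have hs0 : (0 : ℝ) < s := by exact_mod_cast hs
  have hs1 : (1 : ℝ) ≤ s := by exact_mod_cast hs
  set R : ℕ := max r s with hR
  have hR1 : 1 ≤ R := hr.trans (le_max_left _ _)
  have hR0 : (0 : ℝ) < R := by exact_mod_cast hR1
  have hlogR : 0 ≤ Real.log (R : ℝ) := Real.log_natCast_nonneg R
  refine ⟨1 + Real.log R + 40 * s, by positivity, fun T N hT hN hNT => ?_⟩
  have hT0 : 0 < T := by linarith
  have hN0 : (0 : ℝ) < N := by exact_mod_cast hN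
  have hlog : 0 ≤ Real.log (N : ℝ) := Real.log_natCast_nonneg N
  set θ : ℝ := (r : ℝ) / s with hθ
  have hθ0 : 0 < θ := by positivity
  have hfar := twist_far T θ (2 * s) hθ0 (by linarith) N
  rw [twist_integral θ hθ0]
  -- the exact pairs
  have hiff : ∀ n m : ℕ, ¬ 1 ≤ 2 * (s : ℝ) * |θ * n - m| ↔ r * n = s * m := by
    intro n m
    have e : (s : ℝ) * |θ * n - m| = |(((r * n : ℕ) : ℤ) - ((s * m : ℕ) : ℤ) : ℤ)| := by
      have e1 : (((((r * n : ℕ) : ℤ) - ((s * m : ℕ) : ℤ) : ℤ)) : ℝ) = s * (θ * n - m) := by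
        push_cast
        rw [hθ]
        field_simp
      rw [Int.cast_abs, e1, abs_mul, abs_of_pos hs0]
    rw [mul_assoc, e]
    constructor
    · intro h
      by_contra hne
      apply h
      have h1 : (1 : ℤ) ≤ |((r * n : ℕ) : ℤ) - ((s * m : ℕ) : ℤ)| := by
        apply Int.one_le_abs
        intro h0
        apply hne
        have : ((r * n : ℕ) : ℤ) = ((s * m : ℕ) : ℤ) := by linarith
        exact_mod_cast this
      have h2 : (1 : ℝ) ≤ ((|((r * n : ℕ) : ℤ) - ((s * m : ℕ) : ℤ)| : ℤ) : ℝ) := by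
        exact_mod_cast h1
      linarith
    · intro h
      rw [h, sub_self, abs_zero]
      norm_num
  have hsplit : ∑ n ∈ Icc 1 N, ∑ m ∈ Icc 1 N,
      ((1 / √((n : ℝ) * m) : ℝ) : ℂ) * twistJ T (twistX θ n m) =
      ∑ n ∈ Icc 1 N, ∑ m ∈ (Icc 1 N).filter (fun m : ℕ => 1 ≤ 2 * (s : ℝ) * |θ * n - m|),
        ((1 / √((n : ℝ) * m) : ℝ) : ℂ) * twistJ T (twistX θ n m) +
      ((T * (1 / √((r : ℝ) * s) * ∑ j ∈ Icc 1 (N / R), 1 / (j : ℝ)) : ℝ) : ℂ) := by
    rw [← twist_diag r s N hr hs hrs, mul_sum, Complex.ofReal_sum, ← sum_add_distrib]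
    refine sum_congr rfl fun n hn => ?_
    rw [← sum_filter_add_sum_filter_not (Icc 1 N)
      (fun m : ℕ => 1 ≤ 2 * (s : ℝ) * |θ * n - m|)]
    congr 1
    rw [mul_sum, Complex.ofReal_sum, filter_congr (fun m _ => hiff n m)]
    refine sum_congr rfl fun m hm => ?_
    have hm1 := (mem_Icc.mp (mem_filter.mp hm).1).1
    have hm2 := (mem_filter.mp hm).2
    have hn1 := (mem_Icc.mp hn).1
    have hn0 : (0 : ℝ) < n := by exact_mod_cast hn1
    have hx : twistX θ n m = 0 := by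
      have e1 : twistX θ n m = Real.log (θ * n) - Real.log m := by
        unfold twistX
        rw [Real.log_mul hθ0.ne' hn0.ne']
      have e2 : θ * n = m := by
        have : (r : ℝ) * n = s * m := by exact_mod_cast hm2
        rw [hθ]
        field_simp
        linarith
      rw [e1, e2, sub_self]
    rw [hx, twistJ_zero]
    push_cast
    ring
  rw [hsplit]
  have hH1 := twist_sum_inv_le (N / R)
  have hH2 := twist_log_le_sum (N / R)
  set H : ℝ := ∑ j ∈ Icc 1 (N / R), 1 / (j : ℝ) with hH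
  have hHlow : Real.log N - Real.log R ≤ H := by
    have h1 : (N : ℝ) / R ≤ ((N / R : ℕ) : ℝ) + 1 := by
      have h2 : N < R * (N / R + 1) := Nat.lt_mul_div_succ N (by omega)
      have h3 : (N : ℝ) ≤ R * (((N / R : ℕ) : ℝ) + 1) := by exact_mod_cast h2.le
      rw [div_le_iff₀ hR0]
      linarith
    rw [← Real.log_div hN0.ne' hR0.ne']
    exact (Real.log_le_log (by positivity) h1).trans hH2
  have hHup : H ≤ 1 + Real.log N := by
    rcases Nat.eq_zero_or_pos (N / R) with h0 | h0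
    · have : H = 0 := by rw [hH, h0]; simp
      rw [this]; linarith
    · have h1 : ((N / R : ℕ) : ℝ) ≤ N := by exact_mod_cast Nat.div_le_self N R
      have h2 : Real.log ((N / R : ℕ) : ℝ) ≤ Real.log N :=
        Real.log_le_log (by exact_mod_cast h0) h1
      linarith
  have hrs1 : 1 / √((r : ℝ) * s) ≤ 1 := by
    rw [div_le_one (by positivity)]
    refine Real.one_le_sqrt.mpr ?_
    have : (1 : ℝ) ≤ r := by exact_mod_cast hr
    nlinarith
  have hrs0 : 0 ≤ 1 / √((r : ℝ) * s) := by positivity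
  have hmain : ‖((T * (1 / √((r : ℝ) * s) * H) : ℝ) : ℂ) - T * Real.log N / √(r * s)‖ ≤
      T * (1 + Real.log R) := by
    have e : ((T * (1 / √((r : ℝ) * s) * H) : ℝ) : ℂ) - T * Real.log N / √(r * s) =
        ((T * (1 / √((r : ℝ) * s) * (H - Real.log N)) : ℝ) : ℂ) := by
      push_cast
      ring
    rw [e, Complex.norm_real, Real.norm_eq_abs, abs_mul, abs_mul, abs_of_pos hT0,
      abs_of_nonneg hrs0]
    refine mul_le_mul_of_nonneg_left ?_ hT0.le
    have h1 : |H - Real.log N| ≤ 1 + Real.log R := by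
      rw [abs_le]
      constructor <;> linarith
    calc _ ≤ 1 * (1 + Real.log R) := mul_le_mul hrs1 h1 (abs_nonneg _) zero_le_one
      _ = _ := one_mul _
  have hfar2 : ‖∑ n ∈ Icc 1 N, ∑ m ∈ (Icc 1 N).filter
      (fun m : ℕ => 1 ≤ 2 * (s : ℝ) * |θ * n - m|),
        ((1 / √((n : ℝ) * m) : ℝ) : ℂ) * twistJ T (twistX θ n m)‖ ≤
      20 * (2 * s) * (N * (1 + Real.log N)) := by
    refine le_trans ?_ hfar
    refine (norm_sum_le _ _).trans (sum_le_sum fun n _ => ?_)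
    refine (norm_sum_le _ _).trans (sum_le_sum fun m _ => ?_)
    rw [norm_mul, Complex.norm_real, Real.norm_of_nonneg (by positivity)]
  rw [add_sub_assoc]
  refine (norm_add_le _ _).trans ?_
  have hP : 0 ≤ (N : ℝ) * (1 + Real.log N) := by positivity
  have h1 : 0 ≤ (1 + Real.log R) * ((N : ℝ) * (1 + Real.log N)) := by positivity
  have h2 : 0 ≤ 40 * (s : ℝ) * T := by positivity
  nlinarith

end Pool.Agent.Lib.MP_aa9ae4_nt
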