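import Mathlib
import Pool.Agent.Lib.MP_aa9ae4_nt.Defs
import Pool.Agent.Lib.MP_aa9ae4_nt.Half
import Pool.Agent.Lib.MP_aa9ae4_nt.MeanValue
import Pool.Agent.Lib.MP_aa9ae4_nt.Twist

namespace Pool.Agent.Lib.MP_aa9ae4_nt

open Finset MeasureTheory Filter Topology
open Complex (I)

theorem weight_zeta_cont : Continuous (fun t : ℝ => riemannZeta (1 / 2 + t * I)) := by
  rw [continuous_iff_continuousAt]
  intro t
  have h1 : (1 / 2 + t * I : ℂ) ≠ 1 := by
    intro h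
    have h2 := congrArg Complex.re h
    simp at h2
  have h2 : ContinuousAt riemannZeta (1 / 2 + t * I : ℂ) :=
    (differentiableAt_riemannZeta h1).continuousAt
  exact ContinuousAt.comp (f := fun t : ℝ => (1 / 2 + t * I : ℂ)) (g := riemannZeta) h2
    (by fun_prop)

theorem weight_zsum_cont (N : ℕ) : Continuous (fun t : ℝ => zsum (1 / 2 + t * I) N) := by
  unfold zsum
  refine continuous_finsetSum _ fun n hn => ?_
  have hn0 : (n : ℂ) ≠ 0 := by
    have := (mem_Icc.mp hn).1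
    exact_mod_cast (by omega : n ≠ 0)
  exact Continuous.const_cpow (by fun_prop) (Or.inl hn0)

theorem weight_sum_inv (M N : ℕ) (hM : 1 ≤ M) (hMN : M ≤ N) :
    ∑ n ∈ Ioc M N, (1 : ℝ) / n ≤ Real.log (N / M) := by
  have hM0 : (0 : ℝ) < M := by exact_mod_cast hM
  induction N, hMN using Nat.le_induction with
  | base => simp
  | succ N hN ih =>
    rw [sum_Ioc_succ_top hN]
    have hN0 : (0 : ℝ) < N := by
      have : 0 < N := by omega
      exact_mod_cast this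
    have h1 : Real.log ((N + 1 : ℕ) / M) = Real.log (N / M) + Real.log (((N : ℝ) + 1) / N) := by
      rw [← Real.log_mul (by positivity) (by positivity)]
      congr 1
      push_cast
      field_simp
    have h2 := Real.one_sub_inv_le_log_of_pos (show 0 < ((N : ℝ) + 1) / N by positivity)
    have h3 : 1 - (((N : ℝ) + 1) / N)⁻¹ = 1 / ((N + 1 : ℕ) : ℝ) := by
      push_cast
      field_simp
      ring
    rw [h1, ← h3]
    linarith

theorem weight_sum_inv' (N : ℕ) (hN : 1 ≤ N) :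
    ∑ n ∈ Ioc 0 N, (1 : ℝ) / n ≤ 1 + Real.log N := by
  have h1 : ∑ n ∈ Ioc 0 N, (1 : ℝ) / n = 1 + ∑ n ∈ Ioc 1 N, (1 : ℝ) / n := by
    rw [← sum_Ioc_consecutive _ (show 0 ≤ 1 by omega) hN]
    simp
  rw [h1]
  have h2 := weight_sum_inv 1 N le_rfl hN
  simpa using h2

theorem weight_mv : ∃ C : ℝ, 0 < C ∧ ∀ T : ℝ, 1 ≤ T → ∀ M N : ℕ, M ≤ N → (N : ℝ) ≤ T →
    ∫ t in T..(2 * T), ‖zsum (1 / 2 + t * I) N - zsum (1 / 2 + t * I) M‖ ^ 2 ≤
      C * T * ∑ n ∈ Ioc M N, (1 : ℝ) / n := by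
  obtain ⟨C, hC, h⟩ := mean_value
  refine ⟨2 * C, by positivity, ?_⟩
  intro T hT M N hMN hNT
  have h1 := h T T hT N (fun n => if M < n then (n : ℂ) ^ (-(1 / 2 : ℂ)) else 0)
  have h2 : ∀ t : ℝ, zsum (1 / 2 + t * I) N - zsum (1 / 2 + t * I) M =
      ∑ n ∈ Icc 1 N, (if M < n then (n : ℂ) ^ (-(1 / 2 : ℂ)) else 0) * (n : ℂ) ^ (-(t * I)) := by
    intro t
    unfold zsum
    have h3 : Icc 1 N = Ioc 0 N := by ext n; simp only [mem_Icc, mem_Ioc]; omega
    have h4 : Icc 1 M = Ioc 0 M := by ext n; simp only [mem_Icc, mem_Ioc]; omega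
    rw [h3, h4, ← sum_Ioc_consecutive _ (Nat.zero_le M) hMN,
      ← sum_Ioc_consecutive _ (Nat.zero_le M) hMN, add_sub_cancel_left]
    have h5 : ∑ n ∈ Ioc 0 M, (if M < n then (n : ℂ) ^ (-(1 / 2 : ℂ)) else 0) *
        (n : ℂ) ^ (-(t * I)) = 0 := by
      refine sum_eq_zero fun n hn => ?_
      have := (mem_Ioc.mp hn).2
      rw [if_neg (by omega), zero_mul]
    rw [h5, zero_add]
    refine sum_congr rfl fun n hn => ?_
    have hn1 := (mem_Ioc.mp hn).1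
    have hn0 : (n : ℂ) ≠ 0 := by exact_mod_cast (by omega : n ≠ 0)
    rw [if_pos hn1, ← Complex.cpow_add _ _ hn0]
    congr 1
    ring
  have h6 : ∑ n ∈ Icc 1 N, ‖(if M < n then (n : ℂ) ^ (-(1 / 2 : ℂ)) else 0)‖ ^ 2 =
      ∑ n ∈ Ioc M N, (1 : ℝ) / n := by
    have h3 : Icc 1 N = Ioc 0 N := by ext n; simp only [mem_Icc, mem_Ioc]; omega
    rw [h3, ← sum_Ioc_consecutive _ (Nat.zero_le M) hMN]
    have h5 : ∑ n ∈ Ioc 0 M, ‖(if M < n then (n : ℂ) ^ (-(1 / 2 : ℂ)) else 0)‖ ^ 2 = 0 := by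
      refine sum_eq_zero fun n hn => ?_
      have := (mem_Ioc.mp hn).2
      rw [if_neg (by omega), norm_zero]
      norm_num
    rw [h5, zero_add]
    refine sum_congr rfl fun n hn => ?_
    have hn1 := (mem_Ioc.mp hn).1
    have hn0 : 0 < n := by omega
    have hn2 : (0 : ℝ) < n := by exact_mod_cast hn0
    rw [if_pos hn1, Complex.norm_natCast_cpow_of_pos hn0, ← Real.rpow_natCast,
      ← Real.rpow_mul hn2.le]
    have h7 : (-(1 / 2 : ℂ)).re * ((2 : ℕ) : ℝ) = -1 := by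
      simp
    rw [h7, Real.rpow_neg_one, one_div]
  rw [h6] at h1
  have h8 : (2 * T) = T + T := by ring
  rw [h8]
  simp only [h2]
  refine h1.trans ?_
  have h9 : 0 ≤ ∑ n ∈ Ioc M N, (1 : ℝ) / n := sum_nonneg fun n _ => by positivity
  have h10 : C * (T + N) ≤ 2 * C * T := by nlinarith
  exact mul_le_mul_of_nonneg_right h10 h9

theorem weight_compare : ∃ C : ℝ, 0 < C ∧ ∀ T : ℝ, 3 ≤ T → ∀ N : ℕ, 1 ≤ N → (N : ℝ) ≤ T →
    ∫ t in T..(2 * T), |‖riemannZeta (1 / 2 + t * I)‖ ^ 2 - ‖zsum (1 / 2 + t * I) N‖ ^ 2| ≤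
      C * T * √((1 + Real.log T) * (1 + Real.log (T / N))) := by
  obtain ⟨C1, hC1, hz⟩ := zeta_half_approx
  obtain ⟨C2, hC2, hm⟩ := weight_mv
  obtain ⟨K, hK⟩ : ∃ K : ℝ, K = 4 * C1 ^ 2 + 6 * C2 := ⟨_, rfl⟩
  have hK0 : 0 < K := by rw [hK]; positivity
  refine ⟨K, hK0, ?_⟩
  intro T hT N hN hNT
  have hN0 : (0 : ℝ) < N := by exact_mod_cast hN
  obtain ⟨N', hN'⟩ : ∃ N' : ℕ, N' = ⌊T⌋₊ := ⟨_, rfl⟩
  have hN'T : (N' : ℝ) ≤ T := by rw [hN']; exact Nat.floor_le (by linarith)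
  have hN'T2 : T < N' + 1 := by rw [hN']; exact Nat.lt_floor_add_one T
  have hNN' : N ≤ N' := by rw [hN']; exact Nat.le_floor hNT
  obtain ⟨Z, hZ⟩ : ∃ Z : ℝ → ℂ, Z = fun t : ℝ => riemannZeta (1 / 2 + t * I) := ⟨_, rfl⟩
  obtain ⟨P, hP⟩ : ∃ P : ℝ → ℂ, P = fun t : ℝ => zsum (1 / 2 + t * I) N := ⟨_, rfl⟩
  obtain ⟨P', hP'⟩ : ∃ P' : ℝ → ℂ, P' = fun t : ℝ => zsum (1 / 2 + t * I) N' := ⟨_, rfl⟩
  have hZc : Continuous Z := by rw [hZ]; exact weight_zeta_cont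
  have hPc : Continuous P := by rw [hP]; exact weight_zsum_cont N
  have hP'c : Continuous P' := by rw [hP']; exact weight_zsum_cont N'
  have hzp : ∀ t ∈ Set.Icc T (2 * T), ‖Z t - P' t‖ ≤ C1 := by
    intro t ht
    rw [hZ, hP']
    have h1 := ht.1
    have h2 := ht.2
    exact hz t (by linarith) N' (by linarith) (by nlinarith)
  have hlogT : 0 ≤ Real.log T := Real.log_nonneg (by linarith)
  have hlogN : 0 ≤ Real.log (T / N) := Real.log_nonneg (by rw [le_div_iff₀ hN0]; linarith)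
  -- the three mean squares
  have hI1 : ∫ t in T..(2 * T), ‖P' t - P t‖ ^ 2 ≤ C2 * T * Real.log (T / N) := by
    rw [hP', hP]
    refine (hm T (by linarith) N N' hNN' hN'T).trans ?_
    refine mul_le_mul_of_nonneg_left ?_ (by positivity)
    refine (weight_sum_inv N N' hN hNN').trans ?_
    have hN'0 : (0 : ℝ) < N' := by
      have : 0 < N' := by omega
      exact_mod_cast this
    refine Real.log_le_log (by positivity) ?_
    gcongr
  have hI2 : ∫ t in T..(2 * T), ‖P' t‖ ^ 2 ≤ C2 * T * (1 + Real.log T) := by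
    have h1 := hm T (by linarith) 0 N' (Nat.zero_le _) hN'T
    have h2 : ∀ s : ℂ, zsum s 0 = 0 := by
      intro s
      unfold zsum
      simp
    simp only [h2, sub_zero] at h1
    rw [hP']
    refine h1.trans ?_
    refine mul_le_mul_of_nonneg_left ?_ (by positivity)
    refine (weight_sum_inv' N' (by omega)).trans ?_
    have h3 : Real.log N' ≤ Real.log T := Real.log_le_log (by
      have : 0 < N' := by omega
      exact_mod_cast this) hN'T
    linarith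
  have hI3 : ∫ t in T..(2 * T), ‖P t‖ ^ 2 ≤ C2 * T * (1 + Real.log T) := by
    have h1 := hm T (by linarith) 0 N (Nat.zero_le _) hNT
    have h2 : ∀ s : ℂ, zsum s 0 = 0 := by
      intro s
      unfold zsum
      simp
    simp only [h2, sub_zero] at h1
    rw [hP]
    refine h1.trans ?_
    refine mul_le_mul_of_nonneg_left ?_ (by positivity)
    refine (weight_sum_inv' N hN).trans ?_
    have h3 : Real.log N ≤ Real.log T := Real.log_le_log hN0 hNT
    linarith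
  obtain ⟨u, hu⟩ : ∃ u : ℝ, u = 1 + Real.log T := ⟨_, rfl⟩
  obtain ⟨w, hw⟩ : ∃ w : ℝ, w = 1 + Real.log (T / N) := ⟨_, rfl⟩
  have hu0 : 1 ≤ u := by rw [hu]; linarith
  have hw0 : 1 ≤ w := by rw [hw]; linarith
  obtain ⟨lam, hlam⟩ : ∃ lam : ℝ, lam = √(u / w) := ⟨_, rfl⟩
  have hlam0 : 0 < lam := by rw [hlam]; exact Real.sqrt_pos.mpr (by positivity)
  -- pointwise bound
  have hpt : ∀ t ∈ Set.Icc T (2 * T), |‖Z t‖ ^ 2 - ‖P t‖ ^ 2| ≤
      lam * C1 ^ 2 + lam * ‖P' t - P t‖ ^ 2 +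
      (2 * C1 ^ 2 / lam + 2 / lam * ‖P' t‖ ^ 2 + 1 / lam * ‖P t‖ ^ 2) := by
    intro t ht
    have h1 := hzp t ht
    have h2 : |‖Z t‖ ^ 2 - ‖P t‖ ^ 2| ≤ ‖Z t - P t‖ * (‖Z t‖ + ‖P t‖) := by
      have h3 : ‖Z t‖ ^ 2 - ‖P t‖ ^ 2 = (‖Z t‖ - ‖P t‖) * (‖Z t‖ + ‖P t‖) := by ring
      rw [h3, abs_mul, abs_of_nonneg (show 0 ≤ ‖Z t‖ + ‖P t‖ by positivity)]
      exact mul_le_mul_of_nonneg_right (abs_norm_sub_norm_le _ _) (by positivity)
    have h3 : ‖Z t - P t‖ ≤ C1 + ‖P' t - P t‖ := by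
      calc ‖Z t - P t‖ = ‖(Z t - P' t) + (P' t - P t)‖ := by congr 1; ring
        _ ≤ ‖Z t - P' t‖ + ‖P' t - P t‖ := norm_add_le _ _
        _ ≤ _ := by linarith
    have h4 : ‖Z t‖ ≤ C1 + ‖P' t‖ := by
      calc ‖Z t‖ = ‖(Z t - P' t) + P' t‖ := by congr 1; ring
        _ ≤ ‖Z t - P' t‖ + ‖P' t‖ := norm_add_le _ _
        _ ≤ _ := by linarith
    have h5 : ‖Z t - P t‖ * (‖Z t‖ + ‖P t‖) ≤
        lam / 2 * ‖Z t - P t‖ ^ 2 + 1 / (2 * lam) * (‖Z t‖ + ‖P t‖) ^ 2 := by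
      have h6 : 0 ≤ 1 / (2 * lam) * (lam * ‖Z t - P t‖ - (‖Z t‖ + ‖P t‖)) ^ 2 := by positivity
      have h7 : 1 / (2 * lam) * (lam * ‖Z t - P t‖ - (‖Z t‖ + ‖P t‖)) ^ 2 =
          lam / 2 * ‖Z t - P t‖ ^ 2 + 1 / (2 * lam) * (‖Z t‖ + ‖P t‖) ^ 2 -
          ‖Z t - P t‖ * (‖Z t‖ + ‖P t‖) := by
        field_simp
        ring
      linarith
    have h8 : ‖Z t - P t‖ ^ 2 ≤ 2 * C1 ^ 2 + 2 * ‖P' t - P t‖ ^ 2 := by
      have h9 : 0 ≤ ‖Z t - P t‖ := norm_nonneg _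
      nlinarith [sq_nonneg (C1 - ‖P' t - P t‖), norm_nonneg (P' t - P t)]
    have h10 : (‖Z t‖ + ‖P t‖) ^ 2 ≤ 4 * C1 ^ 2 + 4 * ‖P' t‖ ^ 2 + 2 * ‖P t‖ ^ 2 := by
      have h9 : 0 ≤ ‖Z t‖ := norm_nonneg _
      have h11 : ‖Z t‖ ^ 2 ≤ 2 * C1 ^ 2 + 2 * ‖P' t‖ ^ 2 := by
        nlinarith [sq_nonneg (C1 - ‖P' t‖), norm_nonneg (P' t)]
      nlinarith [sq_nonneg (‖Z t‖ - ‖P t‖)]
    have h12 : lam / 2 * ‖Z t - P t‖ ^ 2 ≤ lam / 2 * (2 * C1 ^ 2 + 2 * ‖P' t - P t‖ ^ 2) :=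
      mul_le_mul_of_nonneg_left h8 (by positivity)
    have h13 : 1 / (2 * lam) * (‖Z t‖ + ‖P t‖) ^ 2 ≤
        1 / (2 * lam) * (4 * C1 ^ 2 + 4 * ‖P' t‖ ^ 2 + 2 * ‖P t‖ ^ 2) :=
      mul_le_mul_of_nonneg_left h10 (by positivity)
    have h14 : 1 / (2 * lam) * (4 * C1 ^ 2 + 4 * ‖P' t‖ ^ 2 + 2 * ‖P t‖ ^ 2) =
        2 * C1 ^ 2 / lam + 2 / lam * ‖P' t‖ ^ 2 + 1 / lam * ‖P t‖ ^ 2 := by
      field_simp
      ring
    rw [h14] at h13
    linarith
  have hT0 : T ≤ 2 * T := by linarith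
  have hint : ∫ t in T..(2 * T), |‖Z t‖ ^ 2 - ‖P t‖ ^ 2| ≤
      ∫ t in T..(2 * T), (lam * C1 ^ 2 + lam * ‖P' t - P t‖ ^ 2 +
      (2 * C1 ^ 2 / lam + 2 / lam * ‖P' t‖ ^ 2 + 1 / lam * ‖P t‖ ^ 2)) := by
    refine intervalIntegral.integral_mono_on hT0 ?_ ?_ hpt
    · exact (Continuous.abs ((hZc.norm.pow 2).sub (hPc.norm.pow 2))).intervalIntegrable _ _
    · refine Continuous.intervalIntegrable ?_ _ _
      exact (continuous_const.add (continuous_const.mul ((hP'c.sub hPc).norm.pow 2))).add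
        ((continuous_const.add (continuous_const.mul (hP'c.norm.pow 2))).add
          (continuous_const.mul (hPc.norm.pow 2)))
  have hsplit : ∫ t in T..(2 * T), (lam * C1 ^ 2 + lam * ‖P' t - P t‖ ^ 2 +
      (2 * C1 ^ 2 / lam + 2 / lam * ‖P' t‖ ^ 2 + 1 / lam * ‖P t‖ ^ 2)) =
      T * (lam * C1 ^ 2) + lam * (∫ t in T..(2 * T), ‖P' t - P t‖ ^ 2) +
      (T * (2 * C1 ^ 2 / lam) + 2 / lam * (∫ t in T..(2 * T), ‖P' t‖ ^ 2) +
        1 / lam * ∫ t in T..(2 * T), ‖P t‖ ^ 2) := by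
    have c1 : IntervalIntegrable (fun _ : ℝ => lam * C1 ^ 2) volume T (2 * T) :=
      continuous_const.intervalIntegrable _ _
    have c2 : IntervalIntegrable (fun t : ℝ => lam * ‖P' t - P t‖ ^ 2) volume T (2 * T) :=
      (continuous_const.mul ((hP'c.sub hPc).norm.pow 2)).intervalIntegrable _ _
    have c3 : IntervalIntegrable (fun _ : ℝ => 2 * C1 ^ 2 / lam) volume T (2 * T) :=
      continuous_const.intervalIntegrable _ _
    have c4 : IntervalIntegrable (fun t : ℝ => 2 / lam * ‖P' t‖ ^ 2) volume T (2 * T) :=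
      (continuous_const.mul (hP'c.norm.pow 2)).intervalIntegrable _ _
    have c5 : IntervalIntegrable (fun t : ℝ => 1 / lam * ‖P t‖ ^ 2) volume T (2 * T) :=
      (continuous_const.mul (hPc.norm.pow 2)).intervalIntegrable _ _
    rw [intervalIntegral.integral_add (c1.add c2) ((c3.add c4).add c5),
      intervalIntegral.integral_add c1 c2, intervalIntegral.integral_add (c3.add c4) c5,
      intervalIntegral.integral_add c3 c4, intervalIntegral.integral_const,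
      intervalIntegral.integral_const, intervalIntegral.integral_const_mul,
      intervalIntegral.integral_const_mul, intervalIntegral.integral_const_mul]
    have h1 : 2 * T - T = T := by ring
    rw [h1, smul_eq_mul, smul_eq_mul]
  have hfin : ∫ t in T..(2 * T), |‖Z t‖ ^ 2 - ‖P t‖ ^ 2| ≤
      lam * (K / 2 * T * w) + 1 / lam * (K / 2 * T * u) := by
    rw [hsplit] at hint
    refine hint.trans ?_
    have h1 : lam * (∫ t in T..(2 * T), ‖P' t - P t‖ ^ 2) ≤ lam * (C2 * T * (w - 1)) := by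
      refine mul_le_mul_of_nonneg_left ?_ hlam0.le
      rw [hw, add_sub_cancel_left]
      exact hI1
    have h2 : 2 / lam * (∫ t in T..(2 * T), ‖P' t‖ ^ 2) ≤ 2 / lam * (C2 * T * u) := by
      refine mul_le_mul_of_nonneg_left ?_ (by positivity)
      rw [hu]
      exact hI2
    have h3 : 1 / lam * (∫ t in T..(2 * T), ‖P t‖ ^ 2) ≤ 1 / lam * (C2 * T * u) := by
      refine mul_le_mul_of_nonneg_left ?_ (by positivity)
      rw [hu]
      exact hI3
    have hTpos : 0 < T := by linarith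
    have h4 : T * (lam * C1 ^ 2) + lam * (C2 * T * (w - 1)) ≤ lam * (K / 2 * T * w) := by
      have h5 : C1 ^ 2 + C2 * (w - 1) ≤ K / 2 * w := by
        rw [hK]
        nlinarith [sq_nonneg C1]
      have h6 : lam * T * (C1 ^ 2 + C2 * (w - 1)) ≤ lam * T * (K / 2 * w) :=
        mul_le_mul_of_nonneg_left h5 (by positivity)
      linarith
    have h7 : T * (2 * C1 ^ 2 / lam) + 2 / lam * (C2 * T * u) + 1 / lam * (C2 * T * u) ≤
        1 / lam * (K / 2 * T * u) := by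
      have h8 : T * (2 * C1 ^ 2 / lam) + 2 / lam * (C2 * T * u) + 1 / lam * (C2 * T * u) =
          1 / lam * T * (2 * C1 ^ 2 + 3 * C2 * u) := by
        field_simp
        ring
      have h9 : 2 * C1 ^ 2 + 3 * C2 * u ≤ K / 2 * u := by
        rw [hK]
        nlinarith [sq_nonneg C1]
      have h10 : 1 / lam * T * (2 * C1 ^ 2 + 3 * C2 * u) ≤ 1 / lam * T * (K / 2 * u) :=
        mul_le_mul_of_nonneg_left h9 (by positivity)
      rw [h8]
      linarith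
    linarith
  have hfin2 : lam * (K / 2 * T * w) + 1 / lam * (K / 2 * T * u) = K * T * √(u * w) := by
    have h1 : lam * w = √(u * w) := by
      have h2 : u * w = (u / w) * (w * w) := by field_simp
      rw [h2, Real.sqrt_mul (by positivity), Real.sqrt_mul_self (by linarith), ← hlam]
    have h3 : 1 / lam * u = √(u * w) := by
      have h4 : lam * lam = u / w := by
        rw [hlam]
        exact Real.mul_self_sqrt (by positivity)
      rw [← h1]
      have hw1 : w ≠ 0 := by linarith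
      have h5 : u = lam * lam * w := by
        rw [h4]
        field_simp
      calc 1 / lam * u = 1 / lam * (lam * lam * w) := by rw [← h5]
        _ = lam * w := by field_simp
    calc lam * (K / 2 * T * w) + 1 / lam * (K / 2 * T * u)
        = K / 2 * T * (lam * w) + K / 2 * T * (1 / lam * u) := by ring
      _ = K * T * √(u * w) := by rw [h1, h3]; ring
  rw [hfin2, hu, hw] at hfin
  rw [hZ, hP] at hfin
  exact hfin

theorem weight_floor (ε T : ℝ) (hε1 : ε < 1 / 2) (hT : 1 ≤ T) :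
    1 ≤ ⌊T ^ (1 - ε)⌋₊ ∧ ((⌊T ^ (1 - ε)⌋₊ : ℕ) : ℝ) ≤ T ^ (1 - ε) ∧
      T ^ (1 - ε) ≤ 2 * ((⌊T ^ (1 - ε)⌋₊ : ℕ) : ℝ) := by
  have h1 : 1 ≤ T ^ (1 - ε) := Real.one_le_rpow hT (by linarith)
  have h2 : 1 ≤ ⌊T ^ (1 - ε)⌋₊ := Nat.le_floor (by exact_mod_cast h1)
  have h3 := Nat.floor_le (show 0 ≤ T ^ (1 - ε) by linarith)
  have h4 := Nat.lt_floor_add_one (T ^ (1 - ε))
  have h5 : (1 : ℝ) ≤ ((⌊T ^ (1 - ε)⌋₊ : ℕ) : ℝ) := by exact_mod_cast h2
  exact ⟨h2, h3, by linarith⟩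

theorem weight_facts (ε T : ℝ) (hε : 0 < ε) (hε1 : ε < 1 / 2) (hT : 1 ≤ T) :
    ((⌊T ^ (1 - ε)⌋₊ : ℕ) : ℝ) ≤ T ∧
    Real.log (T / ((⌊T ^ (1 - ε)⌋₊ : ℕ) : ℝ)) ≤ 1 + ε * Real.log T ∧
    ((⌊T ^ (1 - ε)⌋₊ : ℕ) : ℝ) ≤ T * T ^ (-ε) := by
  obtain ⟨h1, h2, h3⟩ := weight_floor ε T hε1 hT
  have hT0 : 0 < T := by linarith
  have h4 : T ^ (1 - ε) = T * T ^ (-ε) := by
    rw [sub_eq_add_neg, Real.rpow_add hT0, Real.rpow_one]
  have h5 : T ^ (-ε) ≤ 1 := Real.rpow_le_one_of_one_le_of_nonpos hT (by linarith)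
  have h6 : (0 : ℝ) < ((⌊T ^ (1 - ε)⌋₊ : ℕ) : ℝ) := by
    have : 0 < ⌊T ^ (1 - ε)⌋₊ := by omega
    exact_mod_cast this
  refine ⟨?_, ?_, ?_⟩
  · refine h2.trans ?_
    rw [h4]
    nlinarith
  · have h7 : T / ((⌊T ^ (1 - ε)⌋₊ : ℕ) : ℝ) ≤ 2 * T ^ ε := by
      rw [div_le_iff₀ h6]
      have h8 : T = T ^ ε * T ^ (1 - ε) := by
        rw [← Real.rpow_add hT0]
        simp
      calc T = T ^ ε * T ^ (1 - ε) := h8
        _ ≤ T ^ ε * (2 * ((⌊T ^ (1 - ε)⌋₊ : ℕ) : ℝ)) :=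
            mul_le_mul_of_nonneg_left h3 (by positivity)
        _ = 2 * T ^ ε * ((⌊T ^ (1 - ε)⌋₊ : ℕ) : ℝ) := by ring
    have h8 := Real.log_le_log (show 0 < T / ((⌊T ^ (1 - ε)⌋₊ : ℕ) : ℝ) by positivity) h7
    rw [Real.log_mul (by norm_num) (by positivity), Real.log_rpow hT0] at h8
    have h9 : Real.log 2 ≤ 1 := by
      have := Real.log_two_lt_d9
      linarith
    linarith
  · rw [← h4]
    exact h2

theorem weight_norm_cpow (θ : ℝ) (hθ : 0 < θ) (t : ℝ) : ‖(θ : ℂ) ^ (t * I)‖ = 1 := by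
  rw [Complex.norm_cpow_eq_rpow_re_of_pos hθ]
  simp

theorem weight_key (θ : ℝ) (hθ : 0 < θ) (c : ℂ)
    (h : ∀ ε : ℝ, 0 < ε → ε < 1 / 2 → ∀ η : ℝ, 0 < η → ∀ᶠ T : ℝ in atTop,
      ‖(∫ t in T..(2 * T), ((‖zsum (1 / 2 + t * I) ⌊T ^ (1 - ε)⌋₊‖ ^ 2 : ℝ) : ℂ) *
        (θ : ℂ) ^ (t * I)) - c * ((T * Real.log T : ℝ) : ℂ)‖ ≤
        (ε * ‖c‖ + η) * (T * Real.log T)) :
    Tendsto (fun T : ℝ =>
      (∫ t in T..(2 * T), ((‖riemannZeta (1 / 2 + t * I)‖ ^ 2 : ℝ) : ℂ) * (θ : ℂ) ^ (t * I)) /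
      ((T * Real.log T : ℝ) : ℂ)) atTop (𝓝 c) := by
  obtain ⟨C, hC, hcomp⟩ := weight_compare
  rw [Metric.tendsto_nhds]
  intro δ hδ
  have hc0 : 0 ≤ ‖c‖ := norm_nonneg c
  obtain ⟨s, hs⟩ : ∃ s : ℝ, s = min (1 / 2) (δ / (4 * (2 * C + ‖c‖ + 1))) := ⟨_, rfl⟩
  have hs0 : 0 < s := by
    rw [hs]
    exact lt_min (by norm_num) (by positivity)
  have hs1 : s ≤ 1 / 2 := by rw [hs]; exact min_le_left _ _
  have hs2 : s * (4 * (2 * C + ‖c‖ + 1)) ≤ δ := by
    rw [← le_div_iff₀ (by positivity), hs]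
    exact min_le_right _ _
  have hε : 0 < s ^ 2 := by positivity
  have hε1 : s ^ 2 < 1 / 2 := by nlinarith
  have hlog := Real.tendsto_log_atTop.eventually_ge_atTop (2 / s ^ 2)
  filter_upwards [h (s ^ 2) hε hε1 (δ / 4) (by positivity), hlog, eventually_ge_atTop (3 : ℝ)]
    with T h1 h2 h3
  have hT0 : 0 < T := by linarith
  have hL8 : 8 ≤ Real.log T := by
    refine le_trans ?_ h2
    rw [le_div_iff₀ hε]
    nlinarith
  have hL0 : 0 < T * Real.log T := by positivity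
  obtain ⟨N, hN⟩ : ∃ N : ℕ, N = ⌊T ^ (1 - s ^ 2)⌋₊ := ⟨_, rfl⟩
  obtain ⟨g1, _, _⟩ := weight_floor (s ^ 2) T hε1 (by linarith)
  obtain ⟨f1, f2, _⟩ := weight_facts (s ^ 2) T hε hε1 (by linarith)
  rw [← hN] at g1 f1 f2 h1
  have h4 := hcomp T h3 N g1 f1
  have h5 : √((1 + Real.log T) * (1 + Real.log (T / N))) ≤ 2 * s * Real.log T := by
    have h6 : (2 * s * Real.log T) = √((2 * s * Real.log T) ^ 2) :=
      (Real.sqrt_sq (by positivity)).symm
    rw [h6]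
    refine Real.sqrt_le_sqrt ?_
    have h7 : 2 ≤ s ^ 2 * Real.log T := by
      rw [div_le_iff₀ hε] at h2
      linarith
    have h8 : 1 + Real.log (T / N) ≤ 2 * (s ^ 2 * Real.log T) := by linarith
    have h9 : 1 + Real.log T ≤ 2 * Real.log T := by linarith
    calc (1 + Real.log T) * (1 + Real.log (T / N))
        ≤ (1 + Real.log T) * (2 * (s ^ 2 * Real.log T)) :=
          mul_le_mul_of_nonneg_left h8 (by linarith)
      _ ≤ (2 * Real.log T) * (2 * (s ^ 2 * Real.log T)) :=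
          mul_le_mul_of_nonneg_right h9 (by positivity)
      _ = (2 * s * Real.log T) ^ 2 := by ring
  have h10 : ∫ t in T..(2 * T), |‖riemannZeta (1 / 2 + t * I)‖ ^ 2 -
      ‖zsum (1 / 2 + t * I) N‖ ^ 2| ≤ 2 * C * s * (T * Real.log T) := by
    refine h4.trans ?_
    calc C * T * √((1 + Real.log T) * (1 + Real.log (T / N))) ≤ C * T * (2 * s * Real.log T) :=
          mul_le_mul_of_nonneg_left h5 (by positivity)
      _ = 2 * C * s * (T * Real.log T) := by ring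
  -- the difference of the integrals
  have cθ : Continuous (fun t : ℝ => (θ : ℂ) ^ (t * I)) :=
    Continuous.const_cpow (by fun_prop) (Or.inl (by exact_mod_cast hθ.ne'))
  have cZ : Continuous (fun t : ℝ => ((‖riemannZeta (1 / 2 + t * I)‖ ^ 2 : ℝ) : ℂ) *
      (θ : ℂ) ^ (t * I)) :=
    (Complex.continuous_ofReal.comp (weight_zeta_cont.norm.pow 2)).mul cθ
  have cP : Continuous (fun t : ℝ => ((‖zsum (1 / 2 + t * I) N‖ ^ 2 : ℝ) : ℂ) *
      (θ : ℂ) ^ (t * I)) :=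
    (Complex.continuous_ofReal.comp ((weight_zsum_cont N).norm.pow 2)).mul cθ
  have h11 : ‖(∫ t in T..(2 * T), ((‖riemannZeta (1 / 2 + t * I)‖ ^ 2 : ℝ) : ℂ) *
      (θ : ℂ) ^ (t * I)) - (∫ t in T..(2 * T), ((‖zsum (1 / 2 + t * I) N‖ ^ 2 : ℝ) : ℂ) *
      (θ : ℂ) ^ (t * I))‖ ≤ 2 * C * s * (T * Real.log T) := by
    rw [← intervalIntegral.integral_sub (cZ.intervalIntegrable _ _) (cP.intervalIntegrable _ _)]
    refine (intervalIntegral.norm_integral_le_integral_norm (by linarith)).trans ?_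
    refine le_trans (le_of_eq ?_) h10
    refine intervalIntegral.integral_congr fun t _ => ?_
    rw [← sub_mul, norm_mul, weight_norm_cpow θ hθ, mul_one, ← Complex.ofReal_sub,
      Complex.norm_real, Real.norm_eq_abs]
  rw [dist_eq_norm]
  have hne : ((T * Real.log T : ℝ) : ℂ) ≠ 0 := by exact_mod_cast hL0.ne'
  have h12 : (∫ t in T..(2 * T), ((‖riemannZeta (1 / 2 + t * I)‖ ^ 2 : ℝ) : ℂ) *
      (θ : ℂ) ^ (t * I)) / ((T * Real.log T : ℝ) : ℂ) - c =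
      ((∫ t in T..(2 * T), ((‖riemannZeta (1 / 2 + t * I)‖ ^ 2 : ℝ) : ℂ) *
      (θ : ℂ) ^ (t * I)) - c * ((T * Real.log T : ℝ) : ℂ)) / ((T * Real.log T : ℝ) : ℂ) := by
    rw [sub_div, mul_div_cancel_right₀ _ hne]
  rw [h12, norm_div, Complex.norm_real, Real.norm_eq_abs, abs_of_pos hL0, div_lt_iff₀ hL0]
  have h13 : ‖(∫ t in T..(2 * T), ((‖riemannZeta (1 / 2 + t * I)‖ ^ 2 : ℝ) : ℂ) *
      (θ : ℂ) ^ (t * I)) - c * ((T * Real.log T : ℝ) : ℂ)‖ ≤
      2 * C * s * (T * Real.log T) + (s ^ 2 * ‖c‖ + δ / 4) * (T * Real.log T) := by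
    refine le_trans ?_ (add_le_add h11 h1)
    refine le_trans (le_of_eq ?_) (norm_add_le _ _)
    congr 1
    ring
  refine lt_of_le_of_lt h13 ?_
  have h14 : 2 * C * s + (s ^ 2 * ‖c‖ + δ / 4) < δ := by
    have h15 : s ^ 2 * ‖c‖ ≤ s * ‖c‖ := by
      have : s ^ 2 ≤ s := by nlinarith
      exact mul_le_mul_of_nonneg_right this hc0
    nlinarith
  calc 2 * C * s * (T * Real.log T) + (s ^ 2 * ‖c‖ + δ / 4) * (T * Real.log T)
      = (2 * C * s + (s ^ 2 * ‖c‖ + δ / 4)) * (T * Real.log T) := by ring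
    _ < δ * (T * Real.log T) := mul_lt_mul_of_pos_right h14 hL0

theorem weight_small (ε : ℝ) (hε : 0 < ε) (η : ℝ) (hη : 0 < η) :
    ∀ᶠ T : ℝ in atTop, T ^ (-ε) ≤ η :=
  (tendsto_rpow_neg_atTop hε).eventually_le_const hη

theorem weight_logN (ε T : ℝ) (hε : 0 < ε) (hε1 : ε < 1 / 2) (hT : 1 ≤ T)
    (hL : 1 ≤ Real.log T) :
    1 + Real.log ((⌊T ^ (1 - ε)⌋₊ : ℕ) : ℝ) ≤ 2 * Real.log T := by
  obtain ⟨g1, _, _⟩ := weight_floor ε T hε1 hT
  obtain ⟨f1, _, _⟩ := weight_facts ε T hε hε1 hT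
  have h0 : (0 : ℝ) < ((⌊T ^ (1 - ε)⌋₊ : ℕ) : ℝ) := by
    have : 0 < ⌊T ^ (1 - ε)⌋₊ := by omega
    exact_mod_cast this
  have h1 := Real.log_le_log h0 f1
  linarith

theorem weight_rational (r s : ℕ) (hr : 1 ≤ r) (hs : 1 ≤ s) (hrs : Nat.Coprime r s) :
    Tendsto (fun T : ℝ =>
      (∫ t in T..(2 * T), ((‖riemannZeta (1 / 2 + t * I)‖ ^ 2 : ℝ) : ℂ) *
        ((((r : ℝ) / s : ℝ)) : ℂ) ^ (t * I)) /
      ((T * Real.log T : ℝ) : ℂ)) atTop (𝓝 ((1 / √(r * s) : ℝ) : ℂ)) := by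
  obtain ⟨C, hC, hb⟩ := twisted_rational r s hr hs hrs
  have hr0 : (0 : ℝ) < r := by exact_mod_cast hr
  have hs0 : (0 : ℝ) < s := by exact_mod_cast hs
  refine weight_key _ (by positivity) _ ?_
  intro ε hε hε1 η hη
  obtain ⟨κ, hκ⟩ : ∃ κ : ℝ, κ = 1 / √(r * s) := ⟨_, rfl⟩
  have hκ0 : 0 < κ := by rw [hκ]; positivity
  rw [← hκ]
  have hlog := Real.tendsto_log_atTop.eventually_ge_atTop (max 1 (2 * (C + κ) / η))
  filter_upwards [hlog, eventually_ge_atTop (3 : ℝ), weight_small ε hε (η / (4 * C))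
    (by positivity)] with T h2 h3 h4
  have hL1 : 1 ≤ Real.log T := (le_max_left _ _).trans h2
  have hL2 : 2 * (C + κ) ≤ η * Real.log T := by
    have := (le_max_right _ _).trans h2
    rw [div_le_iff₀ hη] at this
    linarith
  have hT0 : 0 < T := by linarith
  obtain ⟨g1, _, _⟩ := weight_floor ε T hε1 (by linarith)
  obtain ⟨f1, f2, f3⟩ := weight_facts ε T hε hε1 (by linarith)
  have f4 := weight_logN ε T hε hε1 (by linarith) hL1
  obtain ⟨N, hN⟩ : ∃ N : ℕ, N = ⌊T ^ (1 - ε)⌋₊ := ⟨_, rfl⟩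
  rw [← hN] at g1 f1 f2 f3 f4 ⊢
  have hN0 : (0 : ℝ) < N := by exact_mod_cast g1
  have h5 := hb T N (by linarith) g1 f1
  have h6 : ((T : ℂ) * Real.log N / √(r * s)) = ((T * Real.log N * κ : ℝ) : ℂ) := by
    rw [hκ]
    push_cast
    ring
  rw [h6] at h5
  have h7 : ‖((T * Real.log N * κ : ℝ) : ℂ) - (κ : ℂ) * ((T * Real.log T : ℝ) : ℂ)‖ ≤
      κ * T * (1 + ε * Real.log T) := by
    rw [← Complex.ofReal_mul, ← Complex.ofReal_sub, Complex.norm_real, Real.norm_eq_abs]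
    have h8 : T * Real.log N * κ - κ * (T * Real.log T) = -(κ * T * Real.log (T / N)) := by
      rw [Real.log_div hT0.ne' hN0.ne']
      ring
    have h9 : 0 ≤ Real.log (T / N) := Real.log_nonneg (by rw [le_div_iff₀ hN0]; linarith)
    rw [h8, abs_neg, abs_of_nonneg (by positivity)]
    exact mul_le_mul_of_nonneg_left f2 (by positivity)
  have h10 : ‖((κ : ℝ) : ℂ)‖ = κ := by
    rw [Complex.norm_real, Real.norm_eq_abs, abs_of_pos hκ0]
  rw [h10]
  have h11 : (N : ℝ) * (1 + Real.log N) ≤ η / (2 * C) * (T * Real.log T) := by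
    have hlogN : 0 ≤ Real.log N := Real.log_nonneg (by exact_mod_cast g1)
    calc (N : ℝ) * (1 + Real.log N) ≤ (T * T ^ (-ε)) * (1 + Real.log N) :=
          mul_le_mul_of_nonneg_right f3 (by linarith)
      _ ≤ (T * (η / (4 * C))) * (1 + Real.log N) :=
          mul_le_mul_of_nonneg_right (mul_le_mul_of_nonneg_left h4 hT0.le) (by linarith)
      _ ≤ (T * (η / (4 * C))) * (2 * Real.log T) :=
          mul_le_mul_of_nonneg_left f4 (by positivity)
      _ = η / (2 * C) * (T * Real.log T) := by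
          field_simp
          ring
  have h12 : C * (T + N * (1 + Real.log N)) ≤ C * T + η / 2 * (T * Real.log T) := by
    have h13 : C * (N * (1 + Real.log N)) ≤ C * (η / (2 * C) * (T * Real.log T)) :=
      mul_le_mul_of_nonneg_left h11 hC.le
    have h14 : C * (η / (2 * C) * (T * Real.log T)) = η / 2 * (T * Real.log T) := by
      field_simp
    rw [h14] at h13
    linarith
  have h15 : C * T + κ * T ≤ η / 2 * (T * Real.log T) := by
    have := mul_le_mul_of_nonneg_left hL2 hT0.le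
    linarith
  calc _ ≤ _ := norm_sub_le_norm_sub_add_norm_sub _ ((T * Real.log N * κ : ℝ) : ℂ) _
    _ ≤ C * (T + N * (1 + Real.log N)) + κ * T * (1 + ε * Real.log T) := add_le_add h5 h7
    _ ≤ (ε * κ + η) * (T * Real.log T) := by linarith

theorem weight_irrational_big (θ : ℝ) (hθ : Irrational θ) (hθ1 : 1 ≤ θ) (ε : ℝ) (hε : 0 < ε)
    (hε1 : ε < 1 / 2) (η : ℝ) (hη : 0 < η) : ∀ᶠ T : ℝ in atTop,
      ‖∫ t in T..(2 * T), ((‖zsum (1 / 2 + t * I) ⌊T ^ (1 - ε)⌋₊‖ ^ 2 : ℝ) : ℂ) *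
        (θ : ℂ) ^ (t * I)‖ ≤ η * (T * Real.log T) := by
  obtain ⟨C, hC, hb⟩ := twisted_bound
  obtain ⟨q, hq⟩ := exists_nat_gt (max 1 (8 * C / η))
  have hq1 : 1 < (q : ℝ) := (le_max_left _ _).trans_lt hq
  have hq0 : (0 : ℝ) < q := by linarith
  have hq2 : 8 * C < η * q := by
    have := (le_max_right _ _).trans_lt hq
    rw [div_lt_iff₀ hη] at this
    linarith
  have hqn : 1 ≤ q := by
    have : 1 < q := by exact_mod_cast hq1
    omega
  have hfin : ∀ᶠ T : ℝ in atTop, ∀ n ∈ range q, 1 ≤ n →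
      8 * q * T ^ (-ε) < |θ * n - round (θ * n)| := by
    rw [Filter.eventually_all_finset]
    intro n _
    by_cases hn : 1 ≤ n
    · have hpos : 0 < |θ * n - round (θ * n)| := by
        rw [abs_pos, sub_ne_zero]
        have h1 : Irrational (θ * n) := hθ.mul_natCast (by omega)
        exact h1.ne_int _
      have h2 : Tendsto (fun T : ℝ => 8 * (q : ℝ) * T ^ (-ε)) atTop (𝓝 0) := by
        have := (tendsto_rpow_neg_atTop hε).const_mul (8 * (q : ℝ))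
        rwa [mul_zero] at this
      filter_upwards [h2.eventually_lt_const hpos] with T hT _
      exact hT
    · exact Filter.Eventually.of_forall fun T h => absurd h hn
  have hlog := Real.tendsto_log_atTop.eventually_ge_atTop (1 : ℝ)
  filter_upwards [hlog, eventually_ge_atTop (3 : ℝ), weight_small ε hε (η / (4 * C))
    (by positivity), hfin] with T hL1 h3 h4 h5
  have hT0 : 0 < T := by linarith
  obtain ⟨g1, _, _⟩ := weight_floor ε T hε1 (by linarith)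
  obtain ⟨f1, f2, f3⟩ := weight_facts ε T hε hε1 (by linarith)
  have f4 := weight_logN ε T hε hε1 (by linarith) hL1
  obtain ⟨N, hN⟩ : ∃ N : ℕ, N = ⌊T ^ (1 - ε)⌋₊ := ⟨_, rfl⟩
  rw [← hN] at g1 f1 f2 f3 f4 ⊢
  have hN0 : (0 : ℝ) < N := by exact_mod_cast g1
  have h6 := hb T θ q N q (by linarith) hθ1 hq1.le g1 f1 hqn (by
    intro n hn hnq m
    have h7 := h5 n (mem_range.mpr hnq) hn
    have h8 : 8 * (q : ℝ) * N / T ≤ 8 * q * T ^ (-ε) := by
      rw [div_le_iff₀ hT0]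
      calc 8 * (q : ℝ) * N ≤ 8 * q * (T * T ^ (-ε)) :=
            mul_le_mul_of_nonneg_left f3 (by positivity)
        _ = 8 * q * T ^ (-ε) * T := by ring
    exact (h8.trans_lt h7).trans_le (round_le _ m))
  refine h6.trans ?_
  have hlogN : 0 ≤ Real.log N := Real.log_nonneg (by exact_mod_cast g1)
  have h11 : (N : ℝ) * (1 + Real.log N) ≤ η / (2 * C) * (T * Real.log T) := by
    calc (N : ℝ) * (1 + Real.log N) ≤ (T * T ^ (-ε)) * (1 + Real.log N) :=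
          mul_le_mul_of_nonneg_right f3 (by linarith)
      _ ≤ (T * (η / (4 * C))) * (1 + Real.log N) :=
          mul_le_mul_of_nonneg_right (mul_le_mul_of_nonneg_left h4 hT0.le) (by linarith)
      _ ≤ (T * (η / (4 * C))) * (2 * Real.log T) :=
          mul_le_mul_of_nonneg_left f4 (by positivity)
      _ = η / (2 * C) * (T * Real.log T) := by
          field_simp
          ring
  have h12 : 1 / (q : ℝ) + 1 / (√θ * q) ≤ η / (4 * C) := by
    have h13 : 1 ≤ √θ := by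
      rw [Real.one_le_sqrt]
      exact hθ1
    have h14 : 1 / (√θ * q) ≤ 1 / q := by
      refine one_div_le_one_div_of_le hq0 ?_
      nlinarith
    have h15 : 1 / (q : ℝ) ≤ η / (8 * C) := by
      rw [div_le_div_iff₀ hq0 (by positivity)]
      linarith
    have h16 : η / (4 * C) = 2 * (η / (8 * C)) := by
      field_simp
      ring
    rw [h16]
    linarith
  have h17 : T * (1 + Real.log N) * (1 / (q : ℝ) + 1 / (√θ * q)) ≤
      η / (2 * C) * (T * Real.log T) := by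
    calc T * (1 + Real.log N) * (1 / (q : ℝ) + 1 / (√θ * q))
        ≤ T * (1 + Real.log N) * (η / (4 * C)) :=
          mul_le_mul_of_nonneg_left h12 (by positivity)
      _ ≤ T * (2 * Real.log T) * (η / (4 * C)) := by
          refine mul_le_mul_of_nonneg_right ?_ (by positivity)
          exact mul_le_mul_of_nonneg_left f4 hT0.le
      _ = η / (2 * C) * (T * Real.log T) := by
          field_simp
          ring
  calc C * (N * (1 + Real.log N) + T * (1 + Real.log N) * (1 / (q : ℝ) + 1 / (√θ * q)))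
      ≤ C * (η / (2 * C) * (T * Real.log T) + η / (2 * C) * (T * Real.log T)) :=
        mul_le_mul_of_nonneg_left (add_le_add h11 h17) hC.le
    _ = η * (T * Real.log T) := by
        field_simp
        ring

theorem weight_conj (f : ℝ → ℝ) (θ : ℝ) (hθ : 0 < θ) (a b : ℝ) (hab : a ≤ b) :
    ‖∫ t in a..b, ((f t : ℝ) : ℂ) * (θ : ℂ) ^ (t * I)‖ =
      ‖∫ t in a..b, ((f t : ℝ) : ℂ) * ((θ⁻¹ : ℝ) : ℂ) ^ (t * I)‖ := by
  rw [intervalIntegral.integral_of_le hab, intervalIntegral.integral_of_le hab,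
    ← Complex.norm_conj, ← integral_conj]
  congr 1
  refine integral_congr_ae (Filter.Eventually.of_forall fun t => ?_)
  change (starRingEnd ℂ) _ = _
  rw [map_mul, Complex.conj_ofReal]
  congr 1
  have h1 : (θ : ℂ) ≠ 0 := by exact_mod_cast hθ.ne'
  have h2 : ((θ⁻¹ : ℝ) : ℂ) ≠ 0 := by exact_mod_cast (inv_pos.mpr hθ).ne'
  rw [Complex.cpow_def_of_ne_zero h1, Complex.cpow_def_of_ne_zero h2, ← Complex.exp_conj,
    ← Complex.ofReal_log hθ.le, ← Complex.ofReal_log (inv_pos.mpr hθ).le, Real.log_inv]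
  congr 1
  simp only [map_mul, Complex.conj_ofReal, Complex.conj_I]
  push_cast
  ring

theorem weight_irrational (θ : ℝ) (hθ0 : 0 < θ) (hθ : Irrational θ) (ε : ℝ) (hε : 0 < ε)
    (hε1 : ε < 1 / 2) (η : ℝ) (hη : 0 < η) : ∀ᶠ T : ℝ in atTop,
      ‖∫ t in T..(2 * T), ((‖zsum (1 / 2 + t * I) ⌊T ^ (1 - ε)⌋₊‖ ^ 2 : ℝ) : ℂ) *
        (θ : ℂ) ^ (t * I)‖ ≤ η * (T * Real.log T) := by
  by_cases h1 : 1 ≤ θ
  · exact weight_irrational_big θ hθ h1 ε hε hε1 η hη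
  · push Not at h1
    have h2 : 1 ≤ θ⁻¹ := by
      rw [one_le_inv₀ hθ0]
      exact h1.le
    filter_upwards [weight_irrational_big θ⁻¹ hθ.inv h2 ε hε hε1 η hη,
      eventually_ge_atTop (0 : ℝ)] with T h3 h4
    rw [weight_conj (fun t => ‖zsum (1 / 2 + t * I) ⌊T ^ (1 - ε)⌋₊‖ ^ 2) θ hθ0 T (2 * T)
      (by linarith)]
    exact h3

theorem mass_limit : Tendsto (fun T : ℝ => (∫ t in T..(2 * T), ‖riemannZeta (1 / 2 + t * I)‖ ^ 2) /
    (T * Real.log T)) atTop (𝓝 1) := by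
  have h1 := weight_rational 1 1 le_rfl le_rfl (Nat.coprime_one_right 1)
  have h2 := (Complex.continuous_re.tendsto _).comp h1
  have h3 : ((1 / √((1 : ℕ) * (1 : ℕ)) : ℝ) : ℂ).re = 1 := by
    rw [Complex.ofReal_re]
    simp
  rw [h3] at h2
  refine h2.congr fun T => ?_
  have h4 : (∫ t in T..(2 * T), ((‖riemannZeta (1 / 2 + t * I)‖ ^ 2 : ℝ) : ℂ) *
        ((((1 : ℕ) : ℝ) / ((1 : ℕ) : ℝ) : ℝ) : ℂ) ^ (t * I)) =
      ((∫ t in T..(2 * T), ‖riemannZeta (1 / 2 + t * I)‖ ^ 2 : ℝ) : ℂ) := by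
    rw [← intervalIntegral.integral_ofReal]
    refine intervalIntegral.integral_congr fun t _ => ?_
    simp
  change ((∫ t in T..(2 * T), ((‖riemannZeta (1 / 2 + t * I)‖ ^ 2 : ℝ) : ℂ) *
        ((((1 : ℕ) : ℝ) / ((1 : ℕ) : ℝ) : ℝ) : ℂ) ^ (t * I)) /
      ((T * Real.log T : ℝ) : ℂ)).re = _
  rw [h4, ← Complex.ofReal_div, Complex.ofReal_re]

theorem twisted_limit (θ : ℝ) (hθ : 0 < θ) : ∃ c : ℂ, Tendsto (fun T : ℝ =>
    (∫ t in T..(2 * T), ((‖riemannZeta (1 / 2 + t * I)‖ ^ 2 : ℝ) : ℂ) * (θ : ℂ) ^ (t * I)) /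
    ((T * Real.log T : ℝ) : ℂ)) atTop (𝓝 c) := by
  by_cases hirr : Irrational θ
  · refine ⟨0, weight_key θ hθ 0 ?_⟩
    intro ε hε hε1 η hη
    filter_upwards [weight_irrational θ hθ hirr ε hε hε1 η hη] with T hT
    rw [zero_mul, sub_zero, norm_zero, mul_zero, zero_add]
    exact hT
  · unfold Irrational at hirr
    rw [not_not] at hirr
    obtain ⟨x, hx⟩ := hirr
    have hx0 : 0 < x := by
      have : (0 : ℝ) < (x : ℝ) := by rw [hx]; exact hθ
      exact_mod_cast this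
    have hnum : 0 < x.num := Rat.num_pos.mpr hx0
    have h1 := weight_rational x.num.toNat x.den (by omega) x.pos (by
      have := x.reduced
      rwa [← Int.toNat_of_nonneg hnum.le, Int.natAbs_natCast] at this)
    have h2 : ((x.num.toNat : ℝ) / (x.den : ℝ) : ℝ) = θ := by
      rw [← hx]
      have h3 : ((x.num.toNat : ℕ) : ℝ) = ((x.num : ℤ) : ℝ) := by
        have h4 : ((x.num.toNat : ℕ) : ℤ) = x.num := Int.toNat_of_nonneg hnum.le
        exact_mod_cast congrArg (Int.cast : ℤ → ℝ) h4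
      rw [h3]
      exact (Rat.cast_def x).symm
    rw [h2] at h1
    exact ⟨_, h1⟩

end Pool.Agent.Lib.MP_aa9ae4_nt
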