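import Mathlib
import Pool.Agent.Lib.MP_aa9ae4_nt.Defs
import Pool.Agent.Lib.MP_aa9ae4_nt.Twist
import Pool.Agent.Lib.MP_aa9ae4_nt.Weight

namespace Pool.Agent.Lib.MP_aa9ae4_nt

open Finset MeasureTheory Filter Topology
open Complex (I)

/-! ### Continuity -/

theorem primeweight_cont_zsum (N : ℕ) : Continuous fun t : ℝ => zsum (1 / 2 + t * I) N := by
  unfold zsum
  apply continuous_finsetSum
  intro n hn
  have hn' : (n : ℂ) ≠ 0 := by
    have := (mem_Icc.1 hn).1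
    exact_mod_cast (by omega : n ≠ 0)
  exact Continuous.const_cpow (by fun_prop) (Or.inl hn')

theorem primeweight_cont_psum (W W' : ℕ) (a : ℝ) : Continuous fun t : ℝ => psum W W' (a * t) := by
  unfold psum
  apply continuous_finsetSum
  intro n hn
  have hn' : (n : ℂ) ≠ 0 := by
    have := (mem_filter.1 hn).2.pos
    exact_mod_cast this.ne'
  exact Continuous.const_cpow (by fun_prop) (Or.inl hn')

theorem primeweight_cont_zeta : Continuous fun t : ℝ => riemannZeta (1 / 2 + t * I) := by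
  rw [continuous_iff_continuousAt]
  intro t
  have h1 : (1 / 2 + t * I : ℂ) ≠ 1 := by
    intro h
    have := congrArg Complex.re h
    norm_num at this
  have h2 := (differentiableAt_riemannZeta h1).continuousAt
  exact ContinuousAt.comp (f := fun t : ℝ => (1 / 2 + t * I : ℂ)) h2 (by fun_prop)

/-! ### Sums over integers -/

theorem primeweight_sum_inv (W W' : ℕ) :
    ∑ p ∈ (Ioc W W').filter Nat.Prime, (1 / (p : ℝ)) ≤ 1 + Real.log W' := by
  have h1 : ∑ p ∈ (Ioc W W').filter Nat.Prime, (1 / (p : ℝ)) ≤ ∑ p ∈ Icc 1 W', (1 / (p : ℝ)) := by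
    apply Finset.sum_le_sum_of_subset_of_nonneg
    · intro p hp
      simp only [mem_filter, mem_Ioc] at hp
      rw [mem_Icc]
      omega
    · intros
      positivity
  have h2 : ∑ p ∈ Icc 1 W', (1 / (p : ℝ)) = (harmonic W' : ℝ) := by
    rw [harmonic_eq_sum_Icc]
    push_cast
    simp
  rw [h2] at h1
  exact h1.trans (harmonic_le_one_add_log W')

theorem primeweight_norm_psum (W W' : ℕ) (u : ℝ) : ‖psum W W' u‖ ≤ 1 + Real.log W' := by
  refine le_trans ?_ (primeweight_sum_inv W W')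
  refine (norm_sum_le _ _).trans (Finset.sum_le_sum fun p hp => ?_)
  have hp' : 0 < p := (mem_filter.1 hp).2.pos
  rw [Complex.norm_natCast_cpow_of_pos hp']
  simp [Real.rpow_neg_one]

/-- the step of the telescoping bound for `∑ n^{-3/2}` -/
theorem primeweight_step (M : ℕ) (hM : 1 ≤ M) :
    1 / (((M + 1 : ℕ) : ℝ) * √((M + 1 : ℕ) : ℝ)) ≤ 2 / √(M : ℝ) - 2 / √((M + 1 : ℕ) : ℝ) := by
  have hM' : (1 : ℝ) ≤ M := by exact_mod_cast hM
  set x := √(M : ℝ) with hx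
  set y := √((M + 1 : ℕ) : ℝ) with hy
  have hx0 : 0 < x := Real.sqrt_pos.2 (by linarith)
  have hx2 : x ^ 2 = M := Real.sq_sqrt (by linarith)
  have hy0 : 0 < y := Real.sqrt_pos.2 (by push_cast; linarith)
  have hy2 : y ^ 2 = M + 1 := by rw [Real.sq_sqrt (by positivity)]; push_cast; ring
  have hxy : x ≤ y := Real.sqrt_le_sqrt (by push_cast; linarith)
  have h1 : ((M + 1 : ℕ) : ℝ) = y ^ 2 := by rw [hy2]; push_cast; ring
  have h2 : (y - x) * (y + x) = 1 := by nlinarith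
  rw [h1, div_sub_div _ _ hx0.ne' hy0.ne', div_le_div_iff₀ (by positivity) (by positivity)]
  have h3 : 1 ≤ 2 * (y - x) * y := by nlinarith
  have h4 : 1 * (x * y) ≤ (2 * (y - x) * y) * (y * y) := by
    have : x * y ≤ y * y := by nlinarith
    have h5 : 0 ≤ y * y := by positivity
    nlinarith
  nlinarith

theorem primeweight_three_halves (W : ℕ) (hW : 1 ≤ W) (M : ℕ) :
    ∑ n ∈ Ioc W M, 1 / ((n : ℝ) * √(n : ℝ)) ≤ 2 / √(W : ℝ) := by
  rcases le_or_gt W M with h | h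
  · have key : ∑ n ∈ Ioc W M, 1 / ((n : ℝ) * √(n : ℝ)) ≤ 2 / √(W : ℝ) - 2 / √(M : ℝ) := by
      induction M, h using Nat.le_induction with
      | base => simp
      | succ M hM ih =>
        rw [Finset.sum_Ioc_succ_top (by omega)]
        have := primeweight_step M (by omega)
        linarith
    have h0 : 0 ≤ 2 / √(M : ℝ) := by positivity
    linarith
  · rw [Finset.Ioc_eq_empty (by omega), Finset.sum_empty]
    positivity

theorem primeweight_three_halves_all (M : ℕ) :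
    ∑ n ∈ Icc 1 M, 1 / ((n : ℝ) * √(n : ℝ)) ≤ 3 := by
  rcases Nat.eq_zero_or_pos M with h | h
  · subst h
    simp
  · have h1 : Icc 1 M = insert 1 (Ioc 1 M) := by
      ext n
      simp only [mem_Icc, mem_insert, mem_Ioc]
      omega
    rw [h1, Finset.sum_insert (by simp)]
    have := primeweight_three_halves 1 le_rfl M
    norm_num at this ⊢
    linarith

/-- the inequality `x b ≤ s x^{3/2} + s^{-2} b^3` for `x = u^2` -/
theorem primeweight_young {u b s : ℝ} (hu : 0 ≤ u) (hb : 0 ≤ b) (hs : 0 < s) :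
    u ^ 2 * b ≤ s * u ^ 3 + b ^ 3 / s ^ 2 := by
  rcases le_total b (s * u) with h | h
  · have h1 : u ^ 2 * b ≤ s * u ^ 3 := by
      have : u ^ 2 * b ≤ u ^ 2 * (s * u) := mul_le_mul_of_nonneg_left h (by positivity)
      linarith [this, (by ring : u ^ 2 * (s * u) = s * u ^ 3)]
    have h2 : 0 ≤ b ^ 3 / s ^ 2 := by positivity
    linarith
  · have h1 : u ^ 2 * b ≤ b ^ 3 / s ^ 2 := by
      rw [le_div_iff₀ (by positivity)]
      have h3 : (s * u) ^ 2 ≤ b ^ 2 := pow_le_pow_left₀ (by positivity) h 2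
      have h4 : (s * u) ^ 2 * b ≤ b ^ 2 * b := mul_le_mul_of_nonneg_right h3 hb
      linarith [h4, (by ring : (s * u) ^ 2 * b = u ^ 2 * b * s ^ 2), (by ring : b ^ 2 * b = b ^ 3)]
    have h2 : 0 ≤ s * u ^ 3 := by positivity
    linarith

theorem primeweight_pairs (W : ℕ) (hW : 1 ≤ W) (D : Finset (ℕ × ℕ))
    (hD : ∀ x ∈ D, W < x.1 ∧ W < x.2) (Q : ℕ × ℕ → ℕ × ℕ)
    (hQ : ∀ x ∈ D, 1 ≤ (Q x).1 ∧ 1 ≤ (Q x).2) (hinj : Set.InjOn Q D) :
    ∑ x ∈ D, 1 / ((x.1 : ℝ) * x.2) * (1 / √(((Q x).1 : ℝ) * (Q x).2)) ≤ 13 / √(W : ℝ) := by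
  have hW1 : (1 : ℝ) ≤ W := by exact_mod_cast hW
  have hs : 0 < √(W : ℝ) := Real.sqrt_pos.2 (by linarith)
  have hs1 : 1 ≤ √(W : ℝ) := by
    rw [← Real.sqrt_one]
    exact Real.sqrt_le_sqrt hW1
  have hs2 : √(W : ℝ) ^ 2 = W := Real.sq_sqrt (by linarith)
  set g : ℕ → ℝ := fun n => 1 / ((n : ℝ) * √(n : ℝ)) with hg
  have hg0 : ∀ n, 0 ≤ g n := fun n => by simp only [hg]; positivity
  -- pointwise
  have h1 : ∀ x ∈ D, 1 / ((x.1 : ℝ) * x.2) * (1 / √(((Q x).1 : ℝ) * (Q x).2)) ≤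
      √(W : ℝ) * (g x.1 * g x.2) + (g (Q x).1 * g (Q x).2) / √(W : ℝ) ^ 2 := by
    intro x hx
    obtain ⟨h1, h2⟩ := hD x hx
    obtain ⟨h3, h4⟩ := hQ x hx
    have e1 : (0 : ℝ) < x.1 := by exact_mod_cast (by omega : 0 < x.1)
    have e2 : (0 : ℝ) < x.2 := by exact_mod_cast (by omega : 0 < x.2)
    have e3 : (0 : ℝ) < (Q x).1 := by exact_mod_cast (by omega : 0 < (Q x).1)
    have e4 : (0 : ℝ) < (Q x).2 := by exact_mod_cast (by omega : 0 < (Q x).2)
    have hy := primeweight_young (u := 1 / (√(x.1 : ℝ) * √(x.2 : ℝ)))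
      (b := 1 / (√((Q x).1 : ℝ) * √((Q x).2 : ℝ))) (s := √(W : ℝ)) (by positivity)
      (by positivity) hs
    have r1 : √(x.1 : ℝ) ^ 2 = x.1 := Real.sq_sqrt e1.le
    have r2 : √(x.2 : ℝ) ^ 2 = x.2 := Real.sq_sqrt e2.le
    have r3 : √((Q x).1 : ℝ) ^ 2 = (Q x).1 := Real.sq_sqrt e3.le
    have r4 : √((Q x).2 : ℝ) ^ 2 = (Q x).2 := Real.sq_sqrt e4.le
    have t1 : (1 / (√(x.1 : ℝ) * √(x.2 : ℝ))) ^ 2 = 1 / ((x.1 : ℝ) * x.2) := by
      rw [div_pow, mul_pow, r1, r2, one_pow]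
    have t2 : (1 / (√(x.1 : ℝ) * √(x.2 : ℝ))) ^ 3 = g x.1 * g x.2 := by
      simp only [hg]
      rw [pow_succ, t1]
      field_simp
    have t3 : (1 / (√((Q x).1 : ℝ) * √((Q x).2 : ℝ))) ^ 3 = g (Q x).1 * g (Q x).2 := by
      have t4 : (1 / (√((Q x).1 : ℝ) * √((Q x).2 : ℝ))) ^ 2 = 1 / (((Q x).1 : ℝ) * (Q x).2) := by
        rw [div_pow, mul_pow, r3, r4, one_pow]
      simp only [hg]
      rw [pow_succ, t4]
      field_simp
    rw [t1, t2, t3] at hy
    rw [Real.sqrt_mul e3.le]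
    exact hy
  -- the first sum
  have h2 : ∑ x ∈ D, g x.1 * g x.2 ≤ (2 / √(W : ℝ)) ^ 2 := by
    obtain ⟨M, hM⟩ : ∃ M : ℕ, ∀ x ∈ D, x.1 ≤ M ∧ x.2 ≤ M := by
      refine ⟨D.sup fun x => x.1 + x.2, fun x hx => ?_⟩
      have := Finset.le_sup (f := fun x : ℕ × ℕ => x.1 + x.2) hx
      omega
    calc ∑ x ∈ D, g x.1 * g x.2 ≤ ∑ x ∈ Ioc W M ×ˢ Ioc W M, g x.1 * g x.2 := by
          apply Finset.sum_le_sum_of_subset_of_nonneg
          · intro x hx
            have := hD x hx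
            have := hM x hx
            simp only [mem_product, mem_Ioc]
            omega
          · intro x _ _
            exact mul_nonneg (hg0 _) (hg0 _)
      _ = (∑ n ∈ Ioc W M, g n) ^ 2 := by
          rw [Finset.sum_product, pow_two, Finset.sum_mul_sum]
      _ ≤ (2 / √(W : ℝ)) ^ 2 :=
          pow_le_pow_left₀ (Finset.sum_nonneg fun n _ => hg0 n) (primeweight_three_halves W hW M) 2
  -- the second sum
  have h3 : ∑ x ∈ D, g (Q x).1 * g (Q x).2 ≤ 9 := by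
    classical
    have : ∑ x ∈ D, g (Q x).1 * g (Q x).2 = ∑ y ∈ D.image Q, g y.1 * g y.2 := by
      rw [Finset.sum_image hinj]
    rw [this]
    obtain ⟨M, hM⟩ : ∃ M : ℕ, ∀ x ∈ D.image Q, x.1 ≤ M ∧ x.2 ≤ M := by
      refine ⟨(D.image Q).sup fun x => x.1 + x.2, fun x hx => ?_⟩
      have := Finset.le_sup (f := fun x : ℕ × ℕ => x.1 + x.2) hx
      omega
    calc ∑ y ∈ D.image Q, g y.1 * g y.2 ≤ ∑ x ∈ Icc 1 M ×ˢ Icc 1 M, g x.1 * g x.2 := by
          apply Finset.sum_le_sum_of_subset_of_nonneg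
          · intro y hy
            have h5 := hM y hy
            obtain ⟨x, hx, rfl⟩ := Finset.mem_image.1 hy
            have := hQ x hx
            simp only [mem_product, mem_Icc]
            omega
          · intro x _ _
            exact mul_nonneg (hg0 _) (hg0 _)
      _ = (∑ n ∈ Icc 1 M, g n) ^ 2 := by
          rw [Finset.sum_product, pow_two, Finset.sum_mul_sum]
      _ ≤ 3 ^ 2 :=
          pow_le_pow_left₀ (Finset.sum_nonneg fun n _ => hg0 n) (primeweight_three_halves_all M) 2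
      _ = 9 := by norm_num
  calc ∑ x ∈ D, 1 / ((x.1 : ℝ) * x.2) * (1 / √(((Q x).1 : ℝ) * (Q x).2))
      ≤ ∑ x ∈ D, (√(W : ℝ) * (g x.1 * g x.2) + (g (Q x).1 * g (Q x).2) / √(W : ℝ) ^ 2) :=
        Finset.sum_le_sum h1
    _ = √(W : ℝ) * ∑ x ∈ D, g x.1 * g x.2 + (∑ x ∈ D, g (Q x).1 * g (Q x).2) / √(W : ℝ) ^ 2 := by
        rw [Finset.sum_add_distrib, Finset.mul_sum, Finset.sum_div]
    _ ≤ √(W : ℝ) * (2 / √(W : ℝ)) ^ 2 + 9 / √(W : ℝ) ^ 2 := by gcongr
    _ ≤ 13 / √(W : ℝ) := by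
        have e1 : √(W : ℝ) * (2 / √(W : ℝ)) ^ 2 = 4 / √(W : ℝ) := by
          field_simp
          norm_num
        have e2 : 9 / √(W : ℝ) ^ 2 ≤ 9 / √(W : ℝ) := by
          apply div_le_div_of_nonneg_left (by norm_num) hs
          nlinarith
        rw [e1]
        have e3 : 13 / √(W : ℝ) = 4 / √(W : ℝ) + 9 / √(W : ℝ) := by ring
        rw [e3]
        linarith


/-! ### Separation of the ratios -/

theorem primeweight_rpow_sub {a x y : ℝ} (ha : 0 < a) (hy : 1 ≤ y) (hxy : y ≤ x) :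
    a * (x - y) / x ≤ x ^ a - y ^ a := by
  have hy0 : 0 < y := by linarith
  have hx0 : 0 < x := by linarith
  have h1 : x ^ a = y ^ a * (x / y) ^ a := by
    rw [Real.div_rpow hx0.le hy0.le]
    field_simp
  have h2 : 1 + a * (1 - (x / y)⁻¹) ≤ (x / y) ^ a := by
    rw [Real.rpow_def_of_pos (by positivity)]
    have h3 := Real.one_sub_inv_le_log_of_pos (x := x / y) (by positivity)
    have h4 := Real.add_one_le_exp (Real.log (x / y) * a)
    nlinarith
  have h5 : a * (1 - (x / y)⁻¹) = a * (x - y) / x := by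
    field_simp
  rw [h5] at h2
  have h6 : 1 ≤ y ^ a := Real.one_le_rpow hy ha.le
  have h7 : 0 ≤ a * (x - y) / x := div_nonneg (mul_nonneg ha.le (by linarith)) hx0.le
  rw [h1]
  nlinarith

theorem primeweight_sep {a : ℝ} (ha : 0 < a) {M p q r s : ℕ} (hp : p.Prime) (hq : q.Prime)
    (hs : 1 ≤ s) (hqp : q < p) (hsr : s < r) (hr : r.Prime) (hpM : p ≤ M) (hrM : r ≤ M)
    (hne : (p, q) ≠ (r, s)) :
    a / (M : ℝ) ^ 3 ≤ |((p : ℝ) / q) ^ a - ((r : ℝ) / s) ^ a| := by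
  have hq1 := hq.pos
  -- cross products differ
  have hcross : p * s ≠ r * q := by
    intro h
    have h1 : p ∣ r * q := ⟨s, h.symm⟩
    rcases (Nat.Prime.dvd_mul hp).1 h1 with h2 | h2
    · have h3 : p = r := (Nat.prime_dvd_prime_iff_eq hp hr).1 h2
      subst h3
      have h4 : s = q := Nat.eq_of_mul_eq_mul_left hp.pos h
      exact hne (by rw [h4])
    · have := Nat.le_of_dvd hq1 h2
      omega
  have hM1 : 1 ≤ M := by have := hp.pos; omega
  have hM0 : (0 : ℝ) < M := by exact_mod_cast hM1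
  -- the main inequality for ordered ratios
  have key : ∀ {p q r s : ℕ}, 1 ≤ q → 1 ≤ s → q < p → s < r → p ≤ M → r ≤ M → r * q < p * s →
      a / (M : ℝ) ^ 3 ≤ ((p : ℝ) / q) ^ a - ((r : ℝ) / s) ^ a := by
    intro p q r s hq hs hqp hsr hpM hrM h
    have q0 : (0 : ℝ) < q := by exact_mod_cast hq
    have s0 : (0 : ℝ) < s := by exact_mod_cast hs
    have r1 : (1 : ℝ) ≤ (r : ℝ) / s := by
      rw [le_div_iff₀ s0, one_mul]
      exact_mod_cast hsr.le
    have h' : ((r * q + 1 : ℕ) : ℝ) ≤ ((p * s : ℕ) : ℝ) := by exact_mod_cast h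
    push_cast at h'
    have hqM : (q : ℝ) ≤ M := by exact_mod_cast (by omega : q ≤ M)
    have hsM : (s : ℝ) ≤ M := by exact_mod_cast (by omega : s ≤ M)
    have hpM' : (p : ℝ) ≤ M := by exact_mod_cast hpM
    have hdiff : 1 / (M : ℝ) ^ 2 ≤ (p : ℝ) / q - (r : ℝ) / s := by
      rw [div_sub_div _ _ q0.ne' s0.ne', div_le_div_iff₀ (by positivity) (by positivity)]
      have e1 : (q : ℝ) * s ≤ M * M := mul_le_mul hqM hsM s0.le hM0.le
      have e2 : (1 : ℝ) ≤ (p : ℝ) * s - q * r := by nlinarith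
      nlinarith [mul_le_mul e2 e1 (by positivity) (by linarith)]
    have hle : (r : ℝ) / s ≤ (p : ℝ) / q := by
      have : 0 ≤ 1 / (M : ℝ) ^ 2 := by positivity
      linarith
    refine le_trans ?_ (primeweight_rpow_sub ha r1 hle)
    have hp0 : (0 : ℝ) < p := by exact_mod_cast (by omega : 0 < p)
    have q1 : (1 : ℝ) ≤ q := by exact_mod_cast hq
    have hx : (p : ℝ) / q ≤ M := by
      rw [div_le_iff₀ q0]
      nlinarith
    have hx0 : (0 : ℝ) < (p : ℝ) / q := by positivity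
    rw [div_le_div_iff₀ (by positivity) hx0]
    have e3 : 1 ≤ ((p : ℝ) / q - (r : ℝ) / s) * (M : ℝ) ^ 2 := by
      have := mul_le_mul_of_nonneg_right hdiff (by positivity : (0 : ℝ) ≤ (M : ℝ) ^ 2)
      rwa [div_mul_cancel₀ _ (by positivity)] at this
    calc a * ((p : ℝ) / q) ≤ a * M := by gcongr
      _ = a * M * 1 := by ring
      _ ≤ a * M * (((p : ℝ) / q - (r : ℝ) / s) * (M : ℝ) ^ 2) := by gcongr
      _ = _ := by ring
  rcases lt_or_gt_of_ne hcross with h | h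
  · rw [abs_sub_comm]
    exact (key hs hq1 hsr hqp hrM hpM h).trans (le_abs_self _)
  · exact (key hq1 hs hqp hsr hpM hrM h).trans (le_abs_self _)

/-! ### Expansion of the square of the prime sum -/

theorem primeweight_cpow {n : ℕ} (hn : 0 < n) (u : ℝ) :
    (n : ℂ) ^ (-(1 + (u : ℂ) * I)) =
      ((1 / (n : ℝ) : ℝ) : ℂ) * Complex.exp (((-(u * Real.log n) : ℝ) : ℂ) * I) := by
  have hn0 : (n : ℂ) ≠ 0 := by exact_mod_cast hn.ne'
  have hn1 : (0 : ℝ) < n := by exact_mod_cast hn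
  rw [Complex.cpow_def_of_ne_zero hn0, ← Complex.natCast_log, neg_add, mul_add, Complex.exp_add]
  congr 1
  · rw [mul_neg, mul_one, ← Complex.ofReal_neg, ← Complex.ofReal_exp, Real.exp_neg,
      Real.exp_log hn1, one_div]
  · congr 1
    push_cast
    ring

theorem primeweight_theta {θ : ℝ} (hθ : 0 < θ) (t : ℝ) :
    (θ : ℂ) ^ ((t : ℂ) * I) = Complex.exp (((t * Real.log θ : ℝ) : ℂ) * I) := by
  have h0 : (θ : ℂ) ≠ 0 := by exact_mod_cast hθ.ne'
  rw [Complex.cpow_def_of_ne_zero h0, ← Complex.ofReal_log hθ.le]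
  congr 1
  push_cast
  ring

theorem primeweight_expand (W W' : ℕ) (a t : ℝ) :
    ((‖psum W W' (a * t)‖ ^ 2 : ℝ) : ℂ) =
      ∑ x ∈ ((Ioc W W').filter Nat.Prime) ×ˢ ((Ioc W W').filter Nat.Prime),
        ((1 / ((x.1 : ℝ) * x.2) : ℝ) : ℂ) * ((((x.2 : ℝ) / x.1) ^ a : ℝ) : ℂ) ^ ((t : ℂ) * I) := by
  have h1 : ((‖psum W W' (a * t)‖ ^ 2 : ℝ) : ℂ) =
      psum W W' (a * t) * (starRingEnd ℂ) (psum W W' (a * t)) := by
    rw [Complex.mul_conj, Complex.normSq_eq_norm_sq]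
  rw [h1, psum, map_sum, Finset.sum_mul_sum, Finset.sum_product]
  refine Finset.sum_congr rfl fun p hp => Finset.sum_congr rfl fun q hq => ?_
  have hp0 : 0 < p := (mem_filter.1 hp).2.pos
  have hq0 : 0 < q := (mem_filter.1 hq).2.pos
  have hp1 : (0 : ℝ) < p := by exact_mod_cast hp0
  have hq1 : (0 : ℝ) < q := by exact_mod_cast hq0
  have hx : (0 : ℝ) < ((q : ℝ) / p) ^ a := by positivity
  rw [primeweight_cpow hp0, primeweight_cpow hq0, primeweight_theta hx, map_mul,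
    Complex.conj_ofReal, ← Complex.exp_conj, map_mul, Complex.conj_ofReal, Complex.conj_I,
    Real.log_rpow (by positivity), Real.log_div hq1.ne' hp1.ne']
  have h2 : Complex.exp (((t * (a * (Real.log q - Real.log p)) : ℝ) : ℂ) * I) =
      Complex.exp (((-(a * t * Real.log p) : ℝ) : ℂ) * I) *
        Complex.exp (((-(a * t * Real.log q) : ℝ) : ℂ) * -I) := by
    rw [← Complex.exp_add]
    congr 1
    push_cast
    ring
  rw [h2]
  push_cast
  field_simp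

/-! ### The twisted integrals -/

/-- the twisted integral -/
noncomputable def primeweight_J (T : ℝ) (N : ℕ) (θ : ℝ) : ℂ :=
  ∫ t in T..(2 * T), ((‖zsum (1 / 2 + t * I) N‖ ^ 2 : ℝ) : ℂ) * (θ : ℂ) ^ (t * I)

theorem primeweight_J_inv (T : ℝ) (hT : 0 ≤ T) (N : ℕ) {θ : ℝ} (hθ : 0 < θ) :
    ‖primeweight_J T N θ⁻¹‖ = ‖primeweight_J T N θ‖ := by
  have h1 : primeweight_J T N θ⁻¹ = (starRingEnd ℂ) (primeweight_J T N θ) := by
    unfold primeweight_J
    rw [intervalIntegral.integral_of_le (by linarith), intervalIntegral.integral_of_le (by linarith),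
      ← integral_conj]
    congr 1
    ext t
    rw [primeweight_theta hθ, primeweight_theta (inv_pos.2 hθ), map_mul, Complex.conj_ofReal,
      ← Complex.exp_conj, map_mul, Complex.conj_ofReal, Complex.conj_I, Real.log_inv]
    congr 2
    push_cast
    ring
  rw [h1, Complex.norm_conj]

theorem primeweight_cont_theta {θ : ℝ} (hθ : 0 < θ) :
    Continuous fun t : ℝ => (θ : ℂ) ^ ((t : ℂ) * I) := by
  have : (θ : ℂ) ≠ 0 := by exact_mod_cast hθ.ne'
  exact Continuous.const_cpow (by fun_prop) (Or.inl this)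

/-- the mean square of the product of the zeta polynomial and the prime sum -/
theorem primeweight_integral (T : ℝ) (hT : 0 ≤ T) (N W W' : ℕ) (a : ℝ) :
    ∫ t in T..(2 * T), ‖zsum (1 / 2 + t * I) N‖ ^ 2 * ‖psum W W' (a * t)‖ ^ 2 ≤
      ∑ x ∈ ((Ioc W W').filter Nat.Prime) ×ˢ ((Ioc W W').filter Nat.Prime),
        1 / ((x.1 : ℝ) * x.2) * ‖primeweight_J T N (((x.2 : ℝ) / x.1) ^ a)‖ := by
  set P := ((Ioc W W').filter Nat.Prime) ×ˢ ((Ioc W W').filter Nat.Prime) with hP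
  have h1 : (((∫ t in T..(2 * T), ‖zsum (1 / 2 + t * I) N‖ ^ 2 * ‖psum W W' (a * t)‖ ^ 2) : ℝ) : ℂ)
      = ∑ x ∈ P, ((1 / ((x.1 : ℝ) * x.2) : ℝ) : ℂ) *
        primeweight_J T N (((x.2 : ℝ) / x.1) ^ a) := by
    rw [← intervalIntegral.integral_ofReal]
    have h2 : ∀ t : ℝ, ((‖zsum (1 / 2 + t * I) N‖ ^ 2 * ‖psum W W' (a * t)‖ ^ 2 : ℝ) : ℂ) =
        ∑ x ∈ P, ((1 / ((x.1 : ℝ) * x.2) : ℝ) : ℂ) * (((‖zsum (1 / 2 + t * I) N‖ ^ 2 : ℝ) : ℂ) *
          ((((x.2 : ℝ) / x.1) ^ a : ℝ) : ℂ) ^ ((t : ℂ) * I)) := by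
      intro t
      rw [Complex.ofReal_mul, primeweight_expand, Finset.mul_sum]
      refine Finset.sum_congr rfl fun x _ => ?_
      ring
    simp_rw [h2]
    rw [intervalIntegral.integral_finsetSum]
    · refine Finset.sum_congr rfl fun x _ => ?_
      rw [intervalIntegral.integral_const_mul]
      rfl
    · intro x hx
      apply Continuous.intervalIntegrable
      have hx1 : 0 < x.1 := (mem_filter.1 (mem_product.1 hx).1).2.pos
      have hx2 : 0 < x.2 := (mem_filter.1 (mem_product.1 hx).2).2.pos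
      have e1 : (0 : ℝ) < x.1 := by exact_mod_cast hx1
      have e2 : (0 : ℝ) < x.2 := by exact_mod_cast hx2
      have hθ : (0 : ℝ) < ((x.2 : ℝ) / x.1) ^ a := by positivity
      have c1 := primeweight_cont_theta hθ
      have c2 := primeweight_cont_zsum N
      fun_prop
  have h3 : 0 ≤ ∫ t in T..(2 * T), ‖zsum (1 / 2 + t * I) N‖ ^ 2 * ‖psum W W' (a * t)‖ ^ 2 := by
    apply intervalIntegral.integral_nonneg (by linarith)
    intro t _
    positivity
  have h4 : ∫ t in T..(2 * T), ‖zsum (1 / 2 + t * I) N‖ ^ 2 * ‖psum W W' (a * t)‖ ^ 2 =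
      ‖(((∫ t in T..(2 * T), ‖zsum (1 / 2 + t * I) N‖ ^ 2 * ‖psum W W' (a * t)‖ ^ 2) : ℝ) : ℂ)‖ := by
    rw [Complex.norm_real, Real.norm_of_nonneg h3]
  rw [h4, h1]
  refine (norm_sum_le _ _).trans (Finset.sum_le_sum fun x _ => ?_)
  rw [norm_mul, Complex.norm_real, Real.norm_of_nonneg (by positivity)]


/-! ### One pair of primes -/

theorem primeweight_one {C₀ : ℝ} (hC₀ : 0 < C₀)
    (hTB : ∀ (T θ Λ : ℝ) (N q : ℕ), 2 ≤ T → 1 ≤ θ → 1 ≤ Λ → 1 ≤ N → (N : ℝ) ≤ T → 1 ≤ q →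
      (∀ n : ℕ, 1 ≤ n → n < q → ∀ m : ℤ, 8 * Λ * N / T < |θ * n - m|) →
      ‖primeweight_J T N θ‖ ≤
      C₀ * (N * (1 + Real.log N) + T * (1 + Real.log N) * (1 / Λ + 1 / (√θ * q))))
    {T θ Λ : ℝ} {N : ℕ} (hT : 2 ≤ T) (hθ : 1 ≤ θ) (hΛ : 1 ≤ Λ) (hN : 1 ≤ N) (hNT : (N : ℝ) ≤ T)
    (hη : 8 * Λ * N / T ≤ 1 / 2) :
    ‖primeweight_J T N θ‖ ≤ C₀ * (N * (1 + Real.log N) + T * (1 + Real.log N) * (2 / Λ)) ∨
    ∃ q r : ℕ, 1 ≤ q ∧ 1 ≤ r ∧ |θ * q - r| ≤ 8 * Λ * N / T ∧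
      ‖primeweight_J T N θ‖ ≤ C₀ * (N * (1 + Real.log N) + T * (1 + Real.log N) *
        (1 / Λ + 2 / √((q : ℝ) * r))) := by
  classical
  have hlog : 0 ≤ Real.log N := Real.log_natCast_nonneg N
  have hT0 : 0 ≤ T := by linarith
  by_cases h : ∃ n : ℕ, 1 ≤ n ∧ (n : ℝ) ≤ Λ ∧ ∃ m : ℤ, |θ * n - m| ≤ 8 * Λ * N / T
  · right
    obtain ⟨h1, h2, m, h3⟩ := Nat.find_spec h
    set q := Nat.find h with hq
    have hmin : ∀ n : ℕ, 1 ≤ n → n < q → ∀ m : ℤ, 8 * Λ * N / T < |θ * n - m| := by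
      intro n hn hnq m
      by_contra hcon
      push Not at hcon
      have hnΛ : (n : ℝ) ≤ Λ := by
        have : (n : ℝ) ≤ q := by exact_mod_cast hnq.le
        linarith
      exact Nat.find_min h hnq ⟨hn, hnΛ, m, hcon⟩
    have hq1 : (1 : ℝ) ≤ q := by exact_mod_cast h1
    have hθq : 1 ≤ θ * q := by nlinarith
    have h4 := abs_le.1 (h3.trans hη)
    have hm0 : (0 : ℝ) < m := by linarith [h4.2]
    have hm1 : 0 < m := by exact_mod_cast hm0
    obtain ⟨r, hr⟩ := Int.eq_ofNat_of_zero_le hm1.le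
    have hr1 : 1 ≤ r := by omega
    have hmr : (m : ℝ) = (r : ℝ) := by rw [hr]; simp
    have hr0 : (1 : ℝ) ≤ r := by exact_mod_cast hr1
    refine ⟨q, r, h1, hr1, by rw [← hmr]; exact h3, ?_⟩
    refine (hTB T θ Λ N q hT hθ hΛ hN hNT h1 hmin).trans ?_
    have h5 : 1 / (√θ * q) ≤ 2 / √((q : ℝ) * r) := by
      have hq0 : (0 : ℝ) < q := by linarith
      have hθ0 : 0 < √θ := Real.sqrt_pos.2 (by linarith)
      have hqr : 0 < √((q : ℝ) * r) := Real.sqrt_pos.2 (by positivity)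
      rw [div_le_div_iff₀ (by positivity) hqr]
      have h6 : √((q : ℝ) * r) ≤ 2 * (√θ * q) := by
        apply Real.sqrt_le_iff.2
        refine ⟨by positivity, ?_⟩
        rw [mul_pow, mul_pow, Real.sq_sqrt (by linarith)]
        rw [hmr] at h4
        have h7 : (r : ℝ) ≤ 4 * (θ * q) := by linarith [h4.1]
        nlinarith
      linarith
    gcongr
  · left
    push Not at h
    set q := ⌊Λ⌋₊ + 1 with hq
    have hmin : ∀ n : ℕ, 1 ≤ n → n < q → ∀ m : ℤ, 8 * Λ * N / T < |θ * n - m| := by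
      intro n hn hnq m
      apply h n hn
      have h1 : n ≤ ⌊Λ⌋₊ := by omega
      exact (Nat.le_floor_iff (by linarith)).1 h1
    refine (hTB T θ Λ N q hT hθ hΛ hN hNT (by omega) hmin).trans ?_
    have hqΛ : Λ ≤ q := by
      rw [hq]
      push_cast
      exact (Nat.lt_floor_add_one Λ).le
    have h5 : 1 / (√θ * q) ≤ 1 / Λ := by
      apply one_div_le_one_div_of_le (by linarith)
      have h6 : 1 ≤ √θ := by
        rw [← Real.sqrt_one]
        exact Real.sqrt_le_sqrt hθ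
      nlinarith
    have h7 : 1 / Λ + 1 / (√θ * q) ≤ 2 / Λ := by
      have : 2 / Λ = 1 / Λ + 1 / Λ := by ring
      linarith
    gcongr

/-! ### All pairs of primes -/

theorem primeweight_sum {a B η δ S : ℝ} (ha : 0 < a) (hB : 0 ≤ B) (hδ : 0 ≤ δ) (T : ℝ)
    (hT : 0 ≤ T) (N W W' : ℕ) (hW : 1 ≤ W)
    (hS : ∑ p ∈ (Ioc W W').filter Nat.Prime, (1 / (p : ℝ)) ≤ S)
    (h1 : ‖primeweight_J T N 1‖ ≤ 6 * B) (hη : 2 * η < a / (W' : ℝ) ^ 3)
    (hone : ∀ θ : ℝ, 1 ≤ θ → ‖primeweight_J T N θ‖ ≤ B * δ ∨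
      ∃ q r : ℕ, 1 ≤ q ∧ 1 ≤ r ∧ |θ * q - r| ≤ η ∧
        ‖primeweight_J T N θ‖ ≤ B * (δ + 4 / √((q : ℝ) * r))) :
    ∑ x ∈ ((Ioc W W').filter Nat.Prime) ×ˢ ((Ioc W W').filter Nat.Prime),
        1 / ((x.1 : ℝ) * x.2) * ‖primeweight_J T N (((x.2 : ℝ) / x.1) ^ a)‖ ≤
      B * (116 / √(W : ℝ) + δ * S ^ 2) := by
  classical
  set P := (Ioc W W').filter Nat.Prime with hP
  have hPmem : ∀ {p}, p ∈ P → W < p ∧ p ≤ W' ∧ p.Prime := by
    intro p hp
    rw [hP, mem_filter, mem_Ioc] at hp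
    exact ⟨hp.1.1, hp.1.2, hp.2⟩
  set A : ℕ × ℕ → ℝ := fun x => ‖primeweight_J T N (((x.1 : ℝ) / x.2) ^ a)‖ with hA
  -- choice of the approximations
  have hch : ∀ x : ℕ × ℕ, ∃ y : ℕ × ℕ, x ∈ P ×ˢ P → x.2 < x.1 → ¬ A x ≤ B * δ →
      1 ≤ y.1 ∧ 1 ≤ y.2 ∧ |((x.1 : ℝ) / x.2) ^ a * y.1 - y.2| ≤ η ∧
        A x ≤ B * (δ + 4 / √((y.1 : ℝ) * y.2)) := by
    intro x
    by_cases hx : x ∈ P ×ˢ P ∧ x.2 < x.1
    · have hx1 := hPmem (mem_product.1 hx.1).1
      have hx2 := hPmem (mem_product.1 hx.1).2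
      have e2 : (0 : ℝ) < x.2 := by exact_mod_cast hx2.2.2.pos
      have hθ : 1 ≤ ((x.1 : ℝ) / x.2) ^ a := by
        apply Real.one_le_rpow _ ha.le
        rw [le_div_iff₀ e2, one_mul]
        exact_mod_cast hx.2.le
      rcases hone _ hθ with h | ⟨q, r, h2, h3, h4, h5⟩
      · exact ⟨(1, 1), fun _ _ h' => absurd h h'⟩
      · exact ⟨(q, r), fun _ _ _ => ⟨h2, h3, h4, h5⟩⟩
    · exact ⟨(1, 1), fun h2 h3 _ => absurd ⟨h2, h3⟩ hx⟩
  choose Q hQ using hch
  set D2 := (P ×ˢ P).filter (fun x => x.2 < x.1 ∧ ¬ A x ≤ B * δ) with hD2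
  have hD2mem : ∀ {x}, x ∈ D2 → x ∈ P ×ˢ P ∧ x.2 < x.1 ∧ ¬ A x ≤ B * δ := fun {x} hx => by
    rw [hD2, mem_filter] at hx
    exact hx
  -- injectivity
  have hinj : Set.InjOn Q D2 := by
    intro x hx y hy hxy
    obtain ⟨x1, x2, x3⟩ := hD2mem hx
    obtain ⟨y1, y2, y3⟩ := hD2mem hy
    obtain ⟨x4, x5, x6, -⟩ := hQ x x1 x2 x3
    obtain ⟨y4, y5, y6, -⟩ := hQ y y1 y2 y3
    have x7 := hPmem (mem_product.1 x1).1
    have x8 := hPmem (mem_product.1 x1).2
    have y7 := hPmem (mem_product.1 y1).1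
    have y8 := hPmem (mem_product.1 y1).2
    by_contra hne
    have hsep := primeweight_sep ha (M := W') x7.2.2 x8.2.2 y8.2.2.one_lt.le x2 y2 y7.2.2 x7.2.1
      y7.2.1 (by simpa using hne)
    rw [← hxy] at y6
    have hq1 : (1 : ℝ) ≤ (Q x).1 := by exact_mod_cast x4
    have h9 : |((x.1 : ℝ) / x.2) ^ a - ((y.1 : ℝ) / y.2) ^ a| * (Q x).1 ≤ 2 * η := by
      rw [← abs_of_pos (by linarith : (0 : ℝ) < (Q x).1), ← abs_mul]
      have e : (((x.1 : ℝ) / x.2) ^ a - ((y.1 : ℝ) / y.2) ^ a) * (Q x).1 =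
          (((x.1 : ℝ) / x.2) ^ a * (Q x).1 - (Q x).2) -
            (((y.1 : ℝ) / y.2) ^ a * (Q x).1 - (Q x).2) := by ring
      rw [e]
      refine (abs_sub _ _).trans ?_
      linarith
    have h10 := abs_nonneg (((x.1 : ℝ) / x.2) ^ a - ((y.1 : ℝ) / y.2) ^ a)
    nlinarith
  have hpairs := primeweight_pairs W hW D2
    (fun x hx => ⟨(hPmem (mem_product.1 (hD2mem hx).1).1).1, (hPmem (mem_product.1 (hD2mem hx).1).2).1⟩)
    Q (fun x hx => by
      obtain ⟨x1, x2, x3⟩ := hD2mem hx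
      obtain ⟨x4, x5, -⟩ := hQ x x1 x2 x3
      exact ⟨x4, x5⟩) hinj
  set g : ℕ × ℕ → ℝ := fun x => if x ∈ D2 then
    4 * B * (1 / ((x.1 : ℝ) * x.2) * (1 / √(((Q x).1 : ℝ) * (Q x).2))) else 0 with hg
  have hg0 : ∀ x, 0 ≤ g x := by
    intro x
    simp only [hg]
    split_ifs
    · positivity
    · exact le_rfl
  -- bound for ordered pairs
  have hord : ∀ x ∈ P ×ˢ P, x.2 < x.1 →
      1 / ((x.1 : ℝ) * x.2) * A x ≤ B * δ * (1 / ((x.1 : ℝ) * x.2)) + g x := by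
    intro x hx hlt
    have hw : (0 : ℝ) ≤ 1 / ((x.1 : ℝ) * x.2) := by positivity
    by_cases h : A x ≤ B * δ
    · have := mul_le_mul_of_nonneg_left h hw
      have := hg0 x
      nlinarith
    · have hxD : x ∈ D2 := by
        rw [hD2, mem_filter]
        exact ⟨hx, hlt, h⟩
      have h2 := (hQ x hx hlt h).2.2.2
      have h3 := mul_le_mul_of_nonneg_left h2 hw
      have h4 : g x = 4 * B * (1 / ((x.1 : ℝ) * x.2) * (1 / √(((Q x).1 : ℝ) * (Q x).2))) := by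
        simp only [hg]
        rw [if_pos hxD]
      rw [h4]
      refine h3.trans (le_of_eq ?_)
      ring
  -- pointwise bound
  have hpt : ∀ x ∈ P ×ˢ P,
      1 / ((x.1 : ℝ) * x.2) * ‖primeweight_J T N (((x.2 : ℝ) / x.1) ^ a)‖ ≤
      (if x.1 = x.2 then 6 * B * (1 / ((x.1 : ℝ) * x.2)) else 0) +
        B * δ * (1 / ((x.1 : ℝ) * x.2)) + g x + g x.swap := by
    intro x hx
    have hx1 := hPmem (mem_product.1 hx).1
    have hx2 := hPmem (mem_product.1 hx).2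
    have e1 : (0 : ℝ) < x.1 := by exact_mod_cast hx1.2.2.pos
    have e2 : (0 : ℝ) < x.2 := by exact_mod_cast hx2.2.2.pos
    have hw : (0 : ℝ) ≤ 1 / ((x.1 : ℝ) * x.2) := by positivity
    have g1 := hg0 x
    have g2 := hg0 x.swap
    have hBδ : 0 ≤ B * δ * (1 / ((x.1 : ℝ) * x.2)) := by positivity
    rcases lt_trichotomy x.1 x.2 with h | h | h
    · rw [if_neg h.ne]
      have hs : x.swap ∈ P ×ˢ P := by
        rw [mem_product] at hx ⊢
        exact ⟨hx.2, hx.1⟩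
      have := hord x.swap hs h
      simp only [hA, Prod.fst_swap, Prod.snd_swap] at this
      rw [mul_comm (x.2 : ℝ) x.1] at this
      linarith
    · rw [if_pos h]
      have e3 : (((x.2 : ℝ) / x.1) ^ a) = 1 := by
        rw [h, div_self e2.ne', Real.one_rpow]
      rw [e3]
      have := mul_le_mul_of_nonneg_left h1 hw
      linarith
    · rw [if_neg h.ne']
      have e3 : (((x.2 : ℝ) / x.1) ^ a) = (((x.1 : ℝ) / x.2) ^ a)⁻¹ := by
        rw [← Real.inv_rpow (by positivity), inv_div]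
      rw [e3, primeweight_J_inv T hT N (by positivity)]
      have := hord x hx h
      simp only [hA] at this
      linarith
  refine (Finset.sum_le_sum hpt).trans ?_
  rw [Finset.sum_add_distrib, Finset.sum_add_distrib, Finset.sum_add_distrib, ← Finset.mul_sum]
  have hgsum : ∑ x ∈ P ×ˢ P, g x ≤ 4 * B * (13 / √(W : ℝ)) := by
    have : ∑ x ∈ P ×ˢ P, g x = 4 * B *
        ∑ x ∈ D2, 1 / ((x.1 : ℝ) * x.2) * (1 / √(((Q x).1 : ℝ) * (Q x).2)) := by
      simp only [hg]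
      rw [Finset.sum_ite_mem, Finset.mul_sum]
      congr 1
      rw [Finset.inter_eq_right, hD2]
      exact Finset.filter_subset _ _
    rw [this]
    gcongr
  have hgswap : ∑ x ∈ P ×ˢ P, g x.swap = ∑ x ∈ P ×ˢ P, g x := by
    rw [Finset.sum_product, Finset.sum_product_right]
    rfl
  have hdiag : ∑ x ∈ P ×ˢ P, (if x.1 = x.2 then 6 * B * (1 / ((x.1 : ℝ) * x.2)) else 0) ≤
      12 * B / √(W : ℝ) := by
    rw [Finset.sum_product]
    have h2 : ∀ p ∈ P, (∑ q ∈ P, if p = q then 6 * B * (1 / ((p : ℝ) * q)) else 0) ≤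
        6 * B * (1 / ((p : ℝ) * √(p : ℝ))) := by
      intro p hp
      rw [Finset.sum_ite_eq, if_pos hp]
      have hp1 := (hPmem hp).2.2.one_lt
      have hp2 : (1 : ℝ) ≤ p := by exact_mod_cast hp1.le
      have hp3 : √(p : ℝ) ≤ p := by
        rw [Real.sqrt_le_left (by linarith)]
        nlinarith
      have hp4 : 0 < √(p : ℝ) := Real.sqrt_pos.2 (by linarith)
      apply mul_le_mul_of_nonneg_left _ (by positivity)
      apply one_div_le_one_div_of_le (by positivity)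
      gcongr
    refine (Finset.sum_le_sum h2).trans ?_
    rw [← Finset.mul_sum]
    have h3 : ∑ p ∈ P, 1 / ((p : ℝ) * √(p : ℝ)) ≤ 2 / √(W : ℝ) := by
      refine le_trans ?_ (primeweight_three_halves W hW W')
      apply Finset.sum_le_sum_of_subset_of_nonneg
      · rw [hP]
        exact Finset.filter_subset _ _
      · intros
        positivity
    calc 6 * B * ∑ p ∈ P, 1 / ((p : ℝ) * √(p : ℝ)) ≤ 6 * B * (2 / √(W : ℝ)) := by gcongr
      _ = _ := by ring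
  have hsq : ∑ x ∈ P ×ˢ P, 1 / ((x.1 : ℝ) * x.2) ≤ S ^ 2 := by
    have h2 : ∑ x ∈ P ×ˢ P, 1 / ((x.1 : ℝ) * x.2) = (∑ p ∈ P, 1 / (p : ℝ)) ^ 2 := by
      rw [pow_two, Finset.sum_mul_sum, Finset.sum_product]
      refine Finset.sum_congr rfl fun p _ => Finset.sum_congr rfl fun q _ => ?_
      simp only [one_div, mul_inv]
    rw [h2]
    exact pow_le_pow_left₀ (Finset.sum_nonneg fun p _ => by positivity) hS 2
  have hsq' : B * δ * ∑ x ∈ P ×ˢ P, 1 / ((x.1 : ℝ) * x.2) ≤ B * δ * S ^ 2 := by gcongr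
  rw [hgswap]
  have hfin : B * (116 / √(W : ℝ) + δ * S ^ 2) = 12 * B / √(W : ℝ) + B * δ * S ^ 2 +
      4 * B * (13 / √(W : ℝ)) + 4 * B * (13 / √(W : ℝ)) := by ring
  rw [hfin]
  linarith


/-! ### Asymptotics -/

theorem primeweight_eventually (a : ℝ) (ha : 0 < a) (m : ℕ) (R : ℝ) : ∀ᶠ T : ℝ in atTop,
    3 ≤ T ∧ 1 ≤ Real.log T ∧ 1 ≤ Real.log (Real.log T) ∧ R ≤ Real.log (Real.log T) ∧
    (Real.log (Real.log T)) ^ m ≤ √(Real.log T) ∧
    16 * Real.exp (-√(Real.log T)) * (√(Real.log T)) ^ 901 < min a 1 := by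
  have hL : Tendsto (fun T : ℝ => Real.log T) atTop atTop := Real.tendsto_log_atTop
  have hl2 : Tendsto (fun T : ℝ => Real.log (Real.log T)) atTop atTop :=
    Real.tendsto_log_atTop.comp hL
  have hs : Tendsto (fun T : ℝ => √(Real.log T)) atTop atTop :=
    Real.tendsto_sqrt_atTop.comp hL
  have h5 : ∀ᶠ L : ℝ in atTop, (Real.log L) ^ m ≤ √L := by
    have h := (Real.isLittleO_pow_log_id_atTop (n := 2 * m)).bound (c := 1) one_pos
    filter_upwards [h, eventually_ge_atTop 1] with L hL1 hL2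
    rw [one_mul, Real.norm_eq_abs, id, Real.norm_eq_abs, abs_of_nonneg (by linarith : (0:ℝ) ≤ L)] at hL1
    apply Real.le_sqrt_of_sq_le
    rw [← pow_mul, mul_comm]
    exact (le_abs_self _).trans hL1
  have h6 : ∀ᶠ x : ℝ in atTop, 16 * Real.exp (-x) * x ^ 901 < min a 1 := by
    have h := (Real.tendsto_pow_mul_exp_neg_atTop_nhds_zero 901).const_mul 16
    rw [mul_zero] at h
    have h' := h.eventually_lt_const (lt_min ha one_pos)
    filter_upwards [h'] with x hx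
    calc _ = 16 * (x ^ 901 * Real.exp (-x)) := by ring
      _ < _ := hx
  filter_upwards [eventually_ge_atTop 3, hL.eventually_ge_atTop 1, hl2.eventually_ge_atTop 1,
    hl2.eventually_ge_atTop R, hL.eventually h5, hs.eventually h6] with T h1 h2 h3 h4 h5 h6
  exact ⟨h1, h2, h3, h4, h5, h6⟩

theorem prime_weight (a : ℝ) (ha : 0 < a) (K : ℕ) : ∃ C : ℝ, 0 < C ∧ ∀ᶠ T : ℝ in atTop,
    ∀ W W' : ℕ, 2 ≤ W → W < W' → W' ≤ W ^ 2 → (W' : ℝ) ≤ (Real.log T) ^ 150 →
    (∫ t in T..(2 * T), ‖riemannZeta (1 / 2 + t * I)‖ ^ 2 * ‖psum W W' (a * t)‖ ^ 2) /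
      (T * Real.log T) ≤ C / √W + (Real.log (Real.log T)) ^ (-(K : ℝ)) := by
  obtain ⟨C₀, hC₀, hTB⟩ := twisted_bound
  obtain ⟨C₁, hC₁, hWC⟩ := weight_compare
  refine ⟨116 * C₀, by positivity, ?_⟩
  filter_upwards [primeweight_eventually a ha (2 * (K + 5)) ((6 * C₀ + 3 * C₁) * 22801)] with T hT
  obtain ⟨hT3, hL1, hl1, hlR, hΛs, hsmall⟩ := hT
  intro W W' hW2 hWW' _ hW'
  set L := Real.log T with hLdef
  set l := Real.log L with hldef
  set Λ := l ^ (2 * (K + 5)) with hΛdef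
  have hΛ1 : 1 ≤ Λ := one_le_pow₀ hl1
  have hΛ0 : 0 < Λ := by linarith
  have hL0 : 0 < L := by linarith
  have hT0 : 0 < T := by linarith
  have hs1 : 1 ≤ √L := by
    rw [← Real.sqrt_one]
    exact Real.sqrt_le_sqrt hL1
  have hss : √L * √L = L := Real.mul_self_sqrt hL0.le
  -- `L / Λ ≥ √L`
  have hLΛ : √L ≤ L / Λ := by
    rw [le_div_iff₀ hΛ0]
    calc √L * Λ ≤ √L * √L := by gcongr
      _ = L := hss
  set E := Real.exp (-(L / Λ)) with hEdef
  have hE0 : 0 < E := Real.exp_pos _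
  have hEs : E ≤ Real.exp (-√L) := Real.exp_le_exp.2 (by linarith)
  have hE1 : 16 * E * Λ * L ^ 450 < min a 1 := by
    refine lt_of_le_of_lt ?_ hsmall
    calc 16 * E * Λ * L ^ 450 ≤ 16 * Real.exp (-√L) * √L * L ^ 450 := by gcongr
      _ = 16 * Real.exp (-√L) * (√L) ^ 901 := by
          have : L ^ 450 = (√L) ^ 900 := by
            conv_lhs => rw [← hss]
            ring
          rw [this]
          ring
  have hL450 : 1 ≤ L ^ 450 := one_le_pow₀ hL1
  have hEΛ : 16 * (E * Λ) ≤ 1 := by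
    have h1 : 16 * E * Λ * L ^ 450 < 1 := lt_of_lt_of_le hE1 (min_le_right _ _)
    have h2 : 16 * E * Λ * 1 ≤ 16 * E * Λ * L ^ 450 := by gcongr
    linarith
  have hEΛ' : E ≤ 1 / Λ := by
    rw [le_div_iff₀ hΛ0]
    linarith [mul_pos hE0 hΛ0]
  -- the length of the polynomial
  have hTE : 1 ≤ T * E := by
    have h1 : T * E = Real.exp (L - L / Λ) := by
      rw [sub_eq_add_neg, Real.exp_add, ← hEdef, hLdef, Real.exp_log hT0]
    rw [h1]
    apply Real.one_le_exp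
    rw [sub_nonneg, div_le_iff₀ hΛ0]
    nlinarith
  set N := ⌊T * E⌋₊ with hNdef
  have hN1 : 1 ≤ N := Nat.one_le_floor_iff _ |>.2 hTE
  have hNle : (N : ℝ) ≤ T * E := Nat.floor_le (by positivity)
  have hNlt : T * E < N + 1 := Nat.lt_floor_add_one _
  have hN1' : (1 : ℝ) ≤ N := by exact_mod_cast hN1
  have hE1' : E ≤ 1 := by
    have : 1 / Λ ≤ 1 := by rw [div_le_one hΛ0]; exact hΛ1
    linarith
  have hNT : (N : ℝ) ≤ T := by nlinarith
  have hlogN : Real.log N ≤ L := Real.log_le_log (by linarith) hNT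
  have hlogN0 : 0 ≤ Real.log N := Real.log_natCast_nonneg N
  have hη : 8 * Λ * N / T ≤ 8 * (E * Λ) := by
    rw [div_le_iff₀ hT0]
    have := mul_le_mul_of_nonneg_left hNle (by positivity : (0 : ℝ) ≤ 8 * Λ)
    linarith [this, (by ring : 8 * Λ * (T * E) = 8 * (E * Λ) * T)]
  have hη2 : 8 * Λ * N / T ≤ 1 / 2 := by linarith
  -- the bound for the prime sum
  have hW'0 : (0 : ℝ) < W' := by exact_mod_cast (by omega : 0 < W')
  have hlogW' : 1 + Real.log W' ≤ 151 * l := by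
    have h1 : Real.log W' ≤ 150 * l := by
      calc Real.log W' ≤ Real.log (L ^ 150) := Real.log_le_log hW'0 hW'
        _ = 150 * l := by rw [Real.log_pow]; norm_num [hldef]
    linarith
  have hS := (primeweight_sum_inv W W').trans hlogW'
  -- the pairs
  have hTB' : ∀ (T θ Λ : ℝ) (N q : ℕ), 2 ≤ T → 1 ≤ θ → 1 ≤ Λ → 1 ≤ N → (N : ℝ) ≤ T → 1 ≤ q →
      (∀ n : ℕ, 1 ≤ n → n < q → ∀ m : ℤ, 8 * Λ * N / T < |θ * n - m|) →
      ‖primeweight_J T N θ‖ ≤
      C₀ * (N * (1 + Real.log N) + T * (1 + Real.log N) * (1 / Λ + 1 / (√θ * q))) := hTB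
  have hB0 : 0 ≤ C₀ * T * L := by positivity
  have hN2 : N * (1 + Real.log N) ≤ T * L * (2 / Λ) := by
    calc (N : ℝ) * (1 + Real.log N) ≤ (T * (1 / Λ)) * (2 * L) := by
          have : (N : ℝ) ≤ T * (1 / Λ) := hNle.trans (by gcongr)
          gcongr
          linarith
      _ = _ := by ring
  have hone : ∀ θ : ℝ, 1 ≤ θ → ‖primeweight_J T N θ‖ ≤ C₀ * T * L * (6 / Λ) ∨
      ∃ q r : ℕ, 1 ≤ q ∧ 1 ≤ r ∧ |θ * q - r| ≤ 8 * Λ * N / T ∧
        ‖primeweight_J T N θ‖ ≤ C₀ * T * L * (6 / Λ + 4 / √((q : ℝ) * r)) := by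
    intro θ hθ
    rcases primeweight_one hC₀ hTB' (by linarith) hθ hΛ1 hN1 hNT hη2 with h | ⟨q, r, h1, h2, h3, h4⟩
    · left
      refine h.trans ?_
      have h5 : T * (1 + Real.log N) * (2 / Λ) ≤ T * L * (4 / Λ) := by
        calc T * (1 + Real.log N) * (2 / Λ) ≤ T * (2 * L) * (2 / Λ) := by
              gcongr
              linarith
          _ = _ := by ring
      calc C₀ * (N * (1 + Real.log N) + T * (1 + Real.log N) * (2 / Λ))
          ≤ C₀ * (T * L * (2 / Λ) + T * L * (4 / Λ)) := by gcongr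
        _ = _ := by ring
    · right
      refine ⟨q, r, h1, h2, h3, h4.trans ?_⟩
      have h5 : T * (1 + Real.log N) * (1 / Λ + 2 / √((q : ℝ) * r)) ≤
          T * L * (4 / Λ + 4 / √((q : ℝ) * r)) := by
        calc T * (1 + Real.log N) * (1 / Λ + 2 / √((q : ℝ) * r))
            ≤ T * (2 * L) * (2 / Λ + 2 / √((q : ℝ) * r)) := by
              gcongr
              · linarith
              · norm_num
          _ = _ := by ring
      calc C₀ * (N * (1 + Real.log N) + T * (1 + Real.log N) * (1 / Λ + 2 / √((q : ℝ) * r)))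
          ≤ C₀ * (T * L * (2 / Λ) + T * L * (4 / Λ + 4 / √((q : ℝ) * r))) := by gcongr
        _ = _ := by ring
  have hdiag : ‖primeweight_J T N 1‖ ≤ 6 * (C₀ * T * L) := by
    have h1 := hTB' T 1 1 N 1 (by linarith) le_rfl le_rfl hN1 hNT le_rfl
      (fun n h1 h2 => absurd h2 (by omega))
    refine h1.trans ?_
    rw [Real.sqrt_one]
    have h2 : (N : ℝ) * (1 + Real.log N) ≤ T * (2 * L) := by
      gcongr
      linarith
    have h3 : T * (1 + Real.log N) * (1 / 1 + 1 / (1 * ((1 : ℕ) : ℝ))) ≤ T * (2 * L) * 2 := by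
      norm_num
      gcongr
      linarith
    calc _ ≤ C₀ * (T * (2 * L) + T * (2 * L) * 2) := by gcongr
      _ = _ := by ring
  have hηsep : 2 * (8 * Λ * N / T) < a / (W' : ℝ) ^ 3 := by
    rw [lt_div_iff₀ (by positivity)]
    have h1 : (W' : ℝ) ^ 3 ≤ L ^ 450 := by
      calc (W' : ℝ) ^ 3 ≤ (L ^ 150) ^ 3 := by gcongr
        _ = L ^ 450 := by ring
    calc 2 * (8 * Λ * N / T) * (W' : ℝ) ^ 3 ≤ 2 * (8 * (E * Λ)) * L ^ 450 := by gcongr
      _ = 16 * E * Λ * L ^ 450 := by ring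
      _ < min a 1 := hE1
      _ ≤ a := min_le_left _ _
  have hmain := primeweight_sum (a := a) (B := C₀ * T * L) (δ := 6 / Λ) (S := 151 * l) ha hB0
    (by positivity) T hT0.le N W W' (by omega) hS hdiag hηsep hone
  have hint := (primeweight_integral T hT0.le N W W' a).trans hmain
  -- comparison of the weights
  have hTN : Real.log (T / N) ≤ 1 + L / Λ := by
    have h1 : T / N ≤ 2 / E := by
      rw [div_le_div_iff₀ (by linarith) hE0]
      linarith
    have h2 : Real.log (T / N) ≤ Real.log (2 / E) := Real.log_le_log (by positivity) h1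
    have h3 : Real.log (2 / E) = Real.log 2 + L / Λ := by
      rw [Real.log_div (by norm_num) hE0.ne', hEdef, Real.log_exp]
      ring
    have h4 := Real.log_two_lt_d9
    linarith
  have hcmp := hWC T hT3 N hN1 hNT
  have hΛsq : Λ = (l ^ (K + 5)) ^ 2 := by rw [hΛdef]; ring
  have hlK : 0 < l ^ (K + 5) := by positivity
  have hroot : √((1 + L) * (1 + Real.log (T / N))) ≤ 3 * L / l ^ (K + 5) := by
    apply Real.sqrt_le_iff.2
    refine ⟨by positivity, ?_⟩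
    rw [div_pow, ← hΛsq]
    have h1 : 1 + Real.log (T / N) ≤ 3 * (L / Λ) := by linarith
    have h2 : 0 ≤ 1 + Real.log (T / N) := by
      have : 0 ≤ Real.log (T / N) := Real.log_nonneg (by rw [le_div_iff₀ (by linarith)]; linarith)
      linarith
    calc (1 + L) * (1 + Real.log (T / N)) ≤ (3 * L) * (3 * (L / Λ)) := by
          gcongr
          linarith
      _ = _ := by ring
  have hdiff : ∫ t in T..(2 * T),
      |‖riemannZeta (1 / 2 + t * I)‖ ^ 2 - ‖zsum (1 / 2 + t * I) N‖ ^ 2| ≤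
      C₁ * T * (3 * L / l ^ (K + 5)) := hcmp.trans (by gcongr)
  -- the weighted integral
  have c1 := primeweight_cont_zeta
  have c2 := primeweight_cont_zsum N
  have c3 := primeweight_cont_psum W W' a
  have hS0 : 0 ≤ 151 * l := by positivity
  have hpt : ∀ t : ℝ, ‖riemannZeta (1 / 2 + t * I)‖ ^ 2 * ‖psum W W' (a * t)‖ ^ 2 ≤
      ‖zsum (1 / 2 + t * I) N‖ ^ 2 * ‖psum W W' (a * t)‖ ^ 2 +
        (151 * l) ^ 2 * |‖riemannZeta (1 / 2 + t * I)‖ ^ 2 - ‖zsum (1 / 2 + t * I) N‖ ^ 2| := by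
    intro t
    have h1 : ‖psum W W' (a * t)‖ ^ 2 ≤ (151 * l) ^ 2 :=
      pow_le_pow_left₀ (norm_nonneg _) ((primeweight_norm_psum W W' _).trans hlogW') 2
    have h2 := le_abs_self (‖riemannZeta (1 / 2 + t * I)‖ ^ 2 - ‖zsum (1 / 2 + t * I) N‖ ^ 2)
    have h3 := abs_nonneg (‖riemannZeta (1 / 2 + t * I)‖ ^ 2 - ‖zsum (1 / 2 + t * I) N‖ ^ 2)
    have h4 := mul_le_mul h2 h1 (by positivity) h3
    linarith
  have hint2 : ∫ t in T..(2 * T), ‖riemannZeta (1 / 2 + t * I)‖ ^ 2 * ‖psum W W' (a * t)‖ ^ 2 ≤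
      C₀ * T * L * (116 / √(W : ℝ) + 6 / Λ * (151 * l) ^ 2) +
        (151 * l) ^ 2 * (C₁ * T * (3 * L / l ^ (K + 5))) := by
    have i1 : IntervalIntegrable (fun t : ℝ => ‖riemannZeta (1 / 2 + t * I)‖ ^ 2 *
        ‖psum W W' (a * t)‖ ^ 2) volume T (2 * T) := Continuous.intervalIntegrable (by fun_prop) _ _
    have i2 : IntervalIntegrable (fun t : ℝ => ‖zsum (1 / 2 + t * I) N‖ ^ 2 *
        ‖psum W W' (a * t)‖ ^ 2) volume T (2 * T) := Continuous.intervalIntegrable (by fun_prop) _ _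
    have i3 : IntervalIntegrable (fun t : ℝ => (151 * l) ^ 2 *
        |‖riemannZeta (1 / 2 + t * I)‖ ^ 2 - ‖zsum (1 / 2 + t * I) N‖ ^ 2|) volume T (2 * T) :=
      Continuous.intervalIntegrable (by fun_prop) _ _
    refine (intervalIntegral.integral_mono_on (by linarith) i1 (i2.add i3)
      (fun t _ => hpt t)).trans ?_
    rw [intervalIntegral.integral_add i2 i3, intervalIntegral.integral_const_mul]
    exact add_le_add hint (mul_le_mul_of_nonneg_left hdiff (by positivity))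
  rw [div_le_iff₀ (by positivity)]
  refine hint2.trans ?_
  have hrpow : l ^ (-(K : ℝ)) = 1 / l ^ K := by
    rw [Real.rpow_neg (by linarith), Real.rpow_natCast, one_div]
  rw [hrpow]
  have hl0 : 0 < l := by linarith
  have hΛK : l ^ (K + 5) ≤ Λ := by
    have hz : 1 ≤ l ^ (K + 5) := one_le_pow₀ hl1
    rw [hΛsq, pow_two]
    exact le_mul_of_one_le_left hlK.le hz
  have h6 : 6 / Λ * (151 * l) ^ 2 ≤ 6 * 22801 / l ^ (K + 3) := by
    calc 6 / Λ * (151 * l) ^ 2 ≤ 6 / l ^ (K + 5) * (151 * l) ^ 2 := by gcongr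
      _ = 6 * 22801 / l ^ (K + 3) := by
        rw [show K + 5 = (K + 3) + 2 by ring, pow_add l (K + 3) 2]
        field_simp
        norm_num
  have h7 : (151 * l) ^ 2 * (C₁ * T * (3 * L / l ^ (K + 5))) =
      T * L * (3 * C₁ * 22801 / l ^ (K + 3)) := by
    rw [show K + 5 = (K + 3) + 2 by ring, pow_add l (K + 3) 2]
    field_simp
    norm_num
  have h8 : (6 * C₀ + 3 * C₁) * 22801 / l ^ (K + 3) ≤ 1 / l ^ K := by
    rw [div_le_div_iff₀ (by positivity) (by positivity), one_mul, pow_add]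
    have h9 : (6 * C₀ + 3 * C₁) * 22801 ≤ l ^ 3 := by
      refine hlR.trans ?_
      have hl2 : 1 ≤ l ^ 2 := one_le_pow₀ hl1
      calc l ≤ l * l ^ 2 := le_mul_of_one_le_right hl0.le hl2
        _ = l ^ 3 := by ring
    rw [mul_comm (l ^ K)]
    exact mul_le_mul_of_nonneg_right h9 (pow_pos hl0 K).le
  rw [h7]
  calc C₀ * T * L * (116 / √(W : ℝ) + 6 / Λ * (151 * l) ^ 2) +
        T * L * (3 * C₁ * 22801 / l ^ (K + 3))
      ≤ C₀ * T * L * (116 / √(W : ℝ) + 6 * 22801 / l ^ (K + 3)) +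
        T * L * (3 * C₁ * 22801 / l ^ (K + 3)) := by gcongr
    _ = (116 * C₀ / √(W : ℝ) + (6 * C₀ + 3 * C₁) * 22801 / l ^ (K + 3)) * (T * L) := by ring
    _ ≤ (116 * C₀ / √(W : ℝ) + 1 / l ^ K) * (T * L) := by gcongr

end Pool.Agent.Lib.MP_aa9ae4_nt
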