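import Mathlib
import Pool.Agent.Lib.MP_aa9ae4_nt.Defs
import Pool.Agent.Lib.MP_aa9ae4_nt.Mertens

namespace Pool.Agent.Lib.MP_aa9ae4_nt

open Finset MeasureTheory Filter Topology
open Complex (I)

lemma sp_norm_cpow (p : ℕ) (hp : 0 < p) (u : ℝ) : ‖(p : ℂ) ^ (-(1 + u * I))‖ = 1 / p := by
  rw [Complex.norm_natCast_cpow_of_pos hp]
  have : (-(1 + (u : ℂ) * I)).re = -1 := by simp
  rw [this, Real.rpow_neg_one, one_div]

lemma sp_mem {y z p : ℕ} (hp : p ∈ (Ioc y z).filter Nat.Prime) : p.Prime ∧ y < p ∧ p ≤ z := by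
  rw [mem_filter, mem_Ioc] at hp
  exact ⟨hp.2, hp.1.1, hp.1.2⟩

lemma sp_norm_le_half {p : ℕ} (hp : p.Prime) (u : ℝ) : ‖(p : ℂ) ^ (-(1 + u * I))‖ ≤ 1 / 2 := by
  rw [sp_norm_cpow p hp.pos]
  have : (2 : ℝ) ≤ p := by exact_mod_cast hp.two_le
  exact one_div_le_one_div_of_le (by norm_num) this

lemma sp_factor_ne {p : ℕ} (hp : p.Prime) (u : ℝ) : (1 - (p : ℂ) ^ (-(1 + u * I))) ≠ 0 := by
  intro h
  have h1 : (p : ℂ) ^ (-(1 + u * I)) = 1 := (sub_eq_zero.mp h).symm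
  have h2 := sp_norm_le_half hp u
  rw [h1, norm_one] at h2
  norm_num at h2

lemma sp_eul_ne (y z : ℕ) (u : ℝ) : eul y z u ≠ 0 :=
  Finset.prod_ne_zero_iff.mpr fun _ hp => sp_factor_ne (sp_mem hp).1 u

lemma sp_eul_pos (y z : ℕ) (u : ℝ) : 0 < ‖eul y z u‖ := norm_pos_iff.mpr (sp_eul_ne y z u)

lemma sp_log_eul (y z : ℕ) (u : ℝ) :
    |Real.log ‖eul y z u‖ + (psum y z u).re| ≤
      ∑ p ∈ (Ioc y z).filter Nat.Prime, (((p : ℝ) ^ 2)⁻¹) := by
  have h1 : Real.log ‖eul y z u‖ =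
      ∑ p ∈ (Ioc y z).filter Nat.Prime, (Complex.log (1 - (p : ℂ) ^ (-(1 + u * I)))).re := by
    unfold eul
    rw [norm_prod, Real.log_prod]
    · exact Finset.sum_congr rfl fun p _ => (Complex.log_re _).symm
    · intro p hp
      exact norm_ne_zero_iff.mpr (sp_factor_ne (sp_mem hp).1 u)
  have h2 : (psum y z u).re = ∑ p ∈ (Ioc y z).filter Nat.Prime, ((p : ℂ) ^ (-(1 + u * I))).re := by
    unfold psum
    rw [Complex.re_sum]
  rw [h1, h2, ← Finset.sum_add_distrib]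
  refine (Finset.abs_sum_le_sum_abs _ _).trans (Finset.sum_le_sum fun p hp => ?_)
  have hp' := (sp_mem hp).1
  set x := (p : ℂ) ^ (-(1 + u * I)) with hx
  have hxn : ‖x‖ = 1 / p := sp_norm_cpow p hp'.pos u
  have hxh : ‖x‖ ≤ 1 / 2 := sp_norm_le_half hp' u
  have h3 : ‖Complex.log (1 + (-x)) - (-x)‖ ≤ ‖-x‖ ^ 2 * (1 - ‖-x‖)⁻¹ / 2 :=
    Complex.norm_log_one_add_sub_self_le (by rw [norm_neg]; linarith)
  rw [norm_neg] at h3
  have h4 : (1 - ‖x‖)⁻¹ ≤ 2 := by
    rw [inv_le_comm₀ (by linarith) (by norm_num)]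
    linarith
  have h5 : ‖Complex.log (1 - x) + x‖ ≤ ‖x‖ ^ 2 := by
    have e : Complex.log (1 - x) + x = Complex.log (1 + (-x)) - (-x) := by ring_nf
    rw [e]
    refine h3.trans ?_
    nlinarith [sq_nonneg ‖x‖]
  have h6 : (Complex.log (1 - x)).re + x.re = (Complex.log (1 - x) + x).re := by simp
  rw [h6]
  refine (Complex.abs_re_le_norm _).trans (h5.trans ?_)
  rw [hxn, one_div, inv_pow]

lemma sp_sum_sq (y z : ℕ) (hy : 1 ≤ y) :
    ∑ p ∈ (Ioc y z).filter Nat.Prime, (((p : ℝ) ^ 2)⁻¹) ≤ 1 / y := by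
  refine (Finset.sum_le_sum_of_subset_of_nonneg (Finset.filter_subset _ _)
    fun _ _ _ => by positivity).trans ?_
  rcases le_or_gt y z with h | h
  · refine (sum_Ioc_inv_sq_le_sub (α := ℝ) (by omega) h).trans ?_
    rw [one_div]
    have : (0 : ℝ) ≤ (z : ℝ)⁻¹ := by positivity
    linarith
  · rw [Finset.Ioc_eq_empty (by omega), Finset.sum_empty]
    positivity

lemma sp_filter_zero (z : ℕ) : (Ioc 0 z).filter Nat.Prime = (Ioc 1 z).filter Nat.Prime := by
  ext p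
  simp only [mem_filter, mem_Ioc]
  constructor
  · rintro ⟨⟨_, h2⟩, h3⟩
    exact ⟨⟨h3.one_lt, h2⟩, h3⟩
  · rintro ⟨⟨h1, h2⟩, h3⟩
    exact ⟨⟨by omega, h2⟩, h3⟩

lemma sp_sum_sq_zero (z : ℕ) :
    ∑ p ∈ (Ioc 0 z).filter Nat.Prime, (((p : ℝ) ^ 2)⁻¹) ≤ 1 := by
  rw [sp_filter_zero]
  have := sp_sum_sq 1 z le_rfl
  simpa using this

lemma sp_psum_le (y z : ℕ) (u : ℝ) :
    ‖psum y z u‖ ≤ ∑ p ∈ (Ioc y z).filter Nat.Prime, (1 : ℝ) / p := by
  unfold psum
  refine (norm_sum_le _ _).trans (le_of_eq (Finset.sum_congr rfl fun p hp => ?_))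
  exact sp_norm_cpow p (sp_mem hp).1.pos u

/-- Uniform bound for the logarithm of the full Euler product. -/
lemma sp_log_bound : ∃ C : ℝ, 0 < C ∧ ∀ z : ℕ, 2 ≤ z → ∀ u : ℝ,
    |Real.log ‖eul 0 z u‖| ≤ Real.log (Real.log z + 1) + C := by
  obtain ⟨C, hC, h⟩ := sum_inv_primes_le
  refine ⟨C + 1, by linarith, fun z hz u => ?_⟩
  have h1 := sp_log_eul 0 z u
  have h2 := sp_sum_sq_zero z
  have h3 := sp_psum_le 0 z u
  have h4 := h z hz
  have e : (Icc 1 z).filter Nat.Prime = (Ioc 0 z).filter Nat.Prime := rfl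
  rw [e] at h4
  have h5 : |(psum 0 z u).re| ≤ Real.log (Real.log z + 1) + C :=
    (Complex.abs_re_le_norm _).trans (h3.trans h4)
  have h6 : Real.log ‖eul 0 z u‖ = (Real.log ‖eul 0 z u‖ + (psum 0 z u).re) - (psum 0 z u).re := by
    ring
  rw [h6]
  refine (abs_sub _ _).trans ?_
  linarith

lemma sp_log_tail (y z : ℕ) (hy : 1 ≤ y) (u : ℝ) :
    |Real.log ‖eul y z u‖| ≤ ‖psum y z u‖ + 1 / y := by
  have h1 := sp_log_eul y z u
  have h2 := sp_sum_sq y z hy
  have h5 : |(psum y z u).re| ≤ ‖psum y z u‖ := Complex.abs_re_le_norm _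
  have h6 : Real.log ‖eul y z u‖ = (Real.log ‖eul y z u‖ + (psum y z u).re) - (psum y z u).re := by
    ring
  rw [h6]
  refine (abs_sub _ _).trans ?_
  linarith

lemma sp_filter_union (x y z : ℕ) (hxy : x ≤ y) (hyz : y ≤ z) :
    (Ioc x z).filter Nat.Prime =
      ((Ioc x y).filter Nat.Prime) ∪ ((Ioc y z).filter Nat.Prime) := by
  rw [← Finset.filter_union, Finset.Ioc_union_Ioc_eq_Ioc hxy hyz]

lemma sp_filter_disj (x y z : ℕ) :
    Disjoint ((Ioc x y).filter Nat.Prime) ((Ioc y z).filter Nat.Prime) := by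
  rw [Finset.disjoint_left]
  intro p h1 h2
  have h1' := (sp_mem h1).2.2
  have h2' := (sp_mem h2).2.1
  omega

lemma sp_eul_mul (x y z : ℕ) (hxy : x ≤ y) (hyz : y ≤ z) (u : ℝ) :
    eul x z u = eul x y u * eul y z u := by
  unfold eul
  rw [sp_filter_union x y z hxy hyz, Finset.prod_union (sp_filter_disj x y z)]

lemma sp_psum_add (x y z : ℕ) (hxy : x ≤ y) (hyz : y ≤ z) (u : ℝ) :
    psum x z u = psum x y u + psum y z u := by
  unfold psum
  rw [sp_filter_union x y z hxy hyz, Finset.sum_union (sp_filter_disj x y z)]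

lemma sp_mono {W : ℕ → ℕ} (hW : ∀ j, W j ≤ W (j + 1)) : Monotone W := monotone_nat_of_le_succ hW

lemma sp_psum_split (W : ℕ → ℕ) (hW : ∀ j, W j ≤ W (j + 1)) (u : ℝ) (i J : ℕ) (h : i ≤ J) :
    psum (W i) (W J) u = ∑ j ∈ Ico i J, psum (W j) (W (j + 1)) u := by
  induction J, h using Nat.le_induction with
  | base =>
    rw [Finset.Ico_self, Finset.sum_empty]
    unfold psum
    rw [Finset.Ioc_self, Finset.filter_empty, Finset.sum_empty]
  | succ n hn ih =>
    rw [Finset.sum_Ico_succ_top hn, ← ih]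
    exact sp_psum_add _ _ _ (sp_mono hW hn) (hW n) u

lemma sp_exp_sub_one (x : ℝ) : |Real.exp x - 1| ≤ Real.exp |x| - 1 := by
  rcases le_or_gt 0 x with h | h
  · rw [abs_of_nonneg h, abs_of_nonneg]
    have := Real.add_one_le_exp x
    linarith
  · rw [abs_of_neg h, abs_of_neg]
    · have h1 := Real.add_one_le_exp x
      have h2 := Real.add_one_le_exp (-x)
      linarith
    · have : Real.exp x < 1 := by simpa using Real.exp_lt_exp.mpr h
      linarith

lemma sp_rpow_le (E β L : ℝ) (hE : 0 < E) (h : |Real.log E| ≤ L) : E ^ β ≤ Real.exp (|β| * L) := by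
  rw [Real.rpow_def_of_pos hE]
  apply Real.exp_le_exp.mpr
  calc Real.log E * β ≤ |Real.log E * β| := le_abs_self _
    _ = |β| * |Real.log E| := by rw [abs_mul, mul_comm]
    _ ≤ |β| * L := mul_le_mul_of_nonneg_left h (abs_nonneg _)

lemma sp_pointwise (C1 : ℝ) (hC1 : ∀ z : ℕ, 2 ≤ z → ∀ u : ℝ,
      |Real.log ‖eul 0 z u‖| ≤ Real.log (Real.log z + 1) + C1)
    (β : ℝ) (W : ℕ → ℕ) (hW : ∀ j, W j ≤ W (j + 1)) (J : ℕ) (h2 : 2 ≤ W 0)
    (V : ℕ → ℝ) (hV : ∀ j, 0 < V j) (SV : ℝ) (hSV : ∑ j ∈ range J, V j ≤ SV) (u : ℝ) :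
    |‖eul 0 (W J) u‖ ^ β - ‖eul 0 (W 0) u‖ ^ β| ≤
      Real.exp (|β| * (Real.log (Real.log (W 0) + 1) + C1)) *
        (Real.exp (|β| * (SV + 1 / (W 0 : ℕ))) - 1) +
      ∑ j ∈ range J, ‖psum (W j) (W (j + 1)) u‖ ^ 2 * (((V j) ^ 2)⁻¹ *
        Real.exp (|β| * (Real.log (Real.log (W (j + 1)) + 1) + C1 + SV + 1))) := by
  have hmono := sp_mono hW
  have hSV0 : 0 ≤ SV := (Finset.sum_nonneg fun j _ => (hV j).le).trans hSV
  have hterm : ∀ j ∈ range J, 0 ≤ ‖psum (W j) (W (j + 1)) u‖ ^ 2 * (((V j) ^ 2)⁻¹ *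
        Real.exp (|β| * (Real.log (Real.log (W (j + 1)) + 1) + C1 + SV + 1))) := by
    intro j _
    positivity
  have hfirst : 0 ≤ Real.exp (|β| * (Real.log (Real.log (W 0) + 1) + C1)) *
        (Real.exp (|β| * (SV + 1 / (W 0 : ℕ))) - 1) := by
    apply mul_nonneg (Real.exp_pos _).le
    have : 0 ≤ |β| * (SV + 1 / (W 0 : ℕ)) := by positivity
    have := Real.one_le_exp this
    linarith
  -- bound for products over the final part
  have htail : ∀ i, i ≤ J → (∀ j, i ≤ j → j < J → ‖psum (W j) (W (j + 1)) u‖ ≤ V j) →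
      |Real.log ‖eul (W i) (W J) u‖| ≤ SV + 1 / (W i : ℕ) := by
    intro i hi hg
    have h1 : 1 ≤ W i := by
      have := hmono (Nat.zero_le i)
      omega
    refine (sp_log_tail (W i) (W J) h1 u).trans ?_
    have h3 : ‖psum (W i) (W J) u‖ ≤ SV := by
      rw [sp_psum_split W hW u i J hi]
      refine (norm_sum_le _ _).trans ?_
      calc ∑ j ∈ Ico i J, ‖psum (W j) (W (j + 1)) u‖ ≤ ∑ j ∈ Ico i J, V j :=
            Finset.sum_le_sum fun j hj => hg j (mem_Ico.mp hj).1 (mem_Ico.mp hj).2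
        _ ≤ ∑ j ∈ range J, V j := by
            apply Finset.sum_le_sum_of_subset_of_nonneg
            · intro j hj
              exact mem_range.mpr (mem_Ico.mp hj).2
            · exact fun j _ _ => (hV j).le
        _ ≤ SV := hSV
    linarith
  by_cases hbad : ∃ j, j < J ∧ V j < ‖psum (W j) (W (j + 1)) u‖
  · -- largest bad index
    classical
    let B := (range J).filter (fun j => V j < ‖psum (W j) (W (j + 1)) u‖)
    have hB : B.Nonempty := by
      obtain ⟨j, hj, hj'⟩ := hbad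
      exact ⟨j, by simp [B, hj, hj']⟩
    set j := B.max' hB with hjdef
    have hjB : j ∈ B := B.max'_mem hB
    have hjJ : j < J := by
      have := (mem_filter.mp hjB).1
      exact mem_range.mp this
    have hjbad : V j < ‖psum (W j) (W (j + 1)) u‖ := (mem_filter.mp hjB).2
    have hgood : ∀ i, j + 1 ≤ i → i < J → ‖psum (W i) (W (i + 1)) u‖ ≤ V i := by
      intro i hi hiJ
      by_contra hcon
      push Not at hcon
      have : i ∈ B := by simp [B, hiJ, hcon]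
      have := B.le_max' i this
      omega
    have hW2 : 2 ≤ W (j + 1) := h2.trans (hmono (Nat.zero_le _))
    have hl := htail (j + 1) hjJ hgood
    have hl1 : (1 : ℝ) / (W (j + 1) : ℕ) ≤ 1 := by
      rw [div_le_one (by positivity)]
      exact_mod_cast (by omega : 1 ≤ W (j + 1))
    have hlW := hC1 (W (j + 1)) hW2 u
    set M := Real.exp (|β| * (Real.log (Real.log (W (j + 1)) + 1) + C1 + SV + 1)) with hM
    have hFz : ‖eul 0 (W J) u‖ ^ β ≤ M := by
      apply sp_rpow_le _ _ _ (sp_eul_pos _ _ _)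
      rw [sp_eul_mul 0 (W (j + 1)) (W J) (Nat.zero_le _) (hmono hjJ) u, norm_mul,
        Real.log_mul (sp_eul_pos _ _ _).ne' (sp_eul_pos _ _ _).ne']
      refine (abs_add_le _ _).trans ?_
      linarith
    have hFy : ‖eul 0 (W 0) u‖ ^ β ≤ M := by
      apply sp_rpow_le _ _ _ (sp_eul_pos _ _ _)
      refine (hC1 (W 0) h2 u).trans ?_
      have h5 : Real.log (Real.log (W 0) + 1) ≤ Real.log (Real.log (W (j + 1)) + 1) := by
        have h6 : 0 ≤ Real.log (W 0) := Real.log_natCast_nonneg _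
        apply Real.log_le_log (by linarith)
        have h7 : Real.log (W 0) ≤ Real.log (W (j + 1)) := by
          apply Real.log_le_log
          · exact_mod_cast (by omega : 0 < W 0)
          · exact_mod_cast hmono (Nat.zero_le _)
        linarith
      linarith
    have hF : |‖eul 0 (W J) u‖ ^ β - ‖eul 0 (W 0) u‖ ^ β| ≤ M := by
      have h0 : 0 ≤ ‖eul 0 (W J) u‖ ^ β := by positivity
      have h0' : 0 ≤ ‖eul 0 (W 0) u‖ ^ β := by positivity
      rw [abs_le]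
      constructor <;> linarith
    have hone : 1 ≤ ‖psum (W j) (W (j + 1)) u‖ ^ 2 * ((V j) ^ 2)⁻¹ := by
      rw [← div_eq_mul_inv, one_le_div (pow_pos (hV j) 2)]
      exact pow_le_pow_left₀ (hV j).le hjbad.le 2
    have hMpos : 0 < M := Real.exp_pos _
    calc |‖eul 0 (W J) u‖ ^ β - ‖eul 0 (W 0) u‖ ^ β| ≤ M := hF
      _ ≤ ‖psum (W j) (W (j + 1)) u‖ ^ 2 * (((V j) ^ 2)⁻¹ * M) := by
          rw [← mul_assoc]
          exact le_mul_of_one_le_left hMpos.le hone
      _ ≤ ∑ j ∈ range J, ‖psum (W j) (W (j + 1)) u‖ ^ 2 * (((V j) ^ 2)⁻¹ *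
        Real.exp (|β| * (Real.log (Real.log (W (j + 1)) + 1) + C1 + SV + 1))) :=
          Finset.single_le_sum hterm (mem_range.mpr hjJ)
      _ ≤ _ := le_add_of_nonneg_left hfirst
  · push Not at hbad
    have hl := htail 0 (Nat.zero_le _) (fun j _ hj => hbad j hj)
    have hsum := Finset.sum_nonneg hterm
    refine le_trans ?_ (le_add_of_nonneg_right hsum)
    have e : ‖eul 0 (W J) u‖ ^ β = ‖eul 0 (W 0) u‖ ^ β * ‖eul (W 0) (W J) u‖ ^ β := by
      rw [sp_eul_mul 0 (W 0) (W J) (Nat.zero_le _) (hmono (Nat.zero_le _)) u, norm_mul,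
        Real.mul_rpow (norm_nonneg _) (norm_nonneg _)]
    have e2 : ‖eul 0 (W 0) u‖ ^ β * ‖eul (W 0) (W J) u‖ ^ β - ‖eul 0 (W 0) u‖ ^ β =
        ‖eul 0 (W 0) u‖ ^ β * (‖eul (W 0) (W J) u‖ ^ β - 1) := by ring
    rw [e, e2, abs_mul, abs_of_nonneg (by positivity : 0 ≤ ‖eul 0 (W 0) u‖ ^ β)]
    apply mul_le_mul _ _ (abs_nonneg _) (Real.exp_pos _).le
    · exact sp_rpow_le _ _ _ (sp_eul_pos _ _ _) (hC1 (W 0) h2 u)
    · rw [Real.rpow_def_of_pos (sp_eul_pos _ _ _)]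
      refine (sp_exp_sub_one _).trans ?_
      have : |Real.log ‖eul (W 0) (W J) u‖ * β| ≤ |β| * (SV + 1 / (W 0 : ℕ)) := by
        rw [abs_mul, mul_comm]
        exact mul_le_mul_of_nonneg_left hl (abs_nonneg _)
      have := Real.exp_le_exp.mpr this
      linarith

lemma sp_cont_factor (p : ℕ) (hp : 0 < p) (a : ℝ) :
    Continuous fun t : ℝ => (p : ℂ) ^ (-(1 + ((a * t : ℝ) : ℂ) * I)) := by
  apply Continuous.const_cpow
  · fun_prop
  · left
    exact_mod_cast hp.ne'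

lemma sp_cont_eul (y z : ℕ) (a β : ℝ) : Continuous fun t : ℝ => ‖eul y z (a * t)‖ ^ β := by
  apply Continuous.rpow_const
  · apply Continuous.norm
    unfold eul
    apply continuous_finset_prod
    intro p hp
    exact continuous_const.sub (sp_cont_factor p (sp_mem hp).1.pos a)
  · intro t
    left
    exact (sp_eul_pos y z (a * t)).ne'

lemma sp_cont_psum (y z : ℕ) (a : ℝ) : Continuous fun t : ℝ => ‖psum y z (a * t)‖ ^ 2 := by
  apply Continuous.pow
  apply Continuous.norm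
  unfold psum
  apply continuous_finset_sum
  intro p hp
  exact sp_cont_factor p (sp_mem hp).1.pos a

lemma sp_integrated (w : ℝ → ℝ) (hw0 : ∀ t, 0 ≤ w t) (hwc : Continuous w) (a : ℝ) (C1 : ℝ)
    (hC1 : ∀ z : ℕ, 2 ≤ z → ∀ u : ℝ,
      |Real.log ‖eul 0 z u‖| ≤ Real.log (Real.log z + 1) + C1)
    (β : ℝ) (W : ℕ → ℕ) (hW : ∀ j, W j ≤ W (j + 1)) (J : ℕ) (h2 : 2 ≤ W 0)
    (V : ℕ → ℝ) (hV : ∀ j, 0 < V j) (SV : ℝ) (hSV : ∑ j ∈ range J, V j ≤ SV)
    (T nrm : ℝ) (hT : 0 ≤ T) (hn : 0 < nrm) :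
    (∫ t in T..(2 * T), w t * |‖eul 0 (W J) (a * t)‖ ^ β - ‖eul 0 (W 0) (a * t)‖ ^ β|) / nrm ≤
      Real.exp (|β| * (Real.log (Real.log (W 0) + 1) + C1)) *
        (Real.exp (|β| * (SV + 1 / (W 0 : ℕ))) - 1) * ((∫ t in T..(2 * T), w t) / nrm) +
      ∑ j ∈ range J, (((V j) ^ 2)⁻¹ *
        Real.exp (|β| * (Real.log (Real.log (W (j + 1)) + 1) + C1 + SV + 1))) *
        ((∫ t in T..(2 * T), w t * ‖psum (W j) (W (j + 1)) (a * t)‖ ^ 2) / nrm) := by
  set A := Real.exp (|β| * (Real.log (Real.log (W 0) + 1) + C1)) *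
        (Real.exp (|β| * (SV + 1 / (W 0 : ℕ))) - 1) with hA
  set B : ℕ → ℝ := fun j => (((V j) ^ 2)⁻¹ *
        Real.exp (|β| * (Real.log (Real.log (W (j + 1)) + 1) + C1 + SV + 1))) with hB
  have hle : T ≤ 2 * T := by linarith
  have hpt : ∀ t : ℝ, w t * |‖eul 0 (W J) (a * t)‖ ^ β - ‖eul 0 (W 0) (a * t)‖ ^ β| ≤
      A * w t + ∑ j ∈ range J, B j * (w t * ‖psum (W j) (W (j + 1)) (a * t)‖ ^ 2) := by
    intro t
    have h := sp_pointwise C1 hC1 β W hW J h2 V hV SV hSV (a * t)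
    have h' := mul_le_mul_of_nonneg_left h (hw0 t)
    refine h'.trans (le_of_eq ?_)
    rw [mul_add, Finset.mul_sum]
    congr 1
    · ring
    · apply Finset.sum_congr rfl
      intro j _
      simp only [hB]
      ring
  have hint : ∫ t in T..(2 * T), w t * |‖eul 0 (W J) (a * t)‖ ^ β - ‖eul 0 (W 0) (a * t)‖ ^ β| ≤
      ∫ t in T..(2 * T), (A * w t +
        ∑ j ∈ range J, B j * (w t * ‖psum (W j) (W (j + 1)) (a * t)‖ ^ 2)) := by
    apply intervalIntegral.integral_mono_on hle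
    · apply Continuous.intervalIntegrable
      exact hwc.mul (((sp_cont_eul 0 (W J) a β).sub (sp_cont_eul 0 (W 0) a β)).abs)
    · apply Continuous.intervalIntegrable
      refine (continuous_const.mul hwc).add (continuous_finset_sum _ fun j _ => ?_)
      exact continuous_const.mul (hwc.mul (sp_cont_psum _ _ a))
    · intro t _
      exact hpt t
  have hsplit : ∫ t in T..(2 * T), (A * w t +
        ∑ j ∈ range J, B j * (w t * ‖psum (W j) (W (j + 1)) (a * t)‖ ^ 2)) =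
      A * (∫ t in T..(2 * T), w t) +
        ∑ j ∈ range J, B j * (∫ t in T..(2 * T), w t * ‖psum (W j) (W (j + 1)) (a * t)‖ ^ 2) := by
    rw [intervalIntegral.integral_add, intervalIntegral.integral_const_mul,
      intervalIntegral.integral_finset_sum]
    · congr 1
      apply Finset.sum_congr rfl
      intro j _
      rw [intervalIntegral.integral_const_mul]
    · intro j _
      exact (continuous_const.mul (hwc.mul (sp_cont_psum _ _ a))).intervalIntegrable _ _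
    · exact (continuous_const.mul hwc).intervalIntegrable _ _
    · refine (continuous_finset_sum _ fun j _ => ?_).intervalIntegrable _ _
      exact continuous_const.mul (hwc.mul (sp_cont_psum _ _ a))
  rw [hsplit] at hint
  have := div_le_div_of_nonneg_right hint hn.le
  refine this.trans (le_of_eq ?_)
  rw [add_div, mul_div_assoc, Finset.sum_div]
  congr 1
  apply Finset.sum_congr rfl
  intro j _
  rw [mul_div_assoc]

/-- powers of logarithms against powers -/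
lemma sp_log_pow (b ε : ℝ) (hb : 0 ≤ b) (hε : 0 < ε) : ∃ C : ℝ, 0 < C ∧ ∀ x : ℝ, 1 ≤ x →
    (2 * Real.log x + 1) ^ b ≤ C * x ^ ε := by
  set δ := ε / (b + 1) with hδ
  have hδ0 : 0 < δ := by positivity
  refine ⟨(2 / δ + 1) ^ b, by positivity, fun x hx => ?_⟩
  have h0 : 0 ≤ Real.log x := Real.log_nonneg hx
  have h1 : Real.log x ≤ x ^ δ / δ := Real.log_le_rpow_div (by linarith) hδ0
  have h2 : 1 ≤ x ^ δ := Real.one_le_rpow hx hδ0.le
  have h3 : 2 * Real.log x + 1 ≤ (2 / δ + 1) * x ^ δ := by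
    have : (2 / δ + 1) * x ^ δ = 2 * (x ^ δ / δ) + x ^ δ := by ring
    rw [this]
    linarith
  calc (2 * Real.log x + 1) ^ b ≤ ((2 / δ + 1) * x ^ δ) ^ b :=
        Real.rpow_le_rpow (by linarith) h3 hb
    _ = (2 / δ + 1) ^ b * (x ^ δ) ^ b := Real.mul_rpow (by positivity) (by positivity)
    _ = (2 / δ + 1) ^ b * x ^ (δ * b) := by rw [← Real.rpow_mul (by linarith)]
    _ ≤ (2 / δ + 1) ^ b * x ^ ε := by
        apply mul_le_mul_of_nonneg_left _ (by positivity)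
        apply Real.rpow_le_rpow_of_exponent_le hx
        rw [hδ, div_mul_eq_mul_div, div_le_iff₀ (by linarith)]
        nlinarith

lemma sp_blocks (y z : ℕ) (l : ℝ) (hy : 256 ≤ y) (hyz : y ≤ z) (hl : 0 < l)
    (hz : Real.log z ≤ 150 * l) :
    ∃ (W : ℕ → ℕ) (J : ℕ), (∀ j, W j ≤ W (j + 1)) ∧ W 0 = y ∧ W J = z ∧ (J : ℝ) ≤ 300 * l ∧
      (∀ j, j < J → W j < W (j + 1) ∧ W (j + 1) ≤ (W j) ^ 2 ∧ W (j + 1) ≤ z) ∧
      ∑ j ∈ range J, ((W j : ℕ) : ℝ) ^ (-(1 / 8) : ℝ) ≤ 2 * (y : ℝ) ^ (-(1 / 8) : ℝ) := by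
  classical
  have hex : ∃ j, z ≤ y ^ (2 ^ j) := by
    refine ⟨z, ?_⟩
    calc z ≤ 2 ^ z := Nat.lt_two_pow_self.le
      _ ≤ 2 ^ (2 ^ z) := Nat.pow_le_pow_right (by norm_num) Nat.lt_two_pow_self.le
      _ ≤ y ^ (2 ^ z) := Nat.pow_le_pow_left (by omega) _
  set J := Nat.find hex with hJ
  have hJs : z ≤ y ^ (2 ^ J) := Nat.find_spec hex
  have hJm : ∀ j, j < J → y ^ (2 ^ j) < z := fun j hj => by
    have := Nat.find_min hex hj
    omega
  have hpow : ∀ j, y ^ (2 ^ j) ≤ y ^ (2 ^ (j + 1)) := fun j =>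
    Nat.pow_le_pow_right (by omega) (Nat.pow_le_pow_right (by norm_num) (by omega))
  have hy1 : (1 : ℝ) ≤ Real.log y := by
    have h1 : Real.log 256 ≤ Real.log y := by
      apply Real.log_le_log (by norm_num)
      exact_mod_cast hy
    have h2 : (1 : ℝ) ≤ Real.log 256 := by
      rw [Real.le_log_iff_exp_le (by norm_num)]
      have := Real.exp_one_lt_d9
      linarith
    linarith
  refine ⟨fun j => min (y ^ (2 ^ j)) z, J, ?_, ?_, ?_, ?_, ?_, ?_⟩
  · intro j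
    exact min_le_min_right _ (hpow j)
  · simp [hyz]
  · exact min_eq_right hJs
  · rcases Nat.eq_zero_or_pos J with h0 | hpos
    · rw [h0]
      simp only [Nat.cast_zero]
      positivity
    · have h1 := hJm (J - 1) (by omega)
      have h2 : Real.log ((y ^ (2 ^ (J - 1)) : ℕ) : ℝ) ≤ Real.log z := by
        apply Real.log_le_log
        · exact_mod_cast Nat.pos_of_ne_zero (by positivity)
        · exact_mod_cast h1.le
      rw [Nat.cast_pow, Real.log_pow] at h2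
      have h3 : J ≤ 2 ^ (J - 1) := by
        have := Nat.lt_two_pow_self (n := J - 1)
        omega
      have h4 : (J : ℝ) ≤ ((2 ^ (J - 1) : ℕ) : ℝ) := by exact_mod_cast h3
      have h5 : ((2 ^ (J - 1) : ℕ) : ℝ) ≤ ((2 ^ (J - 1) : ℕ) : ℝ) * Real.log y :=
        le_mul_of_one_le_right (by positivity) hy1
      linarith
  · intro j hj
    have h1 : min (y ^ (2 ^ j)) z = y ^ (2 ^ j) := min_eq_left (hJm j hj).le
    simp only [h1]
    refine ⟨?_, ?_, min_le_right _ _⟩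
    · apply lt_min _ (hJm j hj)
      apply Nat.pow_lt_pow_right (by omega)
      exact Nat.pow_lt_pow_right (by norm_num) (by omega)
    · refine (min_le_left _ _).trans (le_of_eq ?_)
      rw [← pow_mul, pow_succ]
  · set r := (y : ℝ) ^ (-(1 / 8) : ℝ) with hr
    have hr0 : 0 ≤ r := by positivity
    have hr2 : r ≤ 1 / 2 := by
      have h1 : r ≤ (256 : ℝ) ^ (-(1 / 8) : ℝ) := by
        rw [hr]
        apply Real.rpow_le_rpow_of_nonpos (by norm_num)
        · exact_mod_cast hy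
        · norm_num
      have h2 : (256 : ℝ) ^ (-(1 / 8) : ℝ) = 1 / 2 := by
        have : (256 : ℝ) = 2 ^ (8 : ℝ) := by norm_num
        rw [this, ← Real.rpow_mul (by norm_num)]
        norm_num
      linarith
    have hstep : ∀ j ∈ range J, (((min (y ^ (2 ^ j)) z : ℕ) : ℝ)) ^ (-(1 / 8) : ℝ) ≤
        r * (1 / 2 : ℝ) ^ j := by
      intro j hj
      rw [min_eq_left (hJm j (mem_range.mp hj)).le]
      have e : (((y ^ (2 ^ j) : ℕ) : ℝ)) ^ (-(1 / 8) : ℝ) = r ^ (2 ^ j) := by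
        rw [hr, ← Real.rpow_natCast, ← Real.rpow_mul (by positivity), mul_comm,
          Real.rpow_mul (by positivity), Real.rpow_natCast]
        norm_num
      rw [e]
      calc r ^ (2 ^ j) ≤ r ^ (j + 1) := by
            apply pow_le_pow_of_le_one hr0 (by linarith)
            have := Nat.lt_two_pow_self (n := j)
            omega
        _ = r * r ^ j := by rw [pow_succ, mul_comm]
        _ ≤ r * (1 / 2 : ℝ) ^ j := mul_le_mul_of_nonneg_left (pow_le_pow_left₀ hr0 hr2 j) hr0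
    refine (Finset.sum_le_sum hstep).trans ?_
    rw [← Finset.mul_sum]
    have := sum_geometric_two_le J
    nlinarith

/-- the estimate of one block -/
lemma sp_term (b C C1 Cb SV l : ℝ) (hb : 0 ≤ b) (hC : 0 < C) (hCb : 0 < Cb)
    (hlogb : ∀ x : ℝ, 1 ≤ x → (2 * Real.log x + 1) ^ b ≤ Cb * x ^ (1 / 8 : ℝ))
    (hSV : SV ≤ 2) (hl : 1 ≤ l) (W W' : ℕ) (hW : 2 ≤ W) (hWW : W ≤ W') (hW' : W' ≤ W ^ 2)
    (hlW : Real.log W' ≤ 150 * l) (V : ℝ) (hV1 : (W : ℝ) ^ (-(1 / 8) : ℝ) ≤ V)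
    (hV2 : (l ^ 2)⁻¹ ≤ V) (X : ℝ) 
    (hX : X ≤ C / √W + l ^ (-((⌈b⌉₊ + 6 : ℕ) : ℝ))) :
    ((V ^ 2)⁻¹ * Real.exp (b * (Real.log (Real.log W' + 1) + C1 + SV + 1))) * X ≤
      Real.exp (b * (C1 + 3)) * (C * Cb * (W : ℝ) ^ (-(1 / 8) : ℝ) + 151 ^ b * (l ^ 2)⁻¹) := by
  have hWr : (2 : ℝ) ≤ W := by exact_mod_cast hW
  have hW0 : (0 : ℝ) < W := by linarith
  have hV : 0 < V := lt_of_lt_of_le (by positivity) hV2
  have hlW0 : 0 ≤ Real.log W' := Real.log_natCast_nonneg _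
  set E1 := Real.exp (b * (C1 + 3)) with hE1
  have hE1p : 0 < E1 := Real.exp_pos _
  set Lp := (Real.log W' + 1) ^ b with hLp
  have hLp0 : 0 ≤ Lp := by positivity
  have hexp : Real.exp (b * (Real.log (Real.log W' + 1) + C1 + SV + 1)) ≤ Lp * E1 := by
    rw [hLp, Real.rpow_def_of_pos (by linarith), hE1, ← Real.exp_add]
    apply Real.exp_le_exp.mpr
    nlinarith
  have hLp1 : Lp ≤ Cb * (W : ℝ) ^ (1 / 8 : ℝ) := by
    refine le_trans ?_ (hlogb W (by linarith))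
    apply Real.rpow_le_rpow (by linarith) _ hb
    have h1 : Real.log W' ≤ Real.log ((W ^ 2 : ℕ) : ℝ) := by
      apply Real.log_le_log
      · exact_mod_cast (by omega : 0 < W')
      · exact_mod_cast hW'
    rw [Nat.cast_pow, Real.log_pow] at h1
    push_cast at h1
    linarith
  have hLp2 : Lp ≤ 151 ^ b * l ^ ⌈b⌉₊ := by
    calc Lp ≤ (151 * l) ^ b := by
          apply Real.rpow_le_rpow (by linarith) _ hb
          linarith
      _ = 151 ^ b * l ^ b := Real.mul_rpow (by norm_num) (by linarith)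
      _ ≤ 151 ^ b * l ^ ⌈b⌉₊ := by
          apply mul_le_mul_of_nonneg_left _ (by positivity)
          rw [← Real.rpow_natCast]
          exact Real.rpow_le_rpow_of_exponent_le hl (Nat.le_ceil b)
  have hVa : (V ^ 2)⁻¹ ≤ (W : ℝ) ^ (1 / 4 : ℝ) := by
    rw [inv_le_comm₀ (by positivity) (by positivity)]
    calc ((W : ℝ) ^ (1 / 4 : ℝ))⁻¹ = ((W : ℝ) ^ (-(1 / 8) : ℝ)) ^ 2 := by
          rw [← Real.rpow_neg hW0.le, ← Real.rpow_natCast, ← Real.rpow_mul hW0.le]
          norm_num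
      _ ≤ V ^ 2 := pow_le_pow_left₀ (by positivity) hV1 2
  have hVb : (V ^ 2)⁻¹ ≤ l ^ 4 := by
    rw [inv_le_comm₀ (by positivity) (by positivity)]
    calc (l ^ 4)⁻¹ = ((l ^ 2)⁻¹) ^ 2 := by
          rw [inv_pow, ← pow_mul]
      _ ≤ V ^ 2 := pow_le_pow_left₀ (by positivity) hV2 2
  have hpos : 0 ≤ (V ^ 2)⁻¹ * Real.exp (b * (Real.log (Real.log W' + 1) + C1 + SV + 1)) := by
    positivity
  have h1 : (V ^ 2)⁻¹ * Real.exp (b * (Real.log (Real.log W' + 1) + C1 + SV + 1)) * (C / √W) ≤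
      E1 * (C * Cb * (W : ℝ) ^ (-(1 / 8) : ℝ)) := by
    calc (V ^ 2)⁻¹ * Real.exp (b * (Real.log (Real.log W' + 1) + C1 + SV + 1)) * (C / √W)
        ≤ (W : ℝ) ^ (1 / 4 : ℝ) * ((Cb * (W : ℝ) ^ (1 / 8 : ℝ)) * E1) * (C / √W) := by
          apply mul_le_mul_of_nonneg_right _ (by positivity)
          apply mul_le_mul hVa _ (Real.exp_pos _).le (by positivity)
          exact hexp.trans (mul_le_mul_of_nonneg_right hLp1 hE1p.le)
      _ = E1 * (C * Cb * ((W : ℝ) ^ (1 / 4 : ℝ) * (W : ℝ) ^ (1 / 8 : ℝ) * (√W)⁻¹)) := by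
          rw [div_eq_mul_inv]
          ring
      _ = E1 * (C * Cb * (W : ℝ) ^ (-(1 / 8) : ℝ)) := by
          congr 2
          rw [Real.sqrt_eq_rpow, ← Real.rpow_neg hW0.le, ← Real.rpow_add hW0, ← Real.rpow_add hW0]
          norm_num
  have h2 : (V ^ 2)⁻¹ * Real.exp (b * (Real.log (Real.log W' + 1) + C1 + SV + 1)) *
      (l ^ (-((⌈b⌉₊ + 6 : ℕ) : ℝ))) ≤ E1 * (151 ^ b * (l ^ 2)⁻¹) := by
    have hlK : l ^ (-((⌈b⌉₊ + 6 : ℕ) : ℝ)) = (l ^ (⌈b⌉₊ + 6))⁻¹ := by
      rw [Real.rpow_neg (by linarith), Real.rpow_natCast]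
    rw [hlK]
    calc (V ^ 2)⁻¹ * Real.exp (b * (Real.log (Real.log W' + 1) + C1 + SV + 1)) *
          (l ^ (⌈b⌉₊ + 6))⁻¹
        ≤ l ^ 4 * ((151 ^ b * l ^ ⌈b⌉₊) * E1) * (l ^ (⌈b⌉₊ + 6))⁻¹ := by
          apply mul_le_mul_of_nonneg_right _ (by positivity)
          apply mul_le_mul hVb _ (Real.exp_pos _).le (by positivity)
          exact hexp.trans (mul_le_mul_of_nonneg_right hLp2 hE1p.le)
      _ = E1 * (151 ^ b * (l ^ 2)⁻¹) := by
          have hl0 : l ≠ 0 := by linarith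
          have : l ^ (⌈b⌉₊ + 6) = l ^ ⌈b⌉₊ * l ^ 4 * l ^ 2 := by ring
          rw [this]
          field_simp
  calc _ ≤ (V ^ 2)⁻¹ * Real.exp (b * (Real.log (Real.log W' + 1) + C1 + SV + 1)) *
        (C / √W + l ^ (-((⌈b⌉₊ + 6 : ℕ) : ℝ))) := mul_le_mul_of_nonneg_left hX hpos
    _ ≤ _ := by
      have h12 := add_le_add h1 h2
      rw [← mul_add, ← mul_add] at h12
      exact h12

/-- the limit bound as a function of `y` tends to zero -/
lemma sp_bound_limit (b C1 M E Cb : ℝ) (hb : 0 ≤ b) :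
    Tendsto (fun y : ℕ => Real.exp (b * (Real.log (Real.log y + 1) + C1)) *
      (Real.exp (b * (3 * (y : ℝ) ^ (-(1 / 8) : ℝ))) - 1) * M +
      E * (2 * Cb * (y : ℝ) ^ (-(1 / 8) : ℝ))) atTop (𝓝 0) := by
  obtain ⟨D, hD, hDlog⟩ := sp_log_pow b (1 / 16) hb (by norm_num)
  have hy8 : Tendsto (fun y : ℕ => (y : ℝ) ^ (-(1 / 8) : ℝ)) atTop (𝓝 0) :=
    (tendsto_rpow_neg_atTop (by norm_num)).comp tendsto_natCast_atTop_atTop
  have hy16 : Tendsto (fun y : ℕ => (y : ℝ) ^ (-(1 / 16) : ℝ)) atTop (𝓝 0) :=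
    (tendsto_rpow_neg_atTop (by norm_num)).comp tendsto_natCast_atTop_atTop
  have hsecond : Tendsto (fun y : ℕ => E * (2 * Cb * (y : ℝ) ^ (-(1 / 8) : ℝ))) atTop (𝓝 0) := by
    simpa using (hy8.const_mul (2 * Cb)).const_mul E
  have hfirst : Tendsto (fun y : ℕ => Real.exp (b * (Real.log (Real.log y + 1) + C1)) *
      (Real.exp (b * (3 * (y : ℝ) ^ (-(1 / 8) : ℝ))) - 1)) atTop (𝓝 0) := by
    have hup : Tendsto (fun y : ℕ => Real.exp (b * C1) * (D * (6 * b)) *
        (y : ℝ) ^ (-(1 / 16) : ℝ)) atTop (𝓝 0) := by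
      simpa using hy16.const_mul (Real.exp (b * C1) * (D * (6 * b)))
    have hsmall : ∀ᶠ y : ℕ in atTop, b * (3 * (y : ℝ) ^ (-(1 / 8) : ℝ)) ≤ 1 := by
      have h1 : Tendsto (fun y : ℕ => b * (3 * (y : ℝ) ^ (-(1 / 8) : ℝ))) atTop (𝓝 0) := by
        simpa using (hy8.const_mul 3).const_mul b
      have := h1.eventually (gt_mem_nhds (show (0 : ℝ) < 1 by norm_num))
      exact this.mono fun _ h => h.le
    refine squeeze_zero' ?_ ?_ hup
    · refine Eventually.of_forall fun y => ?_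
      apply mul_nonneg (Real.exp_pos _).le
      have : 0 ≤ b * (3 * (y : ℝ) ^ (-(1 / 8) : ℝ)) := by positivity
      have := Real.one_le_exp this
      linarith
    · filter_upwards [hsmall, eventually_ge_atTop 1] with y hy hy1
      have hyr : (1 : ℝ) ≤ y := by exact_mod_cast hy1
      have hy0 : (0 : ℝ) < y := by linarith
      have hlog0 : 0 ≤ Real.log y := Real.log_nonneg hyr
      set x := b * (3 * (y : ℝ) ^ (-(1 / 8) : ℝ)) with hx
      have hx0 : 0 ≤ x := by positivity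
      have hexp : Real.exp x - 1 ≤ 2 * x := by
        have := Real.abs_exp_sub_one_le (x := x) (by rw [abs_of_nonneg hx0]; exact hy)
        rw [abs_of_nonneg hx0] at this
        exact (le_abs_self _).trans this
      have hE : Real.exp (b * (Real.log (Real.log y + 1) + C1)) ≤
          Real.exp (b * C1) * (D * (y : ℝ) ^ (1 / 16 : ℝ)) := by
        have e : Real.exp (b * (Real.log (Real.log y + 1) + C1)) =
            Real.exp (b * C1) * (Real.log y + 1) ^ b := by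
          rw [Real.rpow_def_of_pos (by linarith), ← Real.exp_add]
          congr 1
          ring
        rw [e]
        apply mul_le_mul_of_nonneg_left _ (Real.exp_pos _).le
        refine le_trans ?_ (hDlog y hyr)
        apply Real.rpow_le_rpow (by linarith) _ hb
        linarith
      calc Real.exp (b * (Real.log (Real.log y + 1) + C1)) * (Real.exp x - 1)
          ≤ (Real.exp (b * C1) * (D * (y : ℝ) ^ (1 / 16 : ℝ))) * (2 * x) := by
            apply mul_le_mul hE hexp _ (by positivity)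
            have := Real.one_le_exp hx0
            linarith
        _ = Real.exp (b * C1) * (D * (6 * b)) *
            ((y : ℝ) ^ (1 / 16 : ℝ) * (y : ℝ) ^ (-(1 / 8) : ℝ)) := by
            rw [hx]; ring
        _ = Real.exp (b * C1) * (D * (6 * b)) * (y : ℝ) ^ (-(1 / 16) : ℝ) := by
            rw [← Real.rpow_add hy0]
            norm_num
  simpa using (hfirst.mul_const M).add hsecond

theorem small_primes (w nrm : ℝ → ℝ) (hw0 : ∀ t, 0 ≤ w t) (hwc : Continuous w)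
    (hn : ∀ᶠ T : ℝ in atTop, 0 < nrm T)
    (hmass : ∃ C : ℝ, ∀ᶠ T : ℝ in atTop, (∫ t in T..(2 * T), w t) / nrm T ≤ C) (a : ℝ)
    (h3 : ∀ K : ℕ, ∃ C : ℝ, 0 < C ∧ ∀ᶠ T : ℝ in atTop,
      ∀ W W' : ℕ, 2 ≤ W → W < W' → W' ≤ W ^ 2 → (W' : ℝ) ≤ (Real.log T) ^ 150 →
      (∫ t in T..(2 * T), w t * ‖psum W W' (a * t)‖ ^ 2) / nrm T ≤
        C / √W + (Real.log (Real.log T)) ^ (-(K : ℝ))) (β : ℝ) :
    ∀ η : ℝ, 0 < η → ∃ y₀ : ℕ, ∀ y : ℕ, y₀ ≤ y → ∀ᶠ T : ℝ in atTop,
      (∫ t in T..(2 * T), w t * |‖eul 0 ⌊(Real.log T) ^ 150⌋₊ (a * t)‖ ^ β -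
        ‖eul 0 y (a * t)‖ ^ β|) / nrm T ≤ η := by
  intro η hη
  obtain ⟨C1, hC1p, hC1⟩ := sp_log_bound
  set b := |β| with hb
  have hb0 : 0 ≤ b := abs_nonneg β
  obtain ⟨Cb, hCb, hlogb⟩ := sp_log_pow b (1 / 8) hb0 (by norm_num)
  obtain ⟨C, hC, h3K⟩ := h3 (⌈b⌉₊ + 6)
  obtain ⟨M, hM⟩ := hmass
  set E1 := Real.exp (b * (C1 + 3)) with hE1
  have hE1p : 0 < E1 := Real.exp_pos _
  have hlim := sp_bound_limit b C1 |M| E1 (C * Cb) hb0
  obtain ⟨y₀, hy₀⟩ := eventually_atTop.mp (hlim.eventually (gt_mem_nhds hη))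
  refine ⟨max y₀ 256, fun y hy => ?_⟩
  have hy1 : y₀ ≤ y := (le_max_left _ _).trans hy
  have hy256 : 256 ≤ y := (le_max_right _ _).trans hy
  have hyb := hy₀ y hy1
  set r := (y : ℝ) ^ (-(1 / 8) : ℝ) with hr
  have hr0 : 0 < r := by
    have : (0 : ℝ) < y := by exact_mod_cast (by omega : 0 < y)
    positivity
  have hr2 : r ≤ 1 / 2 := by
    have h1 : r ≤ (256 : ℝ) ^ (-(1 / 8) : ℝ) := by
      rw [hr]
      apply Real.rpow_le_rpow_of_nonpos (by norm_num)
      · exact_mod_cast hy256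
      · norm_num
    have h2 : (256 : ℝ) ^ (-(1 / 8) : ℝ) = 1 / 2 := by
      have : (256 : ℝ) = 2 ^ (8 : ℝ) := by norm_num
      rw [this, ← Real.rpow_mul (by norm_num)]
      norm_num
    linarith
  -- the bound as a function of `T`
  have hll : Tendsto (fun T : ℝ => Real.log (Real.log T)) atTop atTop :=
    Real.tendsto_log_atTop.comp Real.tendsto_log_atTop
  have hTlim : Tendsto (fun T : ℝ => Real.exp (b * (Real.log (Real.log y + 1) + C1)) *
      (Real.exp (b * (3 * r + 300 / Real.log (Real.log T))) - 1) * |M| +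
      E1 * (2 * (C * Cb) * r + 151 ^ b * (300 / Real.log (Real.log T)))) atTop
      (𝓝 (Real.exp (b * (Real.log (Real.log y + 1) + C1)) *
      (Real.exp (b * (3 * r + 0)) - 1) * |M| +
      E1 * (2 * (C * Cb) * r + 151 ^ b * 0))) := by
    have h0 : Tendsto (fun T : ℝ => 300 / Real.log (Real.log T)) atTop (𝓝 0) :=
      hll.const_div_atTop 300
    refine Tendsto.add ?_ ?_
    · refine Tendsto.mul_const _ (Tendsto.const_mul _ (Tendsto.sub_const ?_ 1))
      exact (Real.continuous_exp.tendsto _).comp ((h0.const_add (3 * r)).const_mul b)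
    · exact ((h0.const_mul (151 ^ b)).const_add _).const_mul E1
  rw [add_zero, mul_zero, add_zero] at hTlim
  have hTev := hTlim.eventually (gt_mem_nhds hyb)
  have hlogT : ∀ᶠ T : ℝ in atTop, (y : ℝ) ≤ (Real.log T) ^ 150 := by
    have h1 : Tendsto (fun T : ℝ => (Real.log T) ^ 150) atTop atTop :=
      (tendsto_pow_atTop (by norm_num)).comp Real.tendsto_log_atTop
    exact h1.eventually_ge_atTop (y : ℝ)
  filter_upwards [hTev, hlogT, hll.eventually_ge_atTop 300, eventually_ge_atTop (1 : ℝ),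
    Real.tendsto_log_atTop.eventually_ge_atTop 1, hn, hM, h3K] with
    T hT1 hT2 hT3 hT4 hT5 hT6 hT7 hT8
  set l := Real.log (Real.log T) with hl
  set z := ⌊(Real.log T) ^ 150⌋₊ with hz
  have hyz : y ≤ z := Nat.le_floor hT2
  have hzle : (z : ℝ) ≤ (Real.log T) ^ 150 := Nat.floor_le (by positivity)
  have hl0 : 0 < l := by linarith
  have hzlog : Real.log z ≤ 150 * l := by
    have h1 : Real.log z ≤ Real.log ((Real.log T) ^ 150) := by
      apply Real.log_le_log _ hzle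
      exact_mod_cast (by omega : 0 < z)
    rw [Real.log_pow] at h1
    push_cast at h1
    exact h1
  obtain ⟨W, J, hW, hW0, hWJ, hJ, hblock, hsum⟩ := sp_blocks y z l hy256 hyz hl0 hzlog
  have hWmono := sp_mono hW
  have hW2 : ∀ j, 256 ≤ W j := fun j => by
    have := hWmono (Nat.zero_le j)
    omega
  set V : ℕ → ℝ := fun j => ((W j : ℕ) : ℝ) ^ (-(1 / 8) : ℝ) + (l ^ 2)⁻¹ with hV
  have hVpos : ∀ j, 0 < V j := fun j => by
    simp only [hV]
    positivity
  have hJl : (J : ℝ) * (l ^ 2)⁻¹ ≤ 300 / l := by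
    calc (J : ℝ) * (l ^ 2)⁻¹ ≤ (300 * l) * (l ^ 2)⁻¹ :=
          mul_le_mul_of_nonneg_right hJ (by positivity)
      _ = 300 / l := by field_simp
  have h300 : 300 / l ≤ 1 := by
    rw [div_le_one hl0]
    exact hT3
  set SV := 2 * r + 300 / l with hSVdef
  have hSV : ∑ j ∈ range J, V j ≤ SV := by
    simp only [hV]
    rw [Finset.sum_add_distrib, Finset.sum_const, Finset.card_range, nsmul_eq_mul]
    linarith
  have hSV2 : SV ≤ 2 := by linarith
  have hmain := sp_integrated w hw0 hwc a C1 hC1 β W hW J (by have := hW2 0; omega) V hVpos SV hSV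
    T (nrm T) (by linarith) hT6
  rw [hWJ, hW0, ← hb] at hmain
  refine hmain.trans ?_
  refine le_trans (add_le_add (b := Real.exp (b * (Real.log (Real.log y + 1) + C1)) *
      (Real.exp (b * (3 * r + 300 / l)) - 1) * |M|)
      (d := E1 * (2 * (C * Cb) * r + 151 ^ b * (300 / l))) ?_ ?_) hT1.le
  · -- first term
    have hyr : (256 : ℝ) ≤ y := by exact_mod_cast hy256
    have h1 : (1 : ℝ) / (y : ℕ) ≤ r := by
      rw [hr, one_div, ← Real.rpow_neg_one]
      apply Real.rpow_le_rpow_of_exponent_le (by linarith)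
      norm_num
    have h2 : Real.exp (b * (SV + 1 / (y : ℕ))) ≤ Real.exp (b * (3 * r + 300 / l)) := by
      apply Real.exp_le_exp.mpr
      apply mul_le_mul_of_nonneg_left _ hb0
      rw [hSVdef]
      linarith
    have h3' : (∫ t in T..(2 * T), w t) / nrm T ≤ |M| := hT7.trans (le_abs_self M)
    have h4 : 0 ≤ (∫ t in T..(2 * T), w t) / nrm T := by
      apply div_nonneg _ hT6.le
      apply intervalIntegral.integral_nonneg (by linarith)
      intro t _
      exact hw0 t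
    have h5 : 0 ≤ Real.exp (b * (3 * r + 300 / l)) - 1 := by
      have : 0 ≤ b * (3 * r + 300 / l) := by positivity
      have := Real.one_le_exp this
      linarith
    apply mul_le_mul _ h3' h4 (mul_nonneg (Real.exp_pos _).le h5)
    apply mul_le_mul_of_nonneg_left _ (Real.exp_pos _).le
    linarith
  · -- the blocks
    have hstep : ∀ j ∈ range J, (((V j) ^ 2)⁻¹ *
        Real.exp (b * (Real.log (Real.log (W (j + 1)) + 1) + C1 + SV + 1))) *
        ((∫ t in T..(2 * T), w t * ‖psum (W j) (W (j + 1)) (a * t)‖ ^ 2) / nrm T) ≤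
        E1 * (C * Cb * ((W j : ℕ) : ℝ) ^ (-(1 / 8) : ℝ) + 151 ^ b * (l ^ 2)⁻¹) := by
      intro j hj
      obtain ⟨hb1, hb2, hb3⟩ := hblock j (mem_range.mp hj)
      have hWz : ((W (j + 1) : ℕ) : ℝ) ≤ z := by exact_mod_cast hb3
      apply sp_term b C C1 Cb SV l hb0 hC hCb hlogb hSV2 (by linarith) (W j) (W (j + 1))
        (by have := hW2 j; omega) hb1.le hb2 _ (V j) _ _ _ _
      · refine le_trans ?_ hzlog
        apply Real.log_le_log _ hWz
        have := hW2 (j + 1)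
        exact_mod_cast (by omega : 0 < W (j + 1))
      · simp only [hV]
        have : (0 : ℝ) ≤ (l ^ 2)⁻¹ := by positivity
        linarith
      · simp only [hV]
        have : (0 : ℝ) ≤ ((W j : ℕ) : ℝ) ^ (-(1 / 8) : ℝ) := by positivity
        linarith
      · exact hT8 (W j) (W (j + 1)) (by have := hW2 j; omega) hb1 hb2 (hWz.trans hzle)
    refine (Finset.sum_le_sum hstep).trans ?_
    rw [← Finset.mul_sum, Finset.sum_add_distrib, ← Finset.mul_sum, Finset.sum_const,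
      Finset.card_range, nsmul_eq_mul]
    apply mul_le_mul_of_nonneg_left _ hE1p.le
    have h6 : C * Cb * ∑ i ∈ range J, ((W i : ℕ) : ℝ) ^ (-(1 / 8) : ℝ) ≤ C * Cb * (2 * r) :=
      mul_le_mul_of_nonneg_left hsum (by positivity)
    have h7 : (J : ℝ) * (151 ^ b * (l ^ 2)⁻¹) ≤ 151 ^ b * (300 / l) := by
      calc (J : ℝ) * (151 ^ b * (l ^ 2)⁻¹) = 151 ^ b * ((J : ℝ) * (l ^ 2)⁻¹) := by ring
        _ ≤ 151 ^ b * (300 / l) := mul_le_mul_of_nonneg_left hJl (by positivity)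
    linarith

end Pool.Agent.Lib.MP_aa9ae4_nt
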