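import Mathlib
import Pool.Agent.Lib.MP_aa9ae4_nt.Defs

namespace Pool.Agent.Lib.MP_aa9ae4_nt

open Finset MeasureTheory Filter Topology
open Complex (I)

/-- The weighted mean of `g` on `[T, 2T]`. -/
noncomputable def torusMean (w nrm : ℝ → ℝ) (g : ℝ → ℂ) (T : ℝ) : ℂ :=
  (∫ t in T..(2 * T), (w t : ℂ) * g t) / (nrm T : ℂ)

/-- The weighted means converge. -/
def TorusGood (w nrm : ℝ → ℝ) (g : ℝ → ℂ) : Prop :=
  ∃ c : ℂ, Tendsto (torusMean w nrm g) atTop (𝓝 c)

lemma torus_intervalIntegrable {w : ℝ → ℝ} (hwc : Continuous w) {g : ℝ → ℂ}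
    (hg : Continuous g) (a b : ℝ) :
    IntervalIntegrable (fun t => (w t : ℂ) * g t) volume a b := by
  apply Continuous.intervalIntegrable
  exact (Complex.continuous_ofReal.comp hwc).mul hg

lemma TorusGood.add {w nrm : ℝ → ℝ} (hwc : Continuous w) {g h : ℝ → ℂ} (hgc : Continuous g)
    (hhc : Continuous h) (hg : TorusGood w nrm g) (hh : TorusGood w nrm h) :
    TorusGood w nrm (fun t => g t + h t) := by
  obtain ⟨c, hc⟩ := hg
  obtain ⟨d, hd⟩ := hh
  refine ⟨c + d, (hc.add hd).congr fun T => ?_⟩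
  unfold torusMean
  rw [← add_div, ← intervalIntegral.integral_add (torus_intervalIntegrable hwc hgc _ _)
    (torus_intervalIntegrable hwc hhc _ _)]
  congr 2
  ext t
  ring

lemma TorusGood.smul {w nrm : ℝ → ℝ} {g : ℝ → ℂ} (a : ℂ) (hg : TorusGood w nrm g) :
    TorusGood w nrm (fun t => a * g t) := by
  obtain ⟨c, hc⟩ := hg
  refine ⟨a * c, (hc.const_mul a).congr fun T => ?_⟩
  unfold torusMean
  rw [← mul_div_assoc, ← intervalIntegral.integral_const_mul]
  congr 2
  ext t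
  ring

lemma torus_norm_le {w nrm : ℝ → ℝ} (hw0 : ∀ t, 0 ≤ w t) (hwc : Continuous w) {g : ℝ → ℂ}
    {ε : ℝ} (hε : ∀ t, ‖g t‖ ≤ ε) {T : ℝ} (hT : 0 ≤ T) :
    ‖torusMean w nrm g T‖ ≤ ε * ‖torusMean w nrm (fun _ => 1) T‖ := by
  unfold torusMean
  have hTT : T ≤ 2 * T := by linarith
  rw [norm_div, norm_div, ← mul_div_assoc]
  have hn' : 0 ≤ ‖(nrm T : ℂ)‖ := norm_nonneg _
  refine div_le_div_of_nonneg_right ?_ hn'
  have h1 : ‖∫ t in T..(2 * T), (w t : ℂ) * g t‖ ≤ ∫ t in T..(2 * T), ε * w t := by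
    refine intervalIntegral.norm_integral_le_of_norm_le hTT ?_ ?_
    · refine Eventually.of_forall fun t _ => ?_
      rw [norm_mul, Complex.norm_real, Real.norm_of_nonneg (hw0 t), mul_comm]
      exact mul_le_mul_of_nonneg_right (hε t) (hw0 t)
    · exact (continuous_const.mul hwc).intervalIntegrable _ _
  refine h1.trans ?_
  rw [intervalIntegral.integral_const_mul]
  have h2 : ‖∫ t in T..(2 * T), (w t : ℂ) * 1‖ = ∫ t in T..(2 * T), w t := by
    simp only [mul_one]
    rw [intervalIntegral.integral_ofReal, Complex.norm_real, Real.norm_of_nonneg]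
    exact intervalIntegral.integral_nonneg hTT fun t _ => hw0 t
  rw [h2]

lemma TorusGood.of_approx {w nrm : ℝ → ℝ} (hw0 : ∀ t, 0 ≤ w t) (hwc : Continuous w)
    (hn : ∀ᶠ T : ℝ in atTop, 0 < nrm T) (h1 : TorusGood w nrm fun _ => 1) {g : ℝ → ℂ}
    (hgc : Continuous g)
    (hg : ∀ ε : ℝ, 0 < ε → ∃ h : ℝ → ℂ, Continuous h ∧ TorusGood w nrm h ∧
      ∀ t, ‖g t - h t‖ ≤ ε) : TorusGood w nrm g := by
  obtain ⟨c1, hc1⟩ := h1
  have hb : ∀ᶠ T in atTop, ‖torusMean w nrm (fun _ => 1) T‖ < ‖c1‖ + 1 :=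
    hc1.norm.eventually (gt_mem_nhds (lt_add_one _))
  have hc0 : 0 < ‖c1‖ + 1 := by positivity
  suffices h : CauchySeq (torusMean w nrm g) from cauchySeq_tendsto_of_complete h
  rw [Metric.cauchySeq_iff]
  intro ε hε
  obtain ⟨h, hhc, ⟨c, hc⟩, hgh⟩ := hg (ε / (4 * (‖c1‖ + 1))) (by positivity)
  have hC := hc.cauchySeq
  rw [Metric.cauchySeq_iff] at hC
  obtain ⟨N, hN⟩ := hC (ε / 2) (by positivity)
  obtain ⟨N', hN'⟩ := eventually_atTop.mp (hb.and (hn.and (eventually_ge_atTop (0 : ℝ))))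
  have key : ∀ T, N' ≤ T → dist (torusMean w nrm g T) (torusMean w nrm h T) ≤ ε / 4 := by
    intro T hT
    obtain ⟨e1, e2, e3⟩ := hN' T hT
    have e4 := torus_norm_le (nrm := nrm) hw0 hwc hgh e3
    have e5 : torusMean w nrm g T - torusMean w nrm h T =
        torusMean w nrm (fun t => g t - h t) T := by
      unfold torusMean
      rw [← sub_div, ← intervalIntegral.integral_sub (torus_intervalIntegrable hwc hgc _ _)
        (torus_intervalIntegrable hwc hhc _ _)]
      congr 2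
      ext t
      ring
    rw [dist_eq_norm, e5]
    refine e4.trans ?_
    calc ε / (4 * (‖c1‖ + 1)) * ‖torusMean w nrm (fun _ => 1) T‖
        ≤ ε / (4 * (‖c1‖ + 1)) * (‖c1‖ + 1) :=
          mul_le_mul_of_nonneg_left e1.le (by positivity)
      _ = ε / 4 := by field_simp
  refine ⟨max N N', fun m hm n hn => ?_⟩
  have f1 := key m ((le_max_right _ _).trans hm)
  have f2 := key n ((le_max_right _ _).trans hn)
  have f3 := hN m ((le_max_left _ _).trans hm) n ((le_max_left _ _).trans hn)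
  rw [dist_comm] at f2
  calc dist (torusMean w nrm g m) (torusMean w nrm g n)
      ≤ dist (torusMean w nrm g m) (torusMean w nrm h m) +
        dist (torusMean w nrm h m) (torusMean w nrm h n) +
        dist (torusMean w nrm h n) (torusMean w nrm g n) := dist_triangle4 _ _ _ _
    _ < ε := by linarith

/-- The primes up to `y`. -/
abbrev TorusPr (y : ℕ) : Type := {p // p ∈ (Ioc 0 y).filter Nat.Prime}

/-- The flow on the torus. -/
noncomputable def torusFlow (a : ℝ) (y : ℕ) (t : ℝ) : UnitAddTorus (TorusPr y) :=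
  fun p => ((-(a * t * Real.log (p : ℕ)) / (2 * Real.pi) : ℝ) : AddCircle (1 : ℝ))

lemma continuous_torusFlow (a : ℝ) (y : ℕ) : Continuous (torusFlow a y) := by
  refine continuous_pi fun p => ?_
  exact (AddCircle.continuous_mk' (1 : ℝ)).comp (by fun_prop)

lemma fourier_torusFlow (a : ℝ) (y : ℕ) (n : ℤ) (t : ℝ) (p : TorusPr y) :
    fourier n (torusFlow a y t p) = Complex.exp (-(n * (a * t * Real.log (p : ℕ))) * I) := by
  unfold torusFlow
  rw [fourier_coe_apply]
  congr 1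
  push_cast
  have : (Real.pi : ℂ) ≠ 0 := Complex.ofReal_ne_zero.mpr Real.pi_ne_zero
  field_simp

lemma mFourier_torusFlow (a : ℝ) (y : ℕ) (n : TorusPr y → ℤ) (t : ℝ) :
    UnitAddTorus.mFourier n (torusFlow a y t) =
      ((Real.exp (-∑ p, (n p : ℝ) * (a * Real.log (p : ℕ))) : ℝ) : ℂ) ^ (t * I) := by
  change ∏ p, fourier (n p) (torusFlow a y t p) = _
  simp only [fourier_torusFlow]
  rw [← Complex.exp_sum, Complex.cpow_def_of_ne_zero
    (Complex.ofReal_ne_zero.mpr (Real.exp_pos _).ne'), ← Complex.ofReal_log (Real.exp_pos _).le,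
    Real.log_exp]
  congr 1
  push_cast
  rw [← Finset.sum_mul, neg_mul, Finset.sum_mul, Finset.sum_mul, ← Finset.sum_neg_distrib]
  refine Finset.sum_congr rfl fun p _ => ?_
  ring

theorem torus_good (w nrm : ℝ → ℝ) (hw0 : ∀ t, 0 ≤ w t) (hwc : Continuous w)
    (hn : ∀ᶠ T : ℝ in atTop, 0 < nrm T)
    (htw : ∀ θ : ℝ, 0 < θ → ∃ c : ℂ, Tendsto (fun T : ℝ =>
      (∫ t in T..(2 * T), (w t : ℂ) * (θ : ℂ) ^ (t * I)) / (nrm T : ℂ)) atTop (𝓝 c))
    (a : ℝ) (y : ℕ) (F : C(UnitAddTorus (TorusPr y), ℂ)) :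
    TorusGood w nrm (fun t => F (torusFlow a y t)) := by
  have hone : TorusGood w nrm fun _ => 1 := by
    obtain ⟨c, hc⟩ := htw 1 one_pos
    refine ⟨c, hc.congr fun T => ?_⟩
    unfold torusMean
    simp
  have hcont : ∀ F : C(UnitAddTorus (TorusPr y), ℂ),
      Continuous fun t => F (torusFlow a y t) :=
    fun F => F.continuous.comp (continuous_torusFlow a y)
  have hmono : ∀ n, TorusGood w nrm
      (fun t => UnitAddTorus.mFourier (d := TorusPr y) n (torusFlow a y t)) := by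
    intro n
    obtain ⟨c, hc⟩ := htw _ (Real.exp_pos (-∑ p : TorusPr y, (n p : ℝ) * (a * Real.log (p : ℕ))))
    refine ⟨c, hc.congr fun T => ?_⟩
    unfold torusMean
    simp only [mFourier_torusFlow]
  have hspan : ∀ G ∈ Submodule.span ℂ (Set.range (UnitAddTorus.mFourier (d := TorusPr y))),
      TorusGood w nrm (fun t => G (torusFlow a y t)) := by
    intro G hG
    induction hG using Submodule.span_induction with
    | mem x hx =>
      obtain ⟨n, rfl⟩ := hx
      exact hmono n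
    | zero =>
      refine ⟨0, tendsto_const_nhds.congr fun T => ?_⟩
      unfold torusMean
      simp
    | add x z _ _ hx hz => exact hx.add hwc (hcont x) (hcont z) hz
    | smul b x _ hx => exact hx.smul b
  refine TorusGood.of_approx hw0 hwc hn hone (hcont F) fun ε hε => ?_
  have hF : F ∈ (Submodule.span ℂ
      (Set.range (UnitAddTorus.mFourier (d := TorusPr y)))).topologicalClosure := by
    rw [UnitAddTorus.span_mFourier_closure_eq_top]
    exact Submodule.mem_top
  rw [← SetLike.mem_coe, Submodule.topologicalClosure_coe, Metric.mem_closure_iff] at hF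
  obtain ⟨G, hG, hFG⟩ := hF ε hε
  refine ⟨fun t => G (torusFlow a y t), hcont G, hspan G hG, fun t => ?_⟩
  rw [dist_eq_norm] at hFG
  exact ((F - G).norm_coe_le_norm _).trans hFG.le

theorem torus_limit (w nrm : ℝ → ℝ) (hw0 : ∀ t, 0 ≤ w t) (hwc : Continuous w)
    (hn : ∀ᶠ T : ℝ in atTop, 0 < nrm T)
    (htw : ∀ θ : ℝ, 0 < θ → ∃ c : ℂ, Tendsto (fun T : ℝ =>
      (∫ t in T..(2 * T), (w t : ℂ) * (θ : ℂ) ^ (t * I)) / (nrm T : ℂ)) atTop (𝓝 c))
    (a : ℝ) (y : ℕ) (β : ℝ) : ∃ D : ℝ, Tendsto (fun T : ℝ =>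
      (∫ t in T..(2 * T), w t * ‖eul 0 y (a * t)‖ ^ β) / nrm T) atTop (𝓝 D) := by
  -- the function on the torus
  set f : UnitAddTorus (TorusPr y) → ℂ :=
    fun x => ∏ p : TorusPr y, (1 - ((p : ℕ) : ℂ)⁻¹ * fourier 1 (x p)) with hf
  have hfc : Continuous f := by fun_prop
  have hf0 : ∀ x, f x ≠ 0 := by
    intro x
    rw [hf]
    refine Finset.prod_ne_zero_iff.mpr fun p _ h => ?_
    rw [sub_eq_zero] at h
    have h1 := congrArg norm h
    have hp : Nat.Prime (p : ℕ) := (Finset.mem_filter.mp p.2).2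
    rw [norm_one, norm_mul, norm_inv, Complex.norm_natCast, fourier_apply, Circle.norm_coe,
      mul_one, eq_comm, inv_eq_one] at h1
    exact hp.one_lt.ne' (by exact_mod_cast h1)
  have hfe : ∀ t, eul 0 y (a * t) = f (torusFlow a y t) := by
    intro t
    rw [hf, eul, ← Finset.prod_attach]
    refine Finset.prod_congr rfl fun p _ => ?_
    have hp : Nat.Prime (p : ℕ) := (Finset.mem_filter.mp p.2).2
    have hp0 : ((p : ℕ) : ℂ) ≠ 0 := Nat.cast_ne_zero.mpr hp.ne_zero
    rw [fourier_torusFlow, neg_add, Complex.cpow_add _ _ hp0, Complex.cpow_neg_one,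
      Complex.cpow_def_of_ne_zero hp0, Complex.natCast_log]
    congr 3
    push_cast
    ring
  set F : C(UnitAddTorus (TorusPr y), ℂ) :=
    ⟨fun x => ((‖f x‖ ^ β : ℝ) : ℂ), Complex.continuous_ofReal.comp
      (hfc.norm.rpow_const fun x => Or.inl (norm_ne_zero_iff.mpr (hf0 x)))⟩ with hF
  obtain ⟨c, hc⟩ := torus_good w nrm hw0 hwc hn htw a y F
  refine ⟨c.re, ((Complex.continuous_re.tendsto c).comp hc).congr fun T => ?_⟩
  rw [Function.comp_apply, torusMean]
  have h1 : (∫ t in T..(2 * T), (w t : ℂ) * F (torusFlow a y t)) =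
      ((∫ t in T..(2 * T), w t * ‖eul 0 y (a * t)‖ ^ β : ℝ) : ℂ) := by
    rw [← intervalIntegral.integral_ofReal]
    refine intervalIntegral.integral_congr fun t _ => ?_
    simp only [hfe]
    push_cast
    rfl
  rw [h1, ← Complex.ofReal_div, Complex.ofReal_re]

end Pool.Agent.Lib.MP_aa9ae4_nt
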